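import Pool.Agent.Lib.MP_06b34c_co.Perm

namespace MP06b
open Finset

variable {E M : Type*} [Fintype E] [DecidableEq E] [Fintype M] [DecidableEq M]

/-- H6-2a linearity in the extra vector. Use `pm_sum`: every injective φ : M → Option E with image
`insertNone F` takes the value `none` at exactly one x₀, so the product is
(y x₀ + z x₀) * (the other factors, which do not involve y, z). -/
theorem al_add (B : E → M → ZMod 2) (y z : M → ZMod 2) (F : Finset E) :
    al B (fun x => y x + z x) F = al B y F + al B z F := by
  unfold al
  rw [pm_sum, pm_sum, pm_sum, ← Finset.sum_add_distrib]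
  refine Finset.sum_congr rfl fun φ hφ => ?_
  rw [mem_filter] at hφ
  obtain ⟨-, hi, hS⟩ := hφ
  have hn : none ∈ univ.image φ := by
    rw [hS]
    exact none_mem_insertNone
  obtain ⟨x₀, -, hx₀⟩ := mem_image.1 hn
  have key : ∀ w : M → ZMod 2, ∏ x, addv B w (φ x) x =
      w x₀ * ∏ x ∈ univ.erase x₀, addv B 0 (φ x) x := by
    intro w
    rw [← Finset.mul_prod_erase univ (fun x => addv B w (φ x) x) (mem_univ x₀)]
    congr 1
    · simp only [hx₀, addv]
    · refine Finset.prod_congr rfl fun x hx => ?_
      have hne : φ x ≠ none := by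
        intro h
        exact ne_of_mem_erase hx (hi (h.trans hx₀.symm))
      obtain ⟨e, he⟩ := Option.ne_none_iff_exists'.1 hne
      rw [he]
      rfl
  rw [key, key, key, add_mul]

/-- H6-2b -/
theorem al_card (B : E → M → ZMod 2) (y : M → ZMod 2) (F : Finset E) (h : al B y F ≠ 0) :
    F.card + 1 = Fintype.card M := by
  have h1 := pm_card _ _ h
  rwa [card_insertNone] at h1

end MP06b
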