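import Pool.Agent.Lib.MP_06b34c_co.Perm

namespace MP06b
open Finset

variable {W E : Type*} [Fintype W] [DecidableEq W] [Fintype E] [DecidableEq E]

theorem asgUniq_det {M : Type*} [Fintype M] [DecidableEq M] (B : E → M → ZMod 2) (S : Finset E)
    (ψ : M → E) (hi : Function.Injective ψ) (hS : univ.image ψ = S) :
    pm B S = (Matrix.of fun y x => B (ψ y) x : Matrix M M (ZMod 2)).det := by
  rw [pm_sum, Matrix.det_apply]
  symm
  refine Finset.sum_bij (fun σ _ => fun x => ψ (σ x)) ?_ ?_ ?_ ?_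
  · intro σ _
    rw [mem_filter]
    refine ⟨mem_univ _, hi.comp σ.injective, ?_⟩
    rw [← hS]
    ext e
    simp only [mem_image, mem_univ, true_and]
    constructor
    · rintro ⟨x, rfl⟩
      exact ⟨σ x, rfl⟩
    · rintro ⟨x, rfl⟩
      exact ⟨σ.symm x, by simp⟩
  · intro σ _ τ _ h
    ext x
    exact hi (congrFun h x)
  · intro φ hφ
    rw [mem_filter] at hφ
    obtain ⟨-, hφi, hφS⟩ := hφ
    have h1 : ∀ x, ∃ y, ψ y = φ x := by
      intro x
      have : φ x ∈ univ.image ψ := by
        rw [hS, ← hφS]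
        exact mem_image_of_mem _ (mem_univ _)
      obtain ⟨y, -, hy⟩ := mem_image.1 this
      exact ⟨y, hy⟩
    choose g hg using h1
    have hgi : Function.Injective g := by
      intro x y h
      apply hφi
      rw [← hg x, ← hg y, h]
    refine ⟨Equiv.ofBijective g (Finite.injective_iff_bijective.1 hgi), mem_univ _, ?_⟩
    funext x
    exact hg x
  · intro σ _
    have h1 : ∀ u : ℤˣ, ∀ t : ZMod 2, u • t = t := by
      intro u t
      rcases Int.units_eq_one_or u with rfl | rfl
      · simp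
      · rw [Units.neg_smul, one_smul]
        exact ZMod.neg_eq_self_mod_two t
    rw [h1]
    rfl

/-- H6-10. Proof: A (y, x) = B (ψ₁ y) x is a square matrix over M = {x // x ≠ r}, B = inc ends r. Its
determinant (sum over permutations, no signs mod 2) is pm B S: assignments ψ with image S are
ψ₁ ∘ σ, σ a permutation of M. It is 0: let X = {x | ψ₁ x ≠ ψ₂ x} ≠ ∅. For x ∈ X let σ x be the element with
ψ₂ (σ x) = ψ₁ x; σ x ≠ x, so ends (ψ₁ x) = s(x, σ x), σ x ∈ X (else ψ₁ (σ x) = ψ₂ (σ x) = ψ₁ x), so σ is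
injective X → X and ∑_{x ∈ X} B (ψ₁ x) · = ∑_{x ∈ X} (δ_x + δ_{σ x}) = 0: the rows in X add up to 0.
(`Matrix.exists_vecMul_eq_zero_iff`.) -/
theorem asg_uniq (ends : E → Sym2 W) (hd : ∀ e, ¬ (ends e).IsDiag) (r : W) (S : Finset E)
    (ψ₁ ψ₂ : {x : W // x ≠ r} → E) (h₁ : ψ₁ ∈ asg (inc ends r) S) (h₂ : ψ₂ ∈ asg (inc ends r) S)
    (hne : ψ₁ ≠ ψ₂) : pm (inc ends r) S = 0 := by
  simp only [asg, mem_filter, mem_univ, true_and] at h₁ h₂
  obtain ⟨i1, S1, B1⟩ := h₁
  obtain ⟨i2, S2, B2⟩ := h₂
  rw [asgUniq_det (inc ends r) S ψ₁ i1 S1, ← Matrix.exists_vecMul_eq_zero_iff]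
  -- the permutation
  have h1 : ∀ x, ∃ y, ψ₂ y = ψ₁ x := by
    intro x
    have : ψ₁ x ∈ univ.image ψ₂ := by
      rw [S2, ← S1]
      exact mem_image_of_mem _ (mem_univ _)
    obtain ⟨y, -, hy⟩ := mem_image.1 this
    exact ⟨y, hy⟩
  choose σ hσ using h1
  have hσi : Function.Injective σ := by
    intro x y h
    apply i1
    rw [← hσ x, ← hσ y, h]
  set X : Finset {x : W // x ≠ r} := univ.filter fun x => ψ₁ x ≠ ψ₂ x with hX
  have hXne : ∃ x, x ∈ X := by
    by_contra h
    push Not at h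
    apply hne
    funext x
    have := h x
    simp only [hX, mem_filter, mem_univ, true_and, ne_eq, not_not] at this
    exact this
  have hσne : ∀ x ∈ X, σ x ≠ x := by
    intro x hx h
    simp only [hX, mem_filter, mem_univ, true_and] at hx
    apply hx
    rw [← hσ x, h]
  have hσX : ∀ x ∈ X, σ x ∈ X := by
    intro x hx
    simp only [hX, mem_filter, mem_univ, true_and]
    intro h
    exact hσne x hx (i1 (h.trans (hσ x)))
  have himg : X.image σ = X := by
    apply Finset.eq_of_subset_of_card_le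
    · intro y hy
      obtain ⟨x, hx, rfl⟩ := mem_image.1 hy
      exact hσX x hx
    · rw [card_image_of_injective _ hσi]
  have hinc : ∀ (e : E) (x : {x : W // x ≠ r}), inc ends r e x = 1 → (x : W) ∈ ends e := by
    intro e x h
    unfold inc at h
    by_contra hn
    rw [if_neg hn] at h
    exact zero_ne_one h
  have hends : ∀ x ∈ X, ends (ψ₁ x) = s((x : W), (σ x : W)) := by
    intro x hx
    have a1 := hinc _ _ (B1 x)
    have a2 := hinc _ _ (B2 (σ x))
    rw [hσ] at a2
    have a3 : (x : W) ≠ (σ x : W) := fun h => hσne x hx (Subtype.ext h.symm)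
    exact ((Sym2.mem_and_mem_iff a3).1 ⟨a1, a2⟩)
  refine ⟨fun x => if x ∈ X then 1 else 0, ?_, ?_⟩
  · intro h
    obtain ⟨x, hx⟩ := hXne
    have := congrFun h x
    simp only [if_pos hx, Pi.zero_apply] at this
    exact one_ne_zero this
  · funext z
    simp only [Matrix.vecMul, dotProduct, Matrix.of_apply, Pi.zero_apply, ite_mul, one_mul, zero_mul]
    rw [Finset.sum_ite_mem, univ_inter]
    have h2 : ∀ x ∈ X, inc ends r (ψ₁ x) z = (if z = x then 1 else 0) + (if z = σ x then 1 else 0) := by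
      intro x hx
      unfold inc
      rw [hends x hx]
      have a3 := hσne x hx
      by_cases hz : z = x
      · subst hz
        rw [if_pos (Sym2.mem_mk_left _ _), if_pos rfl, if_neg (Ne.symm a3), add_zero]
      · by_cases hz2 : z = σ x
        · rw [hz2, if_pos (Sym2.mem_mk_right _ _), if_neg (hσne x hx), if_pos rfl, zero_add]
        · rw [if_neg hz, if_neg hz2, if_neg, add_zero]
          rw [Sym2.mem_iff]
          rintro (h | h)
          · exact hz (Subtype.ext h)
          · exact hz2 (Subtype.ext h)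
    rw [Finset.sum_congr rfl h2, Finset.sum_add_distrib]
    have h3 : ∑ x ∈ X, (if z = σ x then (1 : ZMod 2) else 0) = ∑ x ∈ X, if z = x then 1 else 0 := by
      conv_rhs => rw [← himg]
      rw [Finset.sum_image (fun x _ y _ h => hσi h)]
    rw [h3]
    exact CharTwo.add_self_eq_zero _

/-- H6-10b -/
theorem asg_card_one (ends : E → Sym2 W) (hd : ∀ e, ¬ (ends e).IsDiag) (r : W) (S : Finset E)
    (h : pm (inc ends r) S = 1) : (asg (inc ends r) S).card = 1 := by
  have h0 : (asg (inc ends r) S).card ≠ 0 := by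
    intro h0
    unfold pm at h
    rw [h0] at h
    simp at h
  have h1 : ¬ 1 < (asg (inc ends r) S).card := by
    intro h1
    obtain ⟨ψ₁, h₁, ψ₂, h₂, hne⟩ := Finset.one_lt_card.1 h1
    rw [asg_uniq ends hd r S ψ₁ ψ₂ h₁ h₂ hne] at h
    exact zero_ne_one h
  omega

end MP06b
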