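import Pool.Agent.Lib.MP_06b34c_co.GDefs

namespace MP06b
open Finset

variable {V : Type*} [Fintype V] [DecidableEq V]

omit [DecidableEq V] in
private theorem bip_sum (H : SimpleGraph V) (c : V → Fin 2) (hH : ∀ x y, H.Adj x y → c x ≠ c y)
    (i j : Fin 2) (hij : i ≠ j) :
    ∑ x ∈ univ.filter (fun x => c x = i), (H.neighborSet x).ncard =
      ∑ x ∈ univ.filter (fun x => c x = j), (H.neighborSet x).ncard := by
  classical
  have h1 := Finset.sum_card_bipartiteAbove_eq_sum_card_bipartiteBelow
    (s := univ.filter fun x => c x = i) (t := univ.filter fun x => c x = j) (fun a b => H.Adj a b)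
  have hi : ∀ x ∈ univ.filter (fun x => c x = i), (H.neighborSet x).ncard =
      (Finset.bipartiteAbove (fun a b => H.Adj a b) (univ.filter fun x => c x = j) x).card := by
    intro x hx
    rw [← Set.ncard_coe_finset]
    congr 1
    ext y
    simp only [SimpleGraph.mem_neighborSet, Finset.bipartiteAbove, Finset.coe_filter,
      Finset.mem_filter, Finset.mem_univ, true_and]
    constructor
    · intro h
      have h2 := hH x y h
      have h3 : c x = i := (mem_filter.1 hx).2
      refine ⟨?_, h⟩
      omega
    · intro h
      exact h.2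
  have hj : ∀ y ∈ univ.filter (fun x => c x = j), (H.neighborSet y).ncard =
      (Finset.bipartiteBelow (fun a b => H.Adj a b) (univ.filter fun x => c x = i) y).card := by
    intro y hy
    rw [← Set.ncard_coe_finset]
    congr 1
    ext x
    simp only [SimpleGraph.mem_neighborSet, Finset.bipartiteBelow, Finset.coe_filter,
      Finset.mem_filter, Finset.mem_univ, true_and]
    constructor
    · intro h
      have h2 := hH y x h
      have h3 : c y = j := (mem_filter.1 hy).2
      refine ⟨?_, h.symm⟩
      omega
    · intro h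
      exact h.2.symm
  rw [Finset.sum_congr rfl hi, Finset.sum_congr rfl hj]
  exact h1

/-- H6-21a. Proof: let c be the colouring, A, B the colour classes, v, r ∈ A. Counting edges of G: 4|A| = 4|B|. Counting edges
of C: 2(|A| - 2) = 2|B|. Contradiction. -/
theorem no_cycle_bipartite (G : SimpleGraph V) (hG : ∀ x, (G.neighborSet x).ncard = 4)
    (c : G.Coloring (Fin 2)) (v r : V) (hvr : v ≠ r) (hc : c v = c r) (C : SimpleGraph V) :
    ¬ IsGoodCycle G v r C := by
  classical
  rintro ⟨hCG, hv, hr, hdeg, -, -⟩
  obtain ⟨j, hj⟩ : ∃ j : Fin 2, c v ≠ j := ⟨c v + 1, by omega⟩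
  have h1 := bip_sum G c (fun x y h => c.valid h) (c v) j hj
  have h2 := bip_sum C c (fun x y h => c.valid (hCG h)) (c v) j hj
  rw [Finset.sum_congr rfl fun x _ => hG x, Finset.sum_const,
    Finset.sum_congr (s₁ := univ.filter fun x => c x = j) rfl fun x _ => hG x,
    Finset.sum_const] at h1
  set A : Finset V := univ.filter fun x => c x = c v with hA
  set Bf : Finset V := univ.filter fun x => c x = j with hB
  have hvA : v ∈ A := by rw [hA]; simp
  have hrA : r ∈ A := by rw [hA]; simp [hc]
  have h3 : ∑ x ∈ Bf, (C.neighborSet x).ncard = Bf.card * 2 := by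
    rw [← smul_eq_mul, ← Finset.sum_const]
    refine Finset.sum_congr rfl fun x hx => ?_
    have hx' : c x = j := by
      rw [hB] at hx
      exact (mem_filter.1 hx).2
    refine hdeg x ?_ ?_
    · rintro rfl
      exact hj hx'
    · rintro rfl
      exact hj (hc.trans hx')
  have h4 : ∑ x ∈ A, (C.neighborSet x).ncard = ((A.erase v).erase r).card * 2 := by
    rw [← Finset.add_sum_erase A _ hvA, ← Finset.add_sum_erase (A.erase v) _
      (Finset.mem_erase.2 ⟨hvr.symm, hrA⟩)]
    have e1 : (C.neighborSet v).ncard = 0 := by
      have : C.neighborSet v = ∅ := by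
        ext x
        simp only [SimpleGraph.mem_neighborSet, Set.mem_empty_iff_false, iff_false]
        exact hv x
      rw [this, Set.ncard_empty]
    have e2 : (C.neighborSet r).ncard = 0 := by
      have : C.neighborSet r = ∅ := by
        ext x
        simp only [SimpleGraph.mem_neighborSet, Set.mem_empty_iff_false, iff_false]
        exact hr x
      rw [this, Set.ncard_empty]
    rw [e1, e2, zero_add, zero_add, ← smul_eq_mul, ← Finset.sum_const]
    refine Finset.sum_congr rfl fun x hx => ?_
    rw [Finset.mem_erase, Finset.mem_erase] at hx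
    exact hdeg x hx.2.1 hx.1
  rw [h3, h4, Finset.card_erase_of_mem (Finset.mem_erase.2 ⟨hvr.symm, hrA⟩),
    Finset.card_erase_of_mem hvA] at h2
  simp only [smul_eq_mul] at h1
  have h5 : 1 < A.card := Finset.one_lt_card.2 ⟨v, hvA, r, hrA, hvr⟩
  omega

/-- H6-21b. There is another vertex of the same colour. Proof: v has a neighbour w, w has 4 neighbours, all with the colour of v. -/
theorem exists_same_color (G : SimpleGraph V) (hG : ∀ x, (G.neighborSet x).ncard = 4)
    (c : G.Coloring (Fin 2)) (v : V) : ∃ r, r ≠ v ∧ c v = c r := by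
  classical
  obtain ⟨w, hw⟩ : (G.neighborSet v).Nonempty := by
    rw [← Set.ncard_pos]
    rw [hG v]
    norm_num
  have hvw : G.Adj v w := hw
  obtain ⟨r, hr, hrv⟩ := Set.exists_ne_of_one_lt_ncard (s := G.neighborSet w) (by rw [hG w]; norm_num) v
  have hwr : G.Adj w r := hr
  refine ⟨r, hrv, ?_⟩
  have h1 := c.valid hvw
  have h2 := c.valid hwr
  omega

end MP06b
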