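import Pool.Agent.Lib.MP_06b34c_co.GDefs

namespace MP06b
open Finset

variable {V : Type*} [Fintype V] [DecidableEq V]

open scoped Classical in
omit [DecidableEq V] in
private theorem cmp_even (C : SimpleGraph V) (Y : Finset V) :
    Even (∑ x ∈ Y, (Y.filter fun y => C.Adj x y).card) := by
  let H : SimpleGraph V :=
    { Adj := fun x y => C.Adj x y ∧ x ∈ Y ∧ y ∈ Y
      symm := ⟨fun x y h => ⟨h.1.symm, h.2.2, h.2.1⟩⟩
      loopless := ⟨fun x h => C.loopless.irrefl x h.1⟩ }
  have h1 := H.sum_degrees_eq_twice_card_edges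
  have h2 : ∑ x ∈ Y, (Y.filter fun y => C.Adj x y).card = ∑ x, H.degree x := by
    have h3 : ∑ x ∈ Y, H.degree x = ∑ x, H.degree x := by
      refine Finset.sum_subset (Finset.subset_univ _) fun x _ hx => ?_
      rw [← SimpleGraph.card_neighborFinset_eq_degree, Finset.card_eq_zero]
      ext y
      simp only [SimpleGraph.mem_neighborFinset, Finset.notMem_empty, iff_false]
      rintro ⟨-, h, -⟩
      exact hx h
    rw [← h3]
    refine Finset.sum_congr rfl fun x hx => ?_
    rw [← SimpleGraph.card_neighborFinset_eq_degree]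
    congr 1
    ext y
    simp only [Finset.mem_filter, SimpleGraph.mem_neighborFinset]
    constructor
    · rintro ⟨h, h'⟩
      exact ⟨h', hx, h⟩
    · rintro ⟨h, -, h'⟩
      exact ⟨h', h⟩
  rw [h2, h1]
  exact even_two_mul _

/-- H6-20. Proof: let Y be (the vertex set of) a component of G - S. In the graph C every vertex of Y has degree 2 (v, r ∈ S), so the number of
C-edges leaving Y is 2|Y| - 2 e_C(Y), even; it is not 0 because C away from v, r is connected, Y is nonempty and does not contain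
the elements of S \ {v, r} ≠ ∅. So it is ≥ 2; all these edges end in S \ {v, r} (C ≤ G and Y is a component of G - S). Summing over the components:
2 c(G - S) ≤ ∑_{x ∈ S \ {v,r}} deg_C x = 2 (|S| - 2), so c(G - S) + 2 ≤ |S|, contradiction. -/
theorem no_cycle_of_components (G : SimpleGraph V) (v r : V) (hvr : v ≠ r) (S : Finset V)
    (hv : v ∈ S) (hr : r ∈ S) (hS : 3 ≤ S.card)
    (hc : S.card ≤ Nat.card (G.induce {x | x ∉ S}).ConnectedComponent + 1) (C : SimpleGraph V) :
    ¬ IsGoodCycle G v r C := by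
  classical
  rintro ⟨hCG, hCv, hCr, hdeg, hconn, -⟩
  set K := (G.induce {x | x ∉ S}).ConnectedComponent with hK
  rw [Nat.card_eq_fintype_card] at hc
  let Y : K → Finset V := fun k => univ.filter fun x =>
    ∃ h : x ∉ S, (G.induce {x | x ∉ S}).connectedComponentMk ⟨x, h⟩ = k
  have hY : ∀ k x, x ∈ Y k ↔
      ∃ h : x ∉ S, (G.induce {x | x ∉ S}).connectedComponentMk ⟨x, h⟩ = k := by
    intro k x
    simp only [Y, Finset.mem_filter, Finset.mem_univ, true_and]
  set S' : Finset V := (S.erase v).erase r with hS'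
  have hrv : r ∈ S.erase v := Finset.mem_erase.2 ⟨hvr.symm, hr⟩
  have hS'c : S'.card = S.card - 2 := by
    rw [hS', Finset.card_erase_of_mem hrv, Finset.card_erase_of_mem hv]
    rfl
  have hmS' : ∀ y, y ∈ S' ↔ y ≠ r ∧ y ≠ v ∧ y ∈ S := by
    intro y
    rw [hS', Finset.mem_erase, Finset.mem_erase]
  -- neighbours
  have hnb : ∀ k, ∀ x ∈ Y k, ∀ y, C.Adj x y → y ∈ Y k ∨ y ∈ S' := by
    intro k x hx y hxy
    by_cases hyS : y ∈ S
    · right
      rw [hmS']
      refine ⟨?_, ?_, hyS⟩
      · rintro rfl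
        exact hCr x hxy.symm
      · rintro rfl
        exact hCv x hxy.symm
    · left
      rw [hY] at hx ⊢
      obtain ⟨h, hk⟩ := hx
      refine ⟨hyS, ?_⟩
      rw [← hk]
      have h2 : (G.induce {x | x ∉ S}).Adj ⟨x, h⟩ ⟨y, hyS⟩ := hCG hxy
      exact (SimpleGraph.ConnectedComponent.sound h2.reachable).symm
  have hdis : ∀ k, ∀ y ∈ Y k, y ∉ S' := by
    intro k y hy hy'
    rw [hY] at hy
    rw [hmS'] at hy'
    exact hy.1 hy'.2.2
  have hdeg2 : ∀ k, ∀ x ∈ Y k, ((Y k).filter fun y => C.Adj x y).card +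
      (S'.filter fun y => C.Adj x y).card = 2 := by
    intro k x hx
    have hxS : x ∉ S := ((hY k x).1 hx).1
    have h1 := hdeg x (fun h => hxS (h ▸ hv)) (fun h => hxS (h ▸ hr))
    rw [← h1, ← Finset.card_union_of_disjoint, ← Set.ncard_coe_finset]
    · congr 1
      ext y
      simp only [Finset.coe_union, Finset.coe_filter, Set.mem_union, SimpleGraph.mem_neighborSet]
      constructor
      · rintro (h | h)
        · exact h.2
        · exact h.2
      · intro h
        rcases hnb k x hx y h with h2 | h2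
        · exact Or.inl ⟨h2, h⟩
        · exact Or.inr ⟨h2, h⟩
    · rw [Finset.disjoint_left]
      intro y hy hy'
      exact hdis k y (Finset.mem_filter.1 hy).1 (Finset.mem_filter.1 hy').1
  -- every component has at least two edges to `S'`
  have htwo : ∀ k, 2 ≤ ∑ x ∈ Y k, (S'.filter fun y => C.Adj x y).card := by
    intro k
    have h1 : ∑ x ∈ Y k, (((Y k).filter fun y => C.Adj x y).card +
        (S'.filter fun y => C.Adj x y).card) = (Y k).card * 2 := by
      rw [← smul_eq_mul, ← Finset.sum_const]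
      exact Finset.sum_congr rfl fun x hx => hdeg2 k x hx
    rw [Finset.sum_add_distrib] at h1
    have h2 := cmp_even C (Y k)
    have hpos : 0 < ∑ x ∈ Y k, (S'.filter fun y => C.Adj x y).card := by
      -- a vertex of `Y`
      obtain ⟨⟨x0, hx0⟩, hk0⟩ := k.nonempty_supp
      have hx0Y : x0 ∈ Y k := (hY k x0).2 ⟨hx0, hk0⟩
      -- a vertex of `S'`
      have hS'ne : S'.Nonempty := by
        rw [← Finset.card_pos, hS'c]
        omega
      obtain ⟨z, hz⟩ := hS'ne
      have hz' := (hmS' z).1 hz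
      have hx0v : x0 ≠ v ∧ x0 ≠ r := ⟨fun h => hx0 (h ▸ hv), fun h => hx0 (h ▸ hr)⟩
      obtain ⟨p⟩ := hconn.preconnected ⟨x0, hx0v⟩ ⟨z, hz'.2.1, hz'.1⟩
      obtain ⟨dd, -, hd1, hd2⟩ := p.exists_boundary_dart {w | (w : V) ∈ Y k} hx0Y
        (fun h => hdis k z h hz)
      have hadj : C.Adj dd.fst dd.snd := dd.adj
      have hd1' : (dd.fst : V) ∈ Y k := hd1
      have hd2' : (dd.snd : V) ∉ Y k := hd2
      have h3 : (dd.snd : V) ∈ S' := (hnb k _ hd1' _ hadj).resolve_left hd2'
      refine Finset.sum_pos' (fun _ _ => Nat.zero_le _) ⟨dd.fst, hd1', ?_⟩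
      rw [Finset.card_pos]
      exact ⟨dd.snd, Finset.mem_filter.2 ⟨h3, hadj⟩⟩
    obtain ⟨q, hq⟩ := h2
    rw [hq] at h1
    omega
  -- sum over the components
  have h1 : Fintype.card K * 2 ≤ ∑ k : K, ∑ x ∈ Y k, (S'.filter fun y => C.Adj x y).card := by
    rw [← smul_eq_mul, ← Finset.card_univ, ← Finset.sum_const]
    exact Finset.sum_le_sum fun k _ => htwo k
  have h2 : ∑ k : K, ∑ x ∈ Y k, (S'.filter fun y => C.Adj x y).card =
      ∑ x ∈ univ.biUnion Y, (S'.filter fun y => C.Adj x y).card := by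
    rw [Finset.sum_biUnion]
    intro k _ k' _ hkk
    rw [Function.onFun, Finset.disjoint_left]
    intro x hx hx'
    rw [hY] at hx hx'
    obtain ⟨h, e1⟩ := hx
    obtain ⟨h', e2⟩ := hx'
    exact hkk (e1.symm.trans e2)
  have h3 := Finset.sum_card_bipartiteAbove_eq_sum_card_bipartiteBelow
    (s := univ.biUnion Y) (t := S') (fun a b => C.Adj a b)
  unfold Finset.bipartiteAbove Finset.bipartiteBelow at h3
  have h4 : ∑ b ∈ S', ((univ.biUnion Y).filter fun a => C.Adj a b).card ≤ S'.card * 2 := by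
    rw [← smul_eq_mul, ← Finset.sum_const]
    refine Finset.sum_le_sum fun b hb => ?_
    have hb' := (hmS' b).1 hb
    rw [← hdeg b hb'.2.1 hb'.1, ← Set.ncard_coe_finset]
    refine Set.ncard_le_ncard ?_ (Set.toFinite _)
    intro a ha
    rw [Finset.coe_filter] at ha
    exact ha.2.symm
  rw [h2, h3] at h1
  have h5 := h1.trans h4
  rw [hS'c] at h5
  omega

end MP06b
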