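import Mathlib

/-! # MP_06b34c: definitions for the parity formula of the `c_2`-invariant at `p = 2`

`E` = edges, `M` = vertices other than the root, `B e x` = incidence over `ZMod 2`. -/

namespace MP06b

open Finset

section
variable {E M : Type*} [Fintype E] [DecidableEq E] [Fintype M] [DecidableEq M]

/-- assignments: injective maps `M → E` with image `S` such that `B (φ x) x = 1` for all `x` -/
def asg (B : E → M → ZMod 2) (S : Finset E) : Finset (M → E) :=
  univ.filter fun φ => Function.Injective φ ∧ univ.image φ = S ∧ ∀ x, B (φ x) x = 1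

/-- determinant (= permanent) mod 2 of the columns `S` -/
def pm (B : E → M → ZMod 2) (S : Finset E) : ZMod 2 := ((asg B S).card : ZMod 2)

/-- the Kirchhoff polynomial of the configuration `B`, evaluated at `a` -/
def Psi (B : E → M → ZMod 2) (a : E → ZMod 2) : ZMod 2 :=
  ∑ S : Finset E, pm B S * ∏ e ∈ Sᶜ, a e

/-- the configuration `B` with one more element `none` with vector `y` -/
def addv (B : E → M → ZMod 2) (y : M → ZMod 2) : Option E → M → ZMod 2
  | none => y
  | some e => B e

/-- `det (y, F)` mod 2 -/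
def al (B : E → M → ZMod 2) (y : M → ZMod 2) (F : Finset E) : ZMod 2 :=
  pm (addv B y) (insertNone F)

/-- the bilinear form `Q(y,z) = ∑_F det(y,F) det(z,F) ∏_{e ∉ F} a_e` -/
def Q (B : E → M → ZMod 2) (a : E → ZMod 2) (y z : M → ZMod 2) : ZMod 2 :=
  ∑ F : Finset E, al B y F * al B z F * ∏ e ∈ Fᶜ, a e

/-- the configuration with a 3-valent element: three more edges, one more vertex `none` -/
def spl (B : E → M → ZMod 2) (X : Fin 3 → M → ZMod 2) : E ⊕ Fin 3 → Option M → ZMod 2
  | .inl _, none => 0
  | .inl e, some x => B e x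
  | .inr _, none => 1
  | .inr i, some x => X i x

end

/-- bordered matrix -/
def bd {n : Type*} (X : Matrix n n (ZMod 2)) (y z : n → ZMod 2) : Matrix (Option n) (Option n) (ZMod 2)
  | none, none => 0
  | none, some j => z j
  | some i, none => y i
  | some i, some j => X i j

/-- incidence (mod 2) of the edges `e` (with ends `ends e`) and the vertices other than `r` -/
def inc {W E : Type*} [DecidableEq W] (ends : E → Sym2 W) (r : W) :
    E → {x : W // x ≠ r} → ZMod 2 :=
  fun e x => if (x : W) ∈ ends e then 1 else 0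

/-- `C` is the edge set of a Hamiltonian cycle of the graph minus `r` -/
def IsHam {W E : Type*} [DecidableEq W] (ends : E → Sym2 W) (r : W)
    (C : Finset E) : Prop :=
  (∀ e ∈ C, r ∉ ends e) ∧
  (∀ x, x ≠ r → (C.filter fun e => x ∈ ends e).card = 2) ∧
  (∀ Y : Set W, r ∉ Y → (∃ x, x ∈ Y) → (∃ x, x ≠ r ∧ x ∉ Y) →
    ∃ e ∈ C, ∃ x ∈ Y, ∃ y ∉ Y, ends e = s(x, y))

end MP06b
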