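import Pool.Agent.Lib.MP_06b34c_co.Perm

namespace MP06b
open Finset Matrix

variable {E M : Type*} [Fintype E] [DecidableEq E] [Fintype M] [DecidableEq M]

/-- the permutation of `E ⊕ M` belonging to a pair of maps -/
noncomputable def dfFun (φ ψ : M → E) : E ⊕ M → E ⊕ M
  | .inr x => .inl (φ x)
  | .inl e => if h : ∃ x, ψ x = e then .inr h.choose else .inl e

theorem dfFun_inj {φ ψ : M → E} (hφ : Function.Injective φ)
    (him : univ.image φ = univ.image ψ) : Function.Injective (dfFun φ ψ) := by
  have key : ∀ x, ∃ y, ψ y = φ x := by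
    intro x
    have h1 : φ x ∈ univ.image ψ := by
      rw [← him]
      exact Finset.mem_image_of_mem _ (Finset.mem_univ x)
    obtain ⟨y, _, hy⟩ := Finset.mem_image.1 h1
    exact ⟨y, hy⟩
  rintro (e | x) (e' | x') h
  · simp only [dfFun] at h
    by_cases h1 : ∃ x, ψ x = e
    · rw [dif_pos h1] at h
      by_cases h2 : ∃ x, ψ x = e'
      · rw [dif_pos h2] at h
        have h3 : h1.choose = h2.choose := Sum.inr_injective h
        have h4 := h1.choose_spec
        rw [h3, h2.choose_spec] at h4
        rw [h4]
      · rw [dif_neg h2] at h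
        exact absurd h (by simp)
    · rw [dif_neg h1] at h
      by_cases h2 : ∃ x, ψ x = e'
      · rw [dif_pos h2] at h
        exact absurd h (by simp)
      · rw [dif_neg h2] at h
        exact h
  · simp only [dfFun] at h
    by_cases h1 : ∃ x, ψ x = e
    · rw [dif_pos h1] at h
      exact absurd h (by simp)
    · rw [dif_neg h1] at h
      exact absurd ((key x').imp fun y hy => hy.trans (Sum.inl_injective h).symm) h1
  · simp only [dfFun] at h
    by_cases h1 : ∃ x, ψ x = e'
    · rw [dif_pos h1] at h
      exact absurd h (by simp)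
    · rw [dif_neg h1] at h
      exact absurd ((key x).imp fun y hy => hy.trans (Sum.inl_injective h)) h1
  · simp only [dfFun] at h
    rw [hφ (Sum.inl_injective h)]

theorem dfFun_inl_mem {φ ψ : M → E} (hψ : Function.Injective ψ) (x : M) :
    dfFun φ ψ (.inl (ψ x)) = .inr x := by
  have h : ∃ y, ψ y = ψ x := ⟨x, rfl⟩
  simp only [dfFun]
  rw [dif_pos h, hψ h.choose_spec]

theorem dfFun_inl_not {φ ψ : M → E} {e : E} (he : ¬ ∃ x, ψ x = e) :
    dfFun φ ψ (.inl e) = .inl e := by
  simp only [dfFun]
  rw [dif_neg he]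

/-- the permutation of `E ⊕ M` belonging to a pair of maps with the same image -/
noncomputable def dfPerm (φ ψ : M → E) (h : Function.Injective (dfFun φ ψ)) :
    Equiv.Perm (E ⊕ M) :=
  Equiv.ofBijective (dfFun φ ψ) (Finite.injective_iff_bijective.1 h)

theorem zmod_sign_one {α : Type*} [Fintype α] [DecidableEq α] (σ : Equiv.Perm α) :
    (((Equiv.Perm.sign σ : ℤˣ) : ℤ) : ZMod 2) = 1 := by
  rcases Int.units_eq_one_or (Equiv.Perm.sign σ) with h | h
  · rw [h]; simp
  · rw [h]; decide

/-- H6-3 the determinant formula over `ZMod 2` (signs do not matter).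
Proof: `Matrix.det_apply'`, signs are 1 in `ZMod 2`. A permutation σ of E ⊕ M has a nonzero term only if
σ(inl e) ∈ {inl e} ∪ inr M and σ(inr x) ∈ inl E. Such σ correspond bijectively to pairs (φ, ψ) of
injective maps M → E with the same image S: σ(inr x) = inl (φ x), σ(inl (ψ x)) = inr x, and
σ(inl e) = inl e for e ∉ S; the term is ∏_{e ∉ S} a e * ∏ B(..) * ∏ C(..).
(Rows/columns may be exchanged freely; the right side is symmetric in B, C.) -/
theorem det_formula (B C : E → M → ZMod 2) (a : E → ZMod 2) :
    (fromBlocks (diagonal a) (of B) (of C)ᵀ 0).det =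
      ∑ S : Finset E, pm B S * pm C S * ∏ e ∈ Sᶜ, a e := by
  rw [Matrix.det_apply']
  have hR : ∑ S : Finset E, pm B S * pm C S * ∏ e ∈ Sᶜ, a e =
      ∑ q ∈ (univ : Finset ((M → E) × (M → E))).filter (fun q => Function.Injective q.1 ∧
        Function.Injective q.2 ∧ univ.image q.1 = univ.image q.2),
        (∏ x, B (q.1 x) x) * (∏ x, C (q.2 x) x) * ∏ e ∈ (univ.image q.2)ᶜ, a e := by
    have h1 : ∀ S : Finset E, pm B S * pm C S * ∏ e ∈ Sᶜ, a e =
        ∑ q ∈ (univ : Finset ((M → E) × (M → E))).filter (fun q => (Function.Injective q.1 ∧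
          univ.image q.1 = S) ∧ (Function.Injective q.2 ∧ univ.image q.2 = S)),
          (∏ x, B (q.1 x) x) * (∏ x, C (q.2 x) x) * ∏ e ∈ (univ.image q.2)ᶜ, a e := by
      intro S
      rw [pm_sum, pm_sum, Finset.sum_mul_sum, ← Finset.sum_product', Finset.sum_mul]
      apply Finset.sum_congr
      · ext ⟨φ, ψ⟩
        simp only [Finset.mem_product, Finset.mem_filter, Finset.mem_univ, true_and]
      · rintro ⟨φ, ψ⟩ h
        simp only [Finset.mem_filter, Finset.mem_univ, true_and] at h
        simp only
        rw [h.2.2]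
    rw [Finset.sum_congr rfl (fun S _ => h1 S)]
    rw [← Finset.sum_fiberwise (s := (univ : Finset ((M → E) × (M → E))).filter
      (fun q => Function.Injective q.1 ∧
        Function.Injective q.2 ∧ univ.image q.1 = univ.image q.2)) (g := fun q => univ.image q.2)]
    apply Finset.sum_congr rfl
    intro S _
    apply Finset.sum_congr _ (fun _ _ => rfl)
    ext ⟨φ, ψ⟩
    simp only [Finset.mem_filter, Finset.mem_univ, true_and]
    constructor
    · rintro ⟨⟨h1, h2⟩, h3, h4⟩
      exact ⟨⟨h1, h3, h2.trans h4.symm⟩, h4⟩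
    · rintro ⟨⟨h1, h3, h2⟩, h4⟩
      exact ⟨⟨h1, h2.trans h4⟩, h3, h4⟩
  rw [hR]
  symm
  -- sum over pairs = sum over permutations
  have hdet : ∀ σ : Equiv.Perm (E ⊕ M), (((Equiv.Perm.sign σ : ℤˣ) : ℤ) : ZMod 2) *
      ∏ i, (fromBlocks (diagonal a) (of B) (of C)ᵀ 0) (σ i) i =
      (∏ e, (fromBlocks (diagonal a) (of B) (of C)ᵀ 0) (σ (.inl e)) (.inl e)) *
        ∏ x, (fromBlocks (diagonal a) (of B) (of C)ᵀ 0) (σ (.inr x)) (.inr x) := by
    intro σ
    rw [zmod_sign_one, one_mul, Fintype.prod_sum_type]
  rw [Finset.sum_congr rfl (fun σ _ => hdet σ)]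
  apply Finset.sum_bij_ne_zero (fun q hq _ => dfPerm q.1 q.2
    (dfFun_inj (Finset.mem_filter.1 hq).2.1 (Finset.mem_filter.1 hq).2.2.2))
  · intro q hq _
    exact Finset.mem_univ _
  · rintro ⟨φ, ψ⟩ hq _ ⟨φ', ψ'⟩ hq' _ h
    simp only [Finset.mem_filter, Finset.mem_univ, true_and] at hq hq'
    have hf : dfFun φ ψ = dfFun φ' ψ' := by
      have := congrArg (fun σ : Equiv.Perm (E ⊕ M) => (σ : E ⊕ M → E ⊕ M)) h
      exact this
    have h1 : φ = φ' := by
      ext x
      have := congrFun hf (.inr x)
      exact Sum.inl_injective this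
    have h2 : ψ = ψ' := by
      ext x
      have h3 := congrFun hf (.inl (ψ x))
      rw [dfFun_inl_mem hq.2.1] at h3
      by_contra hne
      by_cases h4 : ∃ y, ψ' y = ψ x
      · obtain ⟨y, hy⟩ := h4
        rw [← hy, dfFun_inl_mem hq'.2.1] at h3
        have h5 : x = y := Sum.inr_injective h3
        rw [← h5] at hy
        exact hne hy.symm
      · rw [dfFun_inl_not h4] at h3
        exact absurd h3 (by simp)
    rw [h1, h2]
  · intro σ _ hσ
    have hσ1 : ∀ e, (fromBlocks (diagonal a) (of B) (of C)ᵀ 0) (σ (.inl e)) (.inl e) ≠ 0 := by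
      intro e he
      apply hσ
      rw [Finset.prod_eq_zero (Finset.mem_univ e) he, zero_mul]
    have hσ2 : ∀ x, (fromBlocks (diagonal a) (of B) (of C)ᵀ 0) (σ (.inr x)) (.inr x) ≠ 0 := by
      intro x hx
      apply hσ
      rw [Finset.prod_eq_zero (Finset.mem_univ x) hx, mul_zero]
    have h1 : ∀ x, ∃ e, σ (.inr x) = .inl e := by
      intro x
      have h := hσ2 x
      rcases hs : σ (.inr x) with e | y
      · exact ⟨e, rfl⟩
      · rw [hs] at h
        simp at h
    have h2 : ∀ e, σ (.inl e) = .inl e ∨ ∃ x, σ (.inl e) = .inr x := by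
      intro e
      have h := hσ1 e
      rcases hs : σ (.inl e) with e' | y
      · left
        rw [hs] at h
        simp only [fromBlocks_apply₁₁] at h
        by_contra hne
        apply h
        rw [diagonal_apply_ne]
        intro h3
        exact hne (by rw [h3])
      · exact Or.inr ⟨y, rfl⟩
    choose φ hφ using h1
    have h3 : ∀ x, ∃ e, σ (.inl e) = .inr x := by
      intro x
      rcases hs : σ.symm (.inr x) with e | y
      · exact ⟨e, by rw [← hs, Equiv.apply_symm_apply]⟩
      · exfalso
        have h4 : σ (.inr y) = .inr x := by rw [← hs, Equiv.apply_symm_apply]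
        rw [hφ y] at h4
        exact absurd h4 (by simp)
    choose ψ hψ using h3
    have hφi : Function.Injective φ := by
      intro x y hxy
      have : σ (.inr x) = σ (.inr y) := by rw [hφ, hφ, hxy]
      exact Sum.inr_injective (σ.injective this)
    have hψi : Function.Injective ψ := by
      intro x y hxy
      have : (Sum.inr x : E ⊕ M) = .inr y := by rw [← hψ x, ← hψ y, hxy]
      exact Sum.inr_injective this
    have him : univ.image φ = univ.image ψ := by
      have hsub : univ.image φ ⊆ univ.image ψ := by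
        intro e he
        obtain ⟨x, _, rfl⟩ := Finset.mem_image.1 he
        rcases h2 (φ x) with h5 | ⟨y, h5⟩
        · exfalso
          rw [← hφ x] at h5
          have h6 := σ.injective h5
          rw [hφ x] at h6
          exact absurd h6 (by simp)
        · refine Finset.mem_image.2 ⟨y, Finset.mem_univ _, ?_⟩
          have h6 : σ (.inl (ψ y)) = σ (.inl (φ x)) := by rw [hψ y, h5]
          exact Sum.inl_injective (σ.injective h6)
      apply Finset.eq_of_subset_of_card_le hsub
      rw [Finset.card_image_of_injective _ hφi, Finset.card_image_of_injective _ hψi]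
    have hfun : ∀ i, dfFun φ ψ i = σ i := by
      rintro (e | x)
      · by_cases h5 : ∃ x, ψ x = e
        · obtain ⟨x, rfl⟩ := h5
          rw [dfFun_inl_mem hψi, hψ]
        · rw [dfFun_inl_not h5]
          rcases h2 e with h6 | ⟨y, h6⟩
          · exact h6.symm
          · exfalso
            apply h5
            refine ⟨y, ?_⟩
            have h7 : σ (.inl (ψ y)) = σ (.inl e) := by rw [hψ y, h6]
            exact Sum.inl_injective (σ.injective h7)
      · rw [hφ x]
        rfl
    have hmem : (φ, ψ) ∈ (univ : Finset ((M → E) × (M → E))).filter (fun q =>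
        Function.Injective q.1 ∧ Function.Injective q.2 ∧ univ.image q.1 = univ.image q.2) := by
      simp only [Finset.mem_filter, Finset.mem_univ, true_and]
      exact ⟨hφi, hψi, him⟩
    refine ⟨(φ, ψ), hmem, ?_, ?_⟩
    · simp only
      refine mul_ne_zero (mul_ne_zero ?_ ?_) ?_
      · rw [Finset.prod_ne_zero_iff]
        intro x _
        have h := hσ2 x
        rw [hφ x] at h
        simpa using h
      · rw [Finset.prod_ne_zero_iff]
        intro x _
        have h := hσ1 (ψ x)
        rw [hψ x] at h
        simpa using h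
      · rw [Finset.prod_ne_zero_iff]
        intro e he
        rw [Finset.mem_compl] at he
        have h := hσ1 e
        have h5 : ¬ ∃ x, ψ x = e := by
          rintro ⟨x, rfl⟩
          exact he (Finset.mem_image_of_mem _ (Finset.mem_univ x))
        rw [← hfun (.inl e), dfFun_inl_not h5] at h
        simpa using h
    · ext1 i
      exact hfun i
  · rintro ⟨φ, ψ⟩ hq _
    simp only [Finset.mem_filter, Finset.mem_univ, true_and] at hq
    have hperm : ∀ i, dfPerm φ ψ (dfFun_inj hq.1 hq.2.2) i = dfFun φ ψ i := fun i => rfl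
    have e1 : ∏ x, (fromBlocks (diagonal a) (of B) (of C)ᵀ 0)
        (dfPerm φ ψ (dfFun_inj hq.1 hq.2.2) (.inr x)) (.inr x) = ∏ x, B (φ x) x := by
      apply Finset.prod_congr rfl
      intro x _
      rw [hperm]
      simp [dfFun]
    have e2 : ∏ e, (fromBlocks (diagonal a) (of B) (of C)ᵀ 0)
        (dfPerm φ ψ (dfFun_inj hq.1 hq.2.2) (.inl e)) (.inl e) =
        (∏ x, C (ψ x) x) * ∏ e ∈ (univ.image ψ)ᶜ, a e := by
      rw [← Finset.prod_mul_prod_compl (univ.image ψ)]
      congr 1
      · rw [Finset.prod_image (fun x _ y _ h => hq.2.1 h)]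
        apply Finset.prod_congr rfl
        intro x _
        rw [hperm, dfFun_inl_mem hq.2.1]
        simp
      · apply Finset.prod_congr rfl
        intro e he
        rw [Finset.mem_compl] at he
        have h5 : ¬ ∃ x, ψ x = e := by
          rintro ⟨x, rfl⟩
          exact he (Finset.mem_image_of_mem _ (Finset.mem_univ x))
        rw [hperm, dfFun_inl_not h5]
        simp
    simp only
    rw [e1, e2]
    ring

end MP06b
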