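import Pool.Agent.Lib.MP_06b34c_co.Defs

namespace MP06b
open Finset

/-- pairs of assignments with image `S` which differ everywhere -/
def dif {E M : Type*} [Fintype E] [DecidableEq E] [Fintype M] [DecidableEq M]
    (B : E → M → ZMod 2) (S : Finset E) : Finset ((M → E) × (M → E)) :=
  (asg B S ×ˢ asg B S).filter fun q => ∀ x, q.1 x ≠ q.2 x

variable {W E : Type*} [Fintype W] [DecidableEq W] [Fintype E] [DecidableEq E]

/-- membership in `asg` -/
private theorem dh_mem (ends : E → Sym2 W) (r : W) (C : Finset E) (ψ : {x : W // x ≠ r} → E) :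
    ψ ∈ asg (inc ends r) C ↔ Function.Injective ψ ∧ univ.image ψ = C ∧
      ∀ x, (x : W) ∈ ends (ψ x) := by
  have h : ∀ x : {x : W // x ≠ r}, inc ends r (ψ x) x = 1 ↔ (x : W) ∈ ends (ψ x) := by
    intro x
    unfold inc
    by_cases h : (x : W) ∈ ends (ψ x)
    · simp [h]
    · simp [h]
  simp only [asg, mem_filter, mem_univ, true_and, h]

private theorem dh_two (ends : E → Sym2 W) (C : Finset E) (x : W)
    (h2 : (C.filter fun e => x ∈ ends e).card = 2) {e f g : E} (he : e ∈ C) (hf : f ∈ C)
    (hg : g ∈ C) (xe : x ∈ ends e) (xf : x ∈ ends f) (xg : x ∈ ends g) (hef : e ≠ f)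
    (heg : e ≠ g) : f = g := by
  obtain ⟨a, b, hab, h⟩ := Finset.card_eq_two.1 h2
  have he' : e ∈ ({a, b} : Finset E) := by rw [← h]; exact mem_filter.2 ⟨he, xe⟩
  have hf' : f ∈ ({a, b} : Finset E) := by rw [← h]; exact mem_filter.2 ⟨hf, xf⟩
  have hg' : g ∈ ({a, b} : Finset E) := by rw [← h]; exact mem_filter.2 ⟨hg, xg⟩
  simp only [mem_insert, mem_singleton] at he' hf' hg'
  rcases he' with rfl | rfl <;> rcases hf' with rfl | rfl <;> rcases hg' with rfl | rfl <;>
    first
    | rfl
    | exact absurd rfl hef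
    | exact absurd rfl heg

private theorem dh_card (ends : E → Sym2 W) (hd : ∀ e, ¬ (ends e).IsDiag) (r : W) (C : Finset E)
    (h1 : ∀ e ∈ C, r ∉ ends e) (h2 : ∀ x, x ≠ r → (C.filter fun e => x ∈ ends e).card = 2) :
    C.card ≤ Fintype.card {x : W // x ≠ r} := by
  classical
  have h := Finset.card_mul_le_card_mul (s := C) (t := (univ : Finset {x : W // x ≠ r}))
    (fun e (x : {x : W // x ≠ r}) => (x : W) ∈ ends e) (m := 2) (n := 2) ?_ ?_
  · rw [card_univ] at h
    omega
  · intro e he
    obtain ⟨a, b, hab⟩ : ∃ a b, ends e = s(a, b) := by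
      induction' h3 : ends e using Sym2.ind with a b
      exact ⟨a, b, rfl⟩
    have hne : a ≠ b := by
      intro h
      apply hd e
      rw [hab, h]
      exact Sym2.mk_isDiag_iff.2 rfl
    have hra : a ≠ r := by
      rintro rfl
      exact h1 e he (by rw [hab]; exact Sym2.mem_mk_left _ _)
    have hrb : b ≠ r := by
      rintro rfl
      exact h1 e he (by rw [hab]; exact Sym2.mem_mk_right _ _)
    have hsub : ({⟨a, hra⟩, ⟨b, hrb⟩} : Finset {x : W // x ≠ r}) ⊆
        (univ : Finset {x : W // x ≠ r}).bipartiteAbove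
          (fun e (x : {x : W // x ≠ r}) => (x : W) ∈ ends e) e := by
      intro x hx
      simp only [mem_insert, mem_singleton] at hx
      rw [Finset.mem_bipartiteAbove]
      refine ⟨mem_univ _, ?_⟩
      rcases hx with rfl | rfl
      · show a ∈ ends e
        rw [hab]
        exact Sym2.mem_mk_left _ _
      · show b ∈ ends e
        rw [hab]
        exact Sym2.mem_mk_right _ _
    have hc : ({⟨a, hra⟩, ⟨b, hrb⟩} : Finset {x : W // x ≠ r}).card = 2 :=
      Finset.card_pair fun h => hne (congrArg Subtype.val h)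
    rw [← hc]
    exact Finset.card_le_card hsub
  · intro x _
    have h3 := h2 x x.2
    exact le_of_eq h3

private theorem dh_image (ends : E → Sym2 W) (hd : ∀ e, ¬ (ends e).IsDiag) (r : W) (C : Finset E)
    (h1 : ∀ e ∈ C, r ∉ ends e) (h2 : ∀ x, x ≠ r → (C.filter fun e => x ∈ ends e).card = 2)
    (ψ : {x : W // x ≠ r} → E) (hi : Function.Injective ψ) (hm : ∀ x, ψ x ∈ C) :
    univ.image ψ = C := by
  refine Finset.eq_of_subset_of_card_le (fun e he => ?_) ?_
  · obtain ⟨x, -, rfl⟩ := mem_image.1 he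
    exact hm x
  · rw [card_image_of_injective _ hi, card_univ]
    exact dh_card ends hd r C h1 h2

/-- H6-13a (existence). Proof: Hall's theorem (`Finset.all_card_le_biUnion_card_iff_existsInjective'` or similar) for
x ↦ {e ∈ C | x ∈ ends e}: for a set X of vertices ≠ r, 2|X| = number of incidences (x, e), x ∈ X, e ∈ C, and each e
has at most two ends, so the union has at least |X| elements. The injective map has image C since
|C| = |M| (count incidences: every x ≠ r is in exactly 2 edges of C, every e ∈ C has exactly two ends, both ≠ r). -/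
theorem exists_asg (ends : E → Sym2 W) (hd : ∀ e, ¬ (ends e).IsDiag) (r : W) (C : Finset E)
    (h1 : ∀ e ∈ C, r ∉ ends e) (h2 : ∀ x, x ≠ r → (C.filter fun e => x ∈ ends e).card = 2) :
    ∃ ψ, ψ ∈ asg (inc ends r) C := by
  classical
  set t : {x : W // x ≠ r} → Finset E := fun x => C.filter fun e => (x : W) ∈ ends e with ht
  obtain ⟨f, hf, hft⟩ := (Finset.all_card_le_biUnion_card_iff_exists_injective t).1 (by
    intro s
    have h := Finset.card_mul_le_card_mul (s := s) (t := s.biUnion t)
      (fun (x : {x : W // x ≠ r}) e => (x : W) ∈ ends e) (m := 2) (n := 2) ?_ ?_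
    · omega
    · intro x hx
      rw [← h2 x x.2]
      refine Finset.card_le_card fun e he => ?_
      rw [Finset.mem_bipartiteAbove]
      refine ⟨mem_biUnion.2 ⟨x, hx, he⟩, (mem_filter.1 he).2⟩
    · intro e _
      obtain ⟨a, b, hab⟩ : ∃ a b, ends e = s(a, b) := by
        induction' h3 : ends e using Sym2.ind with a b
        exact ⟨a, b, rfl⟩
      have hc : (s.bipartiteBelow (fun (x : {x : W // x ≠ r}) e => (x : W) ∈ ends e) e).card ≤
          ({a, b} : Finset W).card := by
        refine Finset.card_le_card_of_injOn (fun x => (x : W)) ?_ ?_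
        · intro x hx
          rw [mem_coe, Finset.mem_bipartiteBelow, hab, Sym2.mem_iff] at hx
          simp only [coe_insert, coe_singleton, Set.mem_insert_iff, Set.mem_singleton_iff]
          exact hx.2
        · intro x _ y _ hxy
          exact Subtype.ext hxy
      exact hc.trans Finset.card_le_two)
  have hm : ∀ x, f x ∈ C := fun x => (mem_filter.1 (hft x)).1
  exact ⟨f, (dh_mem ends r C f).2 ⟨hf, dh_image ends hd r C h1 h2 f hf hm,
    fun x => (mem_filter.1 (hft x)).2⟩⟩

/-- H6-13b (the other edge). If C is 2-regular on the vertices ≠ r and ψ is an assignment with image C, then there is exactly one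
assignment ψ' with image C differing from ψ everywhere: ψ' x = the other edge of C at x (each edge e = {x, y} of C is ψ x or ψ y,
not both, so e is hit exactly once by ψ'). -/
theorem existsUnique_other (ends : E → Sym2 W) (hd : ∀ e, ¬ (ends e).IsDiag) (r : W) (C : Finset E)
    (h1 : ∀ e ∈ C, r ∉ ends e) (h2 : ∀ x, x ≠ r → (C.filter fun e => x ∈ ends e).card = 2)
    (ψ : {x : W // x ≠ r} → E) (hψ : ψ ∈ asg (inc ends r) C) :
    ∃! ψ', ψ' ∈ asg (inc ends r) C ∧ ∀ x, ψ x ≠ ψ' x := by
  classical
  obtain ⟨hi, hS, hx⟩ := (dh_mem ends r C ψ).1 hψ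
  have hψC : ∀ x, ψ x ∈ C := fun x => by rw [← hS]; exact mem_image_of_mem _ (mem_univ _)
  have hoth : ∀ x : {x : W // x ≠ r}, ∃ e, e ∈ C ∧ (x : W) ∈ ends e ∧ ψ x ≠ e := by
    intro x
    obtain ⟨a, b, hab, h⟩ := Finset.card_eq_two.1 (h2 x x.2)
    have ha : a ∈ C.filter fun e => (x : W) ∈ ends e := by rw [h]; simp
    have hb : b ∈ C.filter fun e => (x : W) ∈ ends e := by rw [h]; simp
    rw [mem_filter] at ha hb
    by_cases h3 : ψ x = a
    · exact ⟨b, hb.1, hb.2, fun h4 => hab (h3.symm.trans h4)⟩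
    · exact ⟨a, ha.1, ha.2, h3⟩
  choose ψ' h1' h2' h3' using hoth
  have hinj : Function.Injective ψ' := by
    intro x y hxy
    by_contra hne
    have hne' : (x : W) ≠ y := fun h => hne (Subtype.ext h)
    have e1 : (x : W) ∈ ends (ψ' x) := h2' x
    have e2 : (y : W) ∈ ends (ψ' x) := by rw [hxy]; exact h2' y
    have e3 : ends (ψ' x) = s((x : W), (y : W)) := (Sym2.mem_and_mem_iff hne').1 ⟨e1, e2⟩
    have e4 : ψ' x ∈ univ.image ψ := by rw [hS]; exact h1' x
    obtain ⟨z, -, hz⟩ := mem_image.1 e4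
    have e5 : (z : W) ∈ ends (ψ' x) := by rw [← hz]; exact hx z
    rw [e3, Sym2.mem_iff] at e5
    rcases e5 with h | h
    · have : z = x := Subtype.ext h
      subst this
      exact h3' z hz
    · have : z = y := Subtype.ext h
      subst this
      exact h3' z (hz.trans hxy)
  refine ⟨ψ', ⟨(dh_mem ends r C ψ').2 ⟨hinj, dh_image ends hd r C h1 h2 ψ' hinj h1', h2'⟩, h3'⟩,
    ?_⟩
  rintro χ ⟨hχ, hχψ⟩
  obtain ⟨gi, gS, gx⟩ := (dh_mem ends r C χ).1 hχ
  funext x
  have hχC : χ x ∈ C := by rw [← gS]; exact mem_image_of_mem _ (mem_univ _)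
  exact dh_two ends C x (h2 x x.2) (hψC x) hχC (h1' x) (hx x) (gx x) (h2' x) (hχψ x) (h3' x)

/-- H6-13c. Proof: take (ψ, ψ') from the two statements above; then (ψ, ψ') and (ψ', ψ) are two different elements. If
(χ, χ') is another one, Y = {x | χ x = ψ x} is closed under adjacency in C: if e ∈ C joins x ∈ Y and y, and e = ψ x = χ x,
then e ≠ ψ y, e ≠ χ y, so ψ y = χ y is the other edge of C at y; if e ≠ ψ x = χ x then e = ψ y = χ y (e is in the image). By the cut condition in
IsHam, Y is empty or everything; empty means χ = ψ' (uniqueness). -/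
theorem dif_ham (ends : E → Sym2 W) (hd : ∀ e, ¬ (ends e).IsDiag) (r : W) (C : Finset E)
    (hW : ∃ x : W, x ≠ r) (hC : IsHam ends r C) : (dif (inc ends r) C).card = 2 := by
  classical
  obtain ⟨h1, h2, hcut⟩ := hC
  obtain ⟨ψ, hψ⟩ := exists_asg ends hd r C h1 h2
  obtain ⟨ψ', ⟨hψ', hne⟩, huniq⟩ := existsUnique_other ends hd r C h1 h2 ψ hψ
  obtain ⟨ψ'', -, huniq'⟩ := existsUnique_other ends hd r C h1 h2 ψ' hψ'
  have hneq : ψ ≠ ψ' := by
    intro h
    obtain ⟨x, hx⟩ := hW
    exact hne ⟨x, hx⟩ (by rw [← h])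
  have hset : dif (inc ends r) C = {(ψ, ψ'), (ψ', ψ)} := by
    ext ⟨χ, χ'⟩
    simp only [dif, mem_filter, mem_product, mem_insert, mem_singleton, Prod.mk.injEq]
    constructor
    · rintro ⟨⟨hχ, hχ'⟩, hd'⟩
      obtain ⟨gi, gS, gx⟩ := (dh_mem ends r C χ).1 hχ
      obtain ⟨ki, kS, kx⟩ := (dh_mem ends r C ψ).1 hψ
      by_cases hY0 : ∀ x, ψ x ≠ χ x
      · right
        have e1 : χ = ψ' := huniq χ ⟨hχ, hY0⟩
        refine ⟨e1, ?_⟩
        have e2 : χ' = ψ'' := huniq' χ' ⟨hχ', fun x => by rw [← e1]; exact hd' x⟩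
        have e3 : ψ = ψ'' := huniq' ψ ⟨hψ, fun x => (hne x).symm⟩
        rw [e2, e3]
      · left
        push Not at hY0
        obtain ⟨x0, hx0⟩ := hY0
        have hall : ∀ x, ψ x = χ x := by
          by_contra hcon
          push Not at hcon
          obtain ⟨y0, hy0⟩ := hcon
          obtain ⟨e, he, x, hx, y, hy, hxy⟩ := hcut {x | ∃ h : x ≠ r, ψ ⟨x, h⟩ = χ ⟨x, h⟩}
            (fun h => by
              obtain ⟨h, -⟩ := h
              exact h rfl) ⟨x0, x0.2, hx0⟩ ⟨y0, y0.2, fun h => by
              obtain ⟨h, h'⟩ := h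
              exact hy0 h'⟩
          obtain ⟨hxr, hx'⟩ := hx
          have hyr : y ≠ r := by
            rintro rfl
            exact h1 e he (by rw [hxy]; exact Sym2.mem_mk_right _ _)
          have hy' : ψ ⟨y, hyr⟩ ≠ χ ⟨y, hyr⟩ := fun h => hy ⟨hyr, h⟩
          have hxy' : (⟨x, hxr⟩ : {x : W // x ≠ r}) ≠ ⟨y, hyr⟩ := by
            intro h
            have h3 : x = y := congrArg Subtype.val h
            apply hd e
            rw [hxy, h3]
            exact Sym2.mk_isDiag_iff.2 rfl
          have hye : y ∈ ends e := by rw [hxy]; exact Sym2.mem_mk_right _ _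
          have hψC : ∀ x, ψ x ∈ C := fun x => by
            rw [← kS]; exact mem_image_of_mem _ (mem_univ _)
          have hχC : ∀ x, χ x ∈ C := fun x => by
            rw [← gS]; exact mem_image_of_mem _ (mem_univ _)
          obtain ⟨z, -, hz⟩ := mem_image.1 (by rw [kS]; exact he : e ∈ univ.image ψ)
          have hz' : (z : W) ∈ ends e := by rw [← hz]; exact kx z
          rw [hxy, Sym2.mem_iff] at hz'
          rcases hz' with h | h
          · have hzx : z = ⟨x, hxr⟩ := Subtype.ext h
            rw [hzx] at hz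
            apply hy'
            refine dh_two ends C y (h2 y hyr) he (hψC _) (hχC _) hye (kx _) (gx _) ?_ ?_
            · intro h3
              exact hxy' (ki (hz.trans h3))
            · intro h3
              exact hxy' (gi ((hx'.symm.trans hz).trans h3))
          · have hzy : z = ⟨y, hyr⟩ := Subtype.ext h
            rw [hzy] at hz
            obtain ⟨z', -, hz'⟩ := mem_image.1 (by rw [gS]; exact he : e ∈ univ.image χ)
            have hz'' : (z' : W) ∈ ends e := by rw [← hz']; exact gx z'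
            rw [hxy, Sym2.mem_iff] at hz''
            rcases hz'' with h4 | h4
            · have hzx : z' = ⟨x, hxr⟩ := Subtype.ext h4
              rw [hzx, ← hx'] at hz'
              exact hxy' (ki (hz'.trans hz.symm))
            · have hzx : z' = ⟨y, hyr⟩ := Subtype.ext h4
              rw [hzx] at hz'
              exact hy' (hz.trans hz'.symm)
        have e1 : χ = ψ := (funext hall).symm
        refine ⟨e1, huniq χ' ⟨hχ', fun x => by rw [← e1]; exact hd' x⟩⟩
    · rintro (⟨rfl, rfl⟩ | ⟨rfl, rfl⟩)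
      · exact ⟨⟨hψ, hψ'⟩, hne⟩
      · exact ⟨⟨hψ', hψ⟩, fun x => (hne x).symm⟩
  rw [hset]
  exact Finset.card_pair fun h => hneq (congrArg Prod.fst h)

end MP06b
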