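import Pool.Agent.Lib.MP_06b34c_co.Defs

namespace MP06b
open Finset

variable {E M : Type*} [Fintype E] [DecidableEq E] [Fintype M] [DecidableEq M]

/-- pairs of different assignments with image `S` which agree somewhere -/
def prt (B : E → M → ZMod 2) (S : Finset E) : Finset ((M → E) × (M → E)) :=
  (asg B S ×ˢ asg B S).filter fun q => q.1 ≠ q.2 ∧ ∃ x, q.1 x = q.2 x

/-- H6-12a: two commuting involutions generating a free action. Proof: the fibres of
x ↦ {x, f x, g x, f (g x)} have exactly four elements (or quotient argument). -/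
theorem four_dvd {α : Type*} [DecidableEq α] (s : Finset α) (f g : α → α)
    (hf : ∀ x ∈ s, f x ∈ s) (hg : ∀ x ∈ s, g x ∈ s)
    (hff : ∀ x ∈ s, f (f x) = x) (hgg : ∀ x ∈ s, g (g x) = x) (hfg : ∀ x ∈ s, f (g x) = g (f x))
    (h1 : ∀ x ∈ s, f x ≠ x) (h2 : ∀ x ∈ s, g x ≠ x) (h3 : ∀ x ∈ s, f (g x) ≠ x) :
    4 ∣ s.card := by
  induction s using Finset.strongInduction with
  | H s ih =>
    rcases s.eq_empty_or_nonempty with rfl | ⟨x, hx⟩
    · simp
    set t : Finset α := {x, f x, g x, f (g x)} with ht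
    have hts : t ⊆ s := by
      intro y hy
      simp only [ht, mem_insert, mem_singleton] at hy
      rcases hy with rfl | rfl | rfl | rfl
      · exact hx
      · exact hf x hx
      · exact hg x hx
      · exact hf _ (hg x hx)
    have hgx := hg x hx
    have hfx := hf x hx
    have e1 : x ≠ f x := (h1 x hx).symm
    have e2 : x ≠ g x := (h2 x hx).symm
    have e3 : x ≠ f (g x) := (h3 x hx).symm
    have e4 : f x ≠ g x := by
      intro h
      apply h3 x hx
      rw [← h, hff x hx]
    have e5 : f x ≠ f (g x) := by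
      intro h
      have := congrArg f h
      rw [hff x hx, hff _ hgx] at this
      exact e2 this
    have e6 : g x ≠ f (g x) := (h1 _ hgx).symm
    have hcard : t.card = 4 := by
      rw [ht, card_insert_of_notMem, card_insert_of_notMem, card_insert_of_notMem, card_singleton]
      · simpa using e6
      · simp only [mem_insert, mem_singleton, not_or]; exact ⟨e4, e5⟩
      · simp only [mem_insert, mem_singleton, not_or]; exact ⟨e1, e2, e3⟩
    have hft : ∀ y ∈ t, f y ∈ t := by
      intro y hy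
      simp only [ht, mem_insert, mem_singleton] at hy ⊢
      rcases hy with rfl | rfl | rfl | rfl
      · simp
      · rw [hff x hx]; simp
      · simp
      · rw [hff _ hgx]; simp
    have hgt : ∀ y ∈ t, g y ∈ t := by
      intro y hy
      simp only [ht, mem_insert, mem_singleton] at hy ⊢
      rcases hy with rfl | rfl | rfl | rfl
      · simp
      · rw [← hfg x hx]; simp
      · rw [hgg x hx]; simp
      · rw [← hfg _ hgx, hgg x hx]; simp
    have hlt : s \ t ⊂ s := by
      refine Finset.ssubset_iff_subset_ne.mpr ⟨sdiff_subset, fun h => ?_⟩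
      have : x ∈ s \ t := by rw [h]; exact hx
      exact (mem_sdiff.mp this).2 (by simp [ht])
    have hsub : ∀ y ∈ s \ t, y ∈ s := fun y hy => (mem_sdiff.mp hy).1
    have hdv := ih (s \ t) hlt
      (fun y hy => mem_sdiff.mpr ⟨hf y (hsub y hy), fun h => (mem_sdiff.mp hy).2 (by
        have := hft _ h; rwa [hff y (hsub y hy)] at this)⟩)
      (fun y hy => mem_sdiff.mpr ⟨hg y (hsub y hy), fun h => (mem_sdiff.mp hy).2 (by
        have := hgt _ h; rwa [hgg y (hsub y hy)] at this)⟩)
      (fun y hy => hff y (hsub y hy)) (fun y hy => hgg y (hsub y hy))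
      (fun y hy => hfg y (hsub y hy)) (fun y hy => h1 y (hsub y hy))
      (fun y hy => h2 y (hsub y hy)) (fun y hy => h3 y (hsub y hy))
    have hc : s.card = (s \ t).card + 4 := by
      rw [← hcard, card_sdiff_add_card_eq_card hts]
    rw [hc]
    exact dvd_add hdv (dvd_refl 4)

private def p4T (B : E → M → ZMod 2) : Finset ((M → E) × (M → E) × (M → E)) :=
  univ.filter fun q => q.1 ∈ asg B (univ.image q.2.1)ᶜ ∧ (q.2.1, q.2.2) ∈ prt B (univ.image q.2.1)

private def p4f (q : (M → E) × (M → E) × (M → E)) : (M → E) × (M → E) × (M → E) :=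
  (q.1, q.2.2, q.2.1)

private def p4g (q : (M → E) × (M → E) × (M → E)) : (M → E) × (M → E) × (M → E) :=
  (fun x => if q.2.1 x = q.2.2 x then q.2.1 x else q.1 x,
    fun x => if q.2.1 x = q.2.2 x then q.1 x else q.2.1 x,
    fun x => if q.2.1 x = q.2.2 x then q.1 x else q.2.2 x)

private lemma p4_mem (B : E → M → ZMod 2) (φ a b : M → E) : (φ, a, b) ∈ p4T B ↔
    Function.Injective φ ∧ Function.Injective a ∧ Function.Injective b ∧
    (∀ e, (∃ x, φ x = e) ↔ ¬ ∃ x, a x = e) ∧ (∀ e, (∃ x, b x = e) ↔ ∃ x, a x = e) ∧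
    (∀ x, B (φ x) x = 1) ∧ (∀ x, B (a x) x = 1) ∧ (∀ x, B (b x) x = 1) ∧ (∃ x, a x ≠ b x) ∧
    ∃ x, a x = b x := by
  simp only [p4T, prt, asg, mem_filter, mem_univ, true_and, mem_product, Finset.ext_iff, mem_image,
    mem_compl, Function.ne_iff]
  tauto

theorem part4 (B : E → M → ZMod 2) :
    4 ∣ ∑ S : Finset E, (asg B Sᶜ).card * (prt B S).card := by
  have hsum : ∑ S : Finset E, (asg B Sᶜ).card * (prt B S).card = (p4T B).card := by
    rw [card_eq_sum_card_fiberwise (f := fun q => univ.image q.2.1) (t := univ) (by simp)]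
    refine sum_congr rfl fun S _ => ?_
    rw [← card_product]
    congr 1
    ext ⟨φ, a, b⟩
    simp only [p4T, mem_filter, mem_univ, true_and, mem_product]
    constructor
    · rintro ⟨h1, h2⟩
      have h3 : univ.image a = S := by
        simp only [prt, asg, mem_filter, mem_product, mem_univ, true_and] at h2
        exact h2.1.1.2.1
      rw [h3]
      exact ⟨⟨h1, h2⟩, rfl⟩
    · rintro ⟨⟨h1, h2⟩, h3⟩
      rw [h3] at h1 h2
      exact ⟨h1, h2⟩
  rw [hsum]
  refine four_dvd (p4T B) p4f p4g ?_ ?_ ?_ ?_ ?_ ?_ ?_ ?_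
  · rintro ⟨φ, a, b⟩ h
    rw [p4_mem] at h
    obtain ⟨h1, h2, h3, h4, h5, h6, h7, h8, ⟨x, h9⟩, ⟨y, h10⟩⟩ := h
    simp only [p4f]
    rw [p4_mem]
    exact ⟨h1, h3, h2, fun e => by rw [h4 e, h5 e], fun e => (h5 e).symm, h6, h8, h7,
      ⟨x, Ne.symm h9⟩, ⟨y, h10.symm⟩⟩
  · rintro ⟨φ, a, b⟩ h
    rw [p4_mem] at h
    obtain ⟨h1, h2, h3, h4, h5, h6, h7, h8, ⟨x, h9⟩, ⟨y, h10⟩⟩ := h
    have hd : ∀ x y, φ x ≠ a y := fun x y h => (h4 (φ x)).mp ⟨x, rfl⟩ ⟨y, h.symm⟩
    have hd' : ∀ x y, φ x ≠ b y := fun x y h => (h4 (φ x)).mp ⟨x, rfl⟩ ((h5 _).mp ⟨y, h.symm⟩)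
    simp only [p4g]
    rw [p4_mem]
    refine ⟨?_, ?_, ?_, ?_, ?_, ?_, ?_, ?_, ?_, ?_⟩
    · intro u v huv
      simp only at huv
      split_ifs at huv with hu hv hv
      · exact h2 huv
      · exact absurd huv.symm (hd v u)
      · exact absurd huv (hd u v)
      · exact h1 huv
    · intro u v huv
      simp only at huv
      split_ifs at huv with hu hv hv
      · exact h1 huv
      · exact absurd huv (hd u v)
      · exact absurd huv.symm (hd v u)
      · exact h2 huv
    · intro u v huv
      simp only at huv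
      split_ifs at huv with hu hv hv
      · exact h1 huv
      · exact absurd huv (hd' u v)
      · exact absurd huv.symm (hd' v u)
      · exact h3 huv
    · intro e
      constructor
      · rintro ⟨u, hu⟩ ⟨v, hv⟩
        split_ifs at hu with hu' <;> split_ifs at hv with hv'
        · exact hd v u (hv.trans hu.symm)
        · have := h2 (hu.trans hv.symm)
          rw [this] at hu'
          exact hv' hu'
        · have := h1 (hu.trans hv.symm)
          rw [this] at hu'
          exact hu' hv'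
        · exact hd u v (hu.trans hv.symm)
      · intro hne
        by_cases he : ∃ u, a u = e
        · obtain ⟨u, hu⟩ := he
          by_cases hu' : a u = b u
          · exact ⟨u, by rw [if_pos hu']; exact hu⟩
          · exact absurd ⟨u, by rw [if_neg hu']; exact hu⟩ hne
        · obtain ⟨u, hu⟩ := (h4 e).mpr he
          by_cases hu' : a u = b u
          · exact absurd ⟨u, by rw [if_pos hu']; exact hu⟩ hne
          · exact ⟨u, by rw [if_neg hu']; exact hu⟩
    · intro e
      constructor
      · rintro ⟨u, hu⟩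
        split_ifs at hu with hu'
        · exact ⟨u, by rw [if_pos hu']; exact hu⟩
        · obtain ⟨v, hv⟩ := (h5 e).mp ⟨u, hu⟩
          refine ⟨v, ?_⟩
          have hv' : a v ≠ b v := by
            intro h
            have h' : v = u := h3 (by rw [← h, hv, hu])
            rw [h'] at h
            exact hu' h
          rw [if_neg hv']; exact hv
      · rintro ⟨u, hu⟩
        split_ifs at hu with hu'
        · exact ⟨u, by rw [if_pos hu']; exact hu⟩
        · obtain ⟨v, hv⟩ := (h5 e).mpr ⟨u, hu⟩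
          refine ⟨v, ?_⟩
          have hv' : a v ≠ b v := by
            intro h
            have h' : v = u := h2 (by rw [h, hv, hu])
            rw [h'] at h
            exact hu' h
          rw [if_neg hv']; exact hv
    · intro u
      split_ifs
      · exact h7 u
      · exact h6 u
    · intro u
      split_ifs
      · exact h6 u
      · exact h7 u
    · intro u
      split_ifs
      · exact h6 u
      · exact h8 u
    · exact ⟨x, by rw [if_neg h9, if_neg h9]; exact h9⟩
    · exact ⟨y, by rw [if_pos h10, if_pos h10]⟩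
  · rintro ⟨φ, a, b⟩ _
    rfl
  · rintro ⟨φ, a, b⟩ _
    simp only [p4g, Prod.mk.injEq]
    refine ⟨?_, ?_, ?_⟩ <;> funext u <;> by_cases hu : a u = b u <;> simp [hu]
  · rintro ⟨φ, a, b⟩ _
    simp only [p4g, p4f, Prod.mk.injEq]
    have hs : ∀ u, (b u = a u) = (a u = b u) := fun u => propext eq_comm
    refine ⟨?_, ?_, ?_⟩ <;> funext u <;> by_cases hu : a u = b u <;> simp [hs, hu]
  · rintro ⟨φ, a, b⟩ h
    rw [p4_mem] at h
    obtain ⟨h1, h2, h3, h4, h5, h6, h7, h8, ⟨x, h9⟩, ⟨y, h10⟩⟩ := h
    simp only [p4f, ne_eq, Prod.mk.injEq, not_and]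
    intro _ h _
    exact h9 (congrFun h x).symm
  · rintro ⟨φ, a, b⟩ h
    rw [p4_mem] at h
    obtain ⟨h1, h2, h3, h4, h5, h6, h7, h8, ⟨x, h9⟩, ⟨y, h10⟩⟩ := h
    have hd : ∀ x y, φ x ≠ a y := fun x y h => (h4 (φ x)).mp ⟨x, rfl⟩ ⟨y, h.symm⟩
    simp only [p4g, ne_eq, Prod.mk.injEq, not_and]
    intro h
    have := congrFun h y
    simp only [if_pos h10] at this
    exact absurd this.symm (hd y y)
  · rintro ⟨φ, a, b⟩ h
    rw [p4_mem] at h
    obtain ⟨h1, h2, h3, h4, h5, h6, h7, h8, ⟨x, h9⟩, ⟨y, h10⟩⟩ := h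
    have hd : ∀ x y, φ x ≠ a y := fun x y h => (h4 (φ x)).mp ⟨x, rfl⟩ ⟨y, h.symm⟩
    simp only [p4g, p4f, ne_eq, Prod.mk.injEq, not_and]
    intro h
    have := congrFun h y
    simp only [if_pos h10] at this
    exact absurd this.symm (hd y y)

end MP06b
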