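import Pool.Agent.Lib.MP_06b34c_co.DifHam
import Pool.Agent.Lib.MP_06b34c_co.Part4

namespace MP06b
open Finset

variable {W E : Type*} [Fintype W] [DecidableEq W] [Fintype E] [DecidableEq E]

private theorem dn_mem (ends : E → Sym2 W) (r : W) (C : Finset E) (ψ : {x : W // x ≠ r} → E) :
    ψ ∈ asg (inc ends r) C ↔ Function.Injective ψ ∧ univ.image ψ = C ∧
      ∀ x, (x : W) ∈ ends (ψ x) := by
  have h : ∀ x : {x : W // x ≠ r}, inc ends r (ψ x) x = 1 ↔ (x : W) ∈ ends (ψ x) := by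
    intro x
    unfold inc
    by_cases h : (x : W) ∈ ends (ψ x)
    · simp [h]
    · simp [h]
  simp only [asg, mem_filter, mem_univ, true_and, h]

/-- the two ends of an edge of `C` -/
private theorem dn_ends (ends : E → Sym2 W) (r : W) (C : Finset E)
    (q : ({x : W // x ≠ r} → E) × ({x : W // x ≠ r} → E)) (hq : q ∈ dif (inc ends r) C)
    (e : E) (he : e ∈ C) : ∃ x y : {x : W // x ≠ r}, x ≠ y ∧ q.1 x = e ∧ q.2 y = e ∧
      ends e = s((x : W), (y : W)) := by
  simp only [dif, mem_filter, mem_product] at hq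
  obtain ⟨⟨hq1, hq2⟩, hne⟩ := hq
  obtain ⟨i1, s1, m1⟩ := (dn_mem ends r C q.1).1 hq1
  obtain ⟨i2, s2, m2⟩ := (dn_mem ends r C q.2).1 hq2
  obtain ⟨x, -, hx⟩ := mem_image.1 (by rw [s1]; exact he : e ∈ univ.image q.1)
  obtain ⟨y, -, hy⟩ := mem_image.1 (by rw [s2]; exact he : e ∈ univ.image q.2)
  have hxy : x ≠ y := by
    rintro rfl
    exact hne x (hx.trans hy.symm)
  refine ⟨x, y, hxy, hx, hy, ?_⟩
  have h1 : (x : W) ∈ ends e := by rw [← hx]; exact m1 x
  have h2 : (y : W) ∈ ends e := by rw [← hy]; exact m2 y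
  exact (Sym2.mem_and_mem_iff fun h => hxy (Subtype.ext h)).1 ⟨h1, h2⟩

/-- H6-14a: if two assignments with image C differ everywhere, then C is 2-regular on the vertices ≠ r. Proof: for x, let σ x
be the vertex with ψ₂ (σ x) = ψ₁ x; σ x ≠ x, so ends (ψ₁ x) = s(x, σ x), so no edge of C contains r, and counting incidences
(2|C| = 2|M|, each x is in the two different edges ψ₁ x, ψ₂ x) every vertex x ≠ r is in exactly two edges. -/
theorem regular_of_dif (ends : E → Sym2 W) (hd : ∀ e, ¬ (ends e).IsDiag) (r : W) (C : Finset E)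
    (q : ({x : W // x ≠ r} → E) × ({x : W // x ≠ r} → E)) (hq : q ∈ dif (inc ends r) C) :
    (∀ e ∈ C, r ∉ ends e) ∧ ∀ x, x ≠ r → (C.filter fun e => x ∈ ends e).card = 2 := by
  have hends := dn_ends ends r C q hq
  simp only [dif, mem_filter, mem_product] at hq
  obtain ⟨⟨hq1, hq2⟩, hne⟩ := hq
  obtain ⟨i1, s1, m1⟩ := (dn_mem ends r C q.1).1 hq1
  obtain ⟨i2, s2, m2⟩ := (dn_mem ends r C q.2).1 hq2
  constructor
  · intro e he hr
    obtain ⟨x, y, hxy, -, -, h⟩ := hends e he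
    rw [h, Sym2.mem_iff] at hr
    rcases hr with h1 | h1
    · exact x.2 h1.symm
    · exact y.2 h1.symm
  · intro x hx
    have hset : (C.filter fun e => x ∈ ends e) = {q.1 ⟨x, hx⟩, q.2 ⟨x, hx⟩} := by
      ext e
      simp only [mem_filter, mem_insert, mem_singleton]
      constructor
      · rintro ⟨he, hxe⟩
        obtain ⟨y, z, hyz, h1, h2, h⟩ := hends e he
        rw [h, Sym2.mem_iff] at hxe
        rcases hxe with h3 | h3
        · left
          have : y = ⟨x, hx⟩ := Subtype.ext h3.symm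
          rw [← this, h1]
        · right
          have : z = ⟨x, hx⟩ := Subtype.ext h3.symm
          rw [← this, h2]
      · rintro (rfl | rfl)
        · exact ⟨by rw [← s1]; exact mem_image_of_mem _ (mem_univ _), m1 ⟨x, hx⟩⟩
        · exact ⟨by rw [← s2]; exact mem_image_of_mem _ (mem_univ _), m2 ⟨x, hx⟩⟩
    rw [hset]
    exact Finset.card_pair (hne _)

/-- exchange of the two assignments on `Y` -/
private def dn_sw (r : W) (Y : Set W) [DecidablePred (· ∈ Y)]
    (q : ({x : W // x ≠ r} → E) × ({x : W // x ≠ r} → E)) :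
    ({x : W // x ≠ r} → E) × ({x : W // x ≠ r} → E) :=
  (fun x => if (x : W) ∈ Y then q.2 x else q.1 x, fun x => if (x : W) ∈ Y then q.1 x else q.2 x)

private theorem dn_half (ends : E → Sym2 W) (r : W) (C : Finset E) (Y : Set W)
    [DecidablePred (· ∈ Y)]
    (hY : ∀ e ∈ C, ∀ x ∈ Y, ∀ y ∉ Y, ends e ≠ s(x, y))
    (a b : {x : W // x ≠ r} → E) (ha : a ∈ asg (inc ends r) C) (hb : b ∈ asg (inc ends r) C) :
    (fun x : {x : W // x ≠ r} => if (x : W) ∈ Y then b x else a x) ∈ asg (inc ends r) C := by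
  obtain ⟨i1, s1, m1⟩ := (dn_mem ends r C a).1 ha
  obtain ⟨i2, s2, m2⟩ := (dn_mem ends r C b).1 hb
  have c1 : ∀ x, a x ∈ C := fun x => by rw [← s1]; exact mem_image_of_mem _ (mem_univ _)
  have c2 : ∀ x, b x ∈ C := fun x => by rw [← s2]; exact mem_image_of_mem _ (mem_univ _)
  have hmix : ∀ x y : {x : W // x ≠ r}, (x : W) ∈ Y → (y : W) ∉ Y → b x ≠ a y := by
    intro x y hx hy h
    have hxy : (x : W) ≠ y := fun h' => hy (h' ▸ hx)
    have h1 : (x : W) ∈ ends (b x) := m2 x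
    have h2 : (y : W) ∈ ends (b x) := by rw [h]; exact m1 y
    exact hY (b x) (c2 x) x hx y hy ((Sym2.mem_and_mem_iff hxy).1 ⟨h1, h2⟩)
  have hinj : Function.Injective fun x : {x : W // x ≠ r} => if (x : W) ∈ Y then b x else a x := by
    intro x y h
    simp only at h
    by_cases hx : (x : W) ∈ Y
    · by_cases hy : (y : W) ∈ Y
      · rw [if_pos hx, if_pos hy] at h
        exact i2 h
      · rw [if_pos hx, if_neg hy] at h
        exact absurd h (hmix x y hx hy)
    · by_cases hy : (y : W) ∈ Y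
      · rw [if_neg hx, if_pos hy] at h
        exact absurd h.symm (hmix y x hy hx)
      · rw [if_neg hx, if_neg hy] at h
        exact i1 h
  refine (dn_mem ends r C _).2 ⟨hinj, ?_, ?_⟩
  · refine Finset.eq_of_subset_of_card_le (fun e he => ?_) ?_
    · obtain ⟨x, -, rfl⟩ := mem_image.1 he
      by_cases hx : (x : W) ∈ Y
      · simp only [if_pos hx]
        exact c2 x
      · simp only [if_neg hx]
        exact c1 x
    · rw [card_image_of_injective _ hinj, ← s1, card_image_of_injective _ i1]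
  · intro x
    by_cases hx : (x : W) ∈ Y
    · simp only [if_pos hx]
      exact m2 x
    · simp only [if_neg hx]
      exact m1 x

private theorem dn_sw_mem (ends : E → Sym2 W) (r : W) (C : Finset E) (Y : Set W)
    [DecidablePred (· ∈ Y)]
    (hY : ∀ e ∈ C, ∀ x ∈ Y, ∀ y ∉ Y, ends e ≠ s(x, y))
    (q : ({x : W // x ≠ r} → E) × ({x : W // x ≠ r} → E)) (hq : q ∈ dif (inc ends r) C) :
    dn_sw r Y q ∈ dif (inc ends r) C := by
  simp only [dif, mem_filter, mem_product] at hq ⊢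
  obtain ⟨⟨hq1, hq2⟩, hne⟩ := hq
  refine ⟨⟨dn_half ends r C Y hY q.1 q.2 hq1 hq2, dn_half ends r C Y hY q.2 q.1 hq2 hq1⟩,
    fun x => ?_⟩
  by_cases hx : (x : W) ∈ Y
  · simp only [dn_sw, if_pos hx]
    exact (hne x).symm
  · simp only [dn_sw, if_neg hx]
    exact hne x

private theorem dn_sw_sw (r : W) (Y : Set W) [DecidablePred (· ∈ Y)]
    (q : ({x : W // x ≠ r} → E) × ({x : W // x ≠ r} → E)) : dn_sw r Y (dn_sw r Y q) = q := by
  apply Prod.ext
  · funext x
    by_cases hx : (x : W) ∈ Y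
    · simp only [dn_sw, if_pos hx]
    · simp only [dn_sw, if_neg hx]
  · funext x
    by_cases hx : (x : W) ∈ Y
    · simp only [dn_sw, if_pos hx]
    · simp only [dn_sw, if_neg hx]

/-- H6-14b. Proof: if dif is empty, fine. Otherwise C is 2-regular by `regular_of_dif`, so the cut condition of IsHam fails for some Y
(r ∉ Y, Y nonempty, not all of M): no edge of C joins Y and its complement. f exchanges ψ₁ x and ψ₂ x for x ∈ Y, g
exchanges them for x ∉ Y. These preserve `dif` (ψ₁ restricted to Y has image = the edges of C inside Y = image of ψ₂ restricted to Y),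
commute and act freely: `four_dvd`. -/
theorem dif_not_ham (ends : E → Sym2 W) (hd : ∀ e, ¬ (ends e).IsDiag) (r : W) (C : Finset E)
    (hC : ¬ IsHam ends r C) : 4 ∣ (dif (inc ends r) C).card := by
  classical
  rcases (dif (inc ends r) C).eq_empty_or_nonempty with h | ⟨q0, hq0⟩
  · rw [h]
    simp
  obtain ⟨h1, h2⟩ := regular_of_dif ends hd r C q0 hq0
  have h3 : ∃ Y : Set W, r ∉ Y ∧ (∃ x, x ∈ Y) ∧ (∃ x, x ≠ r ∧ x ∉ Y) ∧
      ∀ e ∈ C, ∀ x ∈ Y, ∀ y ∉ Y, ends e ≠ s(x, y) := by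
    by_contra hcon
    push Not at hcon
    apply hC
    refine ⟨h1, h2, fun Y hr hx hy => ?_⟩
    obtain ⟨e, he, x', hx', y', hy', h⟩ := hcon Y hr hx hy
    exact ⟨e, he, x', hx', y', hy', h⟩
  obtain ⟨Y, hr, ⟨x0, hx0⟩, ⟨y0, hy0r, hy0⟩, hY⟩ := h3
  have hx0r : x0 ≠ r := fun h => hr (h ▸ hx0)
  have hY' : ∀ e ∈ C, ∀ x ∈ Yᶜ, ∀ y ∉ Yᶜ, ends e ≠ s(x, y) := by
    intro e he x hx y hy h
    refine hY e he y ?_ x hx (by rw [h, Sym2.eq_swap])
    by_contra h'
    exact hy h'
  have hne : ∀ q ∈ dif (inc ends r) C, ∀ x, q.1 x ≠ q.2 x := fun q hq =>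
    (mem_filter.1 hq).2
  refine four_dvd (dif (inc ends r) C) (dn_sw r Y) (dn_sw r Yᶜ)
    (fun q hq => dn_sw_mem ends r C Y hY q hq) (fun q hq => dn_sw_mem ends r C Yᶜ hY' q hq)
    (fun q _ => dn_sw_sw r Y q) (fun q _ => dn_sw_sw r Yᶜ q) ?_ ?_ ?_ ?_
  · intro q _
    apply Prod.ext
    · funext x
      by_cases hx : (x : W) ∈ Y
      · simp [dn_sw, hx]
      · simp [dn_sw, hx]
    · funext x
      by_cases hx : (x : W) ∈ Y
      · simp [dn_sw, hx]
      · simp [dn_sw, hx]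
  · intro q hq h
    have h4 := congrFun (congrArg Prod.fst h) ⟨x0, hx0r⟩
    simp only [dn_sw, if_pos hx0] at h4
    exact hne q hq _ h4.symm
  · intro q hq h
    have h4 := congrFun (congrArg Prod.fst h) ⟨y0, hy0r⟩
    simp only [dn_sw, if_pos (show y0 ∈ Yᶜ from hy0)] at h4
    exact hne q hq _ h4.symm
  · intro q hq h
    have h4 := congrFun (congrArg Prod.fst h) ⟨x0, hx0r⟩
    have h5 : x0 ∉ Yᶜ := fun h' => h' hx0
    simp only [dn_sw, if_pos hx0, if_neg h5] at h4
    exact hne q hq _ h4.symm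

end MP06b
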