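import Pool.Agent.Lib.MP_06b34c_co.DetFormula

namespace MP06b
open Finset Matrix

theorem bd_symm {n : Type*} (X : Matrix n n (ZMod 2)) (hX : Xᵀ = X) (y z : n → ZMod 2) :
    (bd X y z)ᵀ = bd X z y := by
  ext i j
  rcases i with _ | i <;> rcases j with _ | j
  · rfl
  · rfl
  · rfl
  · have := congrFun (congrFun hX i) j
    exact this

theorem bd_det_ne_zero {n : Type*} [Fintype n] [DecidableEq n] (X : Matrix n n (ZMod 2))
    (hX : Xᵀ = X) (h0 : X.det = 0) (y z : n → ZMod 2) :
    (bd X y z).det ≠ 0 ↔ (∀ u, u ≠ 0 → X *ᵥ u = 0 → y ⬝ᵥ u ≠ 0) ∧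
      (∀ u, u ≠ 0 → X *ᵥ u = 0 → z ⬝ᵥ u ≠ 0) := by
  have hmul : ∀ (y z : n → ZMod 2) (w : Option n → ZMod 2),
      (bd X y z *ᵥ w) none = z ⬝ᵥ (fun i => w (some i)) ∧
      ∀ i, (bd X y z *ᵥ w) (some i) = y i * w none + (X *ᵥ (fun i => w (some i))) i := by
    intro y z w
    constructor
    · simp only [Matrix.mulVec, dotProduct, Fintype.sum_option]
      simp [bd]
    · intro i
      simp only [Matrix.mulVec, dotProduct, Fintype.sum_option]
      simp [bd]
  have key : ∀ (y z : n → ZMod 2), (bd X y z).det ≠ 0 →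
      (∀ u, u ≠ 0 → X *ᵥ u = 0 → z ⬝ᵥ u ≠ 0) := by
    intro y z hd u hu hXu hzu
    apply hd
    rw [← Matrix.exists_mulVec_eq_zero_iff]
    refine ⟨fun o => o.elim 0 u, ?_, ?_⟩
    · intro h
      apply hu
      ext i
      exact congrFun h (some i)
    · ext o
      rcases o with _ | i
      · rw [(hmul y z _).1]
        exact hzu
      · rw [(hmul y z _).2 i]
        simp only [Option.elim_none, mul_zero, zero_add, Option.elim_some]
        exact congrFun hXu i
  constructor
  · intro hd
    refine ⟨?_, key y z hd⟩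
    apply key z y
    rw [← bd_symm X hX, det_transpose]
    exact hd
  · rintro ⟨hy, hz⟩ hd
    obtain ⟨w, hw0, hw⟩ := (Matrix.exists_mulVec_eq_zero_iff).2 hd
    obtain ⟨u0, hu0, hXu0⟩ := (Matrix.exists_mulVec_eq_zero_iff).2 h0
    have h1 := congrFun hw none
    rw [(hmul y z w).1] at h1
    have h2 : ∀ i, y i * w none + (X *ᵥ (fun i => w (some i))) i = 0 := by
      intro i
      rw [← (hmul y z w).2 i]
      exact congrFun hw (some i)
    have h3 : w none = 0 := by
      have h4 : ∑ i, u0 i * (y i * w none + (X *ᵥ (fun i => w (some i))) i) = 0 := by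
        apply Finset.sum_eq_zero
        intro i _
        rw [h2 i, mul_zero]
      have h5 : ∑ i, u0 i * (X *ᵥ (fun i => w (some i))) i = 0 := by
        have h6 : u0 ⬝ᵥ (X *ᵥ (fun i => w (some i))) = (u0 ᵥ* X) ⬝ᵥ (fun i => w (some i)) :=
          Matrix.dotProduct_mulVec _ _ _
        have h7 : u0 ᵥ* X = X *ᵥ u0 := by
          rw [← Matrix.mulVec_transpose, hX]
        rw [h7, hXu0, zero_dotProduct] at h6
        exact h6
      have h6 : (y ⬝ᵥ u0) * w none = 0 := by
        have h7 : ∑ i, u0 i * (y i * w none + (X *ᵥ (fun i => w (some i))) i) =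
            (y ⬝ᵥ u0) * w none + ∑ i, u0 i * (X *ᵥ (fun i => w (some i))) i := by
          simp only [dotProduct, Finset.sum_mul]
          rw [← Finset.sum_add_distrib]
          apply Finset.sum_congr rfl
          intro i _
          ring
        rw [h4, h5, add_zero] at h7
        exact h7.symm
      rcases mul_eq_zero.1 h6 with h7 | h7
      · exact absurd h7 (hy u0 hu0 hXu0)
      · exact h7
    have h4 : X *ᵥ (fun i => w (some i)) = 0 := by
      ext i
      have := h2 i
      rw [h3, mul_zero, zero_add] at this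
      exact this
    have h5 : (fun i => w (some i)) ≠ 0 := by
      intro h
      apply hw0
      ext o
      rcases o with _ | i
      · exact h3
      · exact congrFun h i
    exact hz _ h5 h4 h1

theorem zmod2_eq_of_ne_iff {a b : ZMod 2} (h : a ≠ 0 ↔ b ≠ 0) : a = b := by
  revert a b
  decide

/-- H6-4a. Proof: Let c(z) be: for all u ≠ 0 with X u = 0 we have z · u ≠ 0. Claim: det (bd X y z) ≠ 0 iff c(y) and c(z).
(=>) if c(z) fails with u, then (0, u) is in the kernel of bd X y z; if c(y) fails use the transpose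
((bd X y z)ᵀ = bd X z y since X is symmetric). (<=) take u0 ≠ 0 with X u0 = 0 (det X = 0,
`Matrix.exists_mulVec_eq_zero_iff`). If bd X y z (c, s) = 0, i.e. c y + X s = 0 and z · s = 0, then
c (y · u0) = 0 by pairing with u0 (X symmetric), so c = 0 by c(y), so X s = 0 and z · s = 0,
so s = 0 by c(z). Over ZMod 2 a value is 0 or 1, so det bd(y,z) = [c(y)][c(z)]. -/
theorem bordered {n : Type*} [Fintype n] [DecidableEq n] (X : Matrix n n (ZMod 2))
    (hX : Xᵀ = X) (h0 : X.det = 0) (y z : n → ZMod 2) :
    (bd X y z).det = (bd X y y).det * (bd X z z).det := by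
  apply zmod2_eq_of_ne_iff
  rw [mul_ne_zero_iff, bd_det_ne_zero X hX h0, bd_det_ne_zero X hX h0, bd_det_ne_zero X hX h0]
  tauto

variable {E M : Type*} [Fintype E] [DecidableEq E] [Fintype M] [DecidableEq M]

theorem zmod2_mul_self (a : ZMod 2) : a * a = a := by
  revert a
  decide

theorem Psi_eq_det (B : E → M → ZMod 2) (a : E → ZMod 2) :
    Psi B a = (fromBlocks (diagonal a) (of B) (of B)ᵀ 0).det := by
  rw [det_formula]
  unfold Psi
  apply Finset.sum_congr rfl
  intro S _
  rw [zmod2_mul_self]

theorem Q_eq_det (B : E → M → ZMod 2) (a : E → ZMod 2) (y z : M → ZMod 2) :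
    Q B a y z = (fromBlocks (diagonal (fun o : Option E => o.elim 0 a)) (of (addv B y))
      (of (addv B z))ᵀ 0).det := by
  rw [det_formula]
  unfold Q al
  have hsplit : ∑ S : Finset (Option E), pm (addv B y) S * pm (addv B z) S *
      ∏ e ∈ Sᶜ, (Option.elim e 0 a) =
      ∑ S ∈ (univ : Finset (Finset (Option E))).filter (fun S => none ∈ S),
        pm (addv B y) S * pm (addv B z) S * ∏ e ∈ Sᶜ, (Option.elim e 0 a) := by
    symm
    apply Finset.sum_subset (Finset.filter_subset _ _)
    intro S _ hS
    have h1 : none ∈ Sᶜ := by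
      rw [Finset.mem_compl]
      intro h
      exact hS (Finset.mem_filter.2 ⟨Finset.mem_univ _, h⟩)
    rw [Finset.prod_eq_zero h1 rfl, mul_zero]
  rw [hsplit]
  apply Finset.sum_bij (fun F _ => insertNone F)
  · intro F _
    rw [Finset.mem_filter]
    exact ⟨Finset.mem_univ _, by simp⟩
  · intro F _ F' _ h
    ext e
    have := congrArg (fun S => some e ∈ S) h
    simpa using this
  · intro S hS
    refine ⟨eraseNone S, Finset.mem_univ _, ?_⟩
    rw [Finset.insertNone_eraseNone]
    exact Finset.insert_eq_of_mem (Finset.mem_filter.1 hS).2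
  · intro F _
    congr 1
    have h1 : (insertNone F)ᶜ = Fᶜ.map Function.Embedding.some := by
      ext o
      rcases o with _ | e
      · simp
      · simp
    rw [h1, Finset.prod_map]
    rfl

/-- H6-4b. Proof: X = fromBlocks (diagonal a) (of B) (of B)ᵀ 0 has determinant Psi B a
(`det_formula` with C = B, pm * pm = pm), and Q B a y z is the determinant of
fromBlocks (diagonal (none ↦ 0, some e ↦ a e)) (of (addv B y)) (of (addv B z))ᵀ 0
(`det_formula` on `Option E`: subsets S not containing none get the factor a none = 0, the others are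
S = insertNone F), which is (up to reindexing Option E ⊕ M ≃ Option (E ⊕ M)) the bordered matrix
bd X (Sum.elim 0 z) (Sum.elim 0 y) or bd X (Sum.elim 0 y) (Sum.elim 0 z). Then `bordered`. -/
theorem dodgson (B : E → M → ZMod 2) (a : E → ZMod 2) (h : Psi B a = 0) (y z : M → ZMod 2) :
    Q B a y z = Q B a y y * Q B a z z := by
  set X : Matrix (E ⊕ M) (E ⊕ M) (ZMod 2) := fromBlocks (diagonal a) (of B) (of B)ᵀ 0 with hX
  have hXs : Xᵀ = X := by
    rw [hX, fromBlocks_transpose, diagonal_transpose, transpose_transpose, transpose_zero]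
  have hdet : X.det = 0 := by
    rw [hX, ← Psi_eq_det]
    exact h
  -- reindexing
  let u : Option (E ⊕ M) ≃ Option E ⊕ M :=
    { toFun := fun o => match o with
        | none => .inl none
        | some (.inl e) => .inl (some e)
        | some (.inr x) => .inr x
      invFun := fun o => match o with
        | .inl none => none
        | .inl (some e) => some (.inl e)
        | .inr x => some (.inr x)
      left_inv := by rintro (_ | (e | x)) <;> rfl
      right_inv := by rintro ((_ | e) | x) <;> rfl }
  have hQ : ∀ y z : M → ZMod 2, Q B a y z = (bd X (Sum.elim 0 z) (Sum.elim 0 y)).det := by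
    intro y z
    rw [Q_eq_det, ← Matrix.det_submatrix_equiv_self u]
    congr 1
    ext i j
    rcases i with _ | (e | x) <;> rcases j with _ | (e' | x')
    · simp [u, bd]
    · simp [u, bd, diagonal]
    · simp [u, bd, addv]
    · simp [u, bd, diagonal]
    · by_cases hee : e = e'
      · subst hee
        simp [u, bd, hX]
      · simp [u, bd, hX, diagonal, hee]
    · simp [u, bd, hX, addv]
    · simp [u, bd, addv]
    · simp [u, bd, hX, addv]
    · simp [u, bd, hX]
  rw [hQ, hQ, hQ, bordered X hXs hdet, mul_comm]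

end MP06b
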