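import Pool.Agent.Lib.MP_06b34c_co.GDefs

namespace MP06b
open Finset

variable {V : Type*} [Fintype V] [DecidableEq V]

/-- Elements related by the involution. -/
private def Inv_rel {W : Type*} (σ : W → W) (hσ : ∀ a, σ (σ a) = a) : Setoid W where
  r a b := b = a ∨ b = σ a
  iseqv := by
    refine ⟨fun a => Or.inl rfl, ?_, ?_⟩
    · rintro a b (h | h)
      · exact Or.inl h.symm
      · right
        rw [h, hσ]
    · rintro a b c (h | h) (h' | h')
      · left; rw [h', h]
      · right; rw [h', h]
      · right; rw [h', h]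
      · left; rw [h', h, hσ]

/-- An involution with three fixed points acting on a cycle is trivial. -/
private theorem Inv_key {W : Type*} [Fintype W] (C : SimpleGraph W)
    (hconn : C.Connected) (hdeg : ∀ a, (C.neighborSet a).ncard = 2) (σ : W → W)
    (hσ : ∀ a, σ (σ a) = a) (hinv : ∀ a b, C.Adj (σ a) (σ b) ↔ C.Adj a b)
    (hne : ∃ a, σ a ≠ a) (x y z : W) (hx : σ x = x) (hy : σ y = y) (hz : σ z = z)
    (hxy : x ≠ y) (hxz : x ≠ z) (hyz : y ≠ z) : False := by
  classical
  -- neighbours of a fixed vertex with a fixed neighbour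
  have L1 : ∀ c d, σ c = c → C.Adj c d → σ d = d → ∀ e, C.Adj c e → σ e = e := by
    intro c d hc hcd hd e hce
    by_cases hed : e = d
    · rw [hed]; exact hd
    obtain ⟨p, q, hpq, hN⟩ := Set.ncard_eq_two.1 (hdeg c)
    have hσe : C.Adj c (σ e) := by
      have := (hinv c e).2 hce
      rwa [hc] at this
    have h1 : d ∈ C.neighborSet c := hcd
    have h2 : e ∈ C.neighborSet c := hce
    have h3 : σ e ∈ C.neighborSet c := hσe
    rw [hN, Set.mem_insert_iff, Set.mem_singleton_iff] at h1 h2 h3
    have h4 : σ e ≠ d := by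
      intro h
      apply hed
      have := congrArg σ h
      rw [hσ, hd] at this
      exact this
    rcases h1 with h1 | h1 <;> rcases h2 with h2 | h2 <;> rcases h3 with h3 | h3 <;>
      first
        | (exfalso; apply hed; rw [h2, h1]; done)
        | (exfalso; apply h4; rw [h3, h1]; done)
        | (rw [h3, h2])
  -- no two adjacent fixed vertices
  have hP : ∀ a b, C.Adj a b → σ a = a → σ b = b → False := by
    intro a b hab ha hb
    have hall : ∀ a c, C.Reachable a c → (σ a = a ∧ ∀ d, C.Adj a d → σ d = d) →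
        (σ c = c ∧ ∀ d, C.Adj c d → σ d = d) := by
      intro a c hc
      obtain ⟨w⟩ := hc
      induction w with
      | nil => exact fun h => h
      | @cons u v' w' h _ ih =>
        rintro ⟨hu, hu'⟩
        have hv' := hu' _ h
        exact ih ⟨hv', L1 v' u hv' h.symm hu⟩
    obtain ⟨c, hc⟩ := hne
    exact hc (hall a c (hconn.preconnected a c) ⟨ha, L1 a b ha hab hb⟩).1
  let r : Setoid W := Inv_rel σ hσ
  have hr : ∀ a b : W, (Quotient.mk r a = Quotient.mk r b) ↔ (b = a ∨ b = σ a) := by
    intro a b
    rw [Quotient.eq]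
    exact Iff.rfl
  let Γ : SimpleGraph (Quotient r) :=
    { Adj := fun p q => p ≠ q ∧ ∃ a b, Quotient.mk r a = p ∧ Quotient.mk r b = q ∧ C.Adj a b
      symm := by
        refine ⟨fun p q h => ?_⟩
        obtain ⟨h1, a, b, h2, h3, h4⟩ := h
        exact ⟨h1.symm, b, a, h3, h2, h4.symm⟩
      loopless := ⟨fun p h => h.1 rfl⟩ }
  have hΓconn : Γ.Connected := by
    have hreach : ∀ a b, C.Reachable a b → Γ.Reachable (Quotient.mk r a) (Quotient.mk r b) := by
      intro a b hab
      obtain ⟨w⟩ := hab
      induction w with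
      | nil => exact SimpleGraph.Reachable.refl _
      | @cons u v' w' h _ ih =>
        by_cases hq : Quotient.mk r u = Quotient.mk r v'
        · rw [hq]; exact ih
        · have hadj : Γ.Adj (Quotient.mk r u) (Quotient.mk r v') := ⟨hq, u, v', rfl, rfl, h⟩
          exact hadj.reachable.trans ih
    have : Nonempty W := ⟨x⟩
    refine { preconnected := ?_, nonempty := ⟨Quotient.mk r x⟩ }
    intro p q
    induction p using Quotient.inductionOn with
    | h a =>
      induction q using Quotient.inductionOn with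
      | h b => exact hreach a b (hconn.preconnected a b)
  -- degrees
  have hnb : ∀ a : W, Γ.neighborSet (Quotient.mk r a) ⊆ (Quotient.mk r) '' (C.neighborSet a) := by
    intro a p hp
    obtain ⟨-, a', b', h1, h2, h3⟩ := hp
    rw [eq_comm, hr] at h1
    rcases h1 with h1 | h1
    · subst h1
      exact ⟨b', h3, h2⟩
    · subst h1
      refine ⟨σ b', ?_, ?_⟩
      · have := (hinv a (σ b')).1
        rw [hσ] at this
        exact this h3
      · rw [← h2, hr]
        right
        rw [hσ]
  have hfin : ∀ a : W, (C.neighborSet a).Finite := fun a => Set.toFinite _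
  have hd2 : ∀ p : Quotient r, Γ.degree p ≤ 2 := by
    intro p
    induction p using Quotient.inductionOn with
    | h a =>
      rw [← SimpleGraph.card_neighborSet_eq_degree, ← Nat.card_eq_fintype_card, Nat.card_coe_set_eq]
      calc (Γ.neighborSet (Quotient.mk r a)).ncard
          ≤ ((Quotient.mk r) '' (C.neighborSet a)).ncard :=
            Set.ncard_le_ncard (hnb a) ((hfin a).image _)
        _ ≤ (C.neighborSet a).ncard := Set.ncard_image_le (hfin a)
        _ = 2 := hdeg a
  have hd1 : ∀ a : W, σ a = a → Γ.degree (Quotient.mk r a) ≤ 1 := by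
    intro a ha
    rw [← SimpleGraph.card_neighborSet_eq_degree, ← Nat.card_eq_fintype_card, Nat.card_coe_set_eq]
    obtain ⟨p, q, hpq, hN⟩ := Set.ncard_eq_two.1 (hdeg a)
    have h1 : p ∈ C.neighborSet a := by rw [hN]; simp
    have hσp : C.Adj a (σ p) := by
      have := (hinv a p).2 h1
      rwa [ha] at this
    have h2 : σ p ∈ C.neighborSet a := hσp
    rw [hN, Set.mem_insert_iff, Set.mem_singleton_iff] at h2
    rcases h2 with h2 | h2
    · exact (hP a p h1 ha h2).elim
    · have himg : (Quotient.mk r) '' (C.neighborSet a) = {Quotient.mk r p} := by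
        rw [hN, Set.image_pair]
        have : Quotient.mk r q = Quotient.mk r p := by
          rw [eq_comm, hr]
          right
          exact h2.symm
        rw [this]
        simp
      calc (Γ.neighborSet (Quotient.mk r a)).ncard
          ≤ ((Quotient.mk r) '' (C.neighborSet a)).ncard :=
            Set.ncard_le_ncard (hnb a) ((hfin a).image _)
        _ = 1 := by rw [himg, Set.ncard_singleton]
  -- three distinct classes of degree at most one
  have hsum : ∑ p, Γ.degree p + 3 ≤ 2 * Fintype.card (Quotient r) := by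
    let T : Finset (Quotient r) := {Quotient.mk r x, Quotient.mk r y, Quotient.mk r z}
    have hne1 : Quotient.mk r x ≠ Quotient.mk r y := by
      rw [Ne, hr]
      rintro (h | h)
      · exact hxy h.symm
      · rw [hx] at h; exact hxy h.symm
    have hne2 : Quotient.mk r x ≠ Quotient.mk r z := by
      rw [Ne, hr]
      rintro (h | h)
      · exact hxz h.symm
      · rw [hx] at h; exact hxz h.symm
    have hne3 : Quotient.mk r y ≠ Quotient.mk r z := by
      rw [Ne, hr]
      rintro (h | h)
      · exact hyz h.symm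
      · rw [hy] at h; exact hyz h.symm
    have hT : T.card = 3 := Finset.card_eq_three.2 ⟨_, _, _, hne1, hne2, hne3, rfl⟩
    have h1 : ∑ p, (Γ.degree p + if p ∈ T then 1 else 0) ≤ ∑ _p : Quotient r, 2 := by
      refine Finset.sum_le_sum fun p _ => ?_
      by_cases hp : p ∈ T
      · rw [if_pos hp]
        have : Γ.degree p ≤ 1 := by
          simp only [T, Finset.mem_insert, Finset.mem_singleton] at hp
          rcases hp with rfl | rfl | rfl
          · exact hd1 x hx
          · exact hd1 y hy
          · exact hd1 z hz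
        omega
      · rw [if_neg hp]
        have := hd2 p
        omega
    rw [Finset.sum_add_distrib, Finset.sum_const, Finset.card_univ, smul_eq_mul] at h1
    have h2 : ∑ p : Quotient r, (if p ∈ T then 1 else 0) = 3 := by
      rw [Finset.sum_ite_mem, Finset.univ_inter, Finset.sum_const, hT]
      rfl
    rw [h2] at h1
    omega
  have h1 := hΓconn.card_vert_le_card_edgeSet_add_one
  rw [SimpleGraph.sum_degrees_eq_twice_card_edges] at hsum
  rw [Nat.card_eq_fintype_card, Nat.card_eq_fintype_card, ← SimpleGraph.edgeFinset_card] at h1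
  omega

/-- H6-22a. An involution σ of V fixing v and r, preserving the good cycle C, and fixing three more vertices x, y, z is the identity.
Proof: the quotient of the cycle by σ is connected with all degrees at most two and degree at most one at the classes of x, y, z. -/
theorem no_invariant_cycle (G : SimpleGraph V) (σ : V → V) (h2 : ∀ x, σ (σ x) = x)
    (hne : ∃ x, σ x ≠ x) (v r : V) (hvr : v ≠ r) (hv : σ v = v) (hr : σ r = r)
    (x y z : V) (hx : σ x = x) (hy : σ y = y) (hz : σ z = z)
    (hd : [v, r, x, y, z].Nodup) (C : SimpleGraph V) (hC : IsGoodCycle G v r C)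
    (hinv : ∀ a b, C.Adj (σ a) (σ b) ↔ C.Adj a b) : False := by
  classical
  obtain ⟨-, hCv, hCr, hdeg, hconn, -⟩ := hC
  have hinj : ∀ a b, σ a = σ b → a = b := fun a b h => by
    have := congrArg σ h
    rwa [h2, h2] at this
  have hS : ∀ a : {a : V | a ≠ v ∧ a ≠ r}, σ a ≠ v ∧ σ a ≠ r := by
    rintro ⟨a, ha⟩
    refine ⟨fun h => ha.1 (hinj _ _ (h.trans hv.symm)), fun h => ha.2 (hinj _ _ (h.trans hr.symm))⟩
  simp only [List.nodup_cons, List.mem_cons, List.not_mem_nil, or_false, not_or,
    List.nodup_nil, and_true, not_false_eq_true] at hd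
  obtain ⟨⟨-, hvx, hvy, hvz⟩, ⟨hrx, hry, hrz⟩, ⟨hxy, hxz⟩, hyz⟩ := hd
  refine Inv_key (C.induce {a | a ≠ v ∧ a ≠ r}) hconn ?_ (fun a => ⟨σ a, hS a⟩) ?_ ?_ ?_
    ⟨x, Ne.symm hvx, Ne.symm hrx⟩ ⟨y, Ne.symm hvy, Ne.symm hry⟩ ⟨z, Ne.symm hvz, Ne.symm hrz⟩
    ?_ ?_ ?_ ?_ ?_ ?_
  · rintro ⟨a, ha⟩
    rw [← hdeg a ha.1 ha.2]
    have himg : (C.neighborSet a) = Subtype.val ''
        ((C.induce {a | a ≠ v ∧ a ≠ r}).neighborSet ⟨a, ha⟩) := by
      ext b
      constructor
      · intro hb
        have hb' : C.Adj a b := hb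
        refine ⟨⟨b, ?_, ?_⟩, hb', rfl⟩
        · rintro rfl
          exact hCv a hb'.symm
        · rintro rfl
          exact hCr a hb'.symm
      · rintro ⟨b', hb', rfl⟩
        exact hb'
    rw [himg, Set.ncard_image_of_injective _ Subtype.val_injective]
  · rintro ⟨a, ha⟩
    exact Subtype.ext (h2 a)
  · rintro ⟨a, ha⟩ ⟨b, hb⟩
    exact hinv a b
  · obtain ⟨a, ha⟩ := hne
    refine ⟨⟨a, ?_, ?_⟩, fun h => ha (congrArg Subtype.val h)⟩
    · rintro rfl
      exact ha hv
    · rintro rfl
      exact ha hr
  · exact Subtype.ext hx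
  · exact Subtype.ext hy
  · exact Subtype.ext hz
  · exact fun h => hxy (congrArg Subtype.val h)
  · exact fun h => hxz (congrArg Subtype.val h)
  · exact fun h => hyz (congrArg Subtype.val h)

/-- good cycles are preserved by automorphisms fixing `v` and `r` -/
private theorem Inv_comap (G : SimpleGraph V) (σ : G ≃g G) (v r : V) (hv : σ v = v) (hr : σ r = r)
    (C : SimpleGraph V) (hC : IsGoodCycle G v r C) : IsGoodCycle G v r (C.comap σ) := by
  obtain ⟨hle, hCv, hCr, hdeg, hconn, htree⟩ := hC
  have hinj : Function.Injective σ := σ.injective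
  have hv' : ∀ x, σ x = v ↔ x = v := fun x => by
    constructor
    · intro h
      exact hinj (h.trans hv.symm)
    · rintro rfl
      exact hv
  have hr' : ∀ x, σ x = r ↔ x = r := fun x => by
    constructor
    · intro h
      exact hinj (h.trans hr.symm)
    · rintro rfl
      exact hr
  refine ⟨?_, ?_, ?_, ?_, ?_, ?_⟩
  · intro a b hab
    exact σ.map_rel_iff.1 (hle hab)
  · intro x hx
    have : C.Adj (σ v) (σ x) := hx
    rw [hv] at this
    exact hCv _ this
  · intro x hx
    have : C.Adj (σ r) (σ x) := hx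
    rw [hr] at this
    exact hCr _ this
  · intro x hxv hxr
    rw [← hdeg (σ x) (fun h => hxv ((hv' x).1 h)) (fun h => hxr ((hr' x).1 h))]
    have himg : C.neighborSet (σ x) = σ '' ((C.comap σ).neighborSet x) := by
      ext b
      constructor
      · intro hb
        refine ⟨σ.symm b, ?_, σ.apply_symm_apply b⟩
        show C.Adj (σ x) (σ (σ.symm b))
        rw [σ.apply_symm_apply]
        exact hb
      · rintro ⟨b', hb', rfl⟩
        exact hb'
    rw [himg, Set.ncard_image_of_injective _ hinj]
  · have e : ((C.comap σ).induce {x | x ≠ v ∧ x ≠ r}) ≃g (C.induce {x | x ≠ v ∧ x ≠ r}) :=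
      { toEquiv := σ.toEquiv.subtypeEquiv (fun x => by
          show (x ≠ v ∧ x ≠ r) ↔ (σ x ≠ v ∧ σ x ≠ r)
          rw [Ne, Ne, Ne, Ne, hv' x, hr' x])
        map_rel_iff' := by
          rintro ⟨a, ha⟩ ⟨b, hb⟩
          exact Iff.rfl }
    exact e.connected_iff.2 hconn
  · have e : (del (G \ (C.comap σ)) v) ≃g (del (G \ C) v) :=
      { toEquiv := σ.toEquiv.subtypeEquiv (fun x => by
          show (x ≠ v) ↔ (σ x ≠ v)
          rw [Ne, Ne, hv' x])
        map_rel_iff' := by
          rintro ⟨a, ha⟩ ⟨b, hb⟩
          show (G.Adj (σ a) (σ b) ∧ ¬ C.Adj (σ a) (σ b)) ↔ (G.Adj a b ∧ ¬ C.Adj (σ a) (σ b))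
          have : G.Adj (σ a) (σ b) ↔ G.Adj a b := σ.map_rel_iff
          rw [this] }
    exact e.isTree_iff.2 htree

/-- H6-22b. Proof: σ acts on the finite set of good cycles (C ↦ C.map σ / comap, an involution, preserves IsGoodCycle since
σ is an automorphism of G fixing v, r) without fixed points by `no_invariant_cycle`, so the number is even. -/
theorem even_goodCycles (G : SimpleGraph V) (σ : G ≃g G) (h2 : ∀ x, σ (σ x) = x)
    (hne : ∃ x, σ x ≠ x) (v r : V) (hvr : v ≠ r) (hv : σ v = v) (hr : σ r = r)
    (x y z : V) (hx : σ x = x) (hy : σ y = y) (hz : σ z = z)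
    (hd : [v, r, x, y, z].Nodup) : Even (goodCycles G v r) := by
  classical
  let X := {C : SimpleGraph V // IsGoodCycle G v r C}
  let f : X → X := fun C => ⟨C.1.comap σ, Inv_comap G σ v r hv hr C.1 C.2⟩
  have hf : ∀ C, f (f C) = C := by
    rintro ⟨C, hC⟩
    apply Subtype.ext
    ext a b
    show C.Adj (σ (σ a)) (σ (σ b)) ↔ C.Adj a b
    rw [h2, h2]
  have hff : ∀ C, f C ≠ C := by
    rintro ⟨C, hC⟩ h
    refine no_invariant_cycle G σ h2 hne v r hvr hv hr x y z hx hy hz hd C hC fun a b => ?_
    have h1 := congrArg Subtype.val h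
    have h3 : (C.comap σ).Adj a b ↔ C.Adj a b := by
      have : C.comap σ = C := h1
      rw [this]
    exact h3
  have : Fintype X := Fintype.ofFinite X
  unfold goodCycles
  rw [Nat.card_eq_fintype_card]
  have hsum : ∑ _C : X, (1 : ZMod 2) = 0 := by
    refine Finset.sum_involution (fun C _ => f C) ?_ ?_ ?_ ?_
    · intro C _
      decide
    · intro C _ _
      exact hff C
    · intro C _
      exact Finset.mem_univ _
    · intro C _
      exact hf C
  rw [Finset.sum_const, Finset.card_univ, nsmul_eq_mul, mul_one] at hsum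
  exact (ZMod.natCast_eq_zero_iff_even).1 hsum

end MP06b
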