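import Pool.Agent.Lib.MP_06b34c_co.Symm
import Pool.Agent.Lib.MP_06b34c_co.Components
import Pool.Agent.Lib.MP_06b34c_co.Bipartite
import Pool.Agent.Lib.MP_06b34c_co.Involution

namespace MP06b
open Finset

variable {V : Type*} [Fintype V] [DecidableEq V]

omit [Fintype V] [DecidableEq V] in
theorem goodCycles_eq_zero (G : SimpleGraph V) (v r : V) (h : ∀ C, ¬ IsGoodCycle G v r C) :
    goodCycles G v r = 0 := by
  unfold goodCycles
  have : IsEmpty {C : SimpleGraph V // IsGoodCycle G v r C} := ⟨fun C => h C.1 C.2⟩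
  exact Nat.card_of_isEmpty

theorem c2_of_components3 (G : SimpleGraph V) (hG : ∀ x, (G.neighborSet x).ncard = 4)
    (S : Finset V) (hS : 3 ≤ S.card)
    (hc : S.card ≤ Nat.card (G.induce {x | x ∉ S}).ConnectedComponent + 1) (v : V) :
    c2 2 (del G v) = 0 := by
  obtain ⟨v', r', hv', hr', hne⟩ := (Finset.one_lt_card_iff (s := S)).1 (by omega)
  rw [c2_indep G hG v v', (main_c2 G hG v' r' hne).2,
    goodCycles_eq_zero G v' r' (fun C => no_cycle_of_components G v' r' hne S hv' hr' hS hc C)]
  simp

omit [Fintype V] [DecidableEq V] in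
theorem exists_ne_of_regular (G : SimpleGraph V) (hG : ∀ x, (G.neighborSet x).ncard = 4) (v : V) :
    ∃ r, v ≠ r := by
  have h : (G.neighborSet v).Nonempty := by
    rw [Set.nonempty_iff_ne_empty]
    intro h
    have := hG v
    rw [h] at this
    simp at this
  obtain ⟨w, hw⟩ := h
  exact ⟨w, SimpleGraph.Adj.ne hw⟩

theorem c2_of_components (G : SimpleGraph V) (hG : ∀ x, (G.neighborSet x).ncard = 4)
    (S : Finset V) (h2 : 2 ≤ Nat.card (G.induce {x | x ∉ S}).ConnectedComponent)
    (hc : S.card ≤ Nat.card (G.induce {x | x ∉ S}).ConnectedComponent + 1) (v : V) :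
    c2 2 (del G v) = 0 := by
  by_cases hS : 3 ≤ S.card
  · exact c2_of_components3 G hG S hS hc v
  have hconn : ¬ (G.induce {x | x ∉ S}).Connected := by
    intro h
    have hs : Subsingleton (G.induce {x | x ∉ S}).ConnectedComponent :=
      h.preconnected.subsingleton_connectedComponent
    have := Finite.card_le_one_iff_subsingleton.2 hs
    omega
  by_cases h2' : S.card = 2
  · obtain ⟨v', r', hne, rfl⟩ := Finset.card_eq_two.1 h2'
    rw [c2_indep G hG v v', (main_c2 G hG v' r' hne).2,
      goodCycles_eq_zero G v' r' (fun C hC => hconn ?_)]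
    · simp
    · have hs : {x : V | x ∉ ({v', r'} : Finset V)} = {x | x ≠ v' ∧ x ≠ r'} := by
        ext x; simp
      rw [hs]
      exact hC.2.2.2.2.1.mono (fun a b h => hC.1 h)
  · obtain ⟨v', hv'⟩ : ∃ v', S ⊆ {v'} := by
      rcases S.eq_empty_or_nonempty with rfl | ⟨v', hv'⟩
      · exact ⟨v, by simp⟩
      · refine ⟨v', ?_⟩
        have : S.card ≤ 1 := by omega
        intro x hx
        rw [mem_singleton]
        exact Finset.card_le_one.1 this x hx v' hv'
    obtain ⟨r', hne⟩ := exists_ne_of_regular G hG v'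
    rw [c2_indep G hG v v', (main_c2 G hG v' r' hne).2,
      goodCycles_eq_zero G v' r' (fun C hC => hconn ?_)]
    · simp
    · have h1 : (del G v').Connected := hC.2.2.2.2.2.connected.mono
        (fun a b (h : (G \ C).Adj a b) => (show G.Adj a b from ((SimpleGraph.sdiff_adj _ _ _ _).1 h).1))
      -- every vertex outside `S` is `v'` (then adjacent to something) or in `G - v'`
      obtain ⟨w, hw⟩ : ∃ w, G.Adj v' w := by
        have h : (G.neighborSet v').Nonempty := by
          rw [Set.nonempty_iff_ne_empty]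
          intro h
          have := hG v'
          rw [h] at this
          simp at this
        exact h
      have hwS : w ∉ S := fun h => hw.ne (by simpa using (mem_singleton.1 (hv' h)).symm)
      have key : ∀ x : {x : V // x ≠ v'}, (G.induce {x | x ∉ S}).Reachable ⟨w, hwS⟩
          ⟨x.1, fun h => x.2 (mem_singleton.1 (hv' h))⟩ := by
        intro x
        have := h1.preconnected ⟨w, hw.ne'⟩ x
        refine this.map (⟨fun y => ⟨y.1, fun h => y.2 (mem_singleton.1 (hv' h))⟩, ?_⟩ :
          del G v' →g G.induce {x | x ∉ S})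
        intro a b hab
        exact hab
      have : Nonempty ↑{x : V | x ∉ S} := ⟨⟨w, hwS⟩⟩
      have key2 : ∀ x : ↑{x : V | x ∉ S}, (G.induce {x | x ∉ S}).Reachable ⟨w, hwS⟩ x := by
        rintro ⟨x, hx⟩
        by_cases hxv : x = v'
        · subst hxv
          exact SimpleGraph.Adj.reachable (show G.Adj w x from hw.symm)
        · exact key ⟨x, hxv⟩
      exact ⟨fun a b => (key2 a).symm.trans (key2 b)⟩

theorem c2_of_bipartite (G : SimpleGraph V) (hG : ∀ x, (G.neighborSet x).ncard = 4)
    (hb : G.Colorable 2) (v : V) : c2 2 (del G v) = 0 := by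
  obtain ⟨c⟩ := hb
  obtain ⟨r, hr, hc⟩ := exists_same_color G hG c v
  rw [(main_c2 G hG v r hr.symm).2,
    goodCycles_eq_zero G v r (fun C => no_cycle_bipartite G hG c v r hr.symm hc C)]
  simp

theorem c2_of_involution (G : SimpleGraph V) (hG : ∀ x, (G.neighborSet x).ncard = 4)
    (σ : G ≃g G) (h2 : ∀ x, σ (σ x) = x) (hne : ∃ x, σ x ≠ x)
    (h5 : 5 ≤ Nat.card {x : V // σ x = x}) (v : V) : c2 2 (del G v) = 0 := by
  have hc : Fintype.card (Fin 5) ≤ Fintype.card {x : V // σ x = x} := by
    rw [Fintype.card_fin, ← Nat.card_eq_fintype_card]; exact h5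
  obtain ⟨f⟩ := Function.Embedding.nonempty_of_card_le hc
  have hf : ∀ i j, i ≠ j → (f i : V) ≠ f j := fun i j hij h => hij (f.injective (Subtype.ext h))
  have h01 : (f 0 : V) ≠ f 1 := hf _ _ (by decide)
  have he := even_goodCycles G σ h2 hne (f 0) (f 1) h01 (f 0).2 (f 1).2 (f 2) (f 3) (f 4)
    (f 2).2 (f 3).2 (f 4).2 (by
      simp only [List.nodup_cons, List.mem_cons, List.not_mem_nil, or_false, not_or,
        not_false_eq_true, List.nodup_nil, and_true]
      refine ⟨⟨hf _ _ (by decide), hf _ _ (by decide), hf _ _ (by decide), hf _ _ (by decide)⟩,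
        ⟨hf _ _ (by decide), hf _ _ (by decide), hf _ _ (by decide)⟩,
        ⟨hf _ _ (by decide), hf _ _ (by decide)⟩, hf _ _ (by decide)⟩)
  rw [c2_indep G hG v (f 0), (main_c2 G hG _ _ h01).2]
  exact (ZMod.natCast_eq_zero_iff_even).2 he

end MP06b
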