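import Mathlib

/-! # MP_06b34c: statement-level definitions -/

namespace MP06b

open scoped Classical in
/-- the (dual) Kirchhoff polynomial of `H` evaluated at `a`: the sum over the edge sets `T` of
spanning trees of `H` of the product of `a e` over the edges `e` outside `T` -/
noncomputable def kirchhoff {W : Type*} [Fintype W] (H : SimpleGraph W) {R : Type*} [CommRing R]
    (a : H.edgeSet → R) : R :=
  ∑ T : Finset H.edgeSet,
    if (SimpleGraph.fromEdgeSet ((fun e : H.edgeSet => (e : Sym2 W)) '' (T : Set H.edgeSet))).IsTree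
    then ∏ e ∈ Tᶜ, a e else 0

/-- the number of zeros over `ZMod p` of the Kirchhoff polynomial of `H` -/
noncomputable def zeros (p : ℕ) {W : Type*} [Fintype W] (H : SimpleGraph W) : ℕ :=
  Nat.card {a : H.edgeSet → ZMod p // kirchhoff H a = 0}

/-- the `c_2`-invariant of `H` at `p` -/
noncomputable def c2 (p : ℕ) {W : Type*} [Fintype W] (H : SimpleGraph W) : ZMod p :=
  ((zeros p H / p ^ 2 : ℕ) : ZMod p)

/-- the graph `G - v` -/
abbrev del {V : Type*} (G : SimpleGraph V) (v : V) : SimpleGraph {x : V // x ≠ v} :=
  G.induce {x | x ≠ v}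

/-- `C` is a Hamiltonian cycle of `G - v - r` (a spanning subgraph in which `v`, `r` are isolated,
all other vertices have degree two, and the part away from `v`, `r` is connected) such that removing
its edges from `G - v` leaves a spanning tree of `G - v` -/
def IsGoodCycle {V : Type*} (G : SimpleGraph V) (v r : V) (C : SimpleGraph V) : Prop :=
  C ≤ G ∧ (∀ x, ¬ C.Adj v x) ∧ (∀ x, ¬ C.Adj r x) ∧
  (∀ x, x ≠ v → x ≠ r → (C.neighborSet x).ncard = 2) ∧
  (C.induce {x | x ≠ v ∧ x ≠ r}).Connected ∧
  (del (G \ C) v).IsTree

/-- the number of Hamiltonian cycles `C` of `G - v - r` such that `G - v` without the edges of `C`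
is a spanning tree -/
noncomputable def goodCycles {V : Type*} (G : SimpleGraph V) (v r : V) : ℕ :=
  Nat.card {C : SimpleGraph V // IsGoodCycle G v r C}

end MP06b
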