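import Pool.Agent.Lib.MP_06b34c_co.Spl

namespace MP06b
open Finset

variable {E M : Type*} [Fintype E] [DecidableEq E] [Fintype M] [DecidableEq M]

private lemma meq_compl (S : Finset E) (J : Finset (Fin 3)) :
    (S.disjSum J)ᶜ = Sᶜ.disjSum Jᶜ := by
  ext x
  rcases x with x | x <;> simp

private lemma meq_univ : (univ : Finset (Finset (Fin 3))) =
    {∅, {0}, {1}, {2}, {1, 2}, {0, 2}, {0, 1}, {0, 1, 2}} := by decide

private lemma meq_val : ∀ y0 y1 y2 : ZMod 2,
    (if y1 + y2 = 1 then 1 else 0) + (if y0 + y2 = 1 then 1 else 0) + (if y0 + y1 = 1 then 1 else 0) =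
      2 * (if ¬ (y0 = y1 ∧ y1 = y2) then 1 else 0) := by decide

/-- H6-8. Proof: subsets of E ⊕ Fin 3 are S.disjSum J. J = ∅ and J = univ contribute nothing
(`pm_spl_empty`). J = {i}: condition pm B S = 1 and al (X j) Sᶜ + al (X k) Sᶜ = 1 ({j,k} = {i}ᶜ,
`pm_spl_one`, `pm_spl_two`); J = {j,k}: the same for the complement (S ↔ Sᶜ). For given S the number of i with
al (X j) Sᶜ ≠ al (X k) Sᶜ is 0 if the three values are equal and 2 otherwise. Total 4 * count. -/
theorem M_eq (B : E → M → ZMod 2) (X : Fin 3 → M → ZMod 2) :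
    (univ.filter fun S : Finset (E ⊕ Fin 3) => pm (spl B X) S = 1 ∧ pm (spl B X) Sᶜ = 1).card =
    4 * (univ.filter fun S : Finset E => pm B S = 1 ∧
        ¬ (al B (X 0) Sᶜ = al B (X 1) Sᶜ ∧ al B (X 1) Sᶜ = al B (X 2) Sᶜ)).card := by
  set P : Finset (E ⊕ Fin 3) → Prop := fun S => pm (spl B X) S = 1 ∧ pm (spl B X) Sᶜ = 1 with hP
  have hstep : (univ.filter fun S : Finset (E ⊕ Fin 3) => pm (spl B X) S = 1 ∧
      pm (spl B X) Sᶜ = 1).card =
      ∑ J : Finset (Fin 3), ∑ S : Finset E, if (pm (spl B X) (S.disjSum J) = 1 ∧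
        pm (spl B X) (Sᶜ.disjSum Jᶜ) = 1) then 1 else 0 := by
    have hpr := Fintype.sum_prod_type_right (fun p : Finset E × Finset (Fin 3) =>
      if (pm (spl B X) (p.1.disjSum p.2) = 1 ∧ pm (spl B X) (p.1ᶜ.disjSum p.2ᶜ) = 1) then 1 else 0)
    rw [card_filter]
    refine Eq.trans ?_ hpr
    refine Fintype.sum_equiv (Finset.sumEquiv (α := E) (β := Fin 3)).toEquiv _ _ fun S' => ?_
    have h1 : S'.toLeft.disjSum S'.toRight = S' := Finset.toLeft_disjSum_toRight
    have h2 : S'.toLeftᶜ.disjSum S'.toRightᶜ = S'ᶜ := by rw [← meq_compl, h1]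
    change _ = if (pm (spl B X) (S'.toLeft.disjSum S'.toRight) = 1 ∧
        pm (spl B X) (S'.toLeftᶜ.disjSum S'.toRightᶜ) = 1) then 1 else 0
    rw [h1, h2]
  have hcompl : ∀ f : Finset E → Finset E → ℕ, ∑ S : Finset E, f S Sᶜ = ∑ S : Finset E, f Sᶜ S := by
    intro f
    refine Fintype.sum_equiv (Equiv.mk compl compl compl_compl compl_compl) _ _ fun S => ?_
    simp
  have c0 : ({0} : Finset (Fin 3))ᶜ = {1, 2} := by decide
  have c1 : ({1} : Finset (Fin 3))ᶜ = {0, 2} := by decide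
  have c2 : ({2} : Finset (Fin 3))ᶜ = {0, 1} := by decide
  have c3 : ({1, 2} : Finset (Fin 3))ᶜ = {0} := by decide
  have c4 : ({0, 2} : Finset (Fin 3))ᶜ = {1} := by decide
  have c5 : ({0, 1} : Finset (Fin 3))ᶜ = {2} := by decide
  have c6 : ({0, 1, 2} : Finset (Fin 3))ᶜ = ∅ := by decide
  rw [hstep, meq_univ, sum_insert (by decide), sum_insert (by decide), sum_insert (by decide),
    sum_insert (by decide), sum_insert (by decide), sum_insert (by decide), sum_insert (by decide),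
    sum_singleton, c0, c1, c2, c3, c4, c5, c6]
  simp only [pm_spl_empty, pm_spl_one, pm_spl_two B X _ 1 2 (by decide),
    pm_spl_two B X _ 0 2 (by decide), pm_spl_two B X _ 0 1 (by decide), zero_ne_one, false_and,
    and_false, if_false, sum_const_zero, zero_add, add_zero]
  have e1 : ∀ j k : Fin 3, ∑ S : Finset E, (if (al B (X j) S + al B (X k) S = 1 ∧ pm B Sᶜ = 1)
      then 1 else 0) = ∑ S : Finset E, (if (pm B S = 1 ∧ al B (X j) Sᶜ + al B (X k) Sᶜ = 1)
      then 1 else 0) := by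
    intro j k
    rw [hcompl (fun S T => if (al B (X j) S + al B (X k) S = 1 ∧ pm B T = 1) then 1 else 0)]
    refine sum_congr rfl fun S _ => ?_
    simp only [and_comm]
  rw [e1, e1, e1, card_filter, mul_sum]
  rw [← sum_add_distrib, ← sum_add_distrib, ← sum_add_distrib, ← sum_add_distrib,
    ← sum_add_distrib]
  refine sum_congr rfl fun S _ => ?_
  have hv := meq_val (al B (X 0) Sᶜ) (al B (X 1) Sᶜ) (al B (X 2) Sᶜ)
  by_cases hS : pm B S = 1
  · simp only [hS, true_and]
    omega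
  · simp only [hS, false_and, if_false]
    norm_num

end MP06b
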