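import Pool.Agent.Lib.MP_06b34c_co.Tree

namespace MP06b
open Finset

variable {V : Type*} [Fintype V] [DecidableEq V]

/-- the subgraph of `G` on `V` given by a set of edges of `G - v` -/
private def toG (G : SimpleGraph V) (v : V) (C : Finset (del G v).edgeSet) : SimpleGraph V where
  Adj x y := ∃ (hx : x ≠ v) (hy : y ≠ v) (h : s((⟨x, hx⟩ : {x : V // x ≠ v}), ⟨y, hy⟩) ∈ (del G v).edgeSet),
    (⟨_, h⟩ : (del G v).edgeSet) ∈ C
  symm := by
    constructor
    rintro x y ⟨hx, hy, h, hC⟩
    refine ⟨hy, hx, ?_, ?_⟩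
    · rw [Sym2.eq_swap]; exact h
    · convert hC using 2
      rw [Sym2.eq_swap]
  loopless := by
    constructor
    rintro x ⟨hx, hy, h, hC⟩
    exact (del G v).not_isDiag_of_mem_edgeSet h rfl

omit [Fintype V] [DecidableEq V] in
private theorem toG_adj (G : SimpleGraph V) (v : V) (C : Finset (del G v).edgeSet)
    (x y : {x : V // x ≠ v}) : (toG G v C).Adj x y ↔ ∃ e ∈ C, (e : Sym2 {x : V // x ≠ v}) = s(x, y) := by
  constructor
  · rintro ⟨hx, hy, h, hC⟩
    exact ⟨_, hC, rfl⟩
  · rintro ⟨⟨e, he⟩, hC, rfl⟩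
    exact ⟨x.2, y.2, he, hC⟩

omit [Fintype V] [DecidableEq V] in
private theorem toG_not_adj (G : SimpleGraph V) (v : V) (C : Finset (del G v).edgeSet)
    (x : V) : ¬ (toG G v C).Adj v x := by
  rintro ⟨hx, -⟩
  exact hx rfl

omit [Fintype V] [DecidableEq V] in
private theorem toG_le (G : SimpleGraph V) (v : V) (C : Finset (del G v).edgeSet) :
    toG G v C ≤ G := by
  rintro x y ⟨hx, hy, h, -⟩
  exact h

open scoped Classical in
private noncomputable def ofG (G : SimpleGraph V) (v : V) (C : SimpleGraph V) : Finset (del G v).edgeSet :=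
  univ.filter fun e => (e : Sym2 {x : V // x ≠ v}) ∈ (del C v).edgeSet

private theorem toG_ofG (G : SimpleGraph V) (v : V) (C : SimpleGraph V) (hC : C ≤ G)
    (hv : ∀ x, ¬ C.Adj v x) : toG G v (ofG G v C) = C := by
  ext x y
  constructor
  · rintro ⟨hx, hy, h, hm⟩
    simp only [ofG, mem_filter, mem_univ, true_and] at hm
    exact hm
  · intro h
    have hx : x ≠ v := by rintro rfl; exact hv _ h
    have hy : y ≠ v := by rintro rfl; exact hv _ h.symm
    refine ⟨hx, hy, hC h, ?_⟩
    simp only [ofG, mem_filter, mem_univ, true_and]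
    exact h

private theorem ofG_toG (G : SimpleGraph V) (v : V) (C : Finset (del G v).edgeSet) :
    ofG G v (toG G v C) = C := by
  ext ⟨e, he⟩
  induction e with
  | _ x y =>
    simp only [ofG, mem_filter, mem_univ, true_and]
    show (toG G v C).Adj x y ↔ _
    rw [toG_adj]
    constructor
    · rintro ⟨⟨e, he'⟩, hC, h⟩
      convert hC using 2
      exact h.symm
    · intro h
      exact ⟨_, h, rfl⟩

open scoped Classical in
private theorem good_iff (G : SimpleGraph V) (v : V) (r : {x : V // x ≠ v})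
    (h3 : ∃ x : V, x ≠ v ∧ x ≠ r) (C : Finset (del G v).edgeSet) :
    IsGoodCycle G v r (toG G v C) ↔
      (IsHam (fun e : (del G v).edgeSet => (e : Sym2 {x : V // x ≠ v})) r C ∧
      pm (inc (fun e : (del G v).edgeSet => (e : Sym2 {x : V // x ≠ v})) r) Cᶜ = 1) := by
  have c3 : (∀ x, ¬ (toG G v C).Adj r x) ↔ ∀ e ∈ C, r ∉ (e : Sym2 {x : V // x ≠ v}) := by
    constructor
    · intro h e he hr
      obtain ⟨y, hy⟩ := Sym2.mem_iff_exists.1 hr
      exact h y ((toG_adj G v C r y).2 ⟨e, he, hy⟩)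
    · intro h x hx
      have hxv : x ≠ v := by
        rintro rfl
        exact toG_not_adj G _ C _ hx.symm
      obtain ⟨e, he, heq⟩ := (toG_adj G v C r ⟨x, hxv⟩).1 hx
      exact h e he (by rw [heq]; simp)
  have c4 : ∀ x : {x : V // x ≠ v}, ((toG G v C).neighborSet x).ncard =
      (C.filter fun e : (del G v).edgeSet => x ∈ (e : Sym2 {x : V // x ≠ v})).card := by
    intro x
    rw [Set.ncard_eq_toFinset_card']
    symm
    refine card_bij' (fun e he => ((Sym2.Mem.other' (a := x) (z := (e : Sym2 {x : V // x ≠ v})) (by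
      simp only [mem_filter] at he; exact he.2) : {x : V // x ≠ v}) : V))
      (fun y hy => ⟨s(x, ⟨y, by
          simp only [Set.mem_toFinset, SimpleGraph.mem_neighborSet] at hy
          rintro rfl
          exact toG_not_adj G _ C _ hy.symm⟩), by
          simp only [Set.mem_toFinset, SimpleGraph.mem_neighborSet] at hy
          exact toG_le G v C hy⟩) ?_ ?_ ?_ ?_
    · intro e he
      simp only [mem_filter] at he
      simp only [Set.mem_toFinset, SimpleGraph.mem_neighborSet]
      rw [toG_adj]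
      exact ⟨e, he.1, (Sym2.other_spec' he.2).symm⟩
    · intro y hy
      simp only [Set.mem_toFinset, SimpleGraph.mem_neighborSet] at hy
      obtain ⟨hx, hyv, h, hC⟩ := hy
      simp only [mem_filter]
      exact ⟨hC, by simp⟩
    · intro e he
      simp only [mem_filter] at he
      exact Subtype.ext (Sym2.other_spec' he.2)
    · intro y hy
      have hyv : y ≠ v := by
        simp only [Set.mem_toFinset, SimpleGraph.mem_neighborSet] at hy
        rintro rfl
        exact toG_not_adj G _ C _ hy.symm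
      have : x ∈ s(x, (⟨y, hyv⟩ : {x : V // x ≠ v})) := by simp
      have h := Sym2.other_spec' this
      have h2 := Sym2.congr_right.1 h
      exact congrArg Subtype.val h2
  have c4' : (∀ x, x ≠ v → x ≠ (r : V) → ((toG G v C).neighborSet x).ncard = 2) ↔
      ∀ x : {x : V // x ≠ v}, x ≠ r → (C.filter fun e : (del G v).edgeSet => x ∈ (e : Sym2 {x : V // x ≠ v})).card = 2 := by
    constructor
    · intro h x hx
      rw [← c4]
      exact h x x.2 (fun h => hx (Subtype.ext h))
    · intro h x hx hr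
      have := h ⟨x, hx⟩ (fun h => hr (congrArg Subtype.val h))
      rw [← c4] at this
      exact this
  have c5 : (∀ e ∈ C, r ∉ (e : Sym2 {x : V // x ≠ v})) →
      (((toG G v C).induce {x | x ≠ v ∧ x ≠ (r : V)}).Connected ↔
      (∀ Y : Set {x : V // x ≠ v}, r ∉ Y → (∃ x, x ∈ Y) → (∃ x, x ≠ r ∧ x ∉ Y) →
        ∃ e ∈ C, ∃ x ∈ Y, ∃ y ∉ Y, (e : Sym2 {x : V // x ≠ v}) = s(x, y))) := by
    intro hrC
    constructor
    · rintro h Y hrY ⟨x, hx⟩ ⟨z, hzr, hzY⟩
      have hxr : (x : V) ≠ r := fun h => hrY (by rwa [← Subtype.ext h])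
      have hzr' : (z : V) ≠ r := fun h => hzr (Subtype.ext h)
      obtain ⟨p⟩ := h.preconnected ⟨x, x.2, hxr⟩ ⟨z, z.2, hzr'⟩
      obtain ⟨d, -, h1, h2⟩ := p.exists_boundary_dart {y | (⟨y.1, y.2.1⟩ : {x : V // x ≠ v}) ∈ Y} hx hzY
      have hadj : (toG G v C).Adj d.fst.1 d.snd.1 := d.adj
      obtain ⟨e, he, heq⟩ := (toG_adj G v C ⟨d.fst.1, d.fst.2.1⟩ ⟨d.snd.1, d.snd.2.1⟩).1 hadj
      exact ⟨e, he, _, h1, _, h2, heq⟩
    · intro h
      have hne : Nonempty ↑{x : V | x ≠ v ∧ x ≠ (r : V)} := by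
        obtain ⟨x, hx⟩ := h3
        exact ⟨⟨x, hx⟩⟩
      refine ⟨fun a b => ?_⟩
      by_contra hab
      obtain ⟨e, he, x, hx, y, hy, heq⟩ := h
        {y | ∃ h : (y : V) ≠ v ∧ (y : V) ≠ r, ((toG G v C).induce {x | x ≠ v ∧ x ≠ (r : V)}).Reachable a ⟨y, h⟩}
        (by rintro ⟨h, -⟩; exact h.2 rfl)
        ⟨⟨a.1, a.2.1⟩, a.2, SimpleGraph.Reachable.refl _⟩
        ⟨⟨b.1, b.2.1⟩, fun h => b.2.2 (congrArg Subtype.val h), fun ⟨_, h⟩ => hab h⟩
      obtain ⟨hxr, hxreach⟩ := hx
      apply hy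
      have hyr : (y : V) ≠ r := by
        intro h
        have : y = r := Subtype.ext h
        exact hrC e he (by rw [heq, this]; simp)
      refine ⟨⟨y.2, hyr⟩, hxreach.trans (SimpleGraph.Adj.reachable ?_)⟩
      show (toG G v C).Adj x y
      rw [toG_adj]
      exact ⟨e, he, heq⟩
  have c6 : (del (G \ toG G v C) v).IsTree ↔
      pm (inc (fun e : (del G v).edgeSet => (e : Sym2 {x : V // x ≠ v})) r) Cᶜ = 1 := by
    have this : del (G \ toG G v C) v = SimpleGraph.fromEdgeSet
        ((fun e : (del G v).edgeSet => (e : Sym2 {x : V // x ≠ v})) '' ((Cᶜ : Finset _) : Set (del G v).edgeSet)) := by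
      ext x y
      rw [SimpleGraph.fromEdgeSet_adj]
      show (G \ toG G v C).Adj x y ↔ _
      rw [SimpleGraph.sdiff_adj, toG_adj]
      constructor
      · rintro ⟨h1, h2⟩
        refine ⟨⟨⟨s(x, y), h1⟩, ?_, rfl⟩, fun h => G.ne_of_adj h1 (congrArg Subtype.val h)⟩
        simp only [coe_compl, Set.mem_compl_iff, mem_coe]
        intro h
        exact h2 ⟨_, h, rfl⟩
      · rintro ⟨⟨⟨e, he⟩, hC, heq⟩, hne⟩
        simp only at heq
        subst heq
        refine ⟨he, ?_⟩
        rintro ⟨⟨e', he'⟩, hC', heq'⟩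
        simp only at heq'
        subst heq'
        simp only [coe_compl, Set.mem_compl_iff, mem_coe] at hC
        exact hC hC'
    rw [this]
    exact isTree_iff_pm (del G v) r Cᶜ
  unfold IsGoodCycle IsHam
  rw [c3, c4', c6]
  constructor
  · rintro ⟨-, -, h1, h2, h4, h5⟩
    exact ⟨⟨h1, h2, (c5 h1).1 h4⟩, h5⟩
  · rintro ⟨⟨h1, h2, h4⟩, h5⟩
    exact ⟨toG_le G v C, toG_not_adj G v C, h1, h2, (c5 h1).2 h4, h5⟩

open scoped Classical in
/-- H6-18a: bijection between good cycles C (as subgraphs of G on V) and sets of edges of G - v. -/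
theorem goodCycles_eq (G : SimpleGraph V) (v : V) (r : {x : V // x ≠ v})
    (h3 : ∃ x : V, x ≠ v ∧ x ≠ r) :
    goodCycles G v r = (univ.filter fun C : Finset (del G v).edgeSet =>
      IsHam (fun e : (del G v).edgeSet => (e : Sym2 {x : V // x ≠ v})) r C ∧
      pm (inc (fun e : (del G v).edgeSet => (e : Sym2 {x : V // x ≠ v})) r) Cᶜ = 1).card := by
  unfold goodCycles
  rw [← Fintype.card_subtype, ← Nat.card_eq_fintype_card]
  refine Nat.card_congr ⟨fun C => ⟨ofG G v C.1, ?_⟩, fun C => ⟨toG G v C.1, ?_⟩, ?_, ?_⟩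
  · rw [← good_iff G v r h3, toG_ofG G v C.1 C.2.1 C.2.2.1]
    exact C.2
  · rw [good_iff G v r h3]
    exact C.2
  · intro C
    exact Subtype.ext (toG_ofG G v C.1 C.2.1 C.2.2.1)
  · intro C
    exact Subtype.ext (ofG_toG G v C.1)

omit [Fintype V] [DecidableEq V] in
private theorem ncard_del (G : SimpleGraph V) (v : V) (x : {x : V // x ≠ v}) :
    ((del G v).neighborSet x).ncard = (G.neighborSet x \ {v}).ncard := by
  rw [← Set.ncard_image_of_injective _ Subtype.val_injective]
  congr 1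
  ext y
  simp only [Set.mem_image, SimpleGraph.mem_neighborSet, Set.mem_sdiff, Set.mem_singleton_iff]
  constructor
  · rintro ⟨z, hz, rfl⟩
    exact ⟨hz, z.2⟩
  · rintro ⟨h, hy⟩
    exact ⟨⟨y, hy⟩, h, rfl⟩

open scoped Classical in
/-- H6-18b: from `zeros_modEq` for H = G - v, w a neighbour of v; |V| ≥ 5 since G is simple and 4-regular;
|E(G - v)| = 2|V| - 4 = 2 (|V| - 1) - 2. -/
theorem main_formula (G : SimpleGraph V) (hG : ∀ x, (G.neighborSet x).ncard = 4) (v r : V)
    (hvr : v ≠ r) : zeros 2 (del G v) ≡ 4 * goodCycles G v r [MOD 8] := by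
  have hdeg : ∀ x : {x : V // x ≠ v}, ((del G v).neighborSet x).ncard =
      if G.Adj v x then 3 else 4 := by
    intro x
    rw [ncard_del]
    split_ifs with h
    · have hm : v ∈ G.neighborSet x := h.symm
      rw [Set.ncard_sdiff_singleton_of_mem hm, hG]
    · rw [Set.sdiff_singleton_eq_self, hG]
      exact fun h' => h (SimpleGraph.Adj.symm h')
  have hcV : Fintype.card {x : V // x ≠ v} + 1 = Fintype.card V := by
    have := Fintype.card_subtype_compl (fun x : V => x = v)
    simp only [Fintype.card_subtype_eq] at this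
    have h2 : Fintype.card {x : V // x ≠ v} = Fintype.card V - 1 := this
    have : 0 < Fintype.card V := Fintype.card_pos_iff.2 ⟨v⟩
    omega
  have hnb : (univ.filter fun x : {x : V // x ≠ v} => G.Adj v x).card = 4 := by
    rw [← hG v, Set.ncard_eq_toFinset_card']
    refine card_bij (fun x _ => (x : V)) ?_ ?_ ?_
    · intro x hx
      simpa using hx
    · intro x _ y _ h
      exact Subtype.ext h
    · intro y hy
      have hy' : G.Adj v y := by simpa using hy
      exact ⟨⟨y, hy'.ne'⟩, by simpa using hy', rfl⟩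
  have hV4 : 4 ≤ Fintype.card {x : V // x ≠ v} := by
    rw [← hnb]
    exact card_le_univ _
  obtain ⟨w, hw⟩ : (univ.filter fun x : {x : V // x ≠ v} => G.Adj v x).Nonempty := by
    rw [← card_pos, hnb]; norm_num
  have hw' : G.Adj v w := by simpa using hw
  have hedges : (del G v).edgeFinset.card + 2 = 2 * Fintype.card {x : V // x ≠ v} := by
    have h1 := (del G v).sum_degrees_eq_twice_card_edges
    have h2 : ∀ x, (del G v).degree x = if G.Adj v x then 3 else 4 := by
      intro x
      rw [← hdeg x, Set.ncard_eq_toFinset_card', SimpleGraph.degree, SimpleGraph.neighborFinset]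
    have h3 : ∑ x : {x : V // x ≠ v}, (if G.Adj v x then 3 else 4) + 4 =
        4 * Fintype.card {x : V // x ≠ v} := by
      have : ∀ x : {x : V // x ≠ v}, (if G.Adj v x then 3 else 4) + (if G.Adj v x then 1 else 0) = 4 := by
        intro x; split_ifs <;> rfl
      calc ∑ x : {x : V // x ≠ v}, (if G.Adj v x then 3 else 4) + 4
          = ∑ x : {x : V // x ≠ v}, (if G.Adj v x then 3 else 4) +
            ∑ x : {x : V // x ≠ v}, (if G.Adj v x then 1 else 0) := by
              rw [sum_boole, hnb]; rfl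
        _ = ∑ x : {x : V // x ≠ v}, 4 := by
              rw [← sum_add_distrib]
              exact sum_congr rfl fun x _ => this x
        _ = _ := by rw [sum_const, card_univ, smul_eq_mul, mul_comm]
    rw [sum_congr rfl (fun x _ => h2 x)] at h1
    omega
  have hz := zeros_modEq (del G v) ⟨r, hvr.symm⟩ w hedges hV4 (by rw [hdeg, if_pos hw'])
  rw [goodCycles_eq G v ⟨r, hvr.symm⟩ ?_]
  · exact hz
  · obtain ⟨x, hx⟩ : ∃ x : {x : V // x ≠ v}, x ≠ ⟨r, hvr.symm⟩ := by
      have : Nontrivial {x : V // x ≠ v} := Fintype.one_lt_card_iff_nontrivial.1 (by omega)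
      exact exists_ne _
    exact ⟨x, x.2, fun h => hx (Subtype.ext h)⟩

theorem main_c2 (G : SimpleGraph V) (hG : ∀ x, (G.neighborSet x).ncard = 4) (v r : V)
    (hvr : v ≠ r) : 4 ∣ zeros 2 (del G v) ∧ c2 2 (del G v) = (goodCycles G v r : ZMod 2) := by
  have h := main_formula G hG v r hvr
  have h4 : 4 ∣ zeros 2 (del G v) := by
    have : zeros 2 (del G v) ≡ 4 * goodCycles G v r [MOD 4] := h.of_dvd (by norm_num)
    exact (Nat.modEq_zero_iff_dvd.1 (this.trans (Nat.modEq_zero_iff_dvd.2 ⟨_, rfl⟩)))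
  refine ⟨h4, ?_⟩
  obtain ⟨k, hk⟩ := h4
  unfold c2
  rw [hk] at h ⊢
  have h2 : k ≡ goodCycles G v r [MOD 2] := by
    have : 4 * k ≡ 4 * goodCycles G v r [MOD 4 * 2] := h
    exact Nat.ModEq.mul_left_cancel' (by norm_num) this
  have h3 : 4 * k / 2 ^ 2 = k := by
    norm_num
  rw [h3]
  exact (ZMod.natCast_eq_natCast_iff _ _ _).2 h2

end MP06b
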