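import Pool.Agent.Lib.MP_06b34c_co.PPConf

namespace MP06b
open Finset

variable {U : Type*} [Fintype U] [DecidableEq U]

private theorem att2_other (j : Fin 2) : ∃ j' : Fin 2, j' ≠ j ∧ ∀ x : Fin 2, x ≠ j ↔ x = j' := by
  fin_cases j
  · exact ⟨1, by decide, by decide⟩
  · exact ⟨0, by decide, by decide⟩

/-- the graph `att R o τ` without a new vertex, two new vertices -/
private def att2_iso (R : SimpleGraph U) (o : Fin 6 → U) (τ : Fin 6 → Fin 2) (j j' : Fin 2)
    (hj' : j' ≠ j) (hx : ∀ x : Fin 2, x ≠ j ↔ x = j') (N : Set U)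
    (hN : ∀ u, u ∈ N ↔ ∃ i, o i = u ∧ τ i ≠ j) :
    del (att R o τ) (Sum.inr j) ≃g ext1 R N where
  toFun x := match x with
    | ⟨.inl u, _⟩ => some u
    | ⟨.inr _, _⟩ => none
  invFun y := match y with
    | some u => ⟨.inl u, fun h => by cases h⟩
    | none => ⟨.inr j', fun h => hj' (Sum.inr_injective h)⟩
  left_inv x := by
    rcases x with ⟨u | x, hxx⟩
    · rfl
    · have h1 : x = j' := (hx x).mp fun h => hxx (by rw [h])
      subst h1
      rfl
  right_inv y := by
    rcases y with _ | u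
    · rfl
    · rfl
  map_rel_iff' := by
    rintro ⟨u | x, hu⟩ ⟨v | y, hv⟩
    · exact Iff.rfl
    · have h1 : y = j' := (hx y).mp fun h => hv (by rw [h])
      change u ∈ N ↔ ∃ i, o i = u ∧ τ i = y
      rw [hN u]
      refine exists_congr fun i => and_congr_right fun _ => ?_
      rw [hx, h1]
    · have h1 : x = j' := (hx x).mp fun h => hu (by rw [h])
      change v ∈ N ↔ ∃ i, o i = v ∧ τ i = x
      rw [hN v]
      refine exists_congr fun i => and_congr_right fun _ => ?_
      rw [hx, h1]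
    · have h1 : x = j' := (hx x).mp fun h => hu (by rw [h])
      have h2 : y = j' := (hx y).mp fun h => hv (by rw [h])
      change False ↔ x ≠ y
      rw [h1, h2]
      simp

/-- PP-4. Proof: del (att R o τ) (inr j) is isomorphic to ext1 R {o i | τ i ≠ j} (three elements), so `Mt_iso`, `Mt_ext1`,
`c2_Mt` (with `att_reg4`), and Mt / 4 = (sum of the three nn) / 2 = sum of the nn / 2, as the nn are even (`nn_even`). -/
theorem c2_att2 (R : SimpleGraph U) (o : Fin 6 → U) (hC : Conf R o) (τ : Fin 6 → Fin 2)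
    (hτ : Bal 3 τ) (j : Fin 2) :
    c2 2 (del (att R o τ) (Sum.inr j)) =
      ∑ p ∈ (univ : Finset (Fin 6 × Fin 6)).filter (fun p => p.1 < p.2 ∧ τ p.1 ≠ j ∧ τ p.2 ≠ j),
        mm R o p.1 p.2 := by
  obtain ⟨j', hj', hx⟩ := att2_other j
  set T : Finset (Fin 6) := univ.filter fun i => τ i ≠ j with hT
  have hTcard : T.card = 3 := by
    rw [hT, ← hτ j']
    congr 1
    ext i
    simp only [Finset.mem_filter, Finset.mem_univ, true_and]
    exact hx _
  have hmemT : ∀ i, i ∈ T ↔ τ i ≠ j := fun i => by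
    rw [hT, Finset.mem_filter]
    simp
  set e := T.orderEmbOfFin hTcard with he
  set a := e 0 with ha
  set b := e 1 with hb
  set c := e 2 with hc
  have hab : a < b := e.strictMono (by decide)
  have hbc : b < c := e.strictMono (by decide)
  have hTabc : ∀ i, τ i ≠ j ↔ i = a ∨ i = b ∨ i = c := by
    intro i
    rw [← hmemT]
    have h1 : i ∈ T ↔ i ∈ Set.range e := by
      rw [he, Finset.range_orderEmbOfFin]
      rfl
    rw [h1]
    constructor
    · rintro ⟨k, rfl⟩
      fin_cases k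
      · exact Or.inl rfl
      · exact Or.inr (Or.inl rfl)
      · exact Or.inr (Or.inr rfl)
    · rintro (h | h | h)
      · exact ⟨0, h.symm⟩
      · exact ⟨1, h.symm⟩
      · exact ⟨2, h.symm⟩
  have hfilter : (univ : Finset (Fin 6 × Fin 6)).filter
      (fun p => p.1 < p.2 ∧ τ p.1 ≠ j ∧ τ p.2 ≠ j) = {(a, b), (a, c), (b, c)} := by
    ext ⟨p, q⟩
    simp only [Finset.mem_filter, Finset.mem_univ, true_and, Finset.mem_insert,
      Finset.mem_singleton, Prod.mk.injEq]
    rw [hTabc p, hTabc q]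
    constructor
    · rintro ⟨h1, h2 | h2 | h2, h3 | h3 | h3⟩ <;> subst h2 <;> subst h3
      · exact absurd h1 (lt_irrefl _)
      · exact Or.inl ⟨rfl, rfl⟩
      · exact Or.inr (Or.inl ⟨rfl, rfl⟩)
      · exact absurd h1 (not_lt.mpr hab.le)
      · exact absurd h1 (lt_irrefl _)
      · exact Or.inr (Or.inr ⟨rfl, rfl⟩)
      · exact absurd h1 (not_lt.mpr (hab.trans hbc).le)
      · exact absurd h1 (not_lt.mpr hbc.le)
      · exact absurd h1 (lt_irrefl _)
    · rintro (⟨h1, h2⟩ | ⟨h1, h2⟩ | ⟨h1, h2⟩)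
      · exact ⟨by rw [h1, h2]; exact hab, Or.inl h1, Or.inr (Or.inl h2)⟩
      · exact ⟨by rw [h1, h2]; exact hab.trans hbc, Or.inl h1, Or.inr (Or.inr h2)⟩
      · exact ⟨by rw [h1, h2]; exact hbc, Or.inr (Or.inl h1), Or.inr (Or.inr h2)⟩
  have hN : ∀ u, u ∈ ({o a, o b, o c} : Set U) ↔ ∃ i, o i = u ∧ τ i ≠ j := by
    intro u
    simp only [Set.mem_insert_iff, Set.mem_singleton_iff]
    constructor
    · rintro (h | h | h)
      · exact ⟨a, h.symm, (hTabc a).mpr (Or.inl rfl)⟩
      · exact ⟨b, h.symm, (hTabc b).mpr (Or.inr (Or.inl rfl))⟩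
      · exact ⟨c, h.symm, (hTabc c).mpr (Or.inr (Or.inr rfl))⟩
    · rintro ⟨i, h1, h2⟩
      rcases (hTabc i).mp h2 with h3 | h3 | h3
      · exact Or.inl (by rw [← h1, h3])
      · exact Or.inr (Or.inl (by rw [← h1, h3]))
      · exact Or.inr (Or.inr (by rw [← h1, h3]))
  have hMt : Mt (del (att R o τ) (Sum.inr j)) =
      2 * (nn R (o a) (o b) + nn R (o a) (o c) + nn R (o b) (o c)) := by
    rw [Mt_iso (att2_iso R o τ j j' hj' hx {o a, o b, o c} hN)]
    exact Mt_ext1 R (o a) (o b) (o c) (fun h => hab.ne (hC.inj h))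
      (fun h => (hab.trans hbc).ne (hC.inj h)) (fun h => hbc.ne (hC.inj h))
      (hC.nadj a b) (hC.nadj a c) (hC.nadj b c)
  obtain ⟨-, h2⟩ := c2_Mt (att R o τ) (att_reg4 R o hC τ hτ (by norm_num)) (Sum.inr j)
  rw [h2, hMt, hfilter]
  obtain ⟨x, hx1⟩ := nn_even R o hC a b hab.ne
  obtain ⟨y, hy1⟩ := nn_even R o hC a c (hab.trans hbc).ne
  obtain ⟨z, hz1⟩ := nn_even R o hC b c hbc.ne
  have hne1 : ((a, b) : Fin 6 × Fin 6) ∉ ({(a, c), (b, c)} : Finset (Fin 6 × Fin 6)) := by
    simp only [Finset.mem_insert, Finset.mem_singleton, Prod.mk.injEq, not_or, not_and]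
    exact ⟨fun _ => hbc.ne, fun h => absurd h hab.ne⟩
  have hne2 : ((a, c) : Fin 6 × Fin 6) ∉ ({(b, c)} : Finset (Fin 6 × Fin 6)) := by
    simp only [Finset.mem_singleton, Prod.mk.injEq, not_and]
    exact fun h => absurd h hab.ne
  rw [Finset.sum_insert hne1, Finset.sum_insert hne2, Finset.sum_singleton]
  unfold mm
  simp only
  rw [hx1, hy1, hz1]
  have e1 : 2 * (x + x + (y + y) + (z + z)) / 4 = x + y + z := by omega
  have e2 : (x + x) / 2 = x := by omega
  have e3 : (y + y) / 2 = y := by omega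
  have e4 : (z + z) / 2 = z := by omega
  rw [e1, e2, e3, e4]
  push_cast
  ring

end MP06b
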