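import Pool.Agent.Lib.MP_06b34c_co.PPConf

namespace MP06b
open Finset

variable {U : Type*} [Fintype U] [DecidableEq U]

omit [Fintype U] [DecidableEq U] in
/-- the isomorphism deleting one of three new vertices -/
theorem A3_iso (R : SimpleGraph U) (o : Fin 6 → U) (τ : Fin 6 → Fin 3)
    (j j₁ j₂ : Fin 3) (h1 : j ≠ j₁) (h2 : j ≠ j₂) (h12 : j₁ ≠ j₂) (x y z w : Fin 6)
    (hxy : ∀ i, τ i = j₁ ↔ i = x ∨ i = y) (hzw : ∀ i, τ i = j₂ ↔ i = z ∨ i = w) :
    Nonempty (del (att R o τ) (Sum.inr j) ≃g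
      ext1 (ext1 R {o z, o w}) {none, some (o x), some (o y)}) := by
  have hj : ∀ k : Fin 3, k ≠ j → k = j₁ ∨ k = j₂ := by
    intro k hk
    revert h1 h2 h12 hk
    clear hxy hzw
    revert j j₁ j₂ k
    decide
  refine ⟨⟨⟨fun v => match v with
    | ⟨.inl u, _⟩ => some (some u)
    | ⟨.inr k, _⟩ => if k = j₁ then none else some none,
    fun v => match v with
    | none => ⟨.inr j₁, fun h => h1 (Sum.inr.inj h).symm⟩
    | some none => ⟨.inr j₂, fun h => h2 (Sum.inr.inj h).symm⟩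
    | some (some u) => ⟨.inl u, fun h => by cases h⟩, ?_, ?_⟩, ?_⟩⟩
  · rintro ⟨u | k, hv⟩
    · rfl
    · have hk : k ≠ j := fun h => hv (by rw [h])
      rcases hj k hk with rfl | rfl
      · simp
      · simp [h12.symm]
  · rintro (_ | _ | u)
    · simp
    · simp [h12.symm]
    · rfl
  · rintro ⟨u | k, hv⟩ ⟨u' | k', hv'⟩
    · exact Iff.rfl
    · have hk : k' ≠ j := fun h => hv' (by rw [h])
      rcases hj k' hk with rfl | rfl
      · simp only [Equiv.coe_fn_mk, if_true]
        change (some u ∈ ({none, some (o x), some (o y)} : Set (Option U))) ↔ ∃ i, o i = u ∧ τ i = k'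
        simp only [Set.mem_insert_iff, Set.mem_singleton_iff, Option.some.injEq, reduceCtorEq, false_or, hxy]
        constructor
        · rintro (rfl | rfl)
          · exact ⟨x, rfl, Or.inl rfl⟩
          · exact ⟨y, rfl, Or.inr rfl⟩
        · rintro ⟨i, rfl, rfl | rfl⟩
          · exact Or.inl rfl
          · exact Or.inr rfl
      · simp only [Equiv.coe_fn_mk, if_neg h12.symm]
        change (u ∈ ({o z, o w} : Set U)) ↔ ∃ i, o i = u ∧ τ i = k'
        simp only [Set.mem_insert_iff, Set.mem_singleton_iff, hzw]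
        constructor
        · rintro (rfl | rfl)
          · exact ⟨z, rfl, Or.inl rfl⟩
          · exact ⟨w, rfl, Or.inr rfl⟩
        · rintro ⟨i, rfl, rfl | rfl⟩
          · exact Or.inl rfl
          · exact Or.inr rfl
    · have hk : k ≠ j := fun h => hv (by rw [h])
      rcases hj k hk with rfl | rfl
      · simp only [Equiv.coe_fn_mk, if_true]
        change (some u' ∈ ({none, some (o x), some (o y)} : Set (Option U))) ↔ ∃ i, o i = u' ∧ τ i = k
        simp only [Set.mem_insert_iff, Set.mem_singleton_iff, Option.some.injEq, reduceCtorEq, false_or, hxy]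
        constructor
        · rintro (rfl | rfl)
          · exact ⟨x, rfl, Or.inl rfl⟩
          · exact ⟨y, rfl, Or.inr rfl⟩
        · rintro ⟨i, rfl, rfl | rfl⟩
          · exact Or.inl rfl
          · exact Or.inr rfl
      · simp only [Equiv.coe_fn_mk, if_neg h12.symm]
        change (u' ∈ ({o z, o w} : Set U)) ↔ ∃ i, o i = u' ∧ τ i = k
        simp only [Set.mem_insert_iff, Set.mem_singleton_iff, hzw]
        constructor
        · rintro (rfl | rfl)
          · exact ⟨z, rfl, Or.inl rfl⟩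
          · exact ⟨w, rfl, Or.inr rfl⟩
        · rintro ⟨i, rfl, rfl | rfl⟩
          · exact Or.inl rfl
          · exact Or.inr rfl
    · have hk : k ≠ j := fun h => hv (by rw [h])
      have hk' : k' ≠ j := fun h => hv' (by rw [h])
      rcases hj k hk with rfl | rfl <;> rcases hj k' hk' with rfl | rfl
      · simp only [Equiv.coe_fn_mk, if_true]
        change False ↔ k' ≠ k'
        simp
      · simp only [Equiv.coe_fn_mk, if_true, if_neg h12.symm]
        change ((none : Option U) ∈ ({none, some (o x), some (o y)} : Set (Option U))) ↔ k ≠ k'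
        simp [h12]
      · simp only [Equiv.coe_fn_mk, if_true, if_neg h12.symm]
        change ((none : Option U) ∈ ({none, some (o x), some (o y)} : Set (Option U))) ↔ k ≠ k'
        simp [h12.symm]
      · simp only [Equiv.coe_fn_mk, if_neg h12.symm]
        change False ↔ k' ≠ k'
        simp

theorem A3_arith (ab cd ac ad bc bd : ℕ) (h1 : Even ab) (h2 : Even cd) (h3 : Even ac)
    (h4 : Even ad) (h5 : Even bc) (h6 : Even bd) :
    (((2 * ((cd + ac + ad) + (cd + bc + bd) + 2 * ab)) / 4 : ℕ) : ZMod 2) =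
      (((ac / 2 : ℕ) : ZMod 2) + ((ad / 2 : ℕ) : ZMod 2)) +
        (((bc / 2 : ℕ) : ZMod 2) + ((bd / 2 : ℕ) : ZMod 2)) := by
  obtain ⟨ab, rfl⟩ := h1
  obtain ⟨cd, rfl⟩ := h2
  obtain ⟨ac, rfl⟩ := h3
  obtain ⟨ad, rfl⟩ := h4
  obtain ⟨bc, rfl⟩ := h5
  obtain ⟨bd, rfl⟩ := h6
  have e : 2 * ((cd + cd + (ac + ac) + (ad + ad)) + (cd + cd + (bc + bc) + (bd + bd)) +
      2 * (ab + ab)) / 4 = 2 * (cd + ab) + (ac + ad + (bc + bd)) := by omega
  have e1 : (ac + ac) / 2 = ac := by omega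
  have e2 : (ad + ad) / 2 = ad := by omega
  have e3 : (bc + bc) / 2 = bc := by omega
  have e4 : (bd + bd) / 2 = bd := by omega
  rw [e, e1, e2, e3, e4]
  push_cast
  have h20 : (2 : ZMod 2) = 0 := rfl
  rw [h20]
  ring

/-- PP-5. Proof: let {a, b} = the o i with τ i = j₁, {c, d} = the o i with τ i = j₂. del (att R o τ) (inr j) is isomorphic to
ext1 (ext1 R {c, d}) {none, some a, some b} (new vertices: outer none = j₁, inner none = j₂), so by `Mt_ext1`, `nn_ext1_some`,
`nn_ext1_none`: Mt = 2 (2 n(a,b) + 2 n(c,d) + n(a,c) + n(a,d) + n(b,c) + n(b,d)), all n even (`nn_even`), so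
Mt / 4 ≡ m(a,c) + m(a,d) + m(b,c) + m(b,d) mod 2. (`c2_Mt`, `att_reg4`, `Mt_iso`.) -/
theorem c2_att3 (R : SimpleGraph U) (o : Fin 6 → U) (hC : Conf R o) (τ : Fin 6 → Fin 3)
    (hτ : Bal 2 τ) (j j₁ j₂ : Fin 3) (h1 : j ≠ j₁) (h2 : j ≠ j₂) (h12 : j₁ ≠ j₂) :
    c2 2 (del (att R o τ) (Sum.inr j)) =
      ∑ i ∈ univ.filter (fun i => τ i = j₁), ∑ i' ∈ univ.filter (fun i => τ i = j₂),
        mm R o i i' := by
  obtain ⟨x, y, hxyne, hxy⟩ := Finset.card_eq_two.1 (hτ j₁)
  obtain ⟨z, w, hzwne, hzw⟩ := Finset.card_eq_two.1 (hτ j₂)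
  have hxy' : ∀ i, τ i = j₁ ↔ i = x ∨ i = y := by
    intro i
    have := Finset.ext_iff.1 hxy i
    simpa using this
  have hzw' : ∀ i, τ i = j₂ ↔ i = z ∨ i = w := by
    intro i
    have := Finset.ext_iff.1 hzw i
    simpa using this
  rw [(c2_Mt (att R o τ) (att_reg4 R o hC τ hτ rfl) (Sum.inr j)).2]
  obtain ⟨φ⟩ := A3_iso R o τ j j₁ j₂ h1 h2 h12 x y z w hxy' hzw'
  rw [Mt_iso φ]
  have tx : τ x = j₁ := (hxy' x).2 (Or.inl rfl)
  have ty : τ y = j₁ := (hxy' y).2 (Or.inr rfl)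
  have tz : τ z = j₂ := (hzw' z).2 (Or.inl rfl)
  have tw : τ w = j₂ := (hzw' w).2 (Or.inr rfl)
  have xz : x ≠ z := by rintro rfl; exact h12 (tx.symm.trans tz)
  have xw : x ≠ w := by rintro rfl; exact h12 (tx.symm.trans tw)
  have yz : y ≠ z := by rintro rfl; exact h12 (ty.symm.trans tz)
  have yw : y ≠ w := by rintro rfl; exact h12 (ty.symm.trans tw)
  have oxz := hC.inj.ne xz
  have oxw := hC.inj.ne xw
  have oyz := hC.inj.ne yz
  have oyw := hC.inj.ne yw
  have oxy := hC.inj.ne hxyne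
  have ozw := hC.inj.ne hzwne
  have n1 : ¬ (ext1 R {o z, o w}).Adj none (some (o x)) := by
    change ¬ (o x ∈ ({o z, o w} : Set U))
    simp [oxz, oxw]
  have n2 : ¬ (ext1 R {o z, o w}).Adj none (some (o y)) := by
    change ¬ (o y ∈ ({o z, o w} : Set U))
    simp [oyz, oyw]
  have n3 : ¬ (ext1 R {o z, o w}).Adj (some (o x)) (some (o y)) := hC.nadj x y
  rw [Mt_ext1 (ext1 R {o z, o w}) none (some (o x)) (some (o y)) (by simp) (by simp)
    (by simpa using oxy) n1 n2 n3,
    nn_ext1_none R (o x) (o z) (o w) oxz oxw ozw (hC.nadj x z) (hC.nadj x w) (hC.nadj z w),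
    nn_ext1_none R (o y) (o z) (o w) oyz oyw ozw (hC.nadj y z) (hC.nadj y w) (hC.nadj z w),
    nn_ext1_some R (o x) (o y) (o z) (o w) ozw,
    A3_arith (nn R (o x) (o y)) (nn R (o z) (o w)) (nn R (o x) (o z)) (nn R (o x) (o w))
      (nn R (o y) (o z)) (nn R (o y) (o w)) (nn_even R o hC x y hxyne)
      (nn_even R o hC z w hzwne) (nn_even R o hC x z xz) (nn_even R o hC x w xw)
      (nn_even R o hC y z yz) (nn_even R o hC y w yw),
    hxy, hzw, Finset.sum_pair hxyne, Finset.sum_pair hzwne, Finset.sum_pair hzwne]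
  rfl

end MP06b
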