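import Pool.Agent.Lib.MP_06b34c_co.PPNF

namespace MP06b
open Finset

/-- the sum of the numbers `NF (F t)` over a family of edge sets with `k + 1` elements -/
private theorem PPBad_sum {n : ℕ} (hn : 31 ≤ n) {ι : Type*} (T : Finset ι)
    (F : ι → Finset (Sym2 (Fin n))) (k : ℕ) (hk : k + 1 ≤ 6) (hT : T.card ≤ n ^ k)
    (hF : ∀ t ∈ T, (F t).card = k + 1) (hd : ∀ t ∈ T, ∀ e ∈ F t, ¬ e.IsDiag) :
    n * ∑ t ∈ T, NF (F t) ≤ 8 ^ (k + 1) * (Gn n).card := by
  have hpos : 0 < n ^ k := pow_pos (by omega) k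
  have h1 : n ^ (k + 1) * ∑ t ∈ T, NF (F t) ≤ n ^ k * (8 ^ (k + 1) * (Gn n).card) := by
    rw [Finset.mul_sum]
    calc ∑ t ∈ T, n ^ (k + 1) * NF (F t)
        ≤ ∑ _t ∈ T, 8 ^ (k + 1) * (Gn n).card := by
          apply Finset.sum_le_sum
          intro t ht
          have h2 := NF_pow (F t) hn (by rw [hF t ht]; exact hk) (hd t ht)
          rwa [hF t ht] at h2
      _ = T.card * (8 ^ (k + 1) * (Gn n).card) := by rw [Finset.sum_const, smul_eq_mul]
      _ ≤ n ^ k * (8 ^ (k + 1) * (Gn n).card) := Nat.mul_le_mul_right _ hT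
  rw [pow_succ, mul_assoc] at h1
  exact Nat.le_of_mul_le_mul_left h1 hpos

private theorem PPBad_card4 (n : ℕ) (P : Fin n × Fin n × Fin n × Fin n → Prop)
    [DecidablePred P] : (univ.filter P).card ≤ n ^ 4 := by
  refine (Finset.card_filter_le _ _).trans ?_
  rw [Finset.card_univ]
  simp only [Fintype.card_prod, Fintype.card_fin]
  exact le_of_eq (by ring)

private theorem PPBad_card5 (n : ℕ) (P : Fin n × Fin n × Fin n × Fin n × Fin n → Prop)
    [DecidablePred P] : (univ.filter P).card ≤ n ^ 5 := by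
  refine (Finset.card_filter_le _ _).trans ?_
  rw [Finset.card_univ]
  simp only [Fintype.card_prod, Fintype.card_fin]
  exact le_of_eq (by ring)

private def PPBad_F1 {n : ℕ} (t : Fin n × Fin n × Fin n × Fin n) : Finset (Sym2 (Fin n)) :=
  {s(t.1, t.2.1), s(t.2.1, t.2.2.1), s(t.1, t.2.2.1), s(t.2.2.2, t.1), s(t.2.2.2, t.2.1)}

private def PPBad_F2 {n : ℕ} (t : Fin n × Fin n × Fin n × Fin n × Fin n) :
    Finset (Sym2 (Fin n)) :=
  {s(t.1, t.2.1), s(t.2.1, t.2.2.1), s(t.1, t.2.2.1), s(t.2.2.2.1, t.1),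
    s(t.2.2.2.1, t.2.2.2.2), s(t.2.2.2.2, t.1)}

private def PPBad_F3 {n : ℕ} (t : Fin n × Fin n × Fin n × Fin n × Fin n) :
    Finset (Sym2 (Fin n)) :=
  {s(t.1, t.2.1), s(t.2.1, t.2.2.1), s(t.1, t.2.2.1), s(t.2.2.2.1, t.1),
    s(t.2.2.2.1, t.2.2.2.2), s(t.2.2.2.2, t.2.1)}

private def PPBad_D4 {n : ℕ} (t : Fin n × Fin n × Fin n × Fin n) : Prop :=
  t.1 ≠ t.2.1 ∧ t.2.1 ≠ t.2.2.1 ∧ t.1 ≠ t.2.2.1 ∧ t.2.2.2 ≠ t.1 ∧ t.2.2.2 ≠ t.2.1 ∧
    t.2.2.2 ≠ t.2.2.1

private def PPBad_D5 {n : ℕ} (t : Fin n × Fin n × Fin n × Fin n × Fin n) : Prop :=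
  t.1 ≠ t.2.1 ∧ t.2.1 ≠ t.2.2.1 ∧ t.1 ≠ t.2.2.1 ∧ t.2.2.2.1 ≠ t.1 ∧ t.2.2.2.1 ≠ t.2.1 ∧
    t.2.2.2.1 ≠ t.2.2.1 ∧ t.2.2.2.2 ≠ t.1 ∧ t.2.2.2.2 ≠ t.2.1 ∧ t.2.2.2.2 ≠ t.2.2.1 ∧
    t.2.2.2.1 ≠ t.2.2.2.2

private theorem PPBad_F1_card {n : ℕ} (t : Fin n × Fin n × Fin n × Fin n) (h : PPBad_D4 t) :
    (PPBad_F1 t).card = 4 + 1 := by
  obtain ⟨x, y, z, u⟩ := t
  obtain ⟨h1, h2, h3, h4, h5, h6⟩ := h
  simp only at h1 h2 h3 h4 h5 h6
  unfold PPBad_F1
  rw [Finset.card_insert_of_notMem, Finset.card_insert_of_notMem, Finset.card_insert_of_notMem,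
    Finset.card_insert_of_notMem, Finset.card_singleton]
  all_goals
    simp only [Finset.mem_insert, Finset.mem_singleton, Sym2.eq_iff, not_or, not_and]
    grind

private theorem PPBad_F2_card {n : ℕ} (t : Fin n × Fin n × Fin n × Fin n × Fin n)
    (h : PPBad_D5 t) : (PPBad_F2 t).card = 5 + 1 := by
  obtain ⟨x, y, z, u, v⟩ := t
  obtain ⟨h1, h2, h3, h4, h5, h6, h7, h8, h9, h10⟩ := h
  simp only at h1 h2 h3 h4 h5 h6 h7 h8 h9 h10
  unfold PPBad_F2
  rw [Finset.card_insert_of_notMem, Finset.card_insert_of_notMem, Finset.card_insert_of_notMem,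
    Finset.card_insert_of_notMem, Finset.card_insert_of_notMem, Finset.card_singleton]
  all_goals
    simp only [Finset.mem_insert, Finset.mem_singleton, Sym2.eq_iff, not_or, not_and]
    grind

private theorem PPBad_F3_card {n : ℕ} (t : Fin n × Fin n × Fin n × Fin n × Fin n)
    (h : PPBad_D5 t) : (PPBad_F3 t).card = 5 + 1 := by
  obtain ⟨x, y, z, u, v⟩ := t
  obtain ⟨h1, h2, h3, h4, h5, h6, h7, h8, h9, h10⟩ := h
  simp only at h1 h2 h3 h4 h5 h6 h7 h8 h9 h10
  unfold PPBad_F3
  rw [Finset.card_insert_of_notMem, Finset.card_insert_of_notMem, Finset.card_insert_of_notMem,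
    Finset.card_insert_of_notMem, Finset.card_insert_of_notMem, Finset.card_singleton]
  all_goals
    simp only [Finset.mem_insert, Finset.mem_singleton, Sym2.eq_iff, not_or, not_and]
    grind

open scoped Classical in
/-- PP-16. Proof: if G is not AllGood, either there are distinct x, y, z, u with xy, yz, xz, ux, uy ∈ G (five edges on four vertices), or distinct
x, y, z, u, v with xy, yz, xz, ux, uv and (vx or vy) in G (six edges on five vertices). By `NF_pow` the number of G is at most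
n^4 * 8^5/n^5 |Gn| + 2 n^5 8^6/n^6 |Gn| ≤ 600000/n |Gn|. -/
theorem bad_le (n : ℕ) (hn : 31 ≤ n) :
    n * ((Gn n).filter fun G => ¬ AllGood G).card ≤ 600000 * (Gn n).card := by
  set T4 : Finset (Fin n × Fin n × Fin n × Fin n) := univ.filter fun t => PPBad_D4 t with hT4
  set T5 : Finset (Fin n × Fin n × Fin n × Fin n × Fin n) :=
    univ.filter fun t => PPBad_D5 t with hT5
  let S : Finset (Sym2 (Fin n)) → Finset (SimpleGraph (Fin n)) := fun F =>
    (Gn n).filter fun G => (F : Set (Sym2 (Fin n))) ⊆ G.edgeSet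
  have hS : ∀ F, (S F).card = NF F := by
    intro F
    simp only [S, NF]
  have hsub : ((Gn n).filter fun G => ¬ AllGood G) ⊆
      (T4.biUnion fun t => S (PPBad_F1 t)) ∪
        ((T5.biUnion fun t => S (PPBad_F2 t)) ∪ (T5.biUnion fun t => S (PPBad_F3 t))) := by
    intro G hG
    obtain ⟨hG1, hG2⟩ := Finset.mem_filter.1 hG
    rw [AllGood, not_and_or] at hG2
    simp only [Finset.mem_union, Finset.mem_biUnion]
    rcases hG2 with h | h
    · push Not at h
      obtain ⟨x, y, z, u, hxy, hyz, hxz, hux, huy, huz⟩ := h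
      left
      refine ⟨(x, y, z, u), ?_, ?_⟩
      · rw [hT4, Finset.mem_filter]
        exact ⟨Finset.mem_univ _, hxy.ne, hyz.ne, hxz.ne, hux.ne, huy.ne, huz⟩
      · simp only [S, Finset.mem_filter]
        refine ⟨hG1, ?_⟩
        intro e he
        simp only [PPBad_F1, Finset.coe_insert, Finset.coe_singleton, Set.mem_insert_iff,
          Set.mem_singleton_iff] at he
        rcases he with rfl | rfl | rfl | rfl | rfl
        · exact hxy
        · exact hyz
        · exact hxz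
        · exact hux
        · exact huy
    · push Not at h
      obtain ⟨x, y, z, u, v, hxy, hyz, hxz, hux, huy, huz, hv, hvx, hvy, hvz, huv⟩ := h
      right
      rcases hv with hv | hv
      · left
        refine ⟨(x, y, z, u, v), ?_, ?_⟩
        · rw [hT5, Finset.mem_filter]
          exact ⟨Finset.mem_univ _, hxy.ne, hyz.ne, hxz.ne, hux.ne, huy, huz, hvx, hvy, hvz,
            huv.ne⟩
        · simp only [S, Finset.mem_filter]
          refine ⟨hG1, ?_⟩
          intro e he
          simp only [PPBad_F2, Finset.coe_insert, Finset.coe_singleton, Set.mem_insert_iff,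
            Set.mem_singleton_iff] at he
          rcases he with rfl | rfl | rfl | rfl | rfl | rfl
          · exact hxy
          · exact hyz
          · exact hxz
          · exact hux
          · exact huv
          · exact hv
      · right
        refine ⟨(x, y, z, u, v), ?_, ?_⟩
        · rw [hT5, Finset.mem_filter]
          exact ⟨Finset.mem_univ _, hxy.ne, hyz.ne, hxz.ne, hux.ne, huy, huz, hvx, hvy, hvz,
            huv.ne⟩
        · simp only [S, Finset.mem_filter]
          refine ⟨hG1, ?_⟩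
          intro e he
          simp only [PPBad_F3, Finset.coe_insert, Finset.coe_singleton, Set.mem_insert_iff,
            Set.mem_singleton_iff] at he
          rcases he with rfl | rfl | rfl | rfl | rfl | rfl
          · exact hxy
          · exact hyz
          · exact hxz
          · exact hux
          · exact huv
          · exact hv
  have hcard : ((Gn n).filter fun G => ¬ AllGood G).card ≤
      ∑ t ∈ T4, NF (PPBad_F1 t) + (∑ t ∈ T5, NF (PPBad_F2 t) + ∑ t ∈ T5, NF (PPBad_F3 t)) := by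
    refine (Finset.card_le_card hsub).trans ((Finset.card_union_le _ _).trans ?_)
    apply Nat.add_le_add
    · refine Finset.card_biUnion_le.trans (le_of_eq ?_)
      exact Finset.sum_congr rfl fun t _ => hS _
    · refine (Finset.card_union_le _ _).trans ?_
      apply Nat.add_le_add
      · refine Finset.card_biUnion_le.trans (le_of_eq ?_)
        exact Finset.sum_congr rfl fun t _ => hS _
      · refine Finset.card_biUnion_le.trans (le_of_eq ?_)
        exact Finset.sum_congr rfl fun t _ => hS _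
  have b1 := PPBad_sum hn T4 PPBad_F1 4 (by norm_num) (PPBad_card4 n _)
    (fun t ht => PPBad_F1_card t (Finset.mem_filter.1 ht).2) (by
      intro t ht e he
      obtain ⟨h1, h2, h3, h4, h5, h6⟩ := (Finset.mem_filter.1 ht).2
      simp only [PPBad_F1, Finset.mem_insert, Finset.mem_singleton] at he
      rcases he with rfl | rfl | rfl | rfl | rfl <;> rw [Sym2.mk_isDiag_iff] <;> assumption)
  have b2 := PPBad_sum hn T5 PPBad_F2 5 (by norm_num) (PPBad_card5 n _)
    (fun t ht => PPBad_F2_card t (Finset.mem_filter.1 ht).2) (by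
      intro t ht e he
      obtain ⟨h1, h2, h3, h4, h5, h6, h7, h8, h9, h10⟩ := (Finset.mem_filter.1 ht).2
      simp only [PPBad_F2, Finset.mem_insert, Finset.mem_singleton] at he
      rcases he with rfl | rfl | rfl | rfl | rfl | rfl <;> rw [Sym2.mk_isDiag_iff] <;> assumption)
  have b3 := PPBad_sum hn T5 PPBad_F3 5 (by norm_num) (PPBad_card5 n _)
    (fun t ht => PPBad_F3_card t (Finset.mem_filter.1 ht).2) (by
      intro t ht e he
      obtain ⟨h1, h2, h3, h4, h5, h6, h7, h8, h9, h10⟩ := (Finset.mem_filter.1 ht).2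
      simp only [PPBad_F3, Finset.mem_insert, Finset.mem_singleton] at he
      rcases he with rfl | rfl | rfl | rfl | rfl | rfl <;> rw [Sym2.mk_isDiag_iff] <;> assumption)
  calc n * ((Gn n).filter fun G => ¬ AllGood G).card
      ≤ n * (∑ t ∈ T4, NF (PPBad_F1 t) +
        (∑ t ∈ T5, NF (PPBad_F2 t) + ∑ t ∈ T5, NF (PPBad_F3 t))) := Nat.mul_le_mul_left _ hcard
    _ = n * ∑ t ∈ T4, NF (PPBad_F1 t) +
        (n * ∑ t ∈ T5, NF (PPBad_F2 t) + n * ∑ t ∈ T5, NF (PPBad_F3 t)) := by ring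
    _ ≤ 8 ^ (4 + 1) * (Gn n).card + (8 ^ (5 + 1) * (Gn n).card + 8 ^ (5 + 1) * (Gn n).card) :=
        Nat.add_le_add b1 (Nat.add_le_add b2 b3)
    _ ≤ 600000 * (Gn n).card := by
        norm_num
        omega

end MP06b
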