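import Pool.Agent.Lib.MP_06b34c_co.GDefs

/-! # MP_06b34c: positive proportion, definitions -/

namespace MP06b
open Finset

/-- every vertex has degree four -/
def Reg4 {V : Type*} (G : SimpleGraph V) : Prop := ∀ x, (G.neighborSet x).ncard = 4

/-- number of decompositions of `H` into two spanning trees (ordered) -/
noncomputable def Mt {W : Type*} (H : SimpleGraph W) : ℕ :=
  Nat.card {T : SimpleGraph W // T ≤ H ∧ T.IsTree ∧ (H \ T).IsTree}

/-- number of decompositions of `R` into a spanning tree `T` and a rest which becomes a spanning tree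
when the edge `i j` is added -/
noncomputable def nn {W : Type*} (R : SimpleGraph W) (i j : W) : ℕ :=
  Nat.card {T : SimpleGraph W // T ≤ R ∧ T.IsTree ∧ ((R \ T) ⊔ SimpleGraph.edge i j).IsTree}

/-- one more vertex `none`, adjacent to the elements of `N` -/
def ext1 {U : Type*} (R : SimpleGraph U) (N : Set U) : SimpleGraph (Option U) where
  Adj
    | none, none => False
    | none, some u => u ∈ N
    | some u, none => u ∈ N
    | some u, some v => R.Adj u v
  symm := by
    constructor
    rintro (_ | u) (_ | v) h
    · exact h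
    · exact h
    · exact h
    · exact SimpleGraph.Adj.symm h
  loopless := by
    constructor
    rintro (_ | u) h
    · exact h
    · exact R.irrefl h

/-- `k` more vertices, pairwise adjacent, the vertex `o i` of `R` being joined to the new vertex `τ i` -/
def att {U : Type*} (R : SimpleGraph U) {k : ℕ} (o : Fin 6 → U) (τ : Fin 6 → Fin k) :
    SimpleGraph (U ⊕ Fin k) where
  Adj
    | .inl u, .inl v => R.Adj u v
    | .inl u, .inr j => ∃ i, o i = u ∧ τ i = j
    | .inr j, .inl u => ∃ i, o i = u ∧ τ i = j
    | .inr i, .inr j => i ≠ j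
  symm := by
    constructor
    rintro (u | i) (v | j) h
    · exact SimpleGraph.Adj.symm h
    · exact h
    · exact h
    · exact fun e => h e.symm
  loopless := by
    constructor
    rintro (u | i) h
    · exact R.irrefl h
    · exact h rfl

/-- configuration: `R` with six distinct pairwise non-adjacent vertices `o i` of degree three, all other
vertices of degree four -/
structure Conf {U : Type*} (R : SimpleGraph U) (o : Fin 6 → U) : Prop where
  inj : Function.Injective o
  deg3 : ∀ i, (R.neighborSet (o i)).ncard = 3
  deg4 : ∀ u, (∀ i, u ≠ o i) → (R.neighborSet u).ncard = 4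
  nadj : ∀ i j, ¬ R.Adj (o i) (o j)

/-- half of `nn`, modulo 2 -/
noncomputable def mm {U : Type*} (R : SimpleGraph U) (o : Fin 6 → U) (i j : Fin 6) : ZMod 2 :=
  ((nn R (o i) (o j) / 2 : ℕ) : ZMod 2)

/-- all fibres of `τ` have `m` elements -/
def Bal {k : ℕ} (m : ℕ) (τ : Fin 6 → Fin k) : Prop :=
  ∀ j, (univ.filter fun i => τ i = j).card = m

instance {k : ℕ} (m : ℕ) : DecidablePred (Bal (k := k) m) := fun τ => by
  unfold Bal; infer_instance

/-- `c_2` at `2` of all `G - v` vanishes -/
def AllZero {V : Type*} [Fintype V] [DecidableEq V] (G : SimpleGraph V) : Prop :=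
  ∀ v, c2 2 (del G v) = 0

/-- standard assignment of the six outer vertices to the triangle vertices -/
def tau0 : Fin 6 → Fin 3 := ![0, 0, 1, 1, 2, 2]

/-- a frame: an ordered triangle `t` and its six outer vertices `o`, distinct and pairwise non-adjacent -/
structure Frame {V : Type*} (G : SimpleGraph V) (t : Fin 3 → V) (o : Fin 6 → V) : Prop where
  tinj : Function.Injective t
  oinj : Function.Injective o
  disj : ∀ i k, o i ≠ t k
  tri : ∀ i j, i ≠ j → G.Adj (t i) (t j)
  leg : ∀ i, G.Adj (o i) (t (tau0 i))
  nadj : ∀ i j, ¬ G.Adj (o i) (o j)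

/-- rearrangement of the six legs of a frame: `o i` is joined to `t (tau0 (σ i))` instead of
`t (tau0 i)` -/
def rearr {V : Type*} (G : SimpleGraph V) (t : Fin 3 → V) (o : Fin 6 → V)
    (σ : Equiv.Perm (Fin 6)) : SimpleGraph V :=
  (G \ SimpleGraph.fromEdgeSet {e | ∃ i, e = s(o i, t (tau0 i))}) ⊔
    SimpleGraph.fromEdgeSet {e | ∃ i, e = s(o i, t (tau0 (σ i)))}

/-- number of triangles -/
noncomputable def tri {V : Type*} [Fintype V] [DecidableEq V] (G : SimpleGraph V) : ℕ :=
  by classical exact (G.cliqueFinset 3).card

/-- all triangles are good: no vertex outside a triangle is adjacent to two of its vertices, and two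
outer neighbours are not adjacent -/
def AllGood {V : Type*} (G : SimpleGraph V) : Prop :=
  (∀ x y z u, G.Adj x y → G.Adj y z → G.Adj x z → G.Adj u x → G.Adj u y → u = z) ∧
  (∀ x y z u v, G.Adj x y → G.Adj y z → G.Adj x z → G.Adj u x → u ≠ y → u ≠ z →
    (G.Adj v x ∨ G.Adj v y) → v ≠ x → v ≠ y → v ≠ z → ¬ G.Adj u v)

open scoped Classical in
/-- the set of 4-regular graphs on `Fin n` -/
noncomputable def Gn (n : ℕ) : Finset (SimpleGraph (Fin n)) := univ.filter fun G => Reg4 G

open scoped Classical in
/-- the 4-regular graphs with exactly `k` triangles -/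
noncomputable def Xn (n k : ℕ) : Finset (SimpleGraph (Fin n)) :=
  univ.filter fun G => Reg4 G ∧ tri G = k

open scoped Classical in
/-- the number of 4-regular graphs containing a set of edges -/
noncomputable def NF {n : ℕ} (F : Finset (Sym2 (Fin n))) : ℕ :=
  ((Gn n).filter fun G => (F : Set (Sym2 (Fin n))) ⊆ G.edgeSet).card

/-- the switching: delete `x u`, `y v`, add `x y`, `u v` -/
def sw {V : Type*} (G : SimpleGraph V) (x u y v : V) : SimpleGraph V :=
  (G \ (SimpleGraph.edge x u ⊔ SimpleGraph.edge y v)) ⊔
    (SimpleGraph.edge x y ⊔ SimpleGraph.edge u v)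

open scoped Classical in
/-- number of closed walks through `l` distinct vertices (labelled `l`-cycles) -/
noncomputable def cyc (l : ℕ) [NeZero l] {V : Type*} [Fintype V] (G : SimpleGraph V) : ℕ :=
  (univ.filter fun f : Fin l → V => Function.Injective f ∧ ∀ i, G.Adj (f i) (f (i + 1))).card

end MP06b
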