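import Pool.Agent.Lib.MP_06b34c_co.Final
import Pool.Agent.Lib.MP_06b34c_co.PPDefs

namespace MP06b
open Finset

section transport2
variable {E M : Type*} [Fintype E] [DecidableEq E] [Fintype M] [DecidableEq M]
  {E' M' : Type*} [Fintype E'] [DecidableEq E'] [Fintype M'] [DecidableEq M']

private theorem compl_map_equiv' (u : E' ≃ E) (S : Finset E') :
    (S.map u.toEmbedding)ᶜ = (Sᶜ).map u.toEmbedding := by
  ext e
  simp only [mem_compl, mem_map, Equiv.coe_toEmbedding, not_exists, not_and]
  constructor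
  · intro h
    exact ⟨u.symm e, fun hs => h _ hs (by simp), by simp⟩
  · rintro ⟨e', he', rfl⟩ e'' he'' h
    rw [u.injective h] at he''
    exact he' he''

private theorem trees_congr' (u : E' ≃ E) (v : M' ≃ M) (B : E → M → ZMod 2) :
    (univ.filter fun S : Finset E' => pm (fun e x => B (u e) (v x)) S = 1 ∧
      pm (fun e x => B (u e) (v x)) Sᶜ = 1).card =
      (univ.filter fun S : Finset E => pm B S = 1 ∧ pm B Sᶜ = 1).card := by
  refine card_bij' (fun S _ => S.map u.toEmbedding) (fun S _ => S.map u.symm.toEmbedding) ?_ ?_ ?_ ?_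
  · intro S hS
    simp only [mem_filter, mem_univ, true_and] at hS ⊢
    rw [compl_map_equiv', ← pm_congr u v, ← pm_congr u v]
    exact hS
  · intro S hS
    simp only [mem_filter, mem_univ, true_and] at hS ⊢
    have h : ∀ T : Finset E, (T.map u.symm.toEmbedding).map u.toEmbedding = T := by
      intro T; ext e; simp
    rw [pm_congr, pm_congr, compl_map_equiv' u.symm, h, h]
    exact hS
  · intro S _; ext e; simp
  · intro S _; ext e; simp

theorem partI_dvd (B : E → M → ZMod 2) (w : M) (hw : (univ.filter fun e => B e w = 1).card = 3) :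
    4 ∣ (univ.filter fun S : Finset E => pm B S = 1 ∧ pm B Sᶜ = 1).card := by
  have h3 : Fintype.card {e // B e w = 1} = 3 := by
    rw [Fintype.card_subtype]; exact hw
  let φ : Fin 3 ≃ {e // B e w = 1} := (Fintype.equivFinOfCardEq h3).symm
  let u : {e // ¬ B e w = 1} ⊕ Fin 3 ≃ E :=
    (Equiv.sumCongr (Equiv.refl _) φ).trans ((Equiv.sumComm _ _).trans (Equiv.sumCompl _))
  let v : Option {x // x ≠ w} ≃ M := Equiv.optionSubtypeNe w
  let B' : {e // ¬ B e w = 1} → {x // x ≠ w} → ZMod 2 := fun e x => B e x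
  let X : Fin 3 → {x // x ≠ w} → ZMod 2 := fun i x => B (φ i) x
  have h01 : ∀ t : ZMod 2, t = 0 ∨ t = 1 := by decide
  have hspl : (fun e x => B (u e) (v x)) = spl B' X := by
    funext e x
    rcases e with e | i
    · cases x with
      | none =>
        have : B (e : E) w = 0 := (h01 _).resolve_right e.2
        simpa [u, v, spl] using this
      | some x => simp [u, v, spl, B']
    · cases x with
      | none =>
        have : B (φ i : E) w = 1 := (φ i).2
        simpa [u, v, spl] using this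
      | some x => simp [u, v, spl, X]
  rw [← trees_congr' u v B, hspl, M_eq]
  exact ⟨_, rfl⟩

end transport2

variable {W : Type*} [Fintype W] [DecidableEq W]

open scoped Classical in
private theorem Mt_eq_card (H : SimpleGraph W) (r : W) :
    Mt H = (univ.filter fun S : Finset H.edgeSet =>
      pm (inc (fun e : H.edgeSet => (e : Sym2 W)) r) S = 1 ∧
      pm (inc (fun e : H.edgeSet => (e : Sym2 W)) r) Sᶜ = 1).card := by
  unfold Mt
  rw [← Fintype.card_subtype, ← Nat.card_eq_fintype_card]
  have key : ∀ S : Finset H.edgeSet, ∀ T : SimpleGraph W,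
      (∀ a b, T.Adj a b ↔ ∃ h : s(a, b) ∈ H.edgeSet, (⟨s(a, b), h⟩ : H.edgeSet) ∈ S) →
      SimpleGraph.fromEdgeSet ((fun e : H.edgeSet => (e : Sym2 W)) '' (S : Set H.edgeSet)) = T := by
    intro S T hT
    ext a b
    rw [SimpleGraph.fromEdgeSet_adj, hT]
    constructor
    · rintro ⟨⟨⟨e, he⟩, hS, heq⟩, -⟩
      simp only at heq
      subst heq
      exact ⟨he, hS⟩
    · rintro ⟨h, hS⟩
      exact ⟨⟨_, hS, rfl⟩, H.ne_of_adj h⟩
  refine Nat.card_congr ⟨fun T => ⟨univ.filter fun e => (e : Sym2 W) ∈ T.1.edgeSet, ?_⟩,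
    fun S => ⟨SimpleGraph.fromEdgeSet ((fun e : H.edgeSet => (e : Sym2 W)) '' (S.1 : Set H.edgeSet)), ?_⟩, ?_, ?_⟩
  · obtain ⟨T, hT, h1, h2⟩ := T
    rw [← isTree_iff_pm H r, ← isTree_iff_pm H r]
    rw [key _ T, key _ (H \ T)]
    · exact ⟨h1, h2⟩
    · intro a b
      rw [SimpleGraph.sdiff_adj]
      constructor
      · rintro ⟨h3, h4⟩
        exact ⟨h3, by simpa using h4⟩
      · rintro ⟨h3, h4⟩
        exact ⟨h3, by simpa using h4⟩
    · intro a b
      constructor
      · intro h
        exact ⟨hT h, by simpa using h⟩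
      · rintro ⟨_, h⟩
        simpa using h
  · obtain ⟨S, h1, h2⟩ := S
    rw [← isTree_iff_pm H r] at h1 h2
    refine ⟨?_, h1, ?_⟩
    · intro a b hab
      rw [SimpleGraph.fromEdgeSet_adj] at hab
      obtain ⟨⟨⟨e, he⟩, -, heq⟩, -⟩ := hab
      simp only at heq
      subst heq
      exact he
    · have : H \ SimpleGraph.fromEdgeSet ((fun e : H.edgeSet => (e : Sym2 W)) '' (S : Set H.edgeSet)) =
          SimpleGraph.fromEdgeSet ((fun e : H.edgeSet => (e : Sym2 W)) '' ((Sᶜ : Finset _) : Set H.edgeSet)) := by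
        symm
        apply key
        intro a b
        rw [SimpleGraph.sdiff_adj, SimpleGraph.fromEdgeSet_adj]
        constructor
        · rintro ⟨h3, h4⟩
          refine ⟨h3, ?_⟩
          simp only [mem_compl]
          intro h5
          exact h4 ⟨⟨_, h5, rfl⟩, H.ne_of_adj h3⟩
        · rintro ⟨h3, h4⟩
          refine ⟨h3, ?_⟩
          rintro ⟨⟨⟨e, he⟩, hS, heq⟩, -⟩
          simp only at heq
          subst heq
          simp only [mem_compl] at h4
          exact h4 hS
      rw [this]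
      exact h2
  · rintro ⟨T, hT, h1, h2⟩
    apply Subtype.ext
    apply key
    intro a b
    constructor
    · intro h
      exact ⟨hT h, by simpa using h⟩
    · rintro ⟨_, h⟩
      simpa using h
  · rintro ⟨S, h1, h2⟩
    apply Subtype.ext
    ext ⟨e, he⟩
    simp only [mem_filter, mem_univ, true_and]
    rw [SimpleGraph.edgeSet_fromEdgeSet]
    constructor
    · rintro ⟨⟨⟨e', he'⟩, hS, heq⟩, -⟩
      simp only at heq
      subst heq
      exact hS
    · intro h
      exact ⟨⟨_, h, rfl⟩, H.not_isDiag_of_mem_edgeSet he⟩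

open scoped Classical in
/-- PP-0a (helper94 does this one) -/
theorem zeros_Mt (H : SimpleGraph W) (w : W) (hcard : H.edgeFinset.card + 2 = 2 * Fintype.card W)
    (hV : 4 ≤ Fintype.card W) (hw : (H.neighborSet w).ncard = 3) :
    zeros 2 H ≡ Mt H [MOD 8] ∧ 4 ∣ Mt H := by
  have : Nontrivial W := Fintype.one_lt_card_iff_nontrivial.1 (by omega)
  obtain ⟨r', hr'⟩ := exists_ne w
  have hcV : Fintype.card {x : W // x ≠ r'} + 1 = Fintype.card W := by
    have := Fintype.card_subtype_compl (fun x : W => x = r')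
    simp only [Fintype.card_subtype_eq] at this
    have h2 : Fintype.card {x : W // x ≠ r'} = Fintype.card W - 1 := this
    omega
  have hcE : Fintype.card H.edgeSet = H.edgeFinset.card := by
    rw [SimpleGraph.edgeFinset, Set.toFinset_card]
  have h3 : (univ.filter fun e : H.edgeSet =>
      inc (fun e : H.edgeSet => (e : Sym2 W)) r' e ⟨w, hr'.symm⟩ = 1).card = 3 := by
    rw [← hw, Set.ncard_eq_toFinset_card']
    refine card_bij' (fun e he => Sym2.Mem.other' (a := w) (z := (e : Sym2 W)) (by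
      simpa [inc] using he)) (fun y hy => ⟨s(w, y), by simpa using hy⟩) ?_ ?_ ?_ ?_
    · intro e he
      have hwe : w ∈ (e : Sym2 W) := by simpa [inc] using he
      simp only [Set.mem_toFinset, SimpleGraph.mem_neighborSet]
      have := Sym2.other_spec' hwe
      rw [← SimpleGraph.mem_edgeSet, this]
      exact e.2
    · intro y hy
      simp [inc]
    · intro e he
      have hwe : w ∈ (e : Sym2 W) := by simpa [inc] using he
      exact Subtype.ext (Sym2.other_spec' hwe)
    · intro y hy
      have : w ∈ s(w, y) := by simp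
      have h := Sym2.other_spec' this
      exact Sym2.congr_right.1 h
  have h1 := partI (inc (fun e : H.edgeSet => (e : Sym2 W)) r') (by omega) (by omega)
    ⟨w, hr'.symm⟩ h3
  have h4 := partI_dvd (inc (fun e : H.edgeSet => (e : Sym2 W)) r') ⟨w, hr'.symm⟩ h3
  rw [zeros_eq H r', Mt_eq_card H r']
  exact ⟨h1, h4⟩

omit [Fintype W] [DecidableEq W] in
private theorem ncard_del' (G : SimpleGraph W) (v : W) (x : {x : W // x ≠ v}) :
    ((del G v).neighborSet x).ncard = (G.neighborSet x \ {v}).ncard := by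
  rw [← Set.ncard_image_of_injective _ Subtype.val_injective]
  congr 1
  ext y
  simp only [Set.mem_image, SimpleGraph.mem_neighborSet, Set.mem_sdiff, Set.mem_singleton_iff]
  constructor
  · rintro ⟨z, hz, rfl⟩
    exact ⟨hz, z.2⟩
  · rintro ⟨h, hy⟩
    exact ⟨⟨y, hy⟩, h, rfl⟩

open scoped Classical in
/-- facts about `G - v` for a 4-regular graph -/
theorem del_facts (G : SimpleGraph W) (hG : Reg4 G) (v : W) :
    (del G v).edgeFinset.card + 2 = 2 * Fintype.card {x : W // x ≠ v} ∧
      4 ≤ Fintype.card {x : W // x ≠ v} ∧ ∃ w, ((del G v).neighborSet w).ncard = 3 := by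
  have hdeg : ∀ x : {x : W // x ≠ v}, ((del G v).neighborSet x).ncard =
      if G.Adj v x then 3 else 4 := by
    intro x
    rw [ncard_del']
    split_ifs with h
    · have hm : v ∈ G.neighborSet x := h.symm
      rw [Set.ncard_sdiff_singleton_of_mem hm, hG]
    · rw [Set.sdiff_singleton_eq_self, hG]
      exact fun h' => h (SimpleGraph.Adj.symm h')
  have hnb : (univ.filter fun x : {x : W // x ≠ v} => G.Adj v x).card = 4 := by
    rw [← hG v, Set.ncard_eq_toFinset_card']
    refine card_bij (fun x _ => (x : W)) ?_ ?_ ?_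
    · intro x hx
      simpa using hx
    · intro x _ y _ h
      exact Subtype.ext h
    · intro y hy
      have hy' : G.Adj v y := by simpa using hy
      exact ⟨⟨y, hy'.ne'⟩, by simpa using hy', rfl⟩
  have hV4 : 4 ≤ Fintype.card {x : W // x ≠ v} := by
    rw [← hnb]
    exact card_le_univ _
  obtain ⟨w, hw⟩ : (univ.filter fun x : {x : W // x ≠ v} => G.Adj v x).Nonempty := by
    rw [← card_pos, hnb]; norm_num
  have hw' : G.Adj v w := by simpa using hw
  refine ⟨?_, hV4, w, by rw [hdeg, if_pos hw']⟩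
  have h1 := (del G v).sum_degrees_eq_twice_card_edges
  have h2 : ∀ x, (del G v).degree x = if G.Adj v x then 3 else 4 := by
    intro x
    rw [← hdeg x, Set.ncard_eq_toFinset_card', SimpleGraph.degree, SimpleGraph.neighborFinset]
  have h3 : ∑ x : {x : W // x ≠ v}, (if G.Adj v x then 3 else 4) + 4 =
      4 * Fintype.card {x : W // x ≠ v} := by
    have : ∀ x : {x : W // x ≠ v}, (if G.Adj v x then 3 else 4) + (if G.Adj v x then 1 else 0) = 4 := by
      intro x; split_ifs <;> rfl
    calc ∑ x : {x : W // x ≠ v}, (if G.Adj v x then 3 else 4) + 4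
        = ∑ x : {x : W // x ≠ v}, (if G.Adj v x then 3 else 4) +
          ∑ x : {x : W // x ≠ v}, (if G.Adj v x then 1 else 0) := by
            rw [sum_boole, hnb]; rfl
      _ = ∑ x : {x : W // x ≠ v}, 4 := by
            rw [← sum_add_distrib]
            exact sum_congr rfl fun x _ => this x
      _ = _ := by rw [sum_const, card_univ, smul_eq_mul, mul_comm]
  rw [sum_congr rfl (fun x _ => h2 x)] at h1
  omega

/-- PP-0b -/
theorem c2_Mt (G : SimpleGraph W) (hG : Reg4 G) (v : W) :
    4 ∣ Mt (del G v) ∧ c2 2 (del G v) = ((Mt (del G v) / 4 : ℕ) : ZMod 2) := by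
  obtain ⟨h1, h2, w, hw⟩ := del_facts G hG v
  obtain ⟨h, h4⟩ := zeros_Mt (del G v) w h1 h2 hw
  refine ⟨h4, ?_⟩
  have h4' : 4 ∣ zeros 2 (del G v) := by
    have : zeros 2 (del G v) ≡ Mt (del G v) [MOD 4] := h.of_dvd (by norm_num)
    exact (Nat.modEq_zero_iff_dvd.1 (this.trans (Nat.modEq_zero_iff_dvd.2 h4)))
  obtain ⟨k, hk⟩ := h4'
  obtain ⟨l, hl⟩ := h4
  unfold c2
  rw [hk, hl] at h ⊢
  have h5 : k ≡ l [MOD 2] := by
    have : 4 * k ≡ 4 * l [MOD 4 * 2] := h
    exact Nat.ModEq.mul_left_cancel' (by norm_num) this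
  have h6 : 4 * k / 2 ^ 2 = k := by norm_num
  have h7 : 4 * l / 4 = l := by norm_num
  rw [h6, h7]
  exact (ZMod.natCast_eq_natCast_iff _ _ _).2 h5

omit [Fintype W] [DecidableEq W] in
/-- PP-0c -/
theorem Mt_iso {W' : Type*} {H : SimpleGraph W} {H' : SimpleGraph W'} (φ : H ≃g H') :
    Mt H = Mt H' := by
  unfold Mt
  have iso : ∀ T : SimpleGraph W, Nonempty (T ≃g T.comap φ.symm) := fun T =>
    ⟨⟨φ.toEquiv, by
      intro a b
      simp⟩⟩
  have hcc : ∀ T : SimpleGraph W, (T.comap φ.symm).comap φ = T := by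
    intro T; ext a b; simp
  have hcc' : ∀ T : SimpleGraph W', (T.comap φ).comap φ.symm = T := by
    intro T; ext a b; simp
  have hH : H.comap φ.symm = H' := by
    ext a b
    simpa using φ.symm.map_adj_iff
  have hsd : ∀ A B : SimpleGraph W, (A \ B).comap φ.symm = A.comap φ.symm \ B.comap φ.symm := by
    intro A B; ext a b; simp
  have iso2 : ∀ T : SimpleGraph W', Nonempty (T.comap φ ≃g T) := fun T => by
    have := iso (T.comap φ)
    rwa [hcc'] at this
  refine Nat.card_congr ⟨fun T => ⟨T.1.comap φ.symm, ?_⟩, fun T => ⟨T.1.comap φ, ?_⟩, ?_, ?_⟩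
  · obtain ⟨T, hT, h1, h2⟩ := T
    refine ⟨?_, ?_, ?_⟩
    · intro a b hab
      rw [← hH]
      exact hT hab
    · exact (iso T).some.isTree_iff.1 h1
    · have h3 : H' \ T.comap φ.symm = (H \ T).comap φ.symm := by
        rw [hsd]
        exact congrArg (fun K => K \ T.comap φ.symm) hH.symm
      show (H' \ T.comap φ.symm).IsTree
      rw [h3]
      exact (iso (H \ T)).some.isTree_iff.1 h2
  · obtain ⟨T, hT, h1, h2⟩ := T
    refine ⟨?_, ?_, ?_⟩
    · intro a b hab
      have : H'.Adj (φ a) (φ b) := hT hab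
      exact φ.map_adj_iff.1 this
    · exact (iso2 T).some.isTree_iff.2 h1
    · have h3 : H \ T.comap φ = (H' \ T).comap φ := by
        ext a b
        simp only [SimpleGraph.sdiff_adj, SimpleGraph.comap_adj]
        rw [φ.map_adj_iff]
      show (H \ T.comap φ).IsTree
      rw [h3]
      exact (iso2 _).some.isTree_iff.2 h2
  · intro T
    exact Subtype.ext (hcc T.1)
  · intro T
    exact Subtype.ext (hcc' T.1)

omit [Fintype W] [DecidableEq W] in
private theorem reg4_iso {W' : Type*} {G : SimpleGraph W} {G' : SimpleGraph W'}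
    (hG : Reg4 G) (φ : G ≃g G') : Reg4 G' := by
  intro x
  rw [← hG (φ.symm x), ← Set.ncard_image_of_injective _ φ.injective]
  congr 1
  ext y
  simp only [Set.mem_image, SimpleGraph.mem_neighborSet]
  constructor
  · intro h
    refine ⟨φ.symm y, ?_, by simp⟩
    exact φ.symm.map_adj_iff.2 h
  · rintro ⟨z, hz, rfl⟩
    have := φ.map_adj_iff.2 hz
    simpa using this

/-- PP-0d -/
theorem c2_iso {W' : Type*} [Fintype W'] [DecidableEq W'] {G : SimpleGraph W} {G' : SimpleGraph W'}
    (hG : Reg4 G) (φ : G ≃g G') (v : W) : c2 2 (del G v) = c2 2 (del G' (φ v)) := by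
  have hG' : Reg4 G' := reg4_iso hG φ
  rw [(c2_Mt G hG v).2, (c2_Mt G' hG' (φ v)).2]
  have e : del G v ≃g del G' (φ v) :=
    ⟨φ.toEquiv.subtypeEquiv (fun a => by
      simp), by
      intro a b
      exact φ.map_adj_iff⟩
  rw [Mt_iso e]

/-- PP-0e -/
theorem allZero_iff (G : SimpleGraph W) (hG : Reg4 G) (v : W) :
    AllZero G ↔ c2 2 (del G v) = 0 := by
  constructor
  · intro h
    exact h v
  · intro h w
    rw [c2_indep G hG w v]
    exact h

/-- PP-0f -/
theorem allZero_iso {W' : Type*} [Fintype W'] [DecidableEq W'] {G : SimpleGraph W}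
    {G' : SimpleGraph W'} (hG : Reg4 G) (φ : G ≃g G') : AllZero G ↔ AllZero G' := by
  constructor
  · intro h v
    have := c2_iso hG φ (φ.symm v)
    rw [φ.apply_symm_apply] at this
    rw [← this]
    exact h _
  · intro h v
    rw [c2_iso hG φ v]
    exact h _

end MP06b
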