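import Pool.Agent.Lib.MP_06b34c_co.PPDefs

namespace MP06b
open Finset

/-- the fifteen perfect matchings of six points -/
def FM : Fin 15 → Fin 6 → Fin 3 := ![![0, 0, 1, 1, 2, 2],
    ![0, 0, 1, 2, 1, 2],
    ![0, 0, 1, 2, 2, 1],
    ![0, 1, 0, 1, 2, 2],
    ![0, 1, 0, 2, 1, 2],
    ![0, 1, 0, 2, 2, 1],
    ![0, 1, 1, 0, 2, 2],
    ![0, 1, 2, 0, 1, 2],
    ![0, 1, 2, 0, 2, 1],
    ![0, 1, 1, 2, 0, 2],
    ![0, 1, 2, 1, 0, 2],
    ![0, 1, 2, 2, 0, 1],
    ![0, 1, 1, 2, 2, 0],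
    ![0, 1, 2, 1, 2, 0],
    ![0, 1, 2, 2, 1, 0]]

theorem FM_bal : ∀ k, Bal 2 (FM k) := by decide

theorem FM_inj : Function.Injective
    (fun p : Fin 15 × Equiv.Perm (Fin 3) => fun i => p.2 (FM p.1 i)) := by decide +kernel

theorem FM_count : ∀ a b c d : ZMod 2, 7 ≤ (univ.filter fun k : Fin 15 =>
    (![a, b, a + b, c, d, c + d, a + c, b + c + d, a + b + d, b + d, a + c + d, a + b + c, a + b + c + d, a + d, b + c] : Fin 15 → ZMod 2) k = 0).card := by
  decide +kernel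

/-- PP-6 (finite combinatorics over ZMod 2). m : symmetric function on pairs of six points. For a balanced
τ (three pairs ab, cd, ef) put g_τ(j₁,j₂) = sum of m over the four cross pairs of the classes j₁, j₂. Hypotheses: g_τ does not depend on the two
classes; for a balanced 3|3 split the sums of m inside the two halves are equal. Claim: g_τ = 0 for at least 42 of the 90 balanced τ
(that is for at least 7 of the 15 perfect matchings of K₆).
Proof: g(ab,cd) + g(ab,ef) = d_a + d_b where d_i = ∑_{j ≠ i} m_ij, so all d_i are equal, = δ. Write c(π) for the common value on the perfect matching π.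
(R1) three matchings with a common pair ab: the sum of the three c is ∑_{i ∈ ab} (m_ic + m_id + m_ie + m_if) = d_a + d_b = 0.
(R2) c(12|34|56) + c(23|45|61) + c(14|25|36) = sum of m over all pairs inside {1,..,5} = total - d_6 = total - δ, and by the 3|3 hypothesis
total = (inside + inside') + cross = 0 + cross, cross = ∑_{i ∈ A} d_i - 2 inside = 3 δ = δ; so the sum is 0.
By (R1), (R2) c is a linear functional on F_2^4 (points = 15 perfect matchings; lines = triples as in (R1), (R2)): choose four independent matchings,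
express the other 11 values; 16 cases; in each c vanishes on 15 or on 7 of the 15 matchings.
Alternative: normalise m_i6 = 0 (add φ_i + φ_j to m_ij, this changes nothing), then there are 2^10 cases (only pairs inside {1,..,5}), decide. -/
theorem count42 (m : Fin 6 → Fin 6 → ZMod 2) (hs : ∀ i j, m i j = m j i)
    (h3 : ∀ τ : Fin 6 → Fin 3, Bal 2 τ → ∀ j j₁ j₂ j₃ : Fin 3, j ≠ j₁ → j₂ ≠ j₃ →
      ∑ i ∈ univ.filter (fun i => τ i = j), ∑ i' ∈ univ.filter (fun i => τ i = j₁), m i i' =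
      ∑ i ∈ univ.filter (fun i => τ i = j₂), ∑ i' ∈ univ.filter (fun i => τ i = j₃), m i i')
    (h2 : ∀ τ : Fin 6 → Fin 2, Bal 3 τ →
      ∑ p ∈ (univ : Finset (Fin 6 × Fin 6)).filter (fun p => p.1 < p.2 ∧ τ p.1 ≠ 0 ∧ τ p.2 ≠ 0),
        m p.1 p.2 =
      ∑ p ∈ (univ : Finset (Fin 6 × Fin 6)).filter (fun p => p.1 < p.2 ∧ τ p.1 ≠ 1 ∧ τ p.2 ≠ 1),
        m p.1 p.2) :
    42 ≤ (univ.filter fun τ : Fin 6 → Fin 3 => Bal 2 τ ∧
      ∑ i ∈ univ.filter (fun i => τ i = 1), ∑ i' ∈ univ.filter (fun i => τ i = 2), m i i' = 0).card := by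
  classical
  have two : (2 : ZMod 2) = 0 := by decide
  set c : Fin 15 → ZMod 2 := fun k =>
    ∑ i ∈ univ.filter (fun i => FM k i = 1), ∑ i' ∈ univ.filter (fun i => FM k i = 2), m i i' with hc
  have c0 : c 0 = m 2 4 + m 2 5 + m 3 4 + m 3 5 := by
    simp [hc, FM, Finset.sum_filter, Fin.sum_univ_six, hs]
    ring
  have c1 : c 1 = m 2 3 + m 2 5 + m 3 4 + m 4 5 := by
    simp [hc, FM, Finset.sum_filter, Fin.sum_univ_six, hs]
    ring
  have c2 : c 2 = m 2 3 + m 2 4 + m 3 5 + m 4 5 := by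
    simp [hc, FM, Finset.sum_filter, Fin.sum_univ_six, hs]
    ring
  have c3 : c 3 = m 1 4 + m 1 5 + m 3 4 + m 3 5 := by
    simp [hc, FM, Finset.sum_filter, Fin.sum_univ_six, hs]
    ring
  have c4 : c 4 = m 1 3 + m 1 5 + m 3 4 + m 4 5 := by
    simp [hc, FM, Finset.sum_filter, Fin.sum_univ_six, hs]
    ring
  have c5 : c 5 = m 1 3 + m 1 4 + m 3 5 + m 4 5 := by
    simp [hc, FM, Finset.sum_filter, Fin.sum_univ_six, hs]
    ring
  have c6 : c 6 = m 1 4 + m 1 5 + m 2 4 + m 2 5 := by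
    simp [hc, FM, Finset.sum_filter, Fin.sum_univ_six, hs]
    ring
  have c7 : c 7 = m 1 2 + m 1 5 + m 2 4 + m 4 5 := by
    simp [hc, FM, Finset.sum_filter, Fin.sum_univ_six, hs]
    ring
  have c8 : c 8 = m 1 2 + m 1 4 + m 2 5 + m 4 5 := by
    simp [hc, FM, Finset.sum_filter, Fin.sum_univ_six, hs]
    ring
  have c9 : c 9 = m 1 3 + m 1 5 + m 2 3 + m 2 5 := by
    simp [hc, FM, Finset.sum_filter, Fin.sum_univ_six, hs]
    ring
  have c10 : c 10 = m 1 2 + m 1 5 + m 2 3 + m 3 5 := by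
    simp [hc, FM, Finset.sum_filter, Fin.sum_univ_six, hs]
    ring
  have c11 : c 11 = m 1 2 + m 1 3 + m 2 5 + m 3 5 := by
    simp [hc, FM, Finset.sum_filter, Fin.sum_univ_six, hs]
    ring
  have c12 : c 12 = m 1 3 + m 1 4 + m 2 3 + m 2 4 := by
    simp [hc, FM, Finset.sum_filter, Fin.sum_univ_six, hs]
    ring
  have c13 : c 13 = m 1 2 + m 1 4 + m 2 3 + m 3 4 := by
    simp [hc, FM, Finset.sum_filter, Fin.sum_univ_six, hs]
    ring
  have c14 : c 14 = m 1 2 + m 1 3 + m 2 4 + m 3 4 := by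
    simp [hc, FM, Finset.sum_filter, Fin.sum_univ_six, hs]
    ring
  have p0 : m 2 4 + m 2 5 + m 3 4 + m 3 5 = m 0 2 + m 0 3 + m 1 2 + m 1 3 := by
    have h := h3 (FM 0) (FM_bal _) 1 2 0 1 (by decide) (by decide)
    simp [FM, Finset.sum_filter, Fin.sum_univ_six, hs] at h
    linear_combination h
  have p3 : m 1 4 + m 1 5 + m 3 4 + m 3 5 = m 0 1 + m 0 3 + m 1 2 + m 2 3 := by
    have h := h3 (FM 3) (FM_bal _) 1 2 0 1 (by decide) (by decide)
    simp [FM, Finset.sum_filter, Fin.sum_univ_six, hs] at h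
    linear_combination h
  have r0 : m 3 4 + m 3 5 + m 4 5 = m 0 1 + m 0 2 + m 1 2 := by
    have h := h2 ![0, 0, 0, 1, 1, 1] (by decide)
    simp [Finset.sum_filter, Fintype.sum_prod_type, Fin.sum_univ_six, hs] at h
    linear_combination h
  have e2 : c 2 = c 0 + c 1 := by
    rw [c2, c0, c1]
    linear_combination ((-1) * m 2 5 + (-1) * m 3 4) * two
  have e5 : c 5 = c 3 + c 4 := by
    rw [c5, c3, c4]
    linear_combination ((-1) * m 1 5 + (-1) * m 3 4) * two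
  have e6 : c 6 = c 0 + c 3 := by
    rw [c6, c0, c3]
    linear_combination ((-1) * m 3 4 + (-1) * m 3 5) * two
  have e7 : c 7 = c 1 + c 3 + c 4 := by
    rw [c7, c1, c3, c4]
    linear_combination p0 + p3 + r0 + ((1) * m 0 1 + (1) * m 0 2 + (1) * m 0 3 + (2) * m 1 2 + (-1) * m 1 4 + (-1) * m 1 5 + (-1) * m 2 5 + (-3) * m 3 4 + (-2) * m 3 5 + (-1) * m 4 5) * two
  have e8 : c 8 = c 0 + c 1 + c 4 := by
    rw [c8, c0, c1, c4]
    linear_combination p0 + p3 + r0 + ((1) * m 0 1 + (1) * m 0 2 + (1) * m 0 3 + (2) * m 1 2 + (-1) * m 1 5 + (-1) * m 2 4 + (-1) * m 2 5 + (-3) * m 3 4 + (-2) * m 3 5 + (-1) * m 4 5) * two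
  have e9 : c 9 = c 1 + c 4 := by
    rw [c9, c1, c4]
    linear_combination ((-1) * m 3 4 + (-1) * m 4 5) * two
  have e10 : c 10 = c 0 + c 3 + c 4 := by
    rw [c10, c0, c3, c4]
    linear_combination p0 + p3 + r0 + ((1) * m 0 1 + (1) * m 0 2 + (1) * m 0 3 + (2) * m 1 2 + (-1) * m 1 4 + (-1) * m 1 5 + (1) * m 2 3 + (-1) * m 2 4 + (-1) * m 2 5 + (-3) * m 3 4 + (-2) * m 3 5 + (-1) * m 4 5) * two
  have e11 : c 11 = c 0 + c 1 + c 3 := by
    rw [c11, c0, c1, c3]
    linear_combination p0 + p3 + r0 + ((1) * m 0 1 + (1) * m 0 2 + (1) * m 0 3 + (2) * m 1 2 + (1) * m 1 3 + (-1) * m 1 4 + (-1) * m 1 5 + (-1) * m 2 4 + (-1) * m 2 5 + (-3) * m 3 4 + (-2) * m 3 5 + (-1) * m 4 5) * two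
  have e12 : c 12 = c 0 + c 1 + c 3 + c 4 := by
    rw [c12, c0, c1, c3, c4]
    linear_combination ((-1) * m 1 5 + (-1) * m 2 5 + (-2) * m 3 4 + (-1) * m 3 5 + (-1) * m 4 5) * two
  have e13 : c 13 = c 0 + c 4 := by
    rw [c13, c0, c4]
    linear_combination p0 + p3 + r0 + ((1) * m 0 1 + (1) * m 0 2 + (1) * m 0 3 + (2) * m 1 2 + (-1) * m 1 5 + (1) * m 2 3 + (-1) * m 2 4 + (-1) * m 2 5 + (-2) * m 3 4 + (-2) * m 3 5 + (-1) * m 4 5) * two
  have e14 : c 14 = c 1 + c 3 := by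
    rw [c14, c1, c3]
    linear_combination p0 + p3 + r0 + ((1) * m 0 1 + (1) * m 0 2 + (1) * m 0 3 + (2) * m 1 2 + (1) * m 1 3 + (-1) * m 1 4 + (-1) * m 1 5 + (-1) * m 2 5 + (-2) * m 3 4 + (-2) * m 3 5 + (-1) * m 4 5) * two
  have hcv : ∀ k, c k = (![c 0, c 1, c 0 + c 1, c 3, c 4, c 3 + c 4, c 0 + c 3, c 1 + c 3 + c 4, c 0 + c 1 + c 4, c 1 + c 4, c 0 + c 3 + c 4, c 0 + c 1 + c 3, c 0 + c 1 + c 3 + c 4, c 0 + c 4, c 1 + c 3] : Fin 15 → ZMod 2) k := by
    intro k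
    fin_cases k
    exacts [rfl, rfl, e2, rfl, rfl, e5, e6, e7, e8, e9, e10, e11, e12, e13, e14]
  have hK : 7 ≤ (univ.filter fun k : Fin 15 => c k = 0).card := by
    have h := FM_count (c 0) (c 1) (c 3) (c 4)
    have h' : (univ.filter fun k : Fin 15 => c k = 0) = univ.filter fun k : Fin 15 =>
        (![c 0, c 1, c 0 + c 1, c 3, c 4, c 3 + c 4, c 0 + c 3, c 1 + c 3 + c 4, c 0 + c 1 + c 4, c 1 + c 4, c 0 + c 3 + c 4, c 0 + c 1 + c 3, c 0 + c 1 + c 3 + c 4, c 0 + c 4, c 1 + c 3] : Fin 15 → ZMod 2) k = 0 := by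
      ext k
      simp only [mem_filter, mem_univ, true_and]
      rw [hcv k]
    rw [h']
    exact h
  have hcard : 42 ≤ ((univ.filter fun k : Fin 15 => c k = 0) ×ˢ (univ : Finset (Equiv.Perm (Fin 3)))).card := by
    rw [Finset.card_product, Finset.card_univ, Fintype.card_perm, Fintype.card_fin]
    have : Nat.factorial 3 = 6 := rfl
    rw [this]
    omega
  refine hcard.trans ?_
  refine Finset.card_le_card_of_injOn (fun p i => p.2 (FM p.1 i)) ?_ (FM_inj.injOn)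
  rintro ⟨k, σ⟩ hk
  have hk' : c k = 0 := by
    have := (Finset.mem_product.1 (Finset.mem_coe.1 hk)).1
    simpa using this
  have hfil : ∀ j : Fin 3, (univ.filter fun i : Fin 6 => σ (FM k i) = j) =
      univ.filter fun i : Fin 6 => FM k i = σ.symm j := by
    intro j
    ext i
    simp only [mem_filter, mem_univ, true_and]
    constructor
    · intro h; rw [← h, Equiv.symm_apply_apply]
    · intro h; rw [h, Equiv.apply_symm_apply]
  simp only [Finset.coe_filter, Set.mem_ofPred_eq, mem_univ, true_and]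
  constructor
  · intro j
    show (univ.filter fun i : Fin 6 => σ (FM k i) = j).card = 2
    rw [hfil j]
    exact FM_bal k _
  · rw [hfil 1, hfil 2]
    rw [← hk']
    exact h3 (FM k) (FM_bal k) _ _ _ _ (fun h => by simpa using σ.symm.injective h) (by decide)

end MP06b
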