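import Pool.Agent.Lib.MP_06b34c_co.PPAtt2
import Pool.Agent.Lib.MP_06b34c_co.PPAtt3
import Pool.Agent.Lib.MP_06b34c_co.PPFinite

namespace MP06b
open Finset

variable {U : Type*} [Fintype U] [DecidableEq U]

open scoped Classical in
/-- PP-7. Proof: m = mm R o; `c2_indep` (file Symm; Reg4 is the same hypothesis) for att R o τ and `c2_att3`, `c2_att2` give the hypotheses of
`count42`; `allZero_iff` with v = inr 0. -/
theorem local42 (R : SimpleGraph U) (o : Fin 6 → U) (hC : Conf R o) :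
    42 ≤ (univ.filter fun τ : Fin 6 → Fin 3 => Bal 2 τ ∧ AllZero (att R o τ)).card := by
  have hthird : ∀ j j₁ : Fin 3, j ≠ j₁ → ∃ k, k ≠ j ∧ k ≠ j₁ := by decide
  have h := count42 (mm R o) (mm_comm R o)
    (fun τ hτ j j₁ j₂ j₃ h1 h2 => by
      obtain ⟨k, hk1, hk2⟩ := hthird j j₁ h1
      obtain ⟨k', hk1', hk2'⟩ := hthird j₂ j₃ h2
      rw [← c2_att3 R o hC τ hτ k j j₁ hk1 hk2 h1, ← c2_att3 R o hC τ hτ k' j₂ j₃ hk1' hk2' h2]
      exact c2_indep (att R o τ) (att_reg4 R o hC τ hτ (by norm_num)) _ _)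
    (fun τ hτ => by
      rw [← c2_att2 R o hC τ hτ 0, ← c2_att2 R o hC τ hτ 1]
      exact c2_indep (att R o τ) (att_reg4 R o hC τ hτ (by norm_num)) _ _)
  refine h.trans (Finset.card_le_card fun τ hτ => ?_)
  rw [Finset.mem_filter] at hτ ⊢
  refine ⟨hτ.1, hτ.2.1, ?_⟩
  rw [allZero_iff (att R o τ) (att_reg4 R o hC τ hτ.2.1 (by norm_num)) (Sum.inr 0),
    c2_att3 R o hC τ hτ.2.1 0 1 2 (by decide) (by decide) (by decide)]
  exact hτ.2.2

end MP06b
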