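import Pool.Agent.Lib.MP_06b34c_co.PPFrameA
import Pool.Agent.Lib.MP_06b34c_co.PPLocal

namespace MP06b
open Finset

variable {V : Type*} [Fintype V] [DecidableEq V]

/-- the eight permutations preserving `tau0` -/
private def fc_pi (b : Bool × Bool × Bool) : Equiv.Perm (Fin 6) :=
  (if b.1 then Equiv.swap 0 1 else 1) * ((if b.2.1 then Equiv.swap 2 3 else 1) *
    (if b.2.2 then Equiv.swap 4 5 else 1))

private lemma fc_pi_tau (b : Bool × Bool × Bool) (i : Fin 6) : tau0 (fc_pi b i) = tau0 i := by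
  revert b i
  decide

private lemma fc_pi_inj (b b' : Bool × Bool × Bool) (h : ∀ i, fc_pi b i = fc_pi b' i) : b = b' := by
  revert b b'
  decide

private lemma fc_bal0 : Bal 2 tau0 := by decide

private lemma fc_exists (τ : Fin 6 → Fin 3) (hτ : Bal 2 τ) :
    ∃ σ : Equiv.Perm (Fin 6), ∀ i, tau0 (σ i) = τ i := by
  have hc : ∀ j, Fintype.card {i // τ i = j} = Fintype.card {i // tau0 i = j} := by
    intro j
    rw [Fintype.card_subtype, Fintype.card_subtype, hτ j, fc_bal0 j]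
  let e : (j : Fin 3) → {i // τ i = j} ≃ {i // tau0 i = j} := fun j => Fintype.equivOfCardEq (hc j)
  let σ : Equiv.Perm (Fin 6) :=
    ((Equiv.sigmaFiberEquiv τ).symm.trans (Equiv.sigmaCongrRight e)).trans
      (Equiv.sigmaFiberEquiv tau0)
  refine ⟨σ, ?_⟩
  intro i
  exact (e (τ i) ⟨i, rfl⟩).2

private lemma fc_fiber (τ : Fin 6 → Fin 3) (hτ : Bal 2 τ) :
    8 ≤ (univ.filter fun σ : Equiv.Perm (Fin 6) => (fun i => tau0 (σ i)) = τ).card := by
  obtain ⟨σ0, h0⟩ := fc_exists τ hτ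
  have h8 : (univ : Finset (Bool × Bool × Bool)).card = 8 := by decide
  rw [← h8]
  refine Finset.card_le_card_of_injOn (fun b => fc_pi b * σ0) ?_ ?_
  · intro b _
    rw [Finset.mem_coe, Finset.mem_filter]
    refine ⟨Finset.mem_univ _, ?_⟩
    funext i
    rw [Equiv.Perm.mul_apply, fc_pi_tau, h0]
  · intro b _ b' _ h
    have h1 : fc_pi b = fc_pi b' := mul_right_cancel h
    exact fc_pi_inj b b' (fun i => by rw [h1])

section
variable {G : SimpleGraph V} {t : Fin 3 → V} {o : Fin 6 → V}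

private lemma fc_conf (hG : Reg4 G) (hF : Frame G t o) :
    Conf (G.comap (Subtype.val : {v : V // ∀ k, v ≠ t k} → V))
      (fun i => (⟨o i, fun k => hF.disj i k⟩ : {v : V // ∀ k, v ≠ t k})) := by
  have himg : ∀ u : {v : V // ∀ k, v ≠ t k},
      Subtype.val '' ((G.comap (Subtype.val : {v : V // ∀ k, v ≠ t k} → V)).neighborSet u) =
        G.neighborSet u.1 \ Set.range t := by
    intro u
    ext w
    simp only [Set.mem_image, SimpleGraph.mem_neighborSet, SimpleGraph.comap_adj]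
    constructor
    · rintro ⟨w', hw', rfl⟩
      exact ⟨hw', fun ⟨k, hk⟩ => w'.2 k hk.symm⟩
    · rintro ⟨hw, hk⟩
      exact ⟨⟨w, fun k h => hk ⟨k, h.symm⟩⟩, hw, rfl⟩
  refine ⟨?_, ?_, ?_, ?_⟩
  · intro i j h
    exact hF.oinj (congrArg Subtype.val h)
  · intro i
    rw [← Set.ncard_image_of_injective _ Subtype.val_injective, himg]
    have h1 : G.neighborSet (o i) \ Set.range t = G.neighborSet (o i) \ {t (tau0 i)} := by
      ext w
      simp only [Set.mem_sdiff, SimpleGraph.mem_neighborSet, Set.mem_range, Set.mem_singleton_iff]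
      constructor
      · rintro ⟨hw, hk⟩
        exact ⟨hw, fun h => hk ⟨_, h.symm⟩⟩
      · rintro ⟨hw, hk⟩
        refine ⟨hw, ?_⟩
        rintro ⟨k, rfl⟩
        apply hk
        rcases (frame_nbr G hG t o hF k (o i)).1 hw.symm with ⟨j, _, hj⟩ | ⟨i', hi', hoi⟩
        · exact absurd hj (hF.disj i j)
        · rw [hF.oinj hoi, hi']
    rw [h1, Set.ncard_sdiff_singleton_of_mem, hG]
    exact hF.leg i
  · intro u hu
    rw [← Set.ncard_image_of_injective _ Subtype.val_injective, himg]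
    have h1 : G.neighborSet u.1 \ Set.range t = G.neighborSet u.1 := by
      ext w
      simp only [Set.mem_sdiff, SimpleGraph.mem_neighborSet, Set.mem_range, and_iff_left_iff_imp]
      intro hw
      rintro ⟨k, rfl⟩
      rcases (frame_nbr G hG t o hF k u.1).1 hw.symm with ⟨j, _, hj⟩ | ⟨i, _, hi⟩
      · exact u.2 j hj
      · exact hu i (Subtype.ext hi)
    rw [h1, hG]
  · intro i j h
    exact hF.nadj i j h

private lemma fc_iso (hG : Reg4 G) (hF : Frame G t o) (σ : Equiv.Perm (Fin 6)) :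
    Nonempty (rearr G t o σ ≃g
      att (G.comap (Subtype.val : {v : V // ∀ k, v ≠ t k} → V))
      (fun i => (⟨o i, fun k => hF.disj i k⟩ : {v : V // ∀ k, v ≠ t k}))
      (fun i => tau0 (σ i))) := by
  classical
  let f : {v : V // ∀ k, v ≠ t k} ⊕ Fin 3 → V := Sum.elim Subtype.val t
  have hf : Function.Bijective f := by
    constructor
    · rintro (u | i) (v | j) h
      · exact congrArg Sum.inl (Subtype.ext h)
      · exact absurd h (u.2 j)
      · exact absurd h.symm (v.2 i)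
      · exact congrArg Sum.inr (hF.tinj h)
    · intro v
      by_cases h : ∃ k, v = t k
      · obtain ⟨k, rfl⟩ := h
        exact ⟨Sum.inr k, rfl⟩
      · push Not at h
        exact ⟨Sum.inl ⟨v, h⟩, rfl⟩
  have hadj : ∀ x y, (rearr G t o σ).Adj x y ↔
      ((G.Adj x y ∧ ¬ ((∃ i, s(x, y) = s(o i, t (tau0 i))) ∧ x ≠ y)) ∨
        ((∃ i, s(x, y) = s(o i, t (tau0 (σ i)))) ∧ x ≠ y)) := by
    intro x y
    simp only [rearr, SimpleGraph.sup_adj, SimpleGraph.sdiff_adj, SimpleGraph.fromEdgeSet_adj,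
      Set.mem_ofPred_eq]
  have h1 : ∀ (u v : {v : V // ∀ k, v ≠ t k}) (i : Fin 6) (k : Fin 3), s(u.1, v.1) ≠ s(o i, t k) := by
    intro u v i k h
    rw [Sym2.eq_iff] at h
    rcases h with ⟨_, h⟩ | ⟨h, _⟩
    · exact v.2 k h
    · exact u.2 k h
  have h2 : ∀ (k l : Fin 3) (i : Fin 6) (m : Fin 3), s(t k, t l) ≠ s(o i, t m) := by
    intro k l i m h
    rw [Sym2.eq_iff] at h
    rcases h with ⟨h, _⟩ | ⟨_, h⟩
    · exact hF.disj i k h.symm
    · exact hF.disj i l h.symm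
  have h3 : ∀ (u : {v : V // ∀ k, v ≠ t k}) (j : Fin 3),
      (rearr G t o σ).Adj u.1 (t j) ↔ ∃ i, o i = u.1 ∧ tau0 (σ i) = j := by
    intro u j
    rw [hadj]
    constructor
    · rintro (⟨hg, hn⟩ | ⟨⟨i, hi⟩, _⟩)
      · exfalso
        apply hn
        rcases (frame_nbr G hG t o hF j u.1).1 hg.symm with ⟨j', _, hj⟩ | ⟨i, hi, hu⟩
        · exact absurd hj (u.2 j')
        · exact ⟨⟨i, by rw [hi, hu]⟩, u.2 j⟩
      · rw [Sym2.eq_iff] at hi
        rcases hi with ⟨h4, h5⟩ | ⟨h4, _⟩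
        · exact ⟨i, h4.symm, (hF.tinj h5).symm⟩
        · exact absurd h4 (u.2 _)
    · rintro ⟨i, hi, hj⟩
      right
      exact ⟨⟨i, by rw [hi, hj]⟩, u.2 j⟩
  let e := Equiv.ofBijective f hf
  refine ⟨SimpleGraph.Iso.symm ⟨e, ?_⟩⟩
  rintro (u | i) (v | j)
  · change (rearr G t o σ).Adj u.1 v.1 ↔ G.Adj u.1 v.1
    rw [hadj]
    constructor
    · rintro (⟨hg, _⟩ | ⟨⟨i, hi⟩, _⟩)
      · exact hg
      · exact absurd hi (h1 u v _ _)
    · intro hg
      left
      exact ⟨hg, fun ⟨⟨i, hi⟩, _⟩ => h1 u v _ _ hi⟩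
  · change (rearr G t o σ).Adj u.1 (t j) ↔ ∃ i, (⟨o i, _⟩ : {v : V // ∀ k, v ≠ t k}) = u ∧
      tau0 (σ i) = j
    rw [h3]
    constructor
    · rintro ⟨i, hi, hj⟩
      exact ⟨i, Subtype.ext hi, hj⟩
    · rintro ⟨i, hi, hj⟩
      exact ⟨i, congrArg Subtype.val hi, hj⟩
  · change (rearr G t o σ).Adj (t i) v.1 ↔ ∃ i', (⟨o i', _⟩ : {v : V // ∀ k, v ≠ t k}) = v ∧
      tau0 (σ i') = i
    rw [SimpleGraph.adj_comm, h3]
    constructor
    · rintro ⟨i, hi, hj⟩
      exact ⟨i, Subtype.ext hi, hj⟩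
    · rintro ⟨i, hi, hj⟩
      exact ⟨i, congrArg Subtype.val hi, hj⟩
  · change (rearr G t o σ).Adj (t i) (t j) ↔ i ≠ j
    rw [hadj]
    constructor
    · rintro (⟨hg, _⟩ | ⟨⟨i, hi⟩, _⟩)
      · rintro rfl
        exact G.irrefl hg
      · exact absurd hi (h2 _ _ _ _)
    · intro hij
      left
      exact ⟨hF.tri i j hij, fun ⟨⟨i, hi⟩, _⟩ => h2 _ _ _ _ hi⟩

end

open scoped Classical in
/-- PP-10. Proof: U = {v // ∀ k, v ≠ t k}, R = G.induce _, o' i = ⟨o i, _⟩. Then Conf R o' (o i loses exactly one neighbour, other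
vertices outside t none, `frame_nbr`), and rearr G t o σ is isomorphic to att R o' (tau0 ∘ σ) (v ↦ inl v for v ∉ range t, t k ↦ inr k).
By `allZero_iso` AllZero (rearr G t o σ) depends only on τ = tau0 ∘ σ; every balanced τ is tau0 ∘ σ for exactly 8 σ; so the number is
≥ 8 * 42 by `local42`. -/
theorem frame336 (G : SimpleGraph V) (hG : Reg4 G) (t : Fin 3 → V) (o : Fin 6 → V)
    (hF : Frame G t o) :
    336 ≤ (univ.filter fun σ : Equiv.Perm (Fin 6) => AllZero (rearr G t o σ)).card := by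
  have h42 := local42 _ _ (fc_conf hG hF)
  obtain ⟨P, hP⟩ : ∃ P : (Fin 6 → Fin 3) → Prop, P = fun τ => AllZero
      (att (G.comap (Subtype.val : {v : V // ∀ k, v ≠ t k} → V))
      (fun i => (⟨o i, fun k => hF.disj i k⟩ : {v : V // ∀ k, v ≠ t k})) τ) := ⟨_, rfl⟩
  have hiff : ∀ σ : Equiv.Perm (Fin 6), P (fun i => tau0 (σ i)) ↔ AllZero (rearr G t o σ) := by
    intro σ
    obtain ⟨φ⟩ := fc_iso hG hF σ
    rw [hP]
    exact (allZero_iso (rearr_reg4 G hG t o hF σ) φ).symm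
  have h42' : 42 ≤ (univ.filter fun τ : Fin 6 → Fin 3 => Bal 2 τ ∧ P τ).card := by
    rw [hP]
    exact h42
  obtain ⟨A, hA⟩ : ∃ A, A = univ.filter fun τ : Fin 6 → Fin 3 => Bal 2 τ ∧ P τ := ⟨_, rfl⟩
  rw [← hA] at h42'
  have hsub : A.biUnion (fun τ => univ.filter fun σ : Equiv.Perm (Fin 6) =>
      (fun i => tau0 (σ i)) = τ) ⊆
      univ.filter fun σ : Equiv.Perm (Fin 6) => AllZero (rearr G t o σ) := by
    intro σ hσ
    rw [Finset.mem_biUnion] at hσ
    obtain ⟨τ, hτ, hσ⟩ := hσ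
    rw [hA, Finset.mem_filter] at hτ
    rw [Finset.mem_filter] at hσ ⊢
    refine ⟨Finset.mem_univ _, ?_⟩
    rw [← hiff, hσ.2]
    exact hτ.2.2
  refine le_trans ?_ (Finset.card_le_card hsub)
  rw [Finset.card_biUnion]
  · calc 336 = 42 * 8 := by norm_num
      _ ≤ A.card * 8 := Nat.mul_le_mul_right 8 h42'
      _ = ∑ _τ ∈ A, 8 := by rw [Finset.sum_const, smul_eq_mul]
      _ ≤ _ := by
          apply Finset.sum_le_sum
          intro τ hτ
          rw [hA, Finset.mem_filter] at hτ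
          exact fc_fiber τ hτ.2.1
  · intro τ _ τ' _ hne
    rw [Function.onFun, Finset.disjoint_left]
    intro σ hσ hσ'
    rw [Finset.mem_filter] at hσ hσ'
    exact hne (hσ.2.symm.trans hσ'.2)

end MP06b
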