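import Pool.Agent.Lib.MP_06b34c_co.PPFrameA

namespace MP06b
open Finset

variable {V : Type*} [Fintype V] [DecidableEq V]

/-- the injective maps `Fin 3 → V` with a given image of size three: six of them -/
theorem card_orderings (S : Finset V) (hS : S.card = 3) :
    (univ.filter fun t : Fin 3 → V => Function.Injective t ∧ univ.image t = S).card = 6 := by
  classical
  let e : Fin 3 ≃ S := (S.equivFinOfCardEq hS).symm
  have h6 : (univ : Finset (Equiv.Perm (Fin 3))).card = 6 := by
    rw [Finset.card_univ, Fintype.card_perm, Fintype.card_fin]; rfl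
  rw [← h6]
  symm
  apply Finset.card_bij (fun (σ : Equiv.Perm (Fin 3)) _ => fun i => ((e (σ i) : S) : V))
  · intro σ _
    rw [Finset.mem_filter]
    refine ⟨Finset.mem_univ _, ?_, ?_⟩
    · intro i j hij
      exact σ.injective (e.injective (Subtype.ext hij))
    · ext x
      rw [Finset.mem_image]
      constructor
      · rintro ⟨i, -, rfl⟩
        exact (e (σ i)).2
      · intro hx
        refine ⟨σ.symm (e.symm ⟨x, hx⟩), Finset.mem_univ _, ?_⟩
        simp
  · intro σ _ τ _ h
    ext i
    have := congrFun h i
    have h2 : σ i = τ i := e.injective (Subtype.ext this)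
    rw [h2]
  · intro t ht
    rw [Finset.mem_filter] at ht
    obtain ⟨-, htinj, htS⟩ := ht
    have hmem : ∀ i, t i ∈ S := fun i => by
      rw [← htS]; exact Finset.mem_image_of_mem _ (Finset.mem_univ _)
    have hinj : Function.Injective (fun i => e.symm ⟨t i, hmem i⟩) := by
      intro i j hij
      have := e.symm.injective hij
      exact htinj (congrArg Subtype.val this)
    refine ⟨Equiv.ofBijective _ (Finite.injective_iff_bijective.1 hinj), Finset.mem_univ _, ?_⟩
    funext i
    simp

open scoped Classical in
/-- ordered triangles -/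
noncomputable def OT (G : SimpleGraph V) : Finset (Fin 3 → V) :=
  univ.filter fun t => Function.Injective t ∧ ∀ i j, i ≠ j → G.Adj (t i) (t j)

theorem card_OT (G : SimpleGraph V) : (OT G).card = 6 * tri G := by
  classical
  have htri : tri G = (G.cliqueFinset 3).card := rfl
  rw [htri]
  have hmaps : ∀ t ∈ OT G, univ.image t ∈ G.cliqueFinset 3 := by
    intro t ht
    simp only [OT, Finset.mem_filter, Finset.mem_univ, true_and] at ht
    rw [SimpleGraph.mem_cliqueFinset_iff, SimpleGraph.isNClique_iff, SimpleGraph.isClique_iff]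
    refine ⟨?_, ?_⟩
    · intro a ha b hb hab
      simp only [Finset.coe_image, Finset.coe_univ, Set.image_univ, Set.mem_range] at ha hb
      obtain ⟨i, rfl⟩ := ha
      obtain ⟨j, rfl⟩ := hb
      exact ht.2 i j (fun h => hab (by rw [h]))
    · rw [Finset.card_image_of_injective _ ht.1, Finset.card_univ, Fintype.card_fin]
  rw [Finset.card_eq_sum_card_fiberwise hmaps]
  rw [Finset.sum_const_nat (m := 6), mul_comm]
  intro S hS
  rw [SimpleGraph.mem_cliqueFinset_iff, SimpleGraph.isNClique_iff, SimpleGraph.isClique_iff] at hS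
  rw [← card_orderings S hS.2]
  congr 1
  ext t
  simp only [OT, Finset.mem_filter, Finset.mem_univ, true_and]
  constructor
  · rintro ⟨⟨h1, -⟩, h2⟩
    exact ⟨h1, h2⟩
  · rintro ⟨h1, h2⟩
    refine ⟨⟨h1, ?_⟩, h2⟩
    intro i j hij
    have hi : t i ∈ (S : Set V) := by
      rw [← h2]; exact Finset.mem_coe.2 (Finset.mem_image_of_mem _ (Finset.mem_univ _))
    have hj : t j ∈ (S : Set V) := by
      rw [← h2]; exact Finset.mem_coe.2 (Finset.mem_image_of_mem _ (Finset.mem_univ _))
    exact hS.1 hi hj (fun h => hij (h1 h))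

/-- each vertex of a triangle has exactly two neighbours outside the triangle -/
theorem outer_two (G : SimpleGraph V) (hG : Reg4 G) (t : Fin 3 → V) (tinj : Function.Injective t)
    (htri : ∀ i j, i ≠ j → G.Adj (t i) (t j)) (k : Fin 3) :
    ∃ p q : V, p ≠ q ∧ (∀ j, p ≠ t j) ∧ (∀ j, q ≠ t j) ∧ G.Adj (t k) p ∧ G.Adj (t k) q ∧
      ∀ w, G.Adj (t k) w → (∀ j, w ≠ t j) → w = p ∨ w = q := by
  classical
  set N : Finset V := univ.filter fun w => G.Adj (t k) w with hN
  have hNcard : N.card = 4 := by
    rw [← hG (t k)]
    rw [← Set.ncard_coe_finset]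
    congr 1
    ext w
    simp [hN]
  set A : Finset V := (univ.erase k).image t with hA
  have hAcard : A.card = 2 := by
    rw [hA, Finset.card_image_of_injective _ tinj, Finset.card_erase_of_mem (Finset.mem_univ _),
      Finset.card_univ, Fintype.card_fin]
  have hAN : A ⊆ N := by
    intro w hw
    obtain ⟨j, hj, rfl⟩ := Finset.mem_image.1 hw
    rw [hN, Finset.mem_filter]
    exact ⟨Finset.mem_univ _, htri k j (Finset.ne_of_mem_erase hj).symm⟩
  have hcard : (N \ A).card = 2 := by
    rw [Finset.card_sdiff_of_subset hAN, hNcard, hAcard]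
  obtain ⟨p, q, hpq, hset⟩ := Finset.card_eq_two.1 hcard
  have hout : ∀ w ∈ N \ A, G.Adj (t k) w ∧ ∀ j, w ≠ t j := by
    intro w hw
    rw [Finset.mem_sdiff, hN, Finset.mem_filter] at hw
    obtain ⟨⟨-, hw1⟩, hw2⟩ := hw
    refine ⟨hw1, ?_⟩
    rintro j rfl
    by_cases hjk : j = k
    · subst hjk
      exact G.irrefl hw1
    · exact hw2 (Finset.mem_image_of_mem _ (Finset.mem_erase.2 ⟨hjk, Finset.mem_univ _⟩))
  have hp := hout p (by rw [hset]; simp)
  have hq := hout q (by rw [hset]; simp)
  refine ⟨p, q, hpq, hp.2, hq.2, hp.1, hq.1, ?_⟩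
  intro w hw hwt
  have : w ∈ N \ A := by
    rw [Finset.mem_sdiff, hN, Finset.mem_filter]
    refine ⟨⟨Finset.mem_univ _, hw⟩, ?_⟩
    intro hwA
    obtain ⟨j, -, hj⟩ := Finset.mem_image.1 hwA
    exact hwt j hj.symm
  rw [hset] at this
  simpa using this

theorem two_point {α : Type*} {p q a b a' b' : α} (ha : a = p ∨ a = q) (hb : b = p ∨ b = q)
    (ha' : a' = p ∨ a' = q) (hb' : b' = p ∨ b' = q) (hab : a ≠ b) (hab' : a' ≠ b')
    (h : a = p ↔ a' = p) : a = a' ∧ b = b' := by
  rcases ha with rfl | rfl <;> rcases hb with rfl | rfl <;> rcases ha' with rfl | rfl <;>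
    rcases hb' with rfl | rfl <;> simp_all

open scoped Classical in
theorem frames_fixed_le (G : SimpleGraph V) (hG : Reg4 G) (t : Fin 3 → V)
    (tinj : Function.Injective t) (htri : ∀ i j, i ≠ j → G.Adj (t i) (t j)) :
    (univ.filter fun o : Fin 6 → V => Frame G t o).card ≤ 8 := by
  choose p q hpq hp hq hpa hqa hw using outer_two G hG t tinj htri
  have h8 : (univ : Finset (Fin 3 → Bool)).card = 8 := by
    rw [Finset.card_univ]; rfl
  rw [← h8]
  apply Finset.card_le_card_of_injOn
    (fun o : Fin 6 → V => ![decide (o 0 = p 0), decide (o 2 = p 1), decide (o 4 = p 2)])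
    (fun _ _ => Finset.mem_univ _)
  intro o ho o' ho' hoo
  simp only [Finset.coe_filter, Finset.mem_univ, true_and, Set.mem_ofPred_eq] at ho ho'
  have m : ∀ i, o i = p (tau0 i) ∨ o i = q (tau0 i) := fun i =>
    hw (tau0 i) (o i) (ho.leg i).symm (ho.disj i)
  have m' : ∀ i, o' i = p (tau0 i) ∨ o' i = q (tau0 i) := fun i =>
    hw (tau0 i) (o' i) (ho'.leg i).symm (ho'.disj i)
  have n : ∀ i j, i ≠ j → o i ≠ o j := fun i j hij h => hij (ho.oinj h)
  have n' : ∀ i j, i ≠ j → o' i ≠ o' j := fun i j hij h => hij (ho'.oinj h)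
  have e0 : (o 0 = p 0) ↔ (o' 0 = p 0) := by
    have := congrFun hoo 0
    simpa using this
  have e1 : (o 2 = p 1) ↔ (o' 2 = p 1) := by
    have := congrFun hoo 1
    simpa using this
  have e2 : (o 4 = p 2) ↔ (o' 4 = p 2) := by
    have := congrFun hoo 2
    simpa using this
  have r0 := two_point (m 0) (m 1) (m' 0) (m' 1) (n 0 1 (by decide)) (n' 0 1 (by decide)) e0
  have r1 := two_point (m 2) (m 3) (m' 2) (m' 3) (n 2 3 (by decide)) (n' 2 3 (by decide)) e1
  have r2 := two_point (m 4) (m 5) (m' 4) (m' 5) (n 4 5 (by decide)) (n' 4 5 (by decide)) e2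
  funext i
  fin_cases i
  · exact r0.1
  · exact r0.2
  · exact r1.1
  · exact r1.2
  · exact r2.1
  · exact r2.2

/-- parity of the index -/
def par6 : Fin 6 → Bool := ![false, true, false, true, false, true]

theorem par6_ne : ∀ i j : Fin 6, tau0 i = tau0 j → i ≠ j → par6 i ≠ par6 j := by decide

theorem fin3_third : ∀ a b : Fin 3, ∃ b' c', a ≠ b' ∧ b' ≠ c' ∧ a ≠ c' ∧ (b = a ∨ b = b') := by
  decide

open scoped Classical in
theorem frames_fixed_ge (G : SimpleGraph V) (hG : Reg4 G) (hgood : AllGood G) (t : Fin 3 → V)
    (tinj : Function.Injective t) (htri : ∀ i j, i ≠ j → G.Adj (t i) (t j)) :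
    8 ≤ (univ.filter fun o : Fin 6 → V => Frame G t o).card := by
  choose p q hpq hp hq hpa hqa hw using outer_two G hG t tinj htri
  have h8 : (univ : Finset (Fin 3 → Bool)).card = 8 := by
    rw [Finset.card_univ]; rfl
  rw [← h8]
  obtain ⟨g1, g2⟩ := hgood
  apply Finset.card_le_card_of_injOn
    (fun c : Fin 3 → Bool => fun i : Fin 6 =>
      if xor (par6 i) (c (tau0 i)) = true then p (tau0 i) else q (tau0 i))
  · intro c _
    simp only [Finset.coe_filter, Finset.mem_univ, true_and, Set.mem_ofPred_eq]
    set o : Fin 6 → V := fun i : Fin 6 =>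
      if xor (par6 i) (c (tau0 i)) = true then p (tau0 i) else q (tau0 i) with ho
    have odisj : ∀ i k, o i ≠ t k := by
      intro i k
      simp only [ho]
      split_ifs
      · exact hp _ _
      · exact hq _ _
    have oleg : ∀ i, G.Adj (o i) (t (tau0 i)) := by
      intro i
      simp only [ho]
      split_ifs
      · exact (hpa _).symm
      · exact (hqa _).symm
    refine ⟨tinj, ?_, odisj, htri, oleg, ?_⟩
    · intro i j hij
      by_contra hne
      by_cases ht : tau0 i = tau0 j
      · have hpar := par6_ne i j ht hne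
        simp only [ho, ht] at hij
        have hx : xor (par6 i) (c (tau0 j)) ≠ xor (par6 j) (c (tau0 j)) := by
          intro h
          exact hpar (by simpa using h)
        by_cases h1 : xor (par6 i) (c (tau0 j)) = true
        · by_cases h2 : xor (par6 j) (c (tau0 j)) = true
          · exact hx (h1.trans h2.symm)
          · rw [if_pos h1, if_neg h2] at hij
            exact hpq _ hij
        · by_cases h2 : xor (par6 j) (c (tau0 j)) = true
          · rw [if_neg h1, if_pos h2] at hij
            exact hpq _ hij.symm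
          · apply hx
            rw [Bool.not_eq_true] at h1 h2
            rw [h1, h2]
      · obtain ⟨b, d, hab, hbd, had, hb⟩ := fin3_third (tau0 i) (tau0 j)
        rcases hb with hb | hb
        · exact ht hb.symm
        · subst hb
          have := g1 (t (tau0 i)) (t (tau0 j)) (t d) (o i) (htri _ _ hab) (htri _ _ hbd)
            (htri _ _ had) (oleg i) (by rw [hij]; exact oleg j)
          exact odisj i d this
    · intro i j hadj
      obtain ⟨b, d, hab, hbd, had, hb⟩ := fin3_third (tau0 i) (tau0 j)
      refine g2 (t (tau0 i)) (t b) (t d) (o i) (o j) (htri _ _ hab) (htri _ _ hbd)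
            (htri _ _ had) (oleg i) (odisj _ _) (odisj _ _) ?_ (odisj _ _) (odisj _ _)
            (odisj _ _) hadj
      rcases hb with hb | hb
      · left; rw [← hb]; exact oleg j
      · right; rw [← hb]; exact oleg j
  · intro c _ c' _ h
    have key : ∀ (i : Fin 6), par6 i = false → c (tau0 i) = c' (tau0 i) := by
      intro i hi
      have := congrFun h i
      simp only [hi, Bool.false_xor] at this
      by_cases h1 : c (tau0 i) = true
      · by_cases h2 : c' (tau0 i) = true
        · rw [h1, h2]
        · rw [if_pos h1, if_neg h2] at this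
          exact absurd this (hpq _)
      · by_cases h2 : c' (tau0 i) = true
        · rw [if_neg h1, if_pos h2] at this
          exact absurd this.symm (hpq _)
        · rw [Bool.not_eq_true] at h1 h2
          rw [h1, h2]
    funext k
    fin_cases k
    · exact key 0 rfl
    · exact key 2 rfl
    · exact key 4 rfl

open scoped Classical in
/-- PP-11a. Proof: for a frame, {t 0, t 1, t 2} is a 3-clique (6 injective orderings t for each clique), and o 0, o 1 are the two neighbours
of t 0 outside the clique in some order etc. (`frame_nbr`), at most 2^3 possibilities for given t. -/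
theorem frames_le (G : SimpleGraph V) (hG : Reg4 G) :
    (univ.filter fun p : (Fin 3 → V) × (Fin 6 → V) => Frame G p.1 p.2).card ≤ 48 * tri G := by
  have h := Finset.card_le_mul_card_image_of_maps_to
    (s := univ.filter fun p : (Fin 3 → V) × (Fin 6 → V) => Frame G p.1 p.2)
    (t := OT G) (f := fun p => p.1) ?_ 8 ?_
  · rw [card_OT] at h
    calc _ ≤ 8 * (6 * tri G) := h
      _ = 48 * tri G := by ring
  · intro p hp
    simp only [Finset.mem_filter, Finset.mem_univ, true_and] at hp
    simp only [OT, Finset.mem_filter, Finset.mem_univ, true_and]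
    exact ⟨hp.tinj, hp.tri⟩
  · intro t ht
    simp only [OT, Finset.mem_filter, Finset.mem_univ, true_and] at ht
    refine le_trans ?_ (frames_fixed_le G hG t ht.1 ht.2)
    apply Finset.card_le_card_of_injOn (fun p => p.2)
    · intro p hp
      simp only [Finset.coe_filter, Finset.mem_filter, Finset.mem_univ, true_and,
        Set.mem_ofPred_eq] at hp ⊢
      rw [← hp.2]
      exact hp.1
    · intro p hp p' hp' h
      simp only [Finset.coe_filter, Finset.mem_filter, Finset.mem_univ, true_and,
        Set.mem_ofPred_eq] at hp hp'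
      exact Prod.ext (hp.2.trans hp'.2.symm) h

open scoped Classical in
/-- PP-11b. Proof: if all triangles are good, each ordered triangle t has exactly 8 frames: each t k has exactly two neighbours outside the
triangle, the six are distinct (first part of AllGood) and pairwise non-adjacent (second part). -/
theorem frames_ge (G : SimpleGraph V) (hG : Reg4 G) (hgood : AllGood G) :
    48 * tri G ≤ (univ.filter fun p : (Fin 3 → V) × (Fin 6 → V) => Frame G p.1 p.2).card := by
  have h := Finset.mul_card_image_le_card_of_maps_to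
    (s := univ.filter fun p : (Fin 3 → V) × (Fin 6 → V) => Frame G p.1 p.2)
    (t := OT G) (f := fun p => p.1) ?_ 8 ?_
  · rw [card_OT] at h
    calc 48 * tri G = 8 * (6 * tri G) := by ring
      _ ≤ _ := h
  · intro p hp
    simp only [Finset.mem_filter, Finset.mem_univ, true_and] at hp
    simp only [OT, Finset.mem_filter, Finset.mem_univ, true_and]
    exact ⟨hp.tinj, hp.tri⟩
  · intro t ht
    simp only [OT, Finset.mem_filter, Finset.mem_univ, true_and] at ht
    refine le_trans (frames_fixed_ge G hG hgood t ht.1 ht.2) ?_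
    apply Finset.card_le_card_of_injOn (fun o => (t, o))
    · intro o ho
      simp only [Finset.coe_filter, Finset.mem_filter, Finset.mem_univ, true_and,
        Set.mem_ofPred_eq] at ho ⊢
      exact ⟨ho, trivial⟩
    · intro o _ o' _ h
      exact (Prod.mk.inj h).2

end MP06b
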