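import Pool.Agent.Lib.MP_06b34c_co.PPFrameB
import Pool.Agent.Lib.MP_06b34c_co.PPFrameC
import Pool.Agent.Lib.MP_06b34c_co.PPFrameD

namespace MP06b
open Finset

private theorem PPC_prod {α β : Type*} (s : Finset α) (t : Finset β) (P : α × β → Prop)
    [DecidablePred P] :
    ((s ×ˢ t).filter P).card = ∑ a ∈ s, (t.filter fun b => P (a, b)).card := by
  simp only [Finset.card_filter, Finset.sum_product]

open scoped Classical in
private theorem PPC_inj (n k : ℕ) (σ : Equiv.Perm (Fin 6)) :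
    (((Xn n k ×ˢ (univ : Finset ((Fin 3 → Fin n) × (Fin 6 → Fin n)))).filter
      fun q => Frame q.1 q.2.1 q.2.2).filter fun q => AllZero (rearr q.1 q.2.1 q.2.2 σ)).card ≤
    (((Xn n k ×ˢ (univ : Finset ((Fin 3 → Fin n) × (Fin 6 → Fin n)))).filter
      fun q => Frame q.1 q.2.1 q.2.2).filter fun q => AllZero q.1).card := by
  refine Finset.card_le_card_of_injOn
    (fun q => (rearr q.1 q.2.1 q.2.2 σ, q.2.1, fun i => q.2.2 (σ.symm i))) ?_ ?_
  · rintro ⟨G, t, o⟩ hq
    simp only [Finset.coe_filter, Finset.mem_filter, Finset.mem_product, Finset.mem_univ, and_true,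
      Set.mem_ofPred_eq, Xn, true_and] at hq ⊢
    obtain ⟨⟨⟨h1, h2⟩, h3⟩, h4⟩ := hq
    exact ⟨⟨⟨rearr_reg4 G h1 t o h3 σ, by rw [rearr_tri G h1 t o h3 σ, h2]⟩,
      rearr_frame G h1 t o h3 σ⟩, h4⟩
  · rintro ⟨G, t, o⟩ hq ⟨G', t', o'⟩ hq' heq
    simp only [Finset.coe_filter, Finset.mem_filter, Finset.mem_product, Finset.mem_univ, and_true,
      Set.mem_ofPred_eq, Xn, true_and] at hq hq'
    obtain ⟨⟨⟨h1, h2⟩, h3⟩, h4⟩ := hq
    obtain ⟨⟨⟨h1', h2'⟩, h3'⟩, h4'⟩ := hq'
    simp only [Prod.mk.injEq] at heq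
    obtain ⟨e1, rfl, e3⟩ := heq
    have e4 : o = o' := by
      funext i
      have := congrFun e3 (σ i)
      simpa using this
    subst e4
    have e5 : G = G' := by
      rw [← rearr_rearr G h1 t o h3 σ, ← rearr_rearr G' h1' t o h3' σ, e1]
    subst e5
    rfl

open scoped Classical in
/-- PP-12. Proof: Q = set of (G, t, o) with G ∈ Xn n k, Frame G t o. For each σ the map (G, t, o) ↦ (rearr G t o σ, t, o ∘ σ⁻¹) is a bijection of Q
(`rearr_reg4`, `rearr_frame`, `rearr_tri`, `rearr_rearr` with σ and σ⁻¹). So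
720 * #{q ∈ Q : AllZero G} = ∑_σ #{q : AllZero (rearr ..)} = ∑_q #{σ : AllZero (rearr G t o σ)} ≥ 336 #Q (`frame336`).
By `frames_le`: #{q ∈ Q : AllZero G} ≤ 48 k #{G ∈ Xn n k : AllZero G}, by `frames_ge`: #Q ≥ 48 k #{G ∈ Xn n k : AllGood G}. Divide by k ≥ 1. -/
theorem class_ineq (n k : ℕ) (hk : 1 ≤ k) :
    7 * ((Xn n k).filter fun G => AllGood G).card ≤ 15 * ((Xn n k).filter fun G => AllZero G).card := by
  have hX : ∀ G ∈ Xn n k, Reg4 G ∧ tri G = k := by
    intro G hG
    simpa only [Xn, Finset.mem_filter, Finset.mem_univ, true_and] using hG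
  obtain ⟨Q, hQ⟩ : ∃ Q, Q = (Xn n k ×ˢ (univ : Finset ((Fin 3 → Fin n) × (Fin 6 → Fin n)))).filter
      fun q => Frame q.1 q.2.1 q.2.2 := ⟨_, rfl⟩
  have h1 : 336 * Q.card ≤ ∑ q ∈ Q,
      (univ.filter fun σ : Equiv.Perm (Fin 6) => AllZero (rearr q.1 q.2.1 q.2.2 σ)).card := by
    rw [mul_comm, ← smul_eq_mul]
    refine Finset.card_nsmul_le_sum _ _ _ ?_
    rintro ⟨G, t, o⟩ hq
    rw [hQ, Finset.mem_filter, Finset.mem_product] at hq
    exact frame336 G (hX G hq.1.1).1 t o hq.2
  have h2 : ∑ q ∈ Q,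
      (univ.filter fun σ : Equiv.Perm (Fin 6) => AllZero (rearr q.1 q.2.1 q.2.2 σ)).card =
      ∑ σ : Equiv.Perm (Fin 6), (Q.filter fun q => AllZero (rearr q.1 q.2.1 q.2.2 σ)).card := by
    simp only [Finset.card_filter]
    exact Finset.sum_comm
  have h3 : ∑ σ : Equiv.Perm (Fin 6), (Q.filter fun q => AllZero (rearr q.1 q.2.1 q.2.2 σ)).card ≤
      720 * (Q.filter fun q => AllZero q.1).card := by
    have := Finset.sum_le_card_nsmul (univ : Finset (Equiv.Perm (Fin 6)))
      (fun σ => (Q.filter fun q => AllZero (rearr q.1 q.2.1 q.2.2 σ)).card)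
      (Q.filter fun q => AllZero q.1).card (fun σ _ => by rw [hQ]; exact PPC_inj n k σ)
    rw [Finset.card_univ, Fintype.card_perm, Fintype.card_fin, smul_eq_mul] at this
    exact this
  have h4 : (Q.filter fun q => AllZero q.1).card ≤
      (48 * k) * ((Xn n k).filter fun G => AllZero G).card := by
    rw [hQ, Finset.filter_filter, PPC_prod, mul_comm, ← smul_eq_mul, ← Finset.sum_const,
      Finset.sum_filter]
    refine Finset.sum_le_sum fun G hG => ?_
    by_cases hz : AllZero G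
    · rw [if_pos hz]
      have := frames_le G (hX G hG).1
      rw [(hX G hG).2] at this
      refine le_trans (Finset.card_le_card ?_) this
      intro p hp
      rw [Finset.mem_filter] at hp ⊢
      exact ⟨hp.1, hp.2.1⟩
    · rw [if_neg hz, Nat.le_zero, Finset.card_eq_zero, Finset.filter_eq_empty_iff]
      intro p _ hp
      exact hz hp.2
  have h5 : (48 * k) * ((Xn n k).filter fun G => AllGood G).card ≤ Q.card := by
    rw [hQ, PPC_prod, mul_comm, ← smul_eq_mul, ← Finset.sum_const, Finset.sum_filter]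
    refine Finset.sum_le_sum fun G hG => ?_
    by_cases hz : AllGood G
    · rw [if_pos hz]
      have := frames_ge G (hX G hG).1 hz
      rw [(hX G hG).2] at this
      exact this
    · rw [if_neg hz]
      exact Nat.zero_le _
  have h6 : 336 * ((48 * k) * ((Xn n k).filter fun G => AllGood G).card) ≤
      720 * ((48 * k) * ((Xn n k).filter fun G => AllZero G).card) :=
    calc 336 * ((48 * k) * ((Xn n k).filter fun G => AllGood G).card)
        ≤ 336 * Q.card := Nat.mul_le_mul_left _ h5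
      _ ≤ _ := h1
      _ = _ := h2
      _ ≤ _ := h3
      _ ≤ 720 * ((48 * k) * ((Xn n k).filter fun G => AllZero G).card) := Nat.mul_le_mul_left _ h4
  have h7 : (48 * (48 * k)) * (7 * ((Xn n k).filter fun G => AllGood G).card) ≤
      (48 * (48 * k)) * (15 * ((Xn n k).filter fun G => AllZero G).card) := by
    calc _ = 336 * ((48 * k) * ((Xn n k).filter fun G => AllGood G).card) := by ring
      _ ≤ _ := h6
      _ = _ := by ring
  exact Nat.le_of_mul_le_mul_left h7 (by positivity)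

end MP06b
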