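import Pool.Agent.Lib.MP_06b34c_co.PPLeaf

namespace MP06b
open Finset

variable {U : Type*} [Finite U]

omit [Finite U] in
theorem ext1_le {R T : SimpleGraph U} {N M : Set U} (h : T ≤ R) (h' : M ⊆ N) :
    ext1 T M ≤ ext1 R N := (le_ext1_iff R N _).2 ⟨T, M, h, h', rfl⟩

theorem card_ext1 (R : SimpleGraph U) (N : Finset U) (P : SimpleGraph (Option U) → Prop) :
    Nat.card {T : SimpleGraph (Option U) // T ≤ ext1 R (N : Set U) ∧ P T} =
      ∑ M ∈ N.powerset, Nat.card {T : SimpleGraph U // T ≤ R ∧ P (ext1 T (M : Set U))} := by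
  classical
  let f : (Σ M : {x // x ∈ N.powerset},
      {T : SimpleGraph U // T ≤ R ∧ P (ext1 T (M.1 : Set U))}) →
      {T : SimpleGraph (Option U) // T ≤ ext1 R (N : Set U) ∧ P T} := fun x =>
    ⟨ext1 x.2.1 (x.1.1 : Set U), ext1_le x.2.2.1 (by
      have := x.1.2
      rw [Finset.mem_powerset] at this
      exact_mod_cast this), x.2.2.2⟩
  have hf : Function.Bijective f := by
    constructor
    · rintro ⟨⟨M, hM⟩, ⟨T, hT⟩⟩ ⟨⟨M', hM'⟩, ⟨T', hT'⟩⟩ h
      have h1 : ext1 T (M : Set U) = ext1 T' (M' : Set U) := congrArg Subtype.val h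
      obtain ⟨h2, h3⟩ := ext1_injective h1
      have h4 : M = M' := by exact_mod_cast h3
      subst h2 h4
      rfl
    · rintro ⟨T, hT, hP⟩
      obtain ⟨T', N', h1, h2, h3⟩ := (le_ext1_iff R _ T).1 hT
      have hfin : N'.Finite := Set.toFinite _
      refine ⟨⟨⟨hfin.toFinset, ?_⟩, ⟨T', h1, ?_⟩⟩, ?_⟩
      · rw [Finset.mem_powerset]
        intro x hx
        rw [Set.Finite.mem_toFinset] at hx
        exact_mod_cast h2 hx
      · rw [Set.Finite.coe_toFinset, ← h3]
        exact hP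
      · apply Subtype.ext
        show ext1 T' _ = T
        rw [Set.Finite.coe_toFinset, ← h3]
  rw [← Nat.card_congr (Equiv.ofBijective f hf), Nat.card_sigma]
  exact Finset.sum_coe_sort N.powerset
    (fun M => Nat.card {T : SimpleGraph U // T ≤ R ∧ P (ext1 T (M : Set U))})

theorem nn_swap (R : SimpleGraph U) (i j : U) :
    Nat.card {T : SimpleGraph U // T ≤ R ∧ (T ⊔ SimpleGraph.edge i j).IsTree ∧ (R \ T).IsTree} =
      nn R i j := by
  unfold nn
  apply Nat.card_congr
  refine ⟨fun T => ⟨R \ T.1, sdiff_le, T.2.2.2, ?_⟩, fun T => ⟨R \ T.1, sdiff_le, ?_, ?_⟩, ?_, ?_⟩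
  · rw [sdiff_sdiff_right_self, inf_eq_right.2 T.2.1]
    exact T.2.2.1
  · exact T.2.2.2
  · rw [sdiff_sdiff_right_self, inf_eq_right.2 T.2.1]
    exact T.2.2.1
  · intro T
    apply Subtype.ext
    show R \ (R \ T.1) = T.1
    rw [sdiff_sdiff_right_self, inf_eq_right.2 T.2.1]
  · intro T
    apply Subtype.ext
    show R \ (R \ T.1) = T.1
    rw [sdiff_sdiff_right_self, inf_eq_right.2 T.2.1]

/-- PP-2a: T ↦ R \ T exchanges the two parts. -/
theorem nn_comm (R : SimpleGraph U) (i j : U) : nn R i j = nn R j i := by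
  unfold nn
  rw [SimpleGraph.edge_comm]

omit [Finite U] in
theorem edge_le_or {T : SimpleGraph U} (c d : U) :
    SimpleGraph.edge c d ≤ T ∨ Disjoint (SimpleGraph.edge c d) T := by
  by_cases h : T.Adj c d
  · left
    intro x y hxy
    rw [SimpleGraph.edge_adj] at hxy
    obtain ⟨(⟨rfl, rfl⟩ | ⟨rfl, rfl⟩), hne⟩ := hxy
    · exact h
    · exact h.symm
  · right
    rw [disjoint_iff_inf_le]
    intro x y hxy
    rw [SimpleGraph.inf_adj, SimpleGraph.edge_adj] at hxy
    obtain ⟨⟨(⟨rfl, rfl⟩ | ⟨rfl, rfl⟩), hne⟩, h2⟩ := hxy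
    · exact (h h2).elim
    · exact (h h2.symm).elim

omit [Finite U] in
theorem edge_disj {R : SimpleGraph U} (c d : U) (h : ¬ R.Adj c d) :
    Disjoint (SimpleGraph.edge c d) R := by
  rw [disjoint_iff_inf_le]
  intro x y hxy
  rw [SimpleGraph.inf_adj, SimpleGraph.edge_adj] at hxy
  obtain ⟨⟨(⟨rfl, rfl⟩ | ⟨rfl, rfl⟩), hne⟩, h2⟩ := hxy
  · exact (h h2).elim
  · exact (h h2.symm).elim

theorem Mt_sup_edge (R : SimpleGraph U) (c d : U) (hcd : c ≠ d) (h : ¬ R.Adj c d) :
    Mt (R ⊔ SimpleGraph.edge c d) = 2 * nn R c d := by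
  have hne : SimpleGraph.edge c d ≠ ⊥ := by
    intro h0
    have : (SimpleGraph.edge c d).Adj c d := by
      rw [SimpleGraph.edge_adj]; exact ⟨Or.inl ⟨rfl, rfl⟩, hcd⟩
    rw [h0] at this
    exact this
  have hdisj := edge_disj (R := R) c d h
  generalize he : SimpleGraph.edge c d = e at *
  let f : {T : SimpleGraph U // T ≤ R ∧ (T ⊔ e).IsTree ∧ (R \ T).IsTree} ⊕
      {T : SimpleGraph U // T ≤ R ∧ T.IsTree ∧ ((R \ T) ⊔ e).IsTree} →
      {T : SimpleGraph U // T ≤ R ⊔ e ∧ T.IsTree ∧ ((R ⊔ e) \ T).IsTree} := fun x =>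
    match x with
    | .inl T => ⟨T.1 ⊔ e, sup_le_sup_right T.2.1 e, T.2.2.1, by
        have : (R ⊔ e) \ (T.1 ⊔ e) = R \ T.1 := by
          rw [sup_sdiff, ← sdiff_sdiff, sdiff_eq_bot_iff.2 (le_sup_right : e ≤ T.1 ⊔ e), sup_bot_eq]
          exact (hdisj.symm.mono_left (sdiff_le : R \ T.1 ≤ R)).sdiff_eq_left
        rw [this]
        exact T.2.2.2⟩
    | .inr T => ⟨T.1, T.2.1.trans le_sup_left, T.2.2.1, by
        have : (R ⊔ e) \ T.1 = (R \ T.1) ⊔ e := by
          rw [sup_sdiff, (hdisj.mono_right T.2.1).sdiff_eq_left]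
        rw [this]
        exact T.2.2.2⟩
  have hf : Function.Bijective f := by
    constructor
    · rintro (⟨T, hT⟩ | ⟨T, hT⟩) (⟨T', hT'⟩ | ⟨T', hT'⟩) hh
      · have h1 : T ⊔ e = T' ⊔ e := congrArg Subtype.val hh
        have h2 : T = T' := by
          have a1 : (T ⊔ e) \ e = T := by
            rw [sup_sdiff_right_self]
            exact (hdisj.symm.mono_left hT.1).sdiff_eq_left
          have a2 : (T' ⊔ e) \ e = T' := by
            rw [sup_sdiff_right_self]
            exact (hdisj.symm.mono_left hT'.1).sdiff_eq_left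
          rw [← a1, ← a2, h1]
        subst h2
        rfl
      · have h1 : T ⊔ e = T' := congrArg Subtype.val hh
        exfalso
        apply hne
        have h2 : e ≤ R := (le_sup_right.trans h1.le).trans hT'.1
        exact (hdisj.mono_right (le_refl R)).eq_bot_of_le h2
      · have h1 : T = T' ⊔ e := congrArg Subtype.val hh
        exfalso
        apply hne
        have h2 : e ≤ R := (le_sup_right.trans h1.symm.le).trans hT.1
        exact hdisj.eq_bot_of_le h2
      · have h1 : T = T' := congrArg Subtype.val hh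
        subst h1
        rfl
    · rintro ⟨T, hT1, hT2, hT3⟩
      rcases edge_le_or (T := T) c d with h4 | h4
      · rw [he] at h4
        have h5 : T \ e ⊔ e = T := sdiff_sup_cancel h4
        have h6 : (R ⊔ e) \ T = R \ (T \ e) := by
          rw [sup_sdiff, sdiff_eq_bot_iff.2 h4, sup_bot_eq, sdiff_sdiff_right', hdisj.symm.eq_bot,
            sup_bot_eq]
        refine ⟨.inl ⟨T \ e, ?_, ?_, ?_⟩, ?_⟩
        · exact sdiff_le_iff.2 (by rw [sup_comm]; exact hT1)
        · rw [h5]; exact hT2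
        · rw [← h6]; exact hT3
        · exact Subtype.ext h5
      · rw [he] at h4
        have h5 : T ≤ R := h4.symm.left_le_of_le_sup_right hT1
        refine ⟨.inr ⟨T, h5, hT2, ?_⟩, rfl⟩
        have : (R ⊔ e) \ T = (R \ T) ⊔ e := by
          rw [sup_sdiff, h4.sdiff_eq_left]
        rw [← this]
        exact hT3
  have key := Nat.card_congr (Equiv.ofBijective f hf)
  rw [Nat.card_sum] at key
  unfold Mt
  rw [← key]
  have e1 := nn_swap R c d
  rw [he] at e1
  have e2 : nn R c d = Nat.card {T : SimpleGraph U // T ≤ R ∧ T.IsTree ∧ ((R \ T) ⊔ e).IsTree} := by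
    unfold nn
    rw [he]
  rw [e1, ← e2]
  ring


theorem sum_powerset_pair [DecidableEq U] {c d : U} (hcd : c ≠ d) (f : Finset U → ℕ) :
    ∑ M ∈ ({c, d} : Finset U).powerset, f M = f ∅ + f {c} + f {d} + f {c, d} := by
  have h1 : c ∉ ({d} : Finset U) := by simpa using hcd
  rw [Finset.sum_powerset_insert h1]
  have h2 : ({d} : Finset U) = insert d ∅ := rfl
  rw [h2, Finset.sum_powerset_insert (Finset.notMem_empty d), Finset.sum_powerset_insert (Finset.notMem_empty d)]
  simp
  ring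

theorem sum_powerset_triple [DecidableEq U] {i j k : U} (hij : i ≠ j) (hik : i ≠ k) (hjk : j ≠ k)
    (f : Finset U → ℕ) :
    ∑ M ∈ ({i, j, k} : Finset U).powerset, f M =
      f ∅ + f {i} + f {j} + f {k} + f {i, j} + f {i, k} + f {j, k} + f {i, j, k} := by
  have h1 : i ∉ ({j, k} : Finset U) := by simp [hij, hik]
  rw [Finset.sum_powerset_insert h1, sum_powerset_pair hjk, sum_powerset_pair hjk]
  simp only [insert_empty_eq]
  ring

theorem card_zero {P : SimpleGraph U → Prop} (h : ∀ T, ¬ P T) :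
    Nat.card {T : SimpleGraph U // P T} = 0 := by
  have : IsEmpty {T : SimpleGraph U // P T} := ⟨fun T => h T.1 T.2⟩
  exact Nat.card_of_isEmpty

theorem card_eq {P Q : SimpleGraph U → Prop} (h : ∀ T, P T ↔ Q T) :
    Nat.card {T : SimpleGraph U // P T} = Nat.card {T : SimpleGraph U // Q T} :=
  Nat.card_congr (Equiv.subtypeEquivRight h)

theorem Mt_ext1 (R : SimpleGraph U) (i j k : U) (hij : i ≠ j) (hik : i ≠ k) (hjk : j ≠ k)
    (aij : ¬ R.Adj i j) (aik : ¬ R.Adj i k) (ajk : ¬ R.Adj j k) :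
    Mt (ext1 R {i, j, k}) = 2 * (nn R i j + nn R i k + nn R j k) := by
  classical
  have : Nonempty U := ⟨i⟩
  have key := card_ext1 R ({i, j, k} : Finset U)
    (fun T => T.IsTree ∧ (ext1 R {i, j, k} \ T).IsTree)
  rw [sum_powerset_triple hij hik hjk] at key
  have hN : (({i, j, k} : Finset U) : Set U) = {i, j, k} := by simp
  simp only [hN, Finset.coe_empty, Finset.coe_singleton, Finset.coe_pair, ext1_sdiff] at key
  unfold Mt
  refine key.trans ?_
  have d0 : ({i, j, k} : Set U) \ {i, j, k} = ∅ := by simp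
  have d1 : ({i, j, k} : Set U) \ {i} = {j, k} := by
    ext x; simp only [Set.mem_sdiff, Set.mem_insert_iff, Set.mem_singleton_iff]
    constructor
    · tauto
    · rintro (rfl | rfl)
      · exact ⟨Or.inr (Or.inl rfl), hij.symm⟩
      · exact ⟨Or.inr (Or.inr rfl), hik.symm⟩
  have d2 : ({i, j, k} : Set U) \ {j} = {i, k} := by
    ext x; simp only [Set.mem_sdiff, Set.mem_insert_iff, Set.mem_singleton_iff]
    constructor
    · tauto
    · rintro (rfl | rfl)
      · exact ⟨Or.inl rfl, hij⟩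
      · exact ⟨Or.inr (Or.inr rfl), hjk.symm⟩
  have d3 : ({i, j, k} : Set U) \ {k} = {i, j} := by
    ext x; simp only [Set.mem_sdiff, Set.mem_insert_iff, Set.mem_singleton_iff]
    constructor
    · tauto
    · rintro (rfl | rfl)
      · exact ⟨Or.inl rfl, hik⟩
      · exact ⟨Or.inr (Or.inl rfl), hjk⟩
  have d4 : ({i, j, k} : Set U) \ {i, j} = {k} := by
    ext x; simp only [Set.mem_sdiff, Set.mem_insert_iff, Set.mem_singleton_iff]
    constructor
    · tauto
    · rintro rfl
      exact ⟨Or.inr (Or.inr rfl), by rintro (h | h); exacts [hik h.symm, hjk h.symm]⟩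
  have d5 : ({i, j, k} : Set U) \ {i, k} = {j} := by
    ext x; simp only [Set.mem_sdiff, Set.mem_insert_iff, Set.mem_singleton_iff]
    constructor
    · tauto
    · rintro rfl
      exact ⟨Or.inr (Or.inl rfl), by rintro (h | h); exacts [hij h.symm, hjk h]⟩
  have d6 : ({i, j, k} : Set U) \ {j, k} = {i} := by
    ext x; simp only [Set.mem_sdiff, Set.mem_insert_iff, Set.mem_singleton_iff]
    constructor
    · tauto
    · rintro rfl
      exact ⟨Or.inl rfl, by rintro (h | h); exacts [hij h, hik h]⟩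
  have sub : ∀ {a b : U} {T : SimpleGraph U}, T ≤ R → ¬ R.Adj a b → ¬ T.Adj a b :=
    fun h h' h'' => h' (h h'')
  have sub' : ∀ {a b : U} {T : SimpleGraph U}, ¬ R.Adj a b → ¬ (R \ T).Adj a b :=
    fun h' h'' => h' (sdiff_le (a := R) h'')
  rw [d0, d1, d2, d3, d4, d5, d6]
  rw [card_zero (P := fun T => T ≤ R ∧ (ext1 T ∅).IsTree ∧ _)
      (fun T h => ext1_not_isTree_empty _ h.2.1),
    card_zero (P := fun T => T ≤ R ∧ _ ∧ (ext1 (R \ T) ∅).IsTree)
      (fun T h => ext1_not_isTree_empty _ h.2.2)]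
  have e1 : Nat.card {T // T ≤ R ∧ (ext1 T {i}).IsTree ∧ (ext1 (R \ T) {j, k}).IsTree} = nn R j k :=
    card_eq fun T => and_congr_right fun _ => and_congr (ext1_isTree_single _ _)
      (ext1_isTree_pair _ _ _ hjk (sub' ajk))
  have e2 : Nat.card {T // T ≤ R ∧ (ext1 T {j}).IsTree ∧ (ext1 (R \ T) {i, k}).IsTree} = nn R i k :=
    card_eq fun T => and_congr_right fun _ => and_congr (ext1_isTree_single _ _)
      (ext1_isTree_pair _ _ _ hik (sub' aik))
  have e3 : Nat.card {T // T ≤ R ∧ (ext1 T {k}).IsTree ∧ (ext1 (R \ T) {i, j}).IsTree} = nn R i j :=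
    card_eq fun T => and_congr_right fun _ => and_congr (ext1_isTree_single _ _)
      (ext1_isTree_pair _ _ _ hij (sub' aij))
  have e4 : Nat.card {T // T ≤ R ∧ (ext1 T {i, j}).IsTree ∧ (ext1 (R \ T) {k}).IsTree} = nn R i j :=
    (card_eq fun T => and_congr_right fun h => and_congr (ext1_isTree_pair _ _ _ hij (sub h aij))
      (ext1_isTree_single _ _)).trans (nn_swap R i j)
  have e5 : Nat.card {T // T ≤ R ∧ (ext1 T {i, k}).IsTree ∧ (ext1 (R \ T) {j}).IsTree} = nn R i k :=
    (card_eq fun T => and_congr_right fun h => and_congr (ext1_isTree_pair _ _ _ hik (sub h aik))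
      (ext1_isTree_single _ _)).trans (nn_swap R i k)
  have e6 : Nat.card {T // T ≤ R ∧ (ext1 T {j, k}).IsTree ∧ (ext1 (R \ T) {i}).IsTree} = nn R j k :=
    (card_eq fun T => and_congr_right fun h => and_congr (ext1_isTree_pair _ _ _ hjk (sub h ajk))
      (ext1_isTree_single _ _)).trans (nn_swap R j k)
  rw [e1, e2, e3, e4, e5, e6]
  ring

theorem nn_ext1_some (R : SimpleGraph U) (a b c d : U) (hcd : c ≠ d) :
    nn (ext1 R {c, d}) (some a) (some b) = 2 * nn R a b := by
  classical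
  have : Nonempty U := ⟨a⟩
  have key := card_ext1 R ({c, d} : Finset U)
    (fun T => T.IsTree ∧ ((ext1 R {c, d} \ T) ⊔ SimpleGraph.edge (some a) (some b)).IsTree)
  rw [sum_powerset_pair hcd] at key
  simp only [Finset.coe_empty, Finset.coe_singleton, Finset.coe_pair, ext1_sdiff,
    ext1_sup_edge_some] at key
  have hN : (({c, d} : Finset U) : Set U) = {c, d} := by simp
  have d0 : ({c, d} : Set U) \ {c, d} = ∅ := by simp
  have d1 : ({c, d} : Set U) \ {c} = {d} := by
    ext x; simp only [Set.mem_sdiff, Set.mem_insert_iff, Set.mem_singleton_iff]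
    constructor
    · tauto
    · rintro rfl
      exact ⟨Or.inr rfl, hcd.symm⟩
  have d2 : ({c, d} : Set U) \ {d} = {c} := by
    ext x; simp only [Set.mem_sdiff, Set.mem_insert_iff, Set.mem_singleton_iff]
    constructor
    · tauto
    · rintro rfl
      exact ⟨Or.inl rfl, hcd⟩
  unfold nn
  refine key.trans ?_
  rw [d0, d1, d2]
  rw [card_zero (P := fun T => T ≤ R ∧ (ext1 T ∅).IsTree ∧ _)
      (fun T h => ext1_not_isTree_empty _ h.2.1),
    card_zero (P := fun T => T ≤ R ∧ _ ∧ (ext1 (R \ T ⊔ SimpleGraph.edge a b) ∅).IsTree)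
      (fun T h => ext1_not_isTree_empty _ h.2.2)]
  have e1 : Nat.card {T // T ≤ R ∧ (ext1 T {c}).IsTree ∧
      (ext1 (R \ T ⊔ SimpleGraph.edge a b) {d}).IsTree} =
      Nat.card {T : SimpleGraph U // T ≤ R ∧ T.IsTree ∧ ((R \ T) ⊔ SimpleGraph.edge a b).IsTree} :=
    card_eq fun T => and_congr_right fun _ => and_congr (ext1_isTree_single _ _)
      (ext1_isTree_single _ _)
  have e2 : Nat.card {T // T ≤ R ∧ (ext1 T {d}).IsTree ∧
      (ext1 (R \ T ⊔ SimpleGraph.edge a b) {c}).IsTree} =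
      Nat.card {T : SimpleGraph U // T ≤ R ∧ T.IsTree ∧ ((R \ T) ⊔ SimpleGraph.edge a b).IsTree} :=
    card_eq fun T => and_congr_right fun _ => and_congr (ext1_isTree_single _ _)
      (ext1_isTree_single _ _)
  rw [e1, e2]
  ring

theorem nn_ext1_none (R : SimpleGraph U) (a c d : U) (hac : a ≠ c) (had : a ≠ d) (hcd : c ≠ d)
    (aac : ¬ R.Adj a c) (aad : ¬ R.Adj a d) (acd : ¬ R.Adj c d) :
    nn (ext1 R {c, d}) none (some a) = nn R c d + nn R a c + nn R a d := by
  classical
  have : Nonempty U := ⟨a⟩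
  have key := card_ext1 R ({c, d} : Finset U)
    (fun T => T.IsTree ∧ ((ext1 R {c, d} \ T) ⊔ SimpleGraph.edge none (some a)).IsTree)
  rw [sum_powerset_pair hcd] at key
  simp only [Finset.coe_empty, Finset.coe_singleton, Finset.coe_pair, ext1_sdiff,
    ext1_sup_edge_none] at key
  have d0 : ({c, d} : Set U) \ {c, d} = ∅ := by simp
  have d1 : ({c, d} : Set U) \ {c} = {d} := by
    ext x; simp only [Set.mem_sdiff, Set.mem_insert_iff, Set.mem_singleton_iff]
    constructor
    · tauto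
    · rintro rfl
      exact ⟨Or.inr rfl, hcd.symm⟩
  have d2 : ({c, d} : Set U) \ {d} = {c} := by
    ext x; simp only [Set.mem_sdiff, Set.mem_insert_iff, Set.mem_singleton_iff]
    constructor
    · tauto
    · rintro rfl
      exact ⟨Or.inl rfl, hcd⟩
  have d3 : insert a (∅ : Set U) = {a} := by simp
  have sub : ∀ {a b : U} {T : SimpleGraph U}, T ≤ R → ¬ R.Adj a b → ¬ T.Adj a b :=
    fun h h' h'' => h' (h h'')
  have sub' : ∀ {a b : U} {T : SimpleGraph U}, ¬ R.Adj a b → ¬ (R \ T).Adj a b :=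
    fun h' h'' => h' (sdiff_le (a := R) h'')
  unfold nn
  refine key.trans ?_
  rw [d0, d1, d2, d3]
  rw [card_zero (P := fun T => T ≤ R ∧ (ext1 T ∅).IsTree ∧ _)
      (fun T h => ext1_not_isTree_empty _ h.2.1)]
  have e1 : Nat.card {T // T ≤ R ∧ (ext1 T {c}).IsTree ∧ (ext1 (R \ T) (insert a {d})).IsTree} =
      nn R a d :=
    card_eq fun T => and_congr_right fun _ => and_congr (ext1_isTree_single _ _)
      (ext1_isTree_pair _ _ _ had (sub' aad))
  have e2 : Nat.card {T // T ≤ R ∧ (ext1 T {d}).IsTree ∧ (ext1 (R \ T) (insert a {c})).IsTree} =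
      nn R a c :=
    card_eq fun T => and_congr_right fun _ => and_congr (ext1_isTree_single _ _)
      (ext1_isTree_pair _ _ _ hac (sub' aac))
  have e3 : Nat.card {T // T ≤ R ∧ (ext1 T {c, d}).IsTree ∧ (ext1 (R \ T) {a}).IsTree} =
      nn R c d :=
    (card_eq fun T => and_congr_right fun h => and_congr (ext1_isTree_pair _ _ _ hcd (sub h acd))
      (ext1_isTree_single _ _)).trans (nn_swap R c d)
  rw [e1, e2, e3]
  unfold nn
  ring

end MP06b
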