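import Pool.Agent.Lib.MP_06b34c_co.PPBasic
import Pool.Agent.Lib.MP_06b34c_co.PPDec

namespace MP06b
open Finset

variable {U : Type*} [Fintype U] [DecidableEq U]

/-- PP-3a: degree of the vertices of `att`. An outer vertex has 3 + 1, a new vertex m + (k - 1). -/
theorem att_reg4 (R : SimpleGraph U) (o : Fin 6 → U) (hC : Conf R o) {k m : ℕ} (τ : Fin 6 → Fin k)
    (hτ : Bal m τ) (hkm : m + k = 5) : Reg4 (att R o τ) := by
  rintro (u | j)
  · have hset : (att R o τ).neighborSet (Sum.inl u) =
        (Sum.inl '' R.neighborSet u) ∪ (Sum.inr '' {j | ∃ i, o i = u ∧ τ i = j}) := by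
      ext x
      rcases x with x | x
      · simp only [SimpleGraph.mem_neighborSet, Set.mem_union, Set.mem_image, Sum.inl.injEq,
          exists_eq_right, reduceCtorEq, and_false, exists_false, or_false]
        rfl
      · simp only [SimpleGraph.mem_neighborSet, Set.mem_union, Set.mem_image, Sum.inr.injEq,
          exists_eq_right, reduceCtorEq, and_false, exists_false, false_or]
        rfl
    have hdisj : Disjoint (Sum.inl '' R.neighborSet u)
        (Sum.inr '' {j : Fin k | ∃ i, o i = u ∧ τ i = j}) := by
      rw [Set.disjoint_left]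
      rintro _ ⟨a, _, rfl⟩ ⟨b, _, hb⟩
      exact absurd hb (by simp)
    rw [hset, Set.ncard_union_eq hdisj (Set.toFinite _) (Set.toFinite _),
      Set.ncard_image_of_injective _ Sum.inl_injective,
      Set.ncard_image_of_injective _ Sum.inr_injective]
    by_cases hu : ∃ i, o i = u
    · obtain ⟨i, rfl⟩ := hu
      have h1 : {j : Fin k | ∃ i', o i' = o i ∧ τ i' = j} = {τ i} := by
        ext j
        simp only [Set.mem_ofPred_eq, Set.mem_singleton_iff]
        constructor
        · rintro ⟨i', h1, h2⟩
          rw [← h2, hC.inj h1]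
        · intro h1
          exact ⟨i, rfl, h1.symm⟩
      rw [h1, hC.deg3 i, Set.ncard_singleton]
    · have h1 : {j : Fin k | ∃ i', o i' = u ∧ τ i' = j} = ∅ := by
        rw [Set.eq_empty_iff_forall_notMem]
        rintro j ⟨i', h1, _⟩
        exact hu ⟨i', h1⟩
      rw [h1, hC.deg4 u (fun i h => hu ⟨i, h.symm⟩), Set.ncard_empty]
  · have hset : (att R o τ).neighborSet (Sum.inr j) =
        (Sum.inl '' (o '' {i | τ i = j})) ∪ (Sum.inr '' {j' | j ≠ j'}) := by
      ext x
      rcases x with x | x
      · simp only [SimpleGraph.mem_neighborSet, Set.mem_union, Set.mem_image, Sum.inl.injEq,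
          exists_eq_right, reduceCtorEq, and_false, exists_false, or_false, Set.mem_ofPred_eq]
        constructor
        · rintro ⟨i, h1, h2⟩
          exact ⟨i, h2, h1⟩
        · rintro ⟨i, h1, h2⟩
          exact ⟨i, h2, h1⟩
      · simp only [SimpleGraph.mem_neighborSet, Set.mem_union, Set.mem_image, Sum.inr.injEq,
          exists_eq_right, reduceCtorEq, and_false, exists_false, false_or, Set.mem_ofPred_eq]
        rfl
    have hdisj : Disjoint (Sum.inl '' (o '' {i | τ i = j}))
        (Sum.inr '' {j' : Fin k | j ≠ j'}) := by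
      rw [Set.disjoint_left]
      rintro _ ⟨a, _, rfl⟩ ⟨b, _, hb⟩
      exact absurd hb (by simp)
    rw [hset, Set.ncard_union_eq hdisj (Set.toFinite _) (Set.toFinite _),
      Set.ncard_image_of_injective _ Sum.inl_injective,
      Set.ncard_image_of_injective _ hC.inj,
      Set.ncard_image_of_injective _ Sum.inr_injective]
    have h1 : ({i | τ i = j} : Set (Fin 6)).ncard = m := by
      rw [← hτ j, ← Set.ncard_coe_finset]
      congr 1
      ext i
      simp
    have h2 : ({j' | j ≠ j'} : Set (Fin k)).ncard = k - 1 := by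
      have h3 : ({j' | j ≠ j'} : Set (Fin k)) = ((Finset.univ.erase j : Finset (Fin k)) : Set (Fin k)) := by
        ext j'
        simp [eq_comm]
      rw [h3, Set.ncard_coe_finset, Finset.card_erase_of_mem (Finset.mem_univ j),
        Finset.card_univ, Fintype.card_fin]
    rw [h1, h2]
    have := j.2
    omega

/-- PP-3b. Proof: R ⊔ edge (o i) (o j) has 2|U| - 2 edges (degree sum of R: 4|U| - 6) and a vertex of degree three
(o l with l ≠ i, j), and |U| ≥ 6, so 4 ∣ Mt by `zeros_Mt`; Mt = 2 nn by `Mt_sup_edge`. -/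
theorem nn_even (R : SimpleGraph U) (o : Fin 6 → U) (hC : Conf R o) (i j : Fin 6) (hij : i ≠ j) :
    Even (nn R (o i) (o j)) := by
  classical
  have hoij : o i ≠ o j := fun h => hij (hC.inj h)
  set H : SimpleGraph U := R ⊔ SimpleGraph.edge (o i) (o j) with hH
  -- the vertices of degree three
  set S : Finset U := ((univ.erase i).erase j).image o with hS
  have hScard : S.card = 4 := by
    rw [hS, Finset.card_image_of_injective _ hC.inj,
      Finset.card_erase_of_mem (Finset.mem_erase.mpr ⟨hij.symm, Finset.mem_univ _⟩),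
      Finset.card_erase_of_mem (Finset.mem_univ _), Finset.card_univ, Fintype.card_fin]
  have hadj : ∀ u v, H.Adj u v ↔ R.Adj u v ∨ (u = o i ∧ v = o j) ∨ (u = o j ∧ v = o i) := by
    intro u v
    rw [hH, SimpleGraph.sup_adj, SimpleGraph.edge_adj]
    constructor
    · rintro (h | ⟨h, _⟩)
      · exact Or.inl h
      · exact Or.inr h
    · rintro (h | ⟨h1, h2⟩ | ⟨h1, h2⟩)
      · exact Or.inl h
      · right
        rw [h1, h2]
        exact ⟨Or.inl ⟨rfl, rfl⟩, hoij⟩
      · right
        rw [h1, h2]
        exact ⟨Or.inr ⟨rfl, rfl⟩, hoij.symm⟩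
  have hnbi : H.neighborSet (o i) = insert (o j) (R.neighborSet (o i)) := by
    ext v
    rw [SimpleGraph.mem_neighborSet, hadj, Set.mem_insert_iff, SimpleGraph.mem_neighborSet]
    constructor
    · rintro (h | ⟨_, h⟩ | ⟨h, _⟩)
      · exact Or.inr h
      · exact Or.inl h
      · exact absurd h hoij
    · rintro (h | h)
      · exact Or.inr (Or.inl ⟨rfl, h⟩)
      · exact Or.inl h
  have hnbj : H.neighborSet (o j) = insert (o i) (R.neighborSet (o j)) := by
    ext v
    rw [SimpleGraph.mem_neighborSet, hadj, Set.mem_insert_iff, SimpleGraph.mem_neighborSet]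
    constructor
    · rintro (h | ⟨h, _⟩ | ⟨_, h⟩)
      · exact Or.inr h
      · exact absurd h hoij.symm
      · exact Or.inl h
    · rintro (h | h)
      · exact Or.inr (Or.inr ⟨rfl, h⟩)
      · exact Or.inl h
  have hnb : ∀ u, u ≠ o i → u ≠ o j → H.neighborSet u = R.neighborSet u := by
    intro u h1 h2
    ext v
    rw [SimpleGraph.mem_neighborSet, hadj, SimpleGraph.mem_neighborSet]
    constructor
    · rintro (h | ⟨h, _⟩ | ⟨h, _⟩)
      · exact h
      · exact absurd h h1
      · exact absurd h h2
    · exact fun h => Or.inl h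
  have hdeg : ∀ u, (H.neighborSet u).ncard + (if u ∈ S then 1 else 0) = 4 := by
    intro u
    by_cases h1 : u = o i
    · have hnS : u ∉ S := by
        rw [hS, h1]
        intro h
        obtain ⟨l, hl, hl2⟩ := Finset.mem_image.mp h
        have := hC.inj hl2
        rw [this] at hl
        simp at hl
      rw [if_neg hnS, h1, hnbi, Set.ncard_insert_of_notMem
        (show o j ∉ R.neighborSet (o i) from hC.nadj i j) (Set.toFinite _), hC.deg3]
    · by_cases h2 : u = o j
      · have hnS : u ∉ S := by
          rw [hS, h2]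
          intro h
          obtain ⟨l, hl, hl2⟩ := Finset.mem_image.mp h
          have := hC.inj hl2
          rw [this] at hl
          simp at hl
        rw [if_neg hnS, h2, hnbj, Set.ncard_insert_of_notMem
          (show o i ∉ R.neighborSet (o j) from hC.nadj j i) (Set.toFinite _),
          hC.deg3]
      · rw [hnb u h1 h2]
        by_cases h3 : ∃ l, u = o l
        · obtain ⟨l, rfl⟩ := h3
          have hlS : o l ∈ S := by
            rw [hS]
            refine Finset.mem_image_of_mem _ (Finset.mem_erase.mpr ⟨?_, Finset.mem_erase.mpr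
              ⟨?_, Finset.mem_univ _⟩⟩)
            · exact fun h => h2 (by rw [h])
            · exact fun h => h1 (by rw [h])
          rw [if_pos hlS, hC.deg3]
        · have hnS : u ∉ S := by
            rw [hS]
            intro h
            obtain ⟨l, _, hl2⟩ := Finset.mem_image.mp h
            exact h3 ⟨l, hl2.symm⟩
          rw [if_neg hnS, hC.deg4 u (fun l h => h3 ⟨l, h⟩)]
  have hdeg' : ∀ u, (H.neighborSet u).ncard = H.degree u := by
    intro u
    rw [← SimpleGraph.card_neighborSet_eq_degree, Set.ncard_eq_toFinset_card',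
      Set.toFinset_card]
  have hE : ∀ inst : Fintype H.edgeSet,
      (@SimpleGraph.edgeFinset U H inst).card = H.edgeSet.ncard := by
    intro inst
    rw [@Set.ncard_eq_toFinset_card' _ _ inst]
    rfl
  have hsum : 2 * H.edgeSet.ncard + 4 = 4 * Fintype.card U := by
    have h1 : ∑ u, ((H.neighborSet u).ncard + (if u ∈ S then 1 else 0)) = ∑ _u : U, 4 :=
      Finset.sum_congr rfl fun u _ => hdeg u
    rw [Finset.sum_add_distrib, Finset.sum_congr rfl fun u _ => hdeg' u,
      SimpleGraph.sum_degrees_eq_twice_card_edges, Finset.sum_const, Finset.card_univ,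
      Finset.sum_ite_mem, Finset.univ_inter, Finset.sum_const, hScard] at h1
    simp only [smul_eq_mul, mul_one] at h1
    rw [hE] at h1
    omega
  have hcard : 6 ≤ Fintype.card U := by
    have h1 := Fintype.card_le_of_injective o hC.inj
    rwa [Fintype.card_fin] at h1
  obtain ⟨l, hli, hlj⟩ : ∃ l : Fin 6, l ≠ i ∧ l ≠ j := by
    obtain ⟨l, hl⟩ := Finset.card_pos.mp (show 0 < S.card by omega)
    obtain ⟨l', hl', _⟩ := Finset.mem_image.mp hl
    rw [Finset.mem_erase, Finset.mem_erase] at hl'
    exact ⟨l', hl'.2.1, hl'.1⟩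
  have hw : (H.neighborSet (o l)).ncard = 3 := by
    rw [hnb (o l) (fun h => hli (hC.inj h)) (fun h => hlj (hC.inj h)), hC.deg3]
  have h4 := (zeros_Mt H (o l) (by rw [hE]; omega) (by omega) hw).2
  rw [hH, Mt_sup_edge R (o i) (o j) hoij (hC.nadj i j)] at h4
  rw [even_iff_two_dvd]
  omega

theorem mm_comm (R : SimpleGraph U) (o : Fin 6 → U) (i j : Fin 6) : mm R o i j = mm R o j i := by
  unfold mm
  rw [nn_comm]

end MP06b
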