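import Pool.Agent.Lib.MP_06b34c_co.PPNF

namespace MP06b
open Finset

theorem cyc_a3 : ∀ i : Fin 3, i + 1 + 1 ≠ i := by decide
theorem cyc_b3 : ∀ i : Fin 3, i ≠ i + 1 := by decide
theorem cyc_a4 : ∀ i : Fin 4, i + 1 + 1 ≠ i := by decide
theorem cyc_b4 : ∀ i : Fin 4, i ≠ i + 1 := by decide
theorem cyc_a5 : ∀ i : Fin 5, i + 1 + 1 ≠ i := by decide
theorem cyc_b5 : ∀ i : Fin 5, i ≠ i + 1 := by decide
theorem cyc_a6 : ∀ i : Fin 6, i + 1 + 1 ≠ i := by decide
theorem cyc_b6 : ∀ i : Fin 6, i ≠ i + 1 := by decide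

theorem cyc_two_ne {l : ℕ} [inst : NeZero l] (h3 : 3 ≤ l) (h6 : l ≤ 6) (i : Fin l) :
    i + 1 + 1 ≠ i := by
  interval_cases l
  · exact cyc_a3 i
  · exact cyc_a4 i
  · exact cyc_a5 i
  · exact cyc_a6 i

theorem cyc_edge_inj {n l : ℕ} [NeZero l] (h3 : 3 ≤ l) (h6 : l ≤ 6) (f : Fin l → Fin n)
    (hf : Function.Injective f) : Function.Injective (fun i : Fin l => s(f i, f (i + 1))) := by
  intro i j hij
  simp only [Sym2.eq_iff] at hij
  rcases hij with ⟨h, -⟩ | ⟨h1, h2⟩
  · exact hf h
  · have e1 := hf h1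
    have e2 := hf h2
    exfalso
    have e3 : j + 1 + 1 = j := by rw [← e1]; exact e2
    exact cyc_two_ne h3 h6 j e3

theorem cyc_succ_ne {l : ℕ} [NeZero l] (h3 : 3 ≤ l) (h6 : l ≤ 6) (i : Fin l) : i ≠ i + 1 := by
  interval_cases l
  · exact cyc_b3 i
  · exact cyc_b4 i
  · exact cyc_b5 i
  · exact cyc_b6 i

/-- PP-15. Proof: exchange the sums: ∑_f NF {s(f i, f (i+1))}, f injective; the l edges are distinct for l ≥ 3 and non-diagonal, so by
`NF_pow` n^l * NF ≤ 8^l |Gn|, and there are at most n^l functions f. -/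
theorem sum_cyc (n l : ℕ) [NeZero l] (hn : 31 ≤ n) (h3 : 3 ≤ l) (h6 : l ≤ 6) :
    ∑ G ∈ Gn n, cyc l G ≤ 8 ^ l * (Gn n).card := by
  classical
  let E : (Fin l → Fin n) → Finset (Sym2 (Fin n)) := fun f =>
    univ.image (fun i : Fin l => s(f i, f (i + 1)))
  have hE : ∀ f : Fin l → Fin n, Function.Injective f →
      n ^ l * ((Gn n).filter fun G => ∀ i, G.Adj (f i) (f (i + 1))).card ≤
        8 ^ l * (Gn n).card := by
    intro f hf
    have hc : (E f).card = l := by
      change (univ.image (fun i : Fin l => s(f i, f (i + 1)))).card = l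
      rw [card_image_of_injective _ (cyc_edge_inj h3 h6 f hf), card_univ, Fintype.card_fin]
    have hd : ∀ e ∈ E f, ¬ e.IsDiag := by
      intro e he
      obtain ⟨i, -, rfl⟩ := mem_image.1 he
      intro hdiag
      rw [Sym2.mk_isDiag_iff] at hdiag
      exact cyc_succ_ne h3 h6 i (hf hdiag)
    have h1 := NF_pow (E f) hn (by rw [hc]; exact h6) hd
    rw [hc] at h1
    refine le_trans (Nat.mul_le_mul_left _ ?_) h1
    unfold NF
    apply card_le_card
    intro G hG
    rw [mem_filter] at hG ⊢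
    refine ⟨hG.1, ?_⟩
    intro e he
    obtain ⟨i, -, rfl⟩ := mem_image.1 (mem_coe.1 he)
    exact hG.2 i
  have hswap : ∑ G ∈ Gn n, cyc l G =
      ∑ f ∈ univ.filter (fun f : Fin l → Fin n => Function.Injective f),
        ((Gn n).filter fun G => ∀ i, G.Adj (f i) (f (i + 1))).card := by
    have h1 : ∀ G ∈ Gn n, cyc l G =
        ∑ f ∈ univ.filter (fun f : Fin l → Fin n => Function.Injective f),
          if ∀ i, G.Adj (f i) (f (i + 1)) then 1 else 0 := by
      intro G _
      unfold cyc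
      rw [← sum_filter, filter_filter, sum_const, smul_eq_mul, mul_one]
      refine congrArg Finset.card (Finset.ext fun f => ?_)
      simp only [mem_filter, mem_univ, true_and]
    rw [sum_congr rfl h1, sum_comm]
    refine sum_congr rfl (fun f _ => ?_)
    rw [card_filter]
  have hnl : 0 < n ^ l := by positivity
  have hfin : n ^ l * ∑ G ∈ Gn n, cyc l G ≤ n ^ l * (8 ^ l * (Gn n).card) := by
    rw [hswap, mul_sum]
    calc ∑ f ∈ univ.filter (fun f : Fin l → Fin n => Function.Injective f),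
          n ^ l * ((Gn n).filter fun G => ∀ i, G.Adj (f i) (f (i + 1))).card
        ≤ ∑ f ∈ univ.filter (fun f : Fin l → Fin n => Function.Injective f),
          8 ^ l * (Gn n).card := by
          refine sum_le_sum (fun f hf => hE f ?_)
          exact (mem_filter.1 hf).2
      _ = (univ.filter (fun f : Fin l → Fin n => Function.Injective f)).card *
          (8 ^ l * (Gn n).card) := by rw [sum_const, smul_eq_mul]
      _ ≤ n ^ l * (8 ^ l * (Gn n).card) := by
          refine Nat.mul_le_mul_right _ ?_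
          refine (card_le_univ _).trans ?_
          rw [Fintype.card_fun, Fintype.card_fin, Fintype.card_fin]
  exact Nat.le_of_mul_le_mul_left hfin hnl

end MP06b
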