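import Pool.Agent.Lib.MP_06b34c_co.PPPoisson
import Pool.Agent.Lib.MP_06b34c_co.PPBad
import Pool.Agent.Lib.MP_06b34c_co.PPClass

namespace MP06b
open Finset

open scoped Classical in
private theorem ppfinal_key (n : ℕ) (P : SimpleGraph (Fin n) → Prop) :
    ((Gn n).filter fun G => P G).card =
      ∑ k ∈ range ((Gn n).sup (fun G => tri G) + 1), ((Xn n k).filter fun G => P G).card := by
  rw [Finset.card_eq_sum_card_fiberwise (f := fun G => tri G)
    (t := range ((Gn n).sup (fun G => tri G) + 1))]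
  · refine Finset.sum_congr rfl fun k _ => ?_
    congr 1
    ext G
    simp only [Gn, Xn, Finset.mem_filter, Finset.mem_univ, true_and]
    tauto
  · intro G hG
    have hG' : G ∈ Gn n := (Finset.mem_filter.1 (Finset.mem_coe.1 hG)).1
    exact Finset.mem_coe.2 (Finset.mem_range.2
      (Nat.lt_succ_of_le (Finset.le_sup (f := fun G => tri G) hG')))

open scoped Classical in
private theorem ppfinal_count (n : ℕ) :
    7 * (Gn n).card ≤ 15 * ((Gn n).filter fun G => AllZero G).card +
      7 * ((Gn n).filter fun G => ¬ AllGood G).card + 7 * (Xn n 0).card := by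
  have h1 := ppfinal_key n (fun G => AllZero G)
  have h2 := ppfinal_key n (fun G => AllGood G)
  rw [Finset.sum_range_succ'] at h1 h2
  have h3 : ((Gn n).filter fun G => AllGood G).card + ((Gn n).filter fun G => ¬ AllGood G).card =
      (Gn n).card := Finset.card_filter_add_card_filter_not _
  have h4 : ((Xn n 0).filter fun G => AllGood G).card ≤ (Xn n 0).card := Finset.card_filter_le _ _
  have h5 : 7 * ∑ k ∈ range ((Gn n).sup (fun G => tri G)),
      ((Xn n (k + 1)).filter fun G => AllGood G).card ≤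
      15 * ∑ k ∈ range ((Gn n).sup (fun G => tri G)),
      ((Xn n (k + 1)).filter fun G => AllZero G).card := by
    rw [Finset.mul_sum, Finset.mul_sum]
    exact Finset.sum_le_sum fun k _ => class_ineq n (k + 1) (Nat.succ_le_succ (Nat.zero_le k))
  omega

open scoped Classical in
/-- PP-21. Proof: sum `class_ineq` over k ≥ 1; Gn n is the disjoint union of the Xn n k; `few_triangle_free`, `bad_le`. -/
theorem positive_proportion (ε : ℝ) (hε : 0 < ε) : ∃ n₀ : ℕ, ∀ n ≥ n₀,
    (7 / 15 * (1 - Real.exp (-(9 / 2))) - ε) * (Gn n).card ≤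
      (((Gn n).filter fun G => AllZero G).card : ℝ) := by
  obtain ⟨n1, h1⟩ := few_triangle_free (ε / 2) (by positivity)
  obtain ⟨n2, h2⟩ := exists_nat_gt (1200000 / ε)
  refine ⟨max 31 (max n1 n2), fun n hn => ?_⟩
  have hn31 : 31 ≤ n := le_trans (le_max_left _ _) hn
  have hn1 : n1 ≤ n := le_trans (le_trans (le_max_left _ _) (le_max_right _ _)) hn
  have hn2 : n2 ≤ n := le_trans (le_trans (le_max_right _ _) (le_max_right _ _)) hn
  have hb := bad_le n hn31
  have hx := h1 n hn1
  have hc := ppfinal_count n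
  have hb' : (n : ℝ) * (((Gn n).filter fun G => ¬ AllGood G).card : ℝ) ≤
      600000 * ((Gn n).card : ℝ) := by exact_mod_cast hb
  have hc' : 7 * ((Gn n).card : ℝ) ≤ 15 * (((Gn n).filter fun G => AllZero G).card : ℝ) +
      7 * (((Gn n).filter fun G => ¬ AllGood G).card : ℝ) + 7 * ((Xn n 0).card : ℝ) := by
    exact_mod_cast hc
  have hg : (0 : ℝ) ≤ ((Gn n).card : ℝ) := Nat.cast_nonneg _
  have hnr : 1200000 / ε < (n : ℝ) := lt_of_lt_of_le h2 (by exact_mod_cast hn2)
  have hnpos : (0 : ℝ) < n := by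
    have : (31 : ℝ) ≤ n := by exact_mod_cast hn31
    linarith
  have hne : 1200000 < (n : ℝ) * ε := by
    rwa [div_lt_iff₀ hε] at hnr
  have hbb : (((Gn n).filter fun G => ¬ AllGood G).card : ℝ) ≤ ε / 2 * ((Gn n).card : ℝ) := by
    have h3 : (n : ℝ) * (((Gn n).filter fun G => ¬ AllGood G).card : ℝ) ≤
        n * (ε / 2 * ((Gn n).card : ℝ)) := by
      refine hb'.trans ?_
      have : 600000 * ((Gn n).card : ℝ) ≤ (n * ε / 2) * ((Gn n).card : ℝ) :=
        mul_le_mul_of_nonneg_right (by linarith) hg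
      linarith [this, mul_assoc (n : ℝ) (ε / 2) ((Gn n).card : ℝ)]
    exact le_of_mul_le_mul_left h3 hnpos
  nlinarith [mul_nonneg hε.le hg]

end MP06b
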