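import Pool.Agent.Lib.MP_06b34c_co.PPDefs

namespace MP06b
open Finset

variable {V : Type*} [Fintype V] [DecidableEq V]

private theorem FA_card (τ : Fin 6 → Fin 3) (t : Fin 3 → V) (o : Fin 6 → V)
    (ht : Function.Injective t) (ho : Function.Injective o) (hd : ∀ i k, o i ≠ t k) (k : Fin 3)
    (hτ : (univ.filter fun i => τ i = k).card = 2) :
    {w | (∃ j, j ≠ k ∧ w = t j) ∨ ∃ i, τ i = k ∧ w = o i}.ncard = 4 := by
  have h1 : {w | (∃ j, j ≠ k ∧ w = t j) ∨ ∃ i, τ i = k ∧ w = o i} =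
      (((univ.erase k).image t ∪ (univ.filter fun i => τ i = k).image o : Finset V) : Set V) := by
    ext w
    simp only [Set.mem_setOf_eq, Finset.coe_union, Finset.coe_image, Set.mem_union, Set.mem_image,
      Finset.mem_coe, Finset.mem_erase, Finset.mem_univ, Finset.mem_filter, true_and, and_true,
      eq_comm]
  rw [h1, Set.ncard_coe_finset, Finset.card_union_of_disjoint, Finset.card_image_of_injective _ ht,
    Finset.card_image_of_injective _ ho, hτ, Finset.card_erase_of_mem (Finset.mem_univ k),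
    Finset.card_univ, Fintype.card_fin]
  rw [Finset.disjoint_left]
  intro w hw1 hw2
  obtain ⟨j, -, rfl⟩ := Finset.mem_image.1 hw1
  obtain ⟨i, -, hi⟩ := Finset.mem_image.1 hw2
  exact hd i j hi

private theorem FA_tau0 (k : Fin 3) : (univ.filter fun i => tau0 i = k).card = 2 := by
  revert k
  decide

private theorem FA_tau (σ : Equiv.Perm (Fin 6)) (k : Fin 3) :
    (univ.filter fun i => tau0 (σ i) = k).card = 2 := by
  rw [← FA_tau0 k]
  have : (univ.filter fun i => tau0 i = k) =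
      (univ.filter fun i => tau0 (σ i) = k).map σ.toEmbedding := by
    ext i
    simp only [Finset.mem_filter, Finset.mem_univ, true_and, Finset.mem_map, Equiv.coe_toEmbedding]
    constructor
    · intro h
      exact ⟨σ.symm i, by rw [Equiv.apply_symm_apply]; exact h, Equiv.apply_symm_apply _ _⟩
    · rintro ⟨j, hj, rfl⟩
      exact hj
  rw [this, Finset.card_map]

/-- PP-8a: in a 4-regular graph with a frame, the neighbours of t k are the other two t's and the o i with tau0 i = k. -/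
theorem frame_nbr (G : SimpleGraph V) (hG : Reg4 G) (t : Fin 3 → V) (o : Fin 6 → V)
    (hF : Frame G t o) (k : Fin 3) (w : V) :
    G.Adj (t k) w ↔ (∃ j, j ≠ k ∧ w = t j) ∨ ∃ i, tau0 i = k ∧ w = o i := by
  have hsub : {w | (∃ j, j ≠ k ∧ w = t j) ∨ ∃ i, tau0 i = k ∧ w = o i} ⊆ G.neighborSet (t k) := by
    rintro w (⟨j, hj, rfl⟩ | ⟨i, hi, rfl⟩)
    · exact hF.tri k j hj.symm
    · have := (hF.leg i).symm
      rw [hi] at this
      exact this
  have heq := Set.eq_of_subset_of_ncard_le hsub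
    (by rw [hG (t k), FA_card tau0 t o hF.tinj hF.oinj hF.disj k (FA_tau0 k)]) (Set.toFinite _)
  constructor
  · intro h
    have : w ∈ G.neighborSet (t k) := h
    rw [← heq] at this
    exact this
  · intro h
    exact hsub h

private theorem FA_adj (G : SimpleGraph V) (t : Fin 3 → V) (o : Fin 6 → V)
    (σ : Equiv.Perm (Fin 6)) (x y : V) :
    (rearr G t o σ).Adj x y ↔
      (G.Adj x y ∧ ¬ ∃ i, s(x, y) = s(o i, t (tau0 i))) ∨
        ((∃ i, s(x, y) = s(o i, t (tau0 (σ i)))) ∧ x ≠ y) := by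
  unfold rearr
  rw [SimpleGraph.sup_adj, SimpleGraph.sdiff_adj, SimpleGraph.fromEdgeSet_adj,
    SimpleGraph.fromEdgeSet_adj]
  simp only [Set.mem_setOf_eq]
  constructor
  · rintro (⟨h1, h2⟩ | h)
    · exact Or.inl ⟨h1, fun h3 => h2 ⟨h3, h1.ne⟩⟩
    · exact Or.inr h
  · rintro (⟨h1, h2⟩ | h)
    · exact Or.inl ⟨h1, fun h3 => h2 h3.1⟩
    · exact Or.inr h

private theorem FA_t (G : SimpleGraph V) (hG : Reg4 G) (t : Fin 3 → V) (o : Fin 6 → V)
    (hF : Frame G t o) (σ : Equiv.Perm (Fin 6)) (k : Fin 3) (w : V) :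
    (rearr G t o σ).Adj (t k) w ↔
      (∃ j, j ≠ k ∧ w = t j) ∨ ∃ i, tau0 (σ i) = k ∧ w = o i := by
  rw [FA_adj]
  constructor
  · rintro (⟨h1, h2⟩ | ⟨⟨i, hi⟩, h2⟩)
    · rcases (frame_nbr G hG t o hF k w).1 h1 with h | ⟨i, hi, rfl⟩
      · exact Or.inl h
      · exact absurd ⟨i, by rw [hi]; exact Sym2.eq_swap⟩ h2
    · rcases Sym2.eq_iff.1 hi with ⟨h3, _⟩ | ⟨h3, h4⟩
      · exact absurd h3.symm (hF.disj i k)
      · exact Or.inr ⟨i, (hF.tinj h3).symm, h4⟩
  · rintro (⟨j, hj, rfl⟩ | ⟨i, hi, rfl⟩)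
    · refine Or.inl ⟨hF.tri k j hj.symm, ?_⟩
      rintro ⟨i, hi⟩
      rcases Sym2.eq_iff.1 hi with ⟨h3, _⟩ | ⟨_, h4⟩
      · exact hF.disj i k h3.symm
      · exact hF.disj i j h4.symm
    · exact Or.inr ⟨⟨i, by rw [hi]; exact Sym2.eq_swap⟩, fun h => hF.disj i k h.symm⟩

private theorem FA_nt (G : SimpleGraph V) (t : Fin 3 → V) (o : Fin 6 → V)
    (σ : Equiv.Perm (Fin 6)) {x y : V} (hx : ∀ k, x ≠ t k) (hy : ∀ k, y ≠ t k) :
    (rearr G t o σ).Adj x y ↔ G.Adj x y := by
  rw [FA_adj]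
  have h1 : ∀ i k, s(x, y) ≠ s(o i, t k) := by
    intro i k h
    rcases Sym2.eq_iff.1 h with ⟨_, h4⟩ | ⟨h3, _⟩
    · exact hy k h4
    · exact hx k h3
  constructor
  · rintro (⟨h, _⟩ | ⟨⟨i, hi⟩, _⟩)
    · exact h
    · exact absurd hi (h1 _ _)
  · intro h
    exact Or.inl ⟨h, fun ⟨i, hi⟩ => h1 _ _ hi⟩

/-- PP-8b -/
theorem rearr_reg4 (G : SimpleGraph V) (hG : Reg4 G) (t : Fin 3 → V) (o : Fin 6 → V)
    (hF : Frame G t o) (σ : Equiv.Perm (Fin 6)) : Reg4 (rearr G t o σ) := by
  intro x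
  by_cases hx : ∃ k, x = t k
  · obtain ⟨k, rfl⟩ := hx
    rw [← FA_card (fun i => tau0 (σ i)) t o hF.tinj hF.oinj hF.disj k (FA_tau σ k)]
    congr 1
    ext w
    exact FA_t G hG t o hF σ k w
  · push Not at hx
    by_cases hxo : ∃ i, x = o i
    · obtain ⟨i, rfl⟩ := hxo
      have h1 : (rearr G t o σ).neighborSet (o i) =
          insert (t (tau0 (σ i))) (G.neighborSet (o i) \ {t (tau0 i)}) := by
        ext w
        simp only [SimpleGraph.mem_neighborSet, Set.mem_insert_iff, Set.mem_diff,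
          Set.mem_singleton_iff]
        by_cases hw : ∃ k, w = t k
        · obtain ⟨k, rfl⟩ := hw
          rw [SimpleGraph.adj_comm, FA_t G hG t o hF σ k (o i), SimpleGraph.adj_comm,
            frame_nbr G hG t o hF k (o i)]
          constructor
          · rintro (⟨j, _, h⟩ | ⟨j, h3, h⟩)
            · exact absurd h (hF.disj i j)
            · rw [hF.oinj h, h3]
              exact Or.inl rfl
          · rintro (h | ⟨h, h2⟩)
            · exact Or.inr ⟨i, (hF.tinj h).symm, rfl⟩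
            · rcases h with ⟨j, _, h⟩ | ⟨j, h3, h⟩
              · exact absurd h (hF.disj i j)
              · rw [hF.oinj h, h3] at h2
                exact absurd rfl h2
        · push Not at hw
          rw [FA_nt G t o σ hx hw]
          constructor
          · intro h
            exact Or.inr ⟨h, hw _⟩
          · rintro (h | ⟨h, _⟩)
            · exact absurd h (hw _)
            · exact h
      have h2 : t (tau0 (σ i)) ∉ G.neighborSet (o i) \ {t (tau0 i)} := by
        rintro ⟨h, h2⟩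
        rw [SimpleGraph.mem_neighborSet, SimpleGraph.adj_comm,
          frame_nbr G hG t o hF _ (o i)] at h
        rcases h with ⟨j, _, h⟩ | ⟨j, h3, h⟩
        · exact absurd h (hF.disj i j)
        · rw [← hF.oinj h] at h3
          exact h2 (by rw [Set.mem_singleton_iff, h3])
      have h3 : t (tau0 i) ∈ G.neighborSet (o i) := hF.leg i
      rw [h1, Set.ncard_insert_of_notMem h2 (Set.toFinite _),
        Set.ncard_diff_singleton_of_mem h3, hG (o i)]
    · push Not at hxo
      rw [← hG x]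
      congr 1
      ext w
      simp only [SimpleGraph.mem_neighborSet]
      by_cases hw : ∃ k, w = t k
      · obtain ⟨k, rfl⟩ := hw
        rw [SimpleGraph.adj_comm, FA_t G hG t o hF σ k x, SimpleGraph.adj_comm G,
          frame_nbr G hG t o hF k x]
        constructor
        · rintro (⟨j, _, h⟩ | ⟨j, _, h⟩)
          · exact absurd h (hx j)
          · exact absurd h (hxo j)
        · rintro (⟨j, _, h⟩ | ⟨j, _, h⟩)
          · exact absurd h (hx j)
          · exact absurd h (hxo j)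
      · push Not at hw
        exact FA_nt G t o σ hx hw

/-- PP-8c -/
theorem rearr_frame (G : SimpleGraph V) (hG : Reg4 G) (t : Fin 3 → V) (o : Fin 6 → V)
    (hF : Frame G t o) (σ : Equiv.Perm (Fin 6)) :
    Frame (rearr G t o σ) t (fun i => o (σ.symm i)) where
  tinj := hF.tinj
  oinj := hF.oinj.comp σ.symm.injective
  disj := fun i k => hF.disj _ _
  tri := fun i j hij => (FA_t G hG t o hF σ i (t j)).2 (Or.inl ⟨j, hij.symm, rfl⟩)
  leg := fun i => ((FA_t G hG t o hF σ (tau0 i) (o (σ.symm i))).2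
    (Or.inr ⟨σ.symm i, by rw [Equiv.apply_symm_apply], rfl⟩)).symm
  nadj := fun i j h => hF.nadj _ _ ((FA_nt G t o σ (fun k => hF.disj _ k)
    (fun k => hF.disj _ k)).1 h)

/-- PP-8d -/
theorem rearr_rearr (G : SimpleGraph V) (hG : Reg4 G) (t : Fin 3 → V) (o : Fin 6 → V)
    (hF : Frame G t o) (σ : Equiv.Perm (Fin 6)) :
    rearr (rearr G t o σ) t (fun i => o (σ.symm i)) σ.symm = G := by
  have hG' := rearr_reg4 G hG t o hF σ
  have hF' := rearr_frame G hG t o hF σ
  have key : ∀ k w, (rearr (rearr G t o σ) t (fun i => o (σ.symm i)) σ.symm).Adj (t k) w ↔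
      G.Adj (t k) w := by
    intro k w
    rw [FA_t _ hG' t _ hF' σ.symm k w, frame_nbr G hG t o hF k w]
    constructor
    · rintro (h | ⟨i, hi, rfl⟩)
      · exact Or.inl h
      · exact Or.inr ⟨_, hi, rfl⟩
    · rintro (h | ⟨i, hi, rfl⟩)
      · exact Or.inl h
      · exact Or.inr ⟨σ i, by rw [Equiv.symm_apply_apply]; exact hi,
          by rw [Equiv.symm_apply_apply]⟩
  ext x y
  by_cases hx : ∃ k, x = t k
  · obtain ⟨k, rfl⟩ := hx
    exact key k y
  · push Not at hx
    by_cases hy : ∃ k, y = t k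
    · obtain ⟨k, rfl⟩ := hy
      rw [SimpleGraph.adj_comm, key k x, SimpleGraph.adj_comm]
    · push Not at hy
      rw [FA_nt _ t _ σ.symm hx hy, FA_nt G t o σ hx hy]

end MP06b
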