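import Pool.Agent.Lib.MP_06b34c_co.PPFrameA

namespace MP06b
open Finset

variable {V : Type*} [Fintype V] [DecidableEq V]

theorem FB_edge (G : SimpleGraph V) (hG : Reg4 G) (t : Fin 3 → V) (o : Fin 6 → V)
    (hF : Frame G t o) {a b c : V} (hab : G.Adj a b) (hac : G.Adj a c) (hbc : G.Adj b c)
    (i : Fin 6) : s(a, b) ≠ s(o i, t (tau0 i)) := by
  have key : ∀ {c : V}, G.Adj (o i) c → G.Adj (t (tau0 i)) c → False := by
    intro c h1 h2
    rcases (frame_nbr G hG t o hF (tau0 i) c).1 h2 with ⟨j, hj, rfl⟩ | ⟨i', _, rfl⟩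
    · rcases (frame_nbr G hG t o hF j (o i)).1 h1.symm with ⟨j', _, h⟩ | ⟨i', hi', h⟩
      · exact hF.disj i j' h
      · have := hF.oinj h
        subst this
        exact hj hi'.symm
    · exact hF.nadj i i' h1
  intro h
  rcases Sym2.eq_iff.1 h with ⟨rfl, rfl⟩ | ⟨rfl, rfl⟩
  · exact key hac hbc
  · exact key hbc hac

theorem FB_adj (G : SimpleGraph V) (hG : Reg4 G) (t : Fin 3 → V) (o : Fin 6 → V)
    (hF : Frame G t o) (σ : Equiv.Perm (Fin 6)) {a b c : V} (hab : G.Adj a b) (hac : G.Adj a c)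
    (hbc : G.Adj b c) : (rearr G t o σ).Adj a b := by
  refine Or.inl ⟨hab, ?_⟩
  intro h
  rw [SimpleGraph.fromEdgeSet_adj] at h
  obtain ⟨i, hi⟩ := h.1
  exact FB_edge G hG t o hF hab hac hbc i hi

theorem FB_clique (G : SimpleGraph V) (hG : Reg4 G) (t : Fin 3 → V) (o : Fin 6 → V)
    (hF : Frame G t o) (σ : Equiv.Perm (Fin 6)) (s : Finset V) (hs : G.IsNClique 3 s) :
    (rearr G t o σ).IsNClique 3 s := by
  rw [SimpleGraph.is3Clique_iff] at hs ⊢
  obtain ⟨a, b, c, hab, hac, hbc, rfl⟩ := hs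
  exact ⟨a, b, c, FB_adj G hG t o hF σ hab hac hbc, FB_adj G hG t o hF σ hac hab hbc.symm,
    FB_adj G hG t o hF σ hbc hab.symm hac.symm, rfl⟩

/-- PP-9. Proof: no triangle of G uses an edge between {t k} and {o i}: a common neighbour of t k and o i would be a t j (but o i is adjacent to
only one of the t's, `frame_nbr`), or an o i' (not adjacent to o i). The same holds for the rearranged graph
(`rearr_frame`, `rearr_reg4`). All other edges are the same. So the sets of 3-cliques coincide. -/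
theorem rearr_tri (G : SimpleGraph V) (hG : Reg4 G) (t : Fin 3 → V) (o : Fin 6 → V)
    (hF : Frame G t o) (σ : Equiv.Perm (Fin 6)) : tri (rearr G t o σ) = tri G := by
  classical
  unfold tri
  congr 1
  ext s
  rw [SimpleGraph.mem_cliqueFinset_iff, SimpleGraph.mem_cliqueFinset_iff]
  constructor
  · intro h
    have h2 := FB_clique (rearr G t o σ) (rearr_reg4 G hG t o hF σ) t (fun i => o (σ.symm i))
      (rearr_frame G hG t o hF σ) σ.symm s h
    rwa [rearr_rearr G hG t o hF σ] at h2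
  · exact FB_clique G hG t o hF σ s

end MP06b
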