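import Pool.Agent.Lib.MP_06b34c_co.PPDefs

namespace MP06b
open Finset

variable {U : Type*}

/-- reachability is preserved by maps which send edges to reachable pairs -/
theorem ppleaf_reach {V W : Type*} {G : SimpleGraph V} {H : SimpleGraph W} (f : V → W)
    (hf : ∀ a b, G.Adj a b → H.Reachable (f a) (f b)) {a b : V} (h : G.Reachable a b) :
    H.Reachable (f a) (f b) := by
  obtain ⟨p⟩ := h
  induction p with
  | nil => exact SimpleGraph.Reachable.refl _
  | cons hadj _ ih => exact (hf _ _ hadj).trans ih

theorem ppleaf_adj_ss (R : SimpleGraph U) (N : Set U) (u v : U) :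
    (ext1 R N).Adj (some u) (some v) ↔ R.Adj u v := Iff.rfl

theorem ppleaf_adj_ns (R : SimpleGraph U) (N : Set U) (u : U) :
    (ext1 R N).Adj none (some u) ↔ u ∈ N := Iff.rfl

theorem ppleaf_adj_sn (R : SimpleGraph U) (N : Set U) (u : U) :
    (ext1 R N).Adj (some u) none ↔ u ∈ N := Iff.rfl

theorem ppleaf_adj_nn (R : SimpleGraph U) (N : Set U) :
    (ext1 R N).Adj none none ↔ False := Iff.rfl

theorem ppleaf_edgeSet (R : SimpleGraph U) (N : Set U) :
    (ext1 R N).edgeSet = (Sym2.map some '' R.edgeSet) ∪ ((fun u => s(none, some u)) '' N) := by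
  ext e
  induction e using Sym2.ind with
  | _ a b =>
    rw [SimpleGraph.mem_edgeSet, Set.mem_union, Set.mem_image, Set.mem_image]
    constructor
    · intro hadj
      rcases a with _ | u
      · rcases b with _ | v
        · exact hadj.elim
        · exact Or.inr ⟨v, hadj, rfl⟩
      · rcases b with _ | v
        · exact Or.inr ⟨u, hadj, Sym2.eq_swap⟩
        · exact Or.inl ⟨s(u, v), hadj, rfl⟩
    · rintro (⟨e, he, hee⟩ | ⟨u, hu, hee⟩)
      · induction e using Sym2.ind with
        | _ u v =>
          rw [Sym2.map_mk, Sym2.eq_iff] at hee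
          rcases hee with ⟨rfl, rfl⟩ | ⟨rfl, rfl⟩
          · exact he
          · exact SimpleGraph.Adj.symm he
      · rw [Sym2.eq_iff] at hee
        rcases hee with ⟨rfl, rfl⟩ | ⟨rfl, rfl⟩
        · exact hu
        · exact hu

theorem ppleaf_card [Finite U] (R : SimpleGraph U) (N : Set U) :
    Nat.card (ext1 R N).edgeSet = Nat.card R.edgeSet + N.ncard := by
  rw [Nat.card_coe_set_eq, ppleaf_edgeSet, Set.ncard_union_eq _ (Set.toFinite _) (Set.toFinite _)]
  · rw [Set.ncard_image_of_injective _ (Sym2.map.injective (Option.some_injective _)),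
      Set.ncard_image_of_injective, Nat.card_coe_set_eq]
    intro u v huv
    simpa [Sym2.eq_iff] using huv
  · rw [Set.disjoint_left]
    rintro e ⟨e', he', rfl⟩ ⟨u, hu, hee⟩
    induction e' using Sym2.ind with
    | _ a b =>
      rw [Sym2.map_mk, Sym2.eq_iff] at hee
      rcases hee with ⟨h1, -⟩ | ⟨h1, -⟩ <;> exact absurd h1 (by simp)

/-- PP-1a: a vertex without neighbours. -/
theorem ext1_not_isTree_empty [Nonempty U] (R : SimpleGraph U) : ¬ (ext1 R ∅).IsTree := by
  intro h
  obtain ⟨u⟩ := ‹Nonempty U›
  obtain ⟨p⟩ := h.connected none (some u)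
  cases p with
  | @cons _ v _ hadj _ =>
    rcases v with _ | v
    · exact hadj
    · exact hadj

/-- PP-1b: a leaf. Proof: connectedness + edge count (`SimpleGraph.isTree_iff_connected_and_card`), or directly
`IsTree` <-> unique paths. -/
theorem ext1_isTree_single [Finite U] (R : SimpleGraph U) (i : U) :
    (ext1 R {i}).IsTree ↔ R.IsTree := by
  rw [SimpleGraph.isTree_iff_connected_and_card, SimpleGraph.isTree_iff_connected_and_card,
    ppleaf_card, Set.ncard_singleton, Finite.card_option]
  have hc : (ext1 R {i}).Connected ↔ R.Connected := by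
    constructor
    · intro h
      have : Nonempty U := ⟨i⟩
      refine SimpleGraph.Connected.mk (fun u v => ?_)
      have h1 := h (some u) (some v)
      exact ppleaf_reach (H := R) (fun o : Option U => o.elim i id) (by
        rintro (_ | a) (_ | b) hab
        · exact hab.elim
        · have hb : b = i := hab
          rw [hb]
          exact SimpleGraph.Reachable.refl _
        · have hb : a = i := hab
          rw [hb]
          exact SimpleGraph.Reachable.refl _
        · exact SimpleGraph.Adj.reachable (G := R) hab) h1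
    · intro h
      have h1 : ∀ u v, (ext1 R {i}).Reachable (some u) (some v) := fun u v =>
        ppleaf_reach (G := R) some (fun a b hab =>
          SimpleGraph.Adj.reachable (G := ext1 R {i}) hab) (h u v)
      have h2 : ∀ o, (ext1 R {i}).Reachable o (some i) := by
        rintro (_ | u)
        · exact SimpleGraph.Adj.reachable (G := ext1 R {i}) (Set.mem_singleton i)
        · exact h1 u i
      exact SimpleGraph.Connected.mk (fun a b => (h2 a).trans (h2 b).symm)
  rw [hc]
  refine and_congr_right (fun _ => ?_)
  omega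

/-- PP-1c: suppressing a vertex of degree two. Proof: both sides are connected graphs with
|V| - 1 edges: the left has one more vertex and one more edge than the right (j, k are not adjacent in R, j ≠ k), and
connectedness is equivalent. -/
theorem ext1_isTree_pair [Finite U] (R : SimpleGraph U) (j k : U) (hjk : j ≠ k)
    (h : ¬ R.Adj j k) : (ext1 R {j, k}).IsTree ↔ (R ⊔ SimpleGraph.edge j k).IsTree := by
  rw [SimpleGraph.isTree_iff_connected_and_card, SimpleGraph.isTree_iff_connected_and_card,
    ppleaf_card, Set.ncard_pair hjk, Finite.card_option]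
  have hcard : Nat.card (R ⊔ SimpleGraph.edge j k).edgeSet = Nat.card R.edgeSet + 1 := by
    have h1 : (R ⊔ SimpleGraph.edge j k).edgeSet = insert s(j, k) R.edgeSet := by
      rw [SimpleGraph.edgeSet_sup, SimpleGraph.edgeSet_edge_of_ne hjk, Set.union_comm]
      rfl
    rw [Nat.card_coe_set_eq, h1, Set.ncard_insert_of_notMem _ (Set.toFinite _),
      Nat.card_coe_set_eq]
    exact h
  have hedge : (R ⊔ SimpleGraph.edge j k).Adj j k := by
    rw [SimpleGraph.sup_adj, SimpleGraph.edge_adj]
    exact Or.inr ⟨Or.inl ⟨rfl, rfl⟩, hjk⟩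
  have hc : (ext1 R {j, k}).Connected ↔ (R ⊔ SimpleGraph.edge j k).Connected := by
    constructor
    · intro h
      have : Nonempty U := ⟨j⟩
      refine SimpleGraph.Connected.mk (fun u v => ?_)
      have h1 := h (some u) (some v)
      have h3 : ∀ b, b ∈ ({j, k} : Set U) → (R ⊔ SimpleGraph.edge j k).Reachable j b := by
        rintro b (hb | hb)
        · rw [hb]
        · rw [Set.mem_singleton_iff.1 hb]
          exact hedge.reachable
      exact ppleaf_reach (H := R ⊔ SimpleGraph.edge j k) (fun o : Option U => o.elim j id) (by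
        rintro (_ | a) (_ | b) hab
        · exact hab.elim
        · exact h3 b hab
        · exact (h3 a hab).symm
        · exact SimpleGraph.Adj.reachable (G := R ⊔ SimpleGraph.edge j k) (Or.inl hab)) h1
    · intro h
      have hj : (ext1 R {j, k}).Reachable none (some j) :=
        SimpleGraph.Adj.reachable (G := ext1 R {j, k}) (Set.mem_insert j {k})
      have hk : (ext1 R {j, k}).Reachable none (some k) :=
        SimpleGraph.Adj.reachable (G := ext1 R {j, k}) (Set.mem_insert_of_mem j rfl)
      have h1 : ∀ u v, (ext1 R {j, k}).Reachable (some u) (some v) := fun u v =>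
        ppleaf_reach (G := R ⊔ SimpleGraph.edge j k) some (fun a b hab => by
          rw [SimpleGraph.sup_adj, SimpleGraph.edge_adj] at hab
          rcases hab with hab | ⟨⟨rfl, rfl⟩ | ⟨rfl, rfl⟩, -⟩
          · exact SimpleGraph.Adj.reachable (G := ext1 R {j, k}) hab
          · exact hj.symm.trans hk
          · exact hk.symm.trans hj) (h u v)
      have h2 : ∀ o, (ext1 R {j, k}).Reachable o (some j) := by
        rintro (_ | u)
        · exact hj
        · exact h1 u j
      exact SimpleGraph.Connected.mk (fun a b => (h2 a).trans (h2 b).symm)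
  rw [hc, hcard]
  refine and_congr_right (fun _ => ?_)
  omega

/-- PP-1d: every subgraph of ext1 R N is ext1 T' N' with T' ≤ R, N' ⊆ N (namely T' = T.comap some, N' = neighbours of none). -/
theorem le_ext1_iff (R : SimpleGraph U) (N : Set U) (T : SimpleGraph (Option U)) :
    T ≤ ext1 R N ↔ ∃ T' N', T' ≤ R ∧ N' ⊆ N ∧ T = ext1 T' N' := by
  constructor
  · intro h
    refine ⟨T.comap some, {u | T.Adj none (some u)}, ?_, ?_, ?_⟩
    · intro u v huv
      exact h huv
    · intro u hu
      exact h hu
    · ext a b
      rcases a with _ | u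
      · rcases b with _ | v
        · exact ⟨fun h' => (T.irrefl h').elim, fun h' => h'.elim⟩
        · exact Iff.rfl
      · rcases b with _ | v
        · exact T.adj_comm _ _
        · exact Iff.rfl
  · rintro ⟨T', N', h1, h2, rfl⟩ a b hab
    rcases a with _ | u
    · rcases b with _ | v
      · exact hab
      · exact h2 hab
    · rcases b with _ | v
      · exact h2 hab
      · exact h1 hab

theorem ext1_injective {R R' : SimpleGraph U} {N N' : Set U} (h : ext1 R N = ext1 R' N') :
    R = R' ∧ N = N' := by
  constructor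
  · ext u v
    have h1 : (ext1 R N).Adj (some u) (some v) ↔ (ext1 R' N').Adj (some u) (some v) := by rw [h]
    exact h1
  · ext u
    have h1 : (ext1 R N).Adj none (some u) ↔ (ext1 R' N').Adj none (some u) := by rw [h]
    exact h1

theorem ext1_sdiff (R T : SimpleGraph U) (N N' : Set U) :
    ext1 R N \ ext1 T N' = ext1 (R \ T) (N \ N') := by
  ext a b
  rw [SimpleGraph.sdiff_adj]
  rcases a with _ | u
  · rcases b with _ | v
    · exact ⟨fun h => h.1, fun h => h.elim⟩
    · exact Iff.rfl
  · rcases b with _ | v
    · exact Iff.rfl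
    · exact Iff.rfl

theorem ext1_sup_edge_some (R : SimpleGraph U) (N : Set U) (a b : U) :
    ext1 R N ⊔ SimpleGraph.edge (some a) (some b) = ext1 (R ⊔ SimpleGraph.edge a b) N := by
  ext x z
  rw [SimpleGraph.sup_adj, SimpleGraph.edge_adj]
  rcases x with _ | u
  · rcases z with _ | v
    · rw [ppleaf_adj_nn, ppleaf_adj_nn]
      simp
    · rw [ppleaf_adj_ns, ppleaf_adj_ns]
      simp
  · rcases z with _ | v
    · rw [ppleaf_adj_sn, ppleaf_adj_sn]
      simp
    · rw [ppleaf_adj_ss, ppleaf_adj_ss, SimpleGraph.sup_adj, SimpleGraph.edge_adj]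
      simp

theorem ext1_sup_edge_none (R : SimpleGraph U) (N : Set U) (a : U) :
    ext1 R N ⊔ SimpleGraph.edge none (some a) = ext1 R (insert a N) := by
  ext x z
  rw [SimpleGraph.sup_adj, SimpleGraph.edge_adj]
  rcases x with _ | u
  · rcases z with _ | v
    · rw [ppleaf_adj_nn, ppleaf_adj_nn]
      simp
    · rw [ppleaf_adj_ns, ppleaf_adj_ns, Set.mem_insert_iff]
      simp [eq_comm, or_comm]
  · rcases z with _ | v
    · rw [ppleaf_adj_sn, ppleaf_adj_sn, Set.mem_insert_iff]
      simp [eq_comm, or_comm]
    · rw [ppleaf_adj_ss, ppleaf_adj_ss]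
      simp

end MP06b
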