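import Pool.Agent.Lib.MP_06b34c_co.PPSwitch

namespace MP06b
open Finset

variable {V : Type*} [Fintype V] [DecidableEq V]

/-- good tuples for the switching which creates the triangle x y z -/
structure GoodT (G : SimpleGraph V) (z x y u v : V) : Prop where
  zx : G.Adj z x
  zy : G.Adj z y
  hxy : x ≠ y
  xu : G.Adj x u
  yv : G.Adj y v
  uz : u ≠ z
  vz : v ≠ z
  nxy : ¬ G.Adj x y
  huv : u ≠ v
  nuv : ¬ G.Adj u v
  txu : ∀ w, ¬ (G.Adj w x ∧ G.Adj w u)
  tyv : ∀ w, ¬ (G.Adj w y ∧ G.Adj w v)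
  txy : ∀ w, w ≠ z → ¬ (G.Adj w x ∧ G.Adj w y)
  tuv : ∀ w, ¬ (G.Adj w u ∧ G.Adj w v)

theorem GoodT.hxv {G : SimpleGraph V} {z x y u v : V} (h : GoodT G z x y u v) : x ≠ v := by
  rintro rfl
  exact h.nxy h.yv.symm

theorem GoodT.huy {G : SimpleGraph V} {z x y u v : V} (h : GoodT G z x y u v) : u ≠ y := by
  rintro rfl
  exact h.nxy h.xu

/-- an edge of the switched graph with a third vertex adjacent to both its ends -/
theorem GoodT.new_edge {G : SimpleGraph V} {z x y u v : V} (h : GoodT G z x y u v) (a b c : V)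
    (hab : (sw G x u y v).Adj a b) (hac : (sw G x u y v).Adj a c)
    (hbc : (sw G x u y v).Adj b c) (hn : ¬ G.Adj a b) :
    ({a, b, c} : Finset V) = {x, y, z} := by
  have hxu : x ≠ u := h.xu.ne
  have hyv : y ≠ v := h.yv.ne
  have hxv := h.hxv
  have huy := h.huy
  have key1 : ∀ w, w ≠ x → w ≠ y → (sw G x u y v).Adj x w → G.Adj w x := by
    intro w hwx hwy hw
    rw [sw_adj] at hw
    rcases hw with hw | ⟨-, hw | hw⟩
    · exact hw.1.symm
    · rcases Sym2.eq_iff.1 hw with ⟨-, h2⟩ | ⟨h1, -⟩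
      · exact absurd h2 hwy
      · exact absurd h1 h.hxy
    · rcases Sym2.eq_iff.1 hw with ⟨h1, -⟩ | ⟨h1, -⟩
      · exact absurd h1 hxu
      · exact absurd h1 hxv
  have key2 : ∀ w, w ≠ x → w ≠ y → (sw G x u y v).Adj y w → G.Adj w y := by
    intro w hwx hwy hw
    rw [sw_adj] at hw
    rcases hw with hw | ⟨-, hw | hw⟩
    · exact hw.1.symm
    · rcases Sym2.eq_iff.1 hw with ⟨h1, -⟩ | ⟨-, h2⟩
      · exact absurd h1 h.hxy.symm
      · exact absurd h2 hwx
    · rcases Sym2.eq_iff.1 hw with ⟨h1, -⟩ | ⟨h1, -⟩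
      · exact absurd h1 huy.symm
      · exact absurd h1 hyv
  have key3 : ∀ w, w ≠ u → w ≠ v → (sw G x u y v).Adj u w → G.Adj w u := by
    intro w hwu hwv hw
    rw [sw_adj] at hw
    rcases hw with hw | ⟨-, hw | hw⟩
    · exact hw.1.symm
    · rcases Sym2.eq_iff.1 hw with ⟨h1, -⟩ | ⟨h1, -⟩
      · exact absurd h1 hxu.symm
      · exact absurd h1 huy
    · rcases Sym2.eq_iff.1 hw with ⟨-, h2⟩ | ⟨h1, -⟩
      · exact absurd h2 hwv
      · exact absurd h1 h.huv
  have key4 : ∀ w, w ≠ u → w ≠ v → (sw G x u y v).Adj v w → G.Adj w v := by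
    intro w hwu hwv hw
    rw [sw_adj] at hw
    rcases hw with hw | ⟨-, hw | hw⟩
    · exact hw.1.symm
    · rcases Sym2.eq_iff.1 hw with ⟨h1, -⟩ | ⟨h1, -⟩
      · exact absurd h1 hxv.symm
      · exact absurd h1 hyv.symm
    · rcases Sym2.eq_iff.1 hw with ⟨h1, -⟩ | ⟨-, h2⟩
      · exact absurd h1 h.huv.symm
      · exact absurd h2 hwu
  have hca : c ≠ a := hac.ne'
  have hcb : c ≠ b := hbc.ne'
  have hab' := hab
  rw [sw_adj] at hab'
  rcases hab' with hab' | ⟨-, hab' | hab'⟩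
  · exact absurd hab'.1 hn
  · rcases Sym2.eq_iff.1 hab' with ⟨rfl, rfl⟩ | ⟨rfl, rfl⟩
    · have hcz : c = z := by
        by_contra hne
        exact h.txy c hne ⟨key1 c hca hcb hac, key2 c hca hcb hbc⟩
      rw [hcz]
    · have hcz : c = z := by
        by_contra hne
        exact h.txy c hne ⟨key1 c hcb hca hbc, key2 c hcb hca hac⟩
      rw [hcz, insert_comm]
  · exfalso
    rcases Sym2.eq_iff.1 hab' with ⟨rfl, rfl⟩ | ⟨rfl, rfl⟩
    · exact h.tuv c ⟨key3 c hca hcb hac, key4 c hca hcb hbc⟩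
    · exact h.tuv c ⟨key3 c hcb hca hbc, key4 c hcb hca hac⟩

theorem GoodT.sw_of_adj {G : SimpleGraph V} {z x y u v : V} (h : GoodT G z x y u v) (a b c : V)
    (hab : G.Adj a b) (hac : G.Adj a c) (hbc : G.Adj b c) : (sw G x u y v).Adj a b := by
  rw [sw_adj]
  left
  refine ⟨hab, ?_, ?_⟩
  · intro e
    rcases Sym2.eq_iff.1 e with ⟨rfl, rfl⟩ | ⟨rfl, rfl⟩
    · exact h.txu c ⟨hac.symm, hbc.symm⟩
    · exact h.txu c ⟨hbc.symm, hac.symm⟩
  · intro e
    rcases Sym2.eq_iff.1 e with ⟨rfl, rfl⟩ | ⟨rfl, rfl⟩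
    · exact h.tyv c ⟨hac.symm, hbc.symm⟩
    · exact h.tyv c ⟨hbc.symm, hac.symm⟩

theorem GoodT.adj_zx {G : SimpleGraph V} {z x y u v : V} (h : GoodT G z x y u v) :
    (sw G x u y v).Adj z x := by
  rw [sw_adj]
  left
  refine ⟨h.zx, ?_, ?_⟩
  · intro e
    rcases Sym2.eq_iff.1 e with ⟨h1, -⟩ | ⟨h1, -⟩
    · exact h.zx.ne h1
    · exact h.uz h1.symm
  · intro e
    rcases Sym2.eq_iff.1 e with ⟨h1, -⟩ | ⟨h1, -⟩
    · exact h.zy.ne h1
    · exact h.vz h1.symm

theorem GoodT.adj_zy {G : SimpleGraph V} {z x y u v : V} (h : GoodT G z x y u v) :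
    (sw G x u y v).Adj z y := by
  rw [sw_adj]
  left
  refine ⟨h.zy, ?_, ?_⟩
  · intro e
    rcases Sym2.eq_iff.1 e with ⟨h1, -⟩ | ⟨h1, -⟩
    · exact h.zx.ne h1
    · exact h.uz h1.symm
  · intro e
    rcases Sym2.eq_iff.1 e with ⟨h1, -⟩ | ⟨h1, -⟩
    · exact h.zy.ne h1
    · exact h.vz h1.symm

theorem GoodT.adj_xy {G : SimpleGraph V} {z x y u v : V} (h : GoodT G z x y u v) :
    (sw G x u y v).Adj x y := by
  rw [sw_adj]
  exact Or.inr ⟨h.hxy, Or.inl rfl⟩

theorem GoodT.adj_uv {G : SimpleGraph V} {z x y u v : V} (h : GoodT G z x y u v) :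
    (sw G x u y v).Adj u v := by
  rw [sw_adj]
  exact Or.inr ⟨h.huv, Or.inr rfl⟩

/-- PP-17a. Proof: the 3-cliques of G' = sw G x u y v are those of G (none of them contains x u or y v) and {x, y, z} (a new 3-clique contains x y, and the third
vertex is a common neighbour of x and y in G, so z; or u v, and then the third vertex is a common neighbour of u, v in G: none). -/
theorem sw_tri (G : SimpleGraph V) (z x y u v : V) (h : GoodT G z x y u v) :
    tri (sw G x u y v) = tri G + 1 := by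
  classical
  unfold tri
  have hnot : ({x, y, z} : Finset V) ∉ G.cliqueFinset 3 := by
    intro hm
    rw [SimpleGraph.mem_cliqueFinset_iff] at hm
    have := hm.isClique (by simp : x ∈ (({x, y, z} : Finset V) : Set V))
      (by simp : y ∈ (({x, y, z} : Finset V) : Set V)) h.hxy
    exact h.nxy this
  rw [← card_insert_of_notMem hnot]
  refine congrArg Finset.card (Finset.ext fun s => ?_)
  rw [mem_insert, SimpleGraph.mem_cliqueFinset_iff, SimpleGraph.mem_cliqueFinset_iff,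
    SimpleGraph.is3Clique_iff, SimpleGraph.is3Clique_iff]
  constructor
  · rintro ⟨a, b, c, hab, hac, hbc, rfl⟩
    by_cases h1 : G.Adj a b
    · by_cases h2 : G.Adj a c
      · by_cases h3 : G.Adj b c
        · exact Or.inr ⟨a, b, c, h1, h2, h3, rfl⟩
        · left
          have := h.new_edge b c a hbc hab.symm hac.symm h3
          rw [← this]
          ext w; simp only [mem_insert, mem_singleton]; tauto
      · left
        have := h.new_edge a c b hac hab hbc.symm h2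
        rw [← this]
        ext w; simp only [mem_insert, mem_singleton]; tauto
    · left
      exact h.new_edge a b c hab hac hbc h1
  · rintro (rfl | ⟨a, b, c, hab, hac, hbc, rfl⟩)
    · exact ⟨x, y, z, h.adj_xy, h.adj_zx.symm, h.adj_zy.symm, rfl⟩
    · exact ⟨a, b, c, h.sw_of_adj a b c hab hac hbc, h.sw_of_adj a c b hac hab hbc.symm,
        h.sw_of_adj b c a hbc hab.symm hac.symm, rfl⟩

/-- PP-17b -/
theorem sw_good_reg4 (G : SimpleGraph V) (hG : Reg4 G) (z x y u v : V) (h : GoodT G z x y u v) :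
    Reg4 (sw G x u y v) ∧ sw (sw G x u y v) x y u v = G ∧
      (sw G x u y v).Adj z x ∧ (sw G x u y v).Adj z y ∧ (sw G x u y v).Adj x y ∧
      (sw G x u y v).Adj u v :=
  ⟨sw_reg4 G hG x u y v h.xu h.yv h.hxy h.huv h.hxv h.huy h.nxy h.nuv,
    sw_sw G x u y v h.xu h.yv h.hxy h.huv h.hxv h.huy h.nxy h.nuv,
    h.adj_zx, h.adj_zy, h.adj_xy, h.adj_uv⟩

end MP06b
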