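import Pool.Agent.Lib.MP_06b34c_co.PPLevelA

namespace MP06b
open Finset

variable {V : Type*} [Fintype V] [DecidableEq V]

open scoped Classical in
/-- add a vertex adjacent to a given one -/
noncomputable def levelB_ext {α : Type*} (G : SimpleGraph V) (s : Finset α) (g : α → V) :
    Finset (α × V) := (s ×ˢ univ).filter fun p => G.Adj (g p.1) p.2

omit [DecidableEq V] in
open scoped Classical in
theorem levelB_nbr (G : SimpleGraph V) (hG : Reg4 G) (x : V) :
    (univ.filter fun y => G.Adj x y).card = 4 := by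
  rw [← hG x, Set.ncard_eq_toFinset_card']
  congr 1
  ext y
  simp

open scoped Classical in
theorem levelB_nbr_ne (G : SimpleGraph V) (hG : Reg4 G) (x z : V) (h : G.Adj x z) :
    (univ.filter fun y => G.Adj x y ∧ y ≠ z).card = 3 := by
  have h1 : (univ.filter fun y => G.Adj x y ∧ y ≠ z) = (univ.filter fun y => G.Adj x y).erase z := by
    ext y
    simp only [mem_filter, mem_univ, true_and, mem_erase]
    exact and_comm
  rw [h1, card_erase_of_mem (by simp [h]), levelB_nbr G hG x]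

omit [DecidableEq V] in
theorem levelB_ext_card {α : Type*} (G : SimpleGraph V) (hG : Reg4 G) (s : Finset α) (g : α → V) :
    (levelB_ext G s g).card = 4 * s.card := by
  classical
  unfold levelB_ext
  rw [card_filter, sum_product]
  have h1 : ∀ a ∈ s, (∑ y : V, if G.Adj (g a) y then 1 else 0) = 4 := by
    intro a _
    rw [← card_filter]
    exact levelB_nbr G hG (g a)
  rw [sum_congr rfl h1, sum_const, smul_eq_mul, mul_comm]

omit [DecidableEq V] in
theorem levelB_ext_mem {α : Type*} (G : SimpleGraph V) (s : Finset α) (g : α → V) (a : α) (y : V) :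
    (a, y) ∈ levelB_ext G s g ↔ a ∈ s ∧ G.Adj (g a) y := by
  unfold levelB_ext
  simp

open scoped Classical in
/-- labelled cycles -/
noncomputable def levelB_cyc (l : ℕ) [NeZero l] (G : SimpleGraph V) : Finset (Fin l → V) :=
  univ.filter fun f : Fin l → V => Function.Injective f ∧ ∀ i, G.Adj (f i) (f (i + 1))

theorem levelB_cyc_mem (l : ℕ) [NeZero l] (G : SimpleGraph V) (f : Fin l → V) :
    f ∈ levelB_cyc l G ↔ Function.Injective f ∧ ∀ i, G.Adj (f i) (f (i + 1)) := by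
  unfold levelB_cyc
  simp

theorem levelB_cyc_card (l : ℕ) [NeZero l] (G : SimpleGraph V) :
    (levelB_cyc l G).card = cyc l G := by
  unfold cyc
  apply congrArg card
  ext f
  rw [levelB_cyc_mem]
  simp

theorem levelB_mem3 (G : SimpleGraph V) {a b c : V} (h1 : G.Adj a b) (h2 : G.Adj b c)
    (h3 : G.Adj c a) : ![a, b, c] ∈ levelB_cyc 3 G := by
  have n1 := h1.ne
  have n2 := h2.ne
  have n3 := h3.ne
  rw [levelB_cyc_mem]
  refine ⟨?_, ?_⟩
  · intro i j hij
    fin_cases i <;> fin_cases j <;> simp_all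
  · intro i
    fin_cases i
    · exact h1
    · exact h2
    · exact h3

theorem levelB_mem4 (G : SimpleGraph V) {a b c d : V} (h1 : G.Adj a b) (h2 : G.Adj b c)
    (h3 : G.Adj c d) (h4 : G.Adj d a) (m1 : a ≠ c) (m2 : b ≠ d) : ![a, b, c, d] ∈ levelB_cyc 4 G := by
  have n1 := h1.ne
  have n2 := h2.ne
  have n3 := h3.ne
  have n4 := h4.ne
  rw [levelB_cyc_mem]
  refine ⟨?_, ?_⟩
  · intro i j hij
    fin_cases i <;> fin_cases j <;> simp_all
  · intro i
    fin_cases i
    · exact h1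
    · exact h2
    · exact h3
    · exact h4

theorem levelB_mem5 (G : SimpleGraph V) {a b c d e : V} (h1 : G.Adj a b) (h2 : G.Adj b c)
    (h3 : G.Adj c d) (h4 : G.Adj d e) (h5 : G.Adj e a) (m1 : a ≠ c) (m2 : a ≠ d) (m3 : b ≠ d)
    (m4 : b ≠ e) (m5 : c ≠ e) : ![a, b, c, d, e] ∈ levelB_cyc 5 G := by
  have n1 := h1.ne
  have n2 := h2.ne
  have n3 := h3.ne
  have n4 := h4.ne
  have n5 := h5.ne
  rw [levelB_cyc_mem]
  refine ⟨?_, ?_⟩
  · intro i j hij
    fin_cases i <;> fin_cases j <;> simp_all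
  · intro i
    fin_cases i
    · exact h1
    · exact h2
    · exact h3
    · exact h4
    · exact h5

theorem levelB_mem6 (G : SimpleGraph V) {a b c d e f : V} (h1 : G.Adj a b) (h2 : G.Adj b c)
    (h3 : G.Adj c d) (h4 : G.Adj d e) (h5 : G.Adj e f) (h6 : G.Adj f a) (m1 : a ≠ c) (m2 : a ≠ d)
    (m3 : a ≠ e) (m4 : b ≠ d) (m5 : b ≠ e) (m6 : b ≠ f) (m7 : c ≠ e) (m8 : c ≠ f) (m9 : d ≠ f) :
    ![a, b, c, d, e, f] ∈ levelB_cyc 6 G := by
  have n1 := h1.ne
  have n2 := h2.ne
  have n3 := h3.ne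
  have n4 := h4.ne
  have n5 := h5.ne
  have n6 := h6.ne
  rw [levelB_cyc_mem]
  refine ⟨?_, ?_⟩
  · intro i j hij
    fin_cases i <;> fin_cases j <;> simp_all
  · intro i
    fin_cases i
    · exact h1
    · exact h2
    · exact h3
    · exact h4
    · exact h5
    · exact h6

open scoped Classical in
theorem levelB_all (G : SimpleGraph V) (hG : Reg4 G) :
    (univ.filter fun p : V × V × V × V × V => G.Adj p.1 p.2.1 ∧ (G.Adj p.1 p.2.2.1 ∧
      p.2.2.1 ≠ p.2.1) ∧ (G.Adj p.2.1 p.2.2.2.1 ∧ p.2.2.2.1 ≠ p.1) ∧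
      (G.Adj p.2.2.1 p.2.2.2.2 ∧ p.2.2.2.2 ≠ p.1)).card = 108 * Fintype.card V := by
  rw [card_filter]
  simp only [Fintype.sum_prod_type]
  have h5 : ∀ z x y u : V, (∑ v : V, if G.Adj z x ∧ (G.Adj z y ∧ y ≠ x) ∧ (G.Adj x u ∧ u ≠ z) ∧
      (G.Adj y v ∧ v ≠ z) then 1 else 0) =
      if G.Adj z x ∧ (G.Adj z y ∧ y ≠ x) ∧ (G.Adj x u ∧ u ≠ z) then 3 else 0 := by
    intro z x y u
    by_cases h : G.Adj z x ∧ (G.Adj z y ∧ y ≠ x) ∧ (G.Adj x u ∧ u ≠ z)
    · rw [if_pos h, ← levelB_nbr_ne G hG y z h.2.1.1.symm, card_filter]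
      apply sum_congr rfl
      intro v _
      congr 1
      have := h.1
      have := h.2.1
      have := h.2.2
      apply propext
      tauto
    · rw [if_neg h]
      apply sum_eq_zero
      intro v _
      rw [if_neg]
      tauto
  have h4 : ∀ z x y : V, (∑ u : V, if G.Adj z x ∧ (G.Adj z y ∧ y ≠ x) ∧ (G.Adj x u ∧ u ≠ z) then 3
      else 0) = if G.Adj z x ∧ (G.Adj z y ∧ y ≠ x) then 9 else 0 := by
    intro z x y
    by_cases h : G.Adj z x ∧ (G.Adj z y ∧ y ≠ x)
    · rw [if_pos h]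
      have e1 : (9 : ℕ) = (univ.filter fun u => G.Adj x u ∧ u ≠ z).card * 3 := by
        rw [levelB_nbr_ne G hG x z h.1.symm]
      rw [e1, card_filter, sum_mul]
      apply sum_congr rfl
      intro u _
      by_cases hu : G.Adj x u ∧ u ≠ z
      · rw [if_pos hu, if_pos (by tauto), one_mul]
      · rw [if_neg hu, if_neg (by tauto), zero_mul]
    · rw [if_neg h]
      apply sum_eq_zero
      intro u _
      rw [if_neg]
      tauto
  have h3 : ∀ z x : V, (∑ y : V, if G.Adj z x ∧ (G.Adj z y ∧ y ≠ x) then 9 else 0) =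
      if G.Adj z x then 27 else 0 := by
    intro z x
    by_cases h : G.Adj z x
    · rw [if_pos h]
      have e1 : (27 : ℕ) = (univ.filter fun u => G.Adj z u ∧ u ≠ x).card * 9 := by
        rw [levelB_nbr_ne G hG z x h]
      rw [e1, card_filter, sum_mul]
      apply sum_congr rfl
      intro u _
      by_cases hu : G.Adj z u ∧ u ≠ x
      · rw [if_pos hu, if_pos (by tauto), one_mul]
      · rw [if_neg hu, if_neg (by tauto), zero_mul]
    · rw [if_neg h]
      apply sum_eq_zero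
      intro u _
      rw [if_neg]
      tauto
  have h2 : ∀ z : V, (∑ x : V, if G.Adj z x then 27 else 0) = 108 := by
    intro z
    have e1 : (108 : ℕ) = (univ.filter fun u => G.Adj z u).card * 27 := by
      rw [levelB_nbr G hG z]
    rw [e1, card_filter, sum_mul]
    apply sum_congr rfl
    intro u _
    by_cases hu : G.Adj z u
    · rw [if_pos hu, if_pos hu, one_mul]
    · rw [if_neg hu, if_neg hu, zero_mul]
  simp only [h5, h4, h3, h2]
  rw [sum_const, smul_eq_mul, card_univ, mul_comm]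

open scoped Classical in
/-- PP-18. The number of good tuples is at least 108 |V| minus a constant times the numbers of short cycles.
Proof: the tuples (z, x, y, u, v) with x ≠ y ∈ N(z), u ∈ N(x) \ {z}, v ∈ N(y) \ {z} are exactly |V| * 4*3 * 3*3 = 108 |V|. A tuple
which is not good: x ~ y: (z,x,y) is a labelled 3-cycle, 16 choices for u, v at most. Otherwise u = v: (z,x,u,y) is a labelled 4-cycle;
u ~ v: (z,x,u,v,y) is a labelled 5-cycle; w ~ x, u: (w,x,u) labelled 3-cycle, z, y, v at most 64 choices; same for w ~ y, v; w ≠ z, w ~ x, y: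
(z,x,w,y) labelled 4-cycle, u, v 16 choices; w ~ u, v: w = z is a triangle (w,x,u) (already counted), w = x gives v ~ x, y, v ≠ z (counted), w = y same, otherwise
(z,x,u,w,v,y) is a labelled 6-cycle. -/
theorem good_ge (G : SimpleGraph V) (hG : Reg4 G) :
    108 * Fintype.card V ≤
      (univ.filter fun p : V × V × V × V × V => GoodT G p.1 p.2.1 p.2.2.1 p.2.2.2.1 p.2.2.2.2).card +
      200 * (cyc 3 G + cyc 4 G + cyc 5 G + cyc 6 G) := by
  rw [← levelB_all G hG]
  set A := (univ.filter fun p : V × V × V × V × V => G.Adj p.1 p.2.1 ∧ (G.Adj p.1 p.2.2.1 ∧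
      p.2.2.1 ≠ p.2.1) ∧ (G.Adj p.2.1 p.2.2.2.1 ∧ p.2.2.2.1 ≠ p.1) ∧
      (G.Adj p.2.2.1 p.2.2.2.2 ∧ p.2.2.2.2 ≠ p.1)) with hA
  set D := (univ.filter fun p : V × V × V × V × V =>
    GoodT G p.1 p.2.1 p.2.2.1 p.2.2.2.1 p.2.2.2.2) with hD
  -- the exceptional sets
  let B1 : Finset (V × V × V × V × V) :=
    (levelB_ext G (levelB_ext G (levelB_cyc 3 G) (fun f => f 1)) (fun q => q.1 2)).image
      fun q => (q.1.1 0, q.1.1 1, q.1.1 2, q.1.2, q.2)
  let B2 : Finset (V × V × V × V × V) := (levelB_cyc 4 G).image fun f => (f 0, f 1, f 3, f 2, f 2)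
  let B3 : Finset (V × V × V × V × V) := (levelB_cyc 5 G).image fun f => (f 0, f 1, f 4, f 2, f 3)
  let B4 : Finset (V × V × V × V × V) :=
    (levelB_ext G (levelB_ext G (levelB_ext G (levelB_cyc 3 G) (fun f => f 1)) (fun q => q.2))
      (fun q => q.2)).image fun q => (q.1.1.2, q.1.1.1 1, q.1.2, q.1.1.1 2, q.2)
  let B5 : Finset (V × V × V × V × V) :=
    (levelB_ext G (levelB_ext G (levelB_ext G (levelB_cyc 3 G) (fun f => f 1)) (fun q => q.2))
      (fun q => q.2)).image fun q => (q.1.1.2, q.1.2, q.1.1.1 1, q.2, q.1.1.1 2)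
  let B6 : Finset (V × V × V × V × V) :=
    (levelB_ext G (levelB_ext G (levelB_cyc 4 G) (fun f => f 1)) (fun q => q.1 3)).image
      fun q => (q.1.1 0, q.1.1 1, q.1.1 3, q.1.2, q.2)
  let B7 : Finset (V × V × V × V × V) := (levelB_cyc 6 G).image fun f => (f 0, f 1, f 5, f 2, f 4)
  have c1 : B1.card ≤ 16 * cyc 3 G := by
    refine card_image_le.trans ?_
    rw [levelB_ext_card G hG, levelB_ext_card G hG, levelB_cyc_card]
    omega
  have c2 : B2.card ≤ cyc 4 G := by
    rw [← levelB_cyc_card]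
    exact card_image_le
  have c3 : B3.card ≤ cyc 5 G := by
    rw [← levelB_cyc_card]
    exact card_image_le
  have c4 : B4.card ≤ 64 * cyc 3 G := by
    refine card_image_le.trans ?_
    rw [levelB_ext_card G hG, levelB_ext_card G hG, levelB_ext_card G hG, levelB_cyc_card]
    omega
  have c5 : B5.card ≤ 64 * cyc 3 G := by
    refine card_image_le.trans ?_
    rw [levelB_ext_card G hG, levelB_ext_card G hG, levelB_ext_card G hG, levelB_cyc_card]
    omega
  have c6 : B6.card ≤ 16 * cyc 4 G := by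
    refine card_image_le.trans ?_
    rw [levelB_ext_card G hG, levelB_ext_card G hG, levelB_cyc_card]
    omega
  have c7 : B7.card ≤ cyc 6 G := by
    rw [← levelB_cyc_card]
    exact card_image_le
  have hsub : A ⊆ D ∪ (B1 ∪ (B2 ∪ (B3 ∪ (B4 ∪ (B5 ∪ (B6 ∪ B7)))))) := by
    rintro ⟨z, x, y, u, v⟩ hp
    rw [hA, mem_filter] at hp
    obtain ⟨-, hzx, ⟨hzy, hyx⟩, ⟨hxu, huz⟩, ⟨hyv, hvz⟩⟩ := hp
    simp only at hzx hzy hyx hxu huz hyv hvz
    simp only [mem_union]
    by_contra hno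
    push Not at hno
    obtain ⟨nD, n1, n2, n3, n4, n5, n6, n7⟩ := hno
    have nxy : ¬ G.Adj x y := by
      intro h
      apply n1
      refine mem_image.mpr ⟨((![z, x, y], u), v), ?_, rfl⟩
      rw [levelB_ext_mem, levelB_ext_mem]
      exact ⟨⟨levelB_mem3 G hzx h hzy.symm, hxu⟩, hyv⟩
    have uy : u ≠ y := by
      rintro rfl
      exact nxy hxu
    have vx : v ≠ x := by
      rintro rfl
      exact nxy hyv.symm
    have huv : u ≠ v := by
      rintro rfl
      apply n2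
      refine mem_image.mpr ⟨![z, x, u, y], ?_, rfl⟩
      exact levelB_mem4 G hzx hxu hyv.symm hzy.symm huz.symm hyx.symm
    have nuv : ¬ G.Adj u v := by
      intro h
      apply n3
      refine mem_image.mpr ⟨![z, x, u, v, y], ?_, rfl⟩
      exact levelB_mem5 G hzx hxu h hyv.symm hzy.symm huz.symm hvz.symm vx.symm hyx.symm uy
    have txu : ∀ w, ¬ (G.Adj w x ∧ G.Adj w u) := by
      rintro w ⟨h1, h2⟩
      apply n4
      refine mem_image.mpr ⟨(((![w, x, u], z), y), v), ?_, rfl⟩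
      rw [levelB_ext_mem, levelB_ext_mem, levelB_ext_mem]
      exact ⟨⟨⟨levelB_mem3 G h1 hxu h2.symm, hzx.symm⟩, hzy⟩, hyv⟩
    have tyv : ∀ w, ¬ (G.Adj w y ∧ G.Adj w v) := by
      rintro w ⟨h1, h2⟩
      apply n5
      refine mem_image.mpr ⟨(((![w, y, v], z), x), u), ?_, rfl⟩
      rw [levelB_ext_mem, levelB_ext_mem, levelB_ext_mem]
      exact ⟨⟨⟨levelB_mem3 G h1 hyv h2.symm, hzy.symm⟩, hzx⟩, hxu⟩
    have txy : ∀ w, w ≠ z → ¬ (G.Adj w x ∧ G.Adj w y) := by
      rintro w hw ⟨h1, h2⟩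
      apply n6
      refine mem_image.mpr ⟨((![z, x, w, y], u), v), ?_, rfl⟩
      rw [levelB_ext_mem, levelB_ext_mem]
      exact ⟨⟨levelB_mem4 G hzx h1.symm h2 hzy.symm hw.symm hyx.symm, hxu⟩, hyv⟩
    have tuv : ∀ w, ¬ (G.Adj w u ∧ G.Adj w v) := by
      rintro w ⟨h1, h2⟩
      have hwz : w ≠ z := by
        rintro rfl
        exact txu w ⟨hzx, h1⟩
      have hwx : w ≠ x := by
        rintro rfl
        exact txy v hvz ⟨h2.symm, hyv.symm⟩
      have hwy : w ≠ y := by
        rintro rfl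
        exact txy u huz ⟨hxu.symm, h1.symm⟩
      apply n7
      refine mem_image.mpr ⟨![z, x, u, w, v, y], ?_, rfl⟩
      exact levelB_mem6 G hzx hxu h1.symm h2 hyv.symm hzy.symm huz.symm hwz.symm hvz.symm hwx.symm
        vx.symm hyx.symm huv uy hwy
    apply nD
    rw [hD, mem_filter]
    exact ⟨mem_univ _, ⟨hzx, hzy, hyx.symm, hxu, hyv, huz, hvz, nxy, huv, nuv, txu, tyv, txy, tuv⟩⟩
  have h1 := card_le_card hsub
  have u1 := card_union_le D (B1 ∪ (B2 ∪ (B3 ∪ (B4 ∪ (B5 ∪ (B6 ∪ B7))))))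
  have u2 := card_union_le B1 (B2 ∪ (B3 ∪ (B4 ∪ (B5 ∪ (B6 ∪ B7)))))
  have u3 := card_union_le B2 (B3 ∪ (B4 ∪ (B5 ∪ (B6 ∪ B7))))
  have u4 := card_union_le B3 (B4 ∪ (B5 ∪ (B6 ∪ B7)))
  have u5 := card_union_le B4 (B5 ∪ (B6 ∪ B7))
  have u6 := card_union_le B5 (B6 ∪ B7)
  have u7 := card_union_le B6 B7
  omega

end MP06b
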