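import Pool.Agent.Lib.MP_06b34c_co.PPLevelB
import Pool.Agent.Lib.MP_06b34c_co.PPCyc

namespace MP06b
open Finset

/-- ordered triples with given underlying set -/
theorem levelC_fiber {V : Type*} [DecidableEq V] [Fintype V] (s : Finset V) (hs : s.card = 3) :
    (univ.filter fun p : V × V × V => p.1 ≠ p.2.1 ∧ p.2.1 ≠ p.2.2 ∧ p.1 ≠ p.2.2 ∧
      ({p.1, p.2.1, p.2.2} : Finset V) = s).card ≤ 6 := by
  obtain ⟨a, b, c, hab, hac, hbc, rfl⟩ := card_eq_three.mp hs
  have hsub : (univ.filter fun p : V × V × V => p.1 ≠ p.2.1 ∧ p.2.1 ≠ p.2.2 ∧ p.1 ≠ p.2.2 ∧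
      ({p.1, p.2.1, p.2.2} : Finset V) = {a, b, c}) ⊆
      {(a, b, c), (a, c, b), (b, a, c), (b, c, a), (c, a, b), (c, b, a)} := by
    rintro ⟨x, y, z⟩ hp
    rw [mem_filter] at hp
    obtain ⟨-, h1, h2, h3, h4⟩ := hp
    simp only at h1 h2 h3 h4
    have hx : x ∈ ({a, b, c} : Finset V) := by rw [← h4]; simp
    have hy : y ∈ ({a, b, c} : Finset V) := by rw [← h4]; simp
    have hz : z ∈ ({a, b, c} : Finset V) := by rw [← h4]; simp
    simp only [mem_insert, mem_singleton] at hx hy hz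
    rcases hx with rfl | rfl | rfl <;> rcases hy with rfl | rfl | rfl <;>
      rcases hz with rfl | rfl | rfl <;> simp_all
  exact (card_le_card hsub).trans card_le_six

open scoped Classical in
/-- number of labelled triangles -/
theorem levelC_tri {V : Type*} [DecidableEq V] [Fintype V] (G : SimpleGraph V) :
    (univ.filter fun p : V × V × V => G.Adj p.1 p.2.1 ∧ G.Adj p.1 p.2.2 ∧ G.Adj p.2.1 p.2.2).card ≤
      6 * tri G := by
  have h0 : ∀ p ∈ (univ.filter fun p : V × V × V => G.Adj p.1 p.2.1 ∧ G.Adj p.1 p.2.2 ∧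
      G.Adj p.2.1 p.2.2), ({p.1, p.2.1, p.2.2} : Finset V) ∈ G.cliqueFinset 3 := by
    rintro ⟨x, y, z⟩ hp
    rw [mem_filter] at hp
    obtain ⟨-, h1, h2, h3⟩ := hp
    rw [SimpleGraph.mem_cliqueFinset_iff, SimpleGraph.is3Clique_triple_iff]
    exact ⟨h1, h2, h3⟩
  refine card_le_mul_card_image_of_maps_to
    (f := fun p : V × V × V => ({p.1, p.2.1, p.2.2} : Finset V)) h0 6 ?_
  intro s hs
  rw [SimpleGraph.mem_cliqueFinset_iff] at hs
  refine (card_le_card ?_).trans (levelC_fiber s hs.card_eq)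
  rintro ⟨x, y, z⟩ hp
  rw [mem_filter, mem_filter] at hp
  obtain ⟨⟨-, h1, h2, h3⟩, h4⟩ := hp
  rw [mem_filter]
  exact ⟨mem_univ _, h1.ne, h3.ne, h2.ne, h4⟩

open scoped Classical in
theorem levelC_dart {V : Type*} [DecidableEq V] [Fintype V] (G : SimpleGraph V) (hG : Reg4 G) :
    (univ.filter fun p : V × V => G.Adj p.1 p.2).card = 4 * Fintype.card V := by
  rw [card_filter, Fintype.sum_prod_type]
  have h1 : ∀ x : V, (∑ y : V, if G.Adj x y then 1 else 0) = 4 := by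
    intro x
    rw [← card_filter]
    exact levelB_nbr G hG x
  simp only [h1]
  rw [sum_const, smul_eq_mul, card_univ, mul_comm]

open scoped Classical in
theorem levelC_count {V : Type*} [DecidableEq V] [Fintype V] (G : SimpleGraph V) (hG : Reg4 G) :
    (univ.filter fun p : V × V × V × V × V => G.Adj p.1 p.2.1 ∧ G.Adj p.1 p.2.2.1 ∧
      G.Adj p.2.1 p.2.2.1 ∧ G.Adj p.2.2.2.1 p.2.2.2.2).card ≤
      6 * tri G * (4 * Fintype.card V) := by
  have h1 : (univ.filter fun p : V × V × V × V × V => G.Adj p.1 p.2.1 ∧ G.Adj p.1 p.2.2.1 ∧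
      G.Adj p.2.1 p.2.2.1 ∧ G.Adj p.2.2.2.1 p.2.2.2.2).card ≤
      ((univ.filter fun p : V × V × V => G.Adj p.1 p.2.1 ∧ G.Adj p.1 p.2.2 ∧ G.Adj p.2.1 p.2.2) ×ˢ
        (univ.filter fun p : V × V => G.Adj p.1 p.2)).card := by
    apply card_le_card_of_injOn (fun p => ((p.1, p.2.1, p.2.2.1), (p.2.2.2.1, p.2.2.2.2)))
    · rintro ⟨z, x, y, u, v⟩ hp
      rw [mem_coe, mem_filter] at hp
      obtain ⟨-, a1, a2, a3, a4⟩ := hp
      rw [mem_coe, mem_product, mem_filter, mem_filter]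
      exact ⟨⟨mem_univ _, a1, a2, a3⟩, mem_univ _, a4⟩
    · rintro ⟨z, x, y, u, v⟩ _ ⟨z', x', y', u', v'⟩ _ h
      simp only [Prod.mk.injEq] at h
      obtain ⟨⟨h1, h2, h3⟩, h4, h5⟩ := h
      rw [h1, h2, h3, h4, h5]
  refine h1.trans ?_
  rw [card_product, levelC_dart G hG]
  exact Nat.mul_le_mul_right _ (levelC_tri G)

open scoped Classical in
/-- PP-19. Proof: count pairs (G, p), G ∈ Xn n k, p a good tuple. By `good_ge` and `sum_cyc` (8^3 + 8^4 + 8^5 + 8^6 = 299520; Xn n k ⊆ Gn n) there are at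
least 108 n |Xn n k| - 200 * 299520 |Gn n|. The map (G, p) ↦ (sw G x u y v, p) is injective (`sw_good_reg4`), its image lies in the pairs (G', p) with
G' ∈ Xn n (k+1) (`sw_tri`), {x, y, z} a 3-clique of G' and u ~ v in G': for each G' at most 6 (k+1) * 4n tuples. -/
theorem level_ineq (n k : ℕ) (hn : 31 ≤ n) :
    108 * n * (Xn n k).card ≤ 24 * n * (k + 1) * (Xn n (k + 1)).card + 60000000 * (Gn n).card := by
  -- good pairs
  set T : Finset (SimpleGraph (Fin n) × (Fin n × Fin n × Fin n × Fin n × Fin n)) :=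
    ((Xn n k) ×ˢ univ).filter fun q =>
      GoodT q.1 q.2.1 q.2.2.1 q.2.2.2.1 q.2.2.2.2.1 q.2.2.2.2.2 with hT
  set T' : Finset (SimpleGraph (Fin n) × (Fin n × Fin n × Fin n × Fin n × Fin n)) :=
    ((Xn n (k + 1)) ×ˢ univ).filter fun q => q.1.Adj q.2.1 q.2.2.1 ∧ q.1.Adj q.2.1 q.2.2.2.1 ∧
      q.1.Adj q.2.2.1 q.2.2.2.1 ∧ q.1.Adj q.2.2.2.2.1 q.2.2.2.2.2 with hT'
  have hXG : ∀ k, ∀ G ∈ Xn n k, Reg4 G ∧ tri G = k := by
    intro k G hG
    unfold Xn at hG
    rw [mem_filter] at hG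
    exact hG.2
  have hXsub : Xn n k ⊆ Gn n := by
    intro G hG
    unfold Gn
    rw [mem_filter]
    exact ⟨mem_univ _, (hXG k G hG).1⟩
  have hTcard : T.card = ∑ G ∈ Xn n k, (univ.filter fun p : Fin n × Fin n × Fin n × Fin n × Fin n =>
      GoodT G p.1 p.2.1 p.2.2.1 p.2.2.2.1 p.2.2.2.2).card := by
    rw [hT, card_filter, sum_product]
    apply sum_congr rfl
    intro G _
    rw [card_filter]
  have h1 : 108 * n * (Xn n k).card ≤ T.card + 200 * (∑ G ∈ Gn n, cyc 3 G + ∑ G ∈ Gn n, cyc 4 G +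
      ∑ G ∈ Gn n, cyc 5 G + ∑ G ∈ Gn n, cyc 6 G) := by
    have h2 : ∑ G ∈ Xn n k, 108 * n ≤ ∑ G ∈ Xn n k,
        ((univ.filter fun p : Fin n × Fin n × Fin n × Fin n × Fin n =>
          GoodT G p.1 p.2.1 p.2.2.1 p.2.2.2.1 p.2.2.2.2).card +
        200 * (cyc 3 G + cyc 4 G + cyc 5 G + cyc 6 G)) := by
      apply sum_le_sum
      intro G hG
      have h3 := good_ge G (hXG k G hG).1
      rw [Fintype.card_fin] at h3
      exact h3
    rw [sum_const, smul_eq_mul, sum_add_distrib, ← hTcard] at h2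
    have h3 : ∑ G ∈ Xn n k, 200 * (cyc 3 G + cyc 4 G + cyc 5 G + cyc 6 G) ≤
        200 * (∑ G ∈ Gn n, cyc 3 G + ∑ G ∈ Gn n, cyc 4 G +
          ∑ G ∈ Gn n, cyc 5 G + ∑ G ∈ Gn n, cyc 6 G) := by
      rw [← sum_add_distrib, ← sum_add_distrib, ← sum_add_distrib, mul_sum]
      exact sum_le_sum_of_subset hXsub
    calc 108 * n * (Xn n k).card = (Xn n k).card * (108 * n) := mul_comm _ _
      _ ≤ T.card + ∑ G ∈ Xn n k, 200 * (cyc 3 G + cyc 4 G + cyc 5 G + cyc 6 G) := h2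
      _ ≤ _ := Nat.add_le_add_left h3 _
  have h2 : T.card ≤ T'.card := by
    apply card_le_card_of_injOn
      (fun q => (sw q.1 q.2.2.1 q.2.2.2.2.1 q.2.2.2.1 q.2.2.2.2.2, q.2))
    · rintro ⟨G, z, x, y, u, v⟩ hq
      rw [mem_coe, hT, mem_filter, mem_product] at hq
      obtain ⟨⟨hG, -⟩, hgood⟩ := hq
      simp only at hG hgood
      obtain ⟨hreg, htri⟩ := hXG k G hG
      obtain ⟨a1, a2, a3, a4, a5, a6⟩ := sw_good_reg4 G hreg z x y u v hgood
      rw [mem_coe, hT', mem_filter, mem_product]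
      refine ⟨⟨?_, mem_univ _⟩, a3, a4, a5, a6⟩
      unfold Xn
      rw [mem_filter]
      refine ⟨mem_univ _, a1, ?_⟩
      rw [sw_tri G z x y u v hgood, htri]
    · rintro ⟨G, z, x, y, u, v⟩ hq ⟨G', z', x', y', u', v'⟩ hq' h
      rw [mem_coe, hT, mem_filter, mem_product] at hq hq'
      simp only [Prod.mk.injEq] at h
      obtain ⟨h1, rfl, rfl, rfl, rfl, rfl⟩ := h
      have e1 := (sw_good_reg4 G (hXG k G hq.1.1).1 z x y u v hq.2).2.1
      have e2 := (sw_good_reg4 G' (hXG k G' hq'.1.1).1 z x y u v hq'.2).2.1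
      rw [h1] at e1
      rw [← e1, e2]
  have h3 : T'.card ≤ 24 * n * (k + 1) * (Xn n (k + 1)).card := by
    have e1 : T'.card = ∑ G ∈ Xn n (k + 1),
        (univ.filter fun p : Fin n × Fin n × Fin n × Fin n × Fin n => G.Adj p.1 p.2.1 ∧
          G.Adj p.1 p.2.2.1 ∧ G.Adj p.2.1 p.2.2.1 ∧ G.Adj p.2.2.2.1 p.2.2.2.2).card := by
      rw [hT', card_filter, sum_product]
      apply sum_congr rfl
      intro G _
      rw [card_filter]
    rw [e1]
    calc _ ≤ ∑ G ∈ Xn n (k + 1), 24 * n * (k + 1) := by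
          apply sum_le_sum
          intro G hG
          obtain ⟨hreg, htri⟩ := hXG (k + 1) G hG
          refine (levelC_count G hreg).trans ?_
          rw [htri, Fintype.card_fin]
          apply le_of_eq
          ring
      _ = _ := by rw [sum_const, smul_eq_mul, mul_comm]
  have s3 := sum_cyc n 3 hn (by norm_num) (by norm_num)
  have s4 := sum_cyc n 4 hn (by norm_num) (by norm_num)
  have s5 := sum_cyc n 5 hn (by norm_num) (by norm_num)
  have s6 := sum_cyc n 6 hn (by norm_num) (by norm_num)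
  norm_num at s3 s4 s5 s6
  omega

end MP06b
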