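import Pool.Agent.Lib.MP_06b34c_co.PPSwitch

namespace MP06b
open Finset

section counts

open scoped Classical in
theorem nf_nb_card {n : ℕ} {G : SimpleGraph (Fin n)} (hG : Reg4 G) (a : Fin n) :
    (univ.filter fun b => G.Adj a b).card = 4 := by
  rw [← hG a, ← Set.ncard_coe_finset]
  congr 1
  ext w
  simp

open scoped Classical in
theorem nf_fst {n : ℕ} {G : SimpleGraph (Fin n)} (hG : Reg4 G) (S : Finset (Fin n)) :
    (univ.filter fun p : Fin n × Fin n => p.1 ∈ S ∧ G.Adj p.1 p.2).card ≤ 4 * S.card := by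
  apply Finset.card_le_mul_card_image_of_maps_to (f := fun p => p.1)
  · intro p hp
    simp only [Finset.mem_filter, Finset.mem_univ, true_and] at hp
    exact hp.1
  · intro a _
    rw [← nf_nb_card hG a]
    apply Finset.card_le_card_of_injOn (fun p => p.2)
    · intro p hp
      simp only [Finset.coe_filter, Finset.mem_filter, Finset.mem_univ, true_and,
        Set.mem_ofPred_eq] at hp ⊢
      rw [← hp.2]
      exact hp.1.2
    · intro p hp p' hp' h
      simp only [Finset.coe_filter, Finset.mem_filter, Finset.mem_univ, true_and,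
        Set.mem_ofPred_eq] at hp hp'
      exact Prod.ext (hp.2.trans hp'.2.symm) h

open scoped Classical in
theorem nf_snd {n : ℕ} {G : SimpleGraph (Fin n)} (hG : Reg4 G) (S : Finset (Fin n)) :
    (univ.filter fun p : Fin n × Fin n => p.2 ∈ S ∧ G.Adj p.1 p.2).card ≤ 4 * S.card := by
  apply Finset.card_le_mul_card_image_of_maps_to (f := fun p => p.2)
  · intro p hp
    simp only [Finset.mem_filter, Finset.mem_univ, true_and] at hp
    exact hp.1
  · intro a _
    rw [← nf_nb_card hG a]
    apply Finset.card_le_card_of_injOn (fun p => p.1)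
    · intro p hp
      simp only [Finset.coe_filter, Finset.mem_filter, Finset.mem_univ, true_and,
        Set.mem_ofPred_eq] at hp ⊢
      rw [← hp.2]
      exact hp.1.2.symm
    · intro p hp p' hp' h
      simp only [Finset.coe_filter, Finset.mem_filter, Finset.mem_univ, true_and,
        Set.mem_ofPred_eq] at hp hp'
      exact Prod.ext h (hp.2.trans hp'.2.symm)

open scoped Classical in
theorem nf_sym {n : ℕ} (F : Finset (Sym2 (Fin n))) :
    (univ.filter fun p : Fin n × Fin n => s(p.1, p.2) ∈ F).card ≤ 2 * F.card := by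
  apply Finset.card_le_mul_card_image_of_maps_to (f := fun p => s(p.1, p.2))
  · intro p hp
    simp only [Finset.mem_filter, Finset.mem_univ, true_and] at hp
    exact hp
  · intro e _
    induction e using Sym2.ind with
    | _ x y =>
      refine le_trans (Finset.card_le_card (t := {(x, y), (y, x)}) ?_) Finset.card_le_two
      intro p hp
      simp only [Finset.mem_filter, Finset.mem_univ, true_and, Sym2.eq_iff] at hp
      rw [Finset.mem_insert, Finset.mem_singleton]
      rcases hp.2 with h | h
      · left; exact Prod.ext h.1 h.2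
      · right; exact Prod.ext h.1 h.2

open scoped Classical in
theorem nf_total {n : ℕ} {G : SimpleGraph (Fin n)} (hG : Reg4 G) :
    (univ.filter fun p : Fin n × Fin n => G.Adj p.1 p.2).card = 4 * n := by
  rw [Finset.card_filter, Fintype.sum_prod_type]
  have : ∀ a : Fin n, (∑ b : Fin n, if G.Adj (a, b).1 (a, b).2 then 1 else 0) = 4 := by
    intro a
    rw [← Finset.card_filter]
    exact nf_nb_card hG a
  rw [Finset.sum_congr rfl fun a _ => this a, Finset.sum_const, Finset.card_univ,
    Fintype.card_fin, smul_eq_mul, mul_comm]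

/-- the pairs used in the switching -/
def NFgood {n : ℕ} (F : Finset (Sym2 (Fin n))) (u v : Fin n) (G : SimpleGraph (Fin n))
    (a b : Fin n) : Prop :=
  G.Adj a b ∧ s(a, b) ∉ F ∧ a ≠ u ∧ a ≠ v ∧ b ≠ u ∧ b ≠ v ∧ ¬ G.Adj u a ∧ ¬ G.Adj v b

open scoped Classical in
theorem nf_good_ge {n : ℕ} (F : Finset (Sym2 (Fin n))) (hn : F.card + 25 ≤ n) (u v : Fin n)
    {G : SimpleGraph (Fin n)} (hG : Reg4 G) :
    2 * n ≤ (univ.filter fun p : Fin n × Fin n => NFgood F u v G p.1 p.2).card := by
  set A : Finset (Fin n) := {u, v} ∪ univ.filter fun b => G.Adj u b with hA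
  set B : Finset (Fin n) := {u, v} ∪ univ.filter fun b => G.Adj v b with hB
  have hAc : A.card ≤ 6 := by
    refine (Finset.card_union_le _ _).trans ?_
    rw [nf_nb_card hG u]
    have := Finset.card_le_two (a := u) (b := v)
    omega
  have hBc : B.card ≤ 6 := by
    refine (Finset.card_union_le _ _).trans ?_
    rw [nf_nb_card hG v]
    have := Finset.card_le_two (a := u) (b := v)
    omega
  have hsub : (univ.filter fun p : Fin n × Fin n => G.Adj p.1 p.2) ⊆
      ((univ.filter fun p : Fin n × Fin n => NFgood F u v G p.1 p.2) ∪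
        (univ.filter fun p : Fin n × Fin n => s(p.1, p.2) ∈ F)) ∪
      ((univ.filter fun p : Fin n × Fin n => p.1 ∈ A ∧ G.Adj p.1 p.2) ∪
        (univ.filter fun p : Fin n × Fin n => p.2 ∈ B ∧ G.Adj p.1 p.2)) := by
    rintro ⟨a, b⟩ hp
    simp only [Finset.mem_filter, Finset.mem_univ, true_and] at hp
    simp only [Finset.mem_union, Finset.mem_filter, Finset.mem_univ, true_and, hA, hB,
      Finset.mem_insert, Finset.mem_singleton]
    by_cases h1 : s(a, b) ∈ F
    · exact Or.inl (Or.inr h1)
    by_cases h2 : (a = u ∨ a = v) ∨ G.Adj u a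
    · exact Or.inr (Or.inl ⟨h2, hp⟩)
    by_cases h3 : (b = u ∨ b = v) ∨ G.Adj v b
    · exact Or.inr (Or.inr ⟨h3, hp⟩)
    push Not at h2 h3
    refine Or.inl (Or.inl ?_)
    unfold NFgood
    exact ⟨hp, h1, h2.1.1, h2.1.2, h3.1.1, h3.1.2, h2.2, h3.2⟩
  have hc := Finset.card_le_card hsub
  have h1 := Finset.card_union_le
    ((univ.filter fun p : Fin n × Fin n => NFgood F u v G p.1 p.2) ∪
        (univ.filter fun p : Fin n × Fin n => s(p.1, p.2) ∈ F))
    ((univ.filter fun p : Fin n × Fin n => p.1 ∈ A ∧ G.Adj p.1 p.2) ∪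
        (univ.filter fun p : Fin n × Fin n => p.2 ∈ B ∧ G.Adj p.1 p.2))
  have h2 := Finset.card_union_le
    (univ.filter fun p : Fin n × Fin n => NFgood F u v G p.1 p.2)
    (univ.filter fun p : Fin n × Fin n => s(p.1, p.2) ∈ F)
  have h3 := Finset.card_union_le
    (univ.filter fun p : Fin n × Fin n => p.1 ∈ A ∧ G.Adj p.1 p.2)
    (univ.filter fun p : Fin n × Fin n => p.2 ∈ B ∧ G.Adj p.1 p.2)
  have h4 := nf_total hG
  have h5 := nf_sym F
  have h6 := nf_fst hG A
  have h7 := nf_snd hG B
  omega

end counts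

open scoped Classical in
/-- the graphs counted by `NF` -/
theorem nf_mem {n : ℕ} (F : Finset (Sym2 (Fin n))) (G : SimpleGraph (Fin n)) :
    G ∈ ((Gn n).filter fun G => (F : Set (Sym2 (Fin n))) ⊆ G.edgeSet) ↔
      Reg4 G ∧ ∀ e ∈ F, e ∈ G.edgeSet := by
  simp only [Gn, Finset.mem_filter, Finset.mem_univ, true_and, Set.subset_def, Finset.mem_coe]

/-- PP-14. Proof: let e = s(u,v). For G ∈ Gn n containing F and e consider the ordered pairs (a, b) with a ~ b in G, s(a,b) ∉ F, a, b ∉ {u, v},
a not adjacent to u, b not adjacent to v. There are at least 4n - 2|F| - 16 - 16 - 16 ≥ 2n of them (4n ordered adjacent pairs;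
subtract pairs in F: 2|F|; with a or b in {u, v}: 16; a ~ u: 4*4; b ~ v: 4*4). G' = sw G u v a b is 4-regular (`sw_reg4`), contains F (e ∉ F, s(a,b) ∉ F), and
(G, a, b) is determined by (G', a, b) (`sw_sw`), where a ~ u, b ~ v in G', at most 16 pairs. So 2n * NF(F + e) ≤ 16 * NF F. -/
theorem NF_insert {n : ℕ} (F : Finset (Sym2 (Fin n))) (hn : F.card + 25 ≤ n) (u v : Fin n) (huv : u ≠ v)
    (he : s(u, v) ∉ F) : n * NF (insert s(u, v) F) ≤ 8 * NF F := by
  classical
  set P : Finset (SimpleGraph (Fin n) × (Fin n × Fin n)) := univ.filter fun q =>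
    (Reg4 q.1 ∧ ∀ e ∈ insert s(u, v) F, e ∈ q.1.edgeSet) ∧ NFgood F u v q.1 q.2.1 q.2.2 with hP
  have hPmem : ∀ q, q ∈ P ↔ (Reg4 q.1 ∧ ∀ e ∈ insert s(u, v) F, e ∈ q.1.edgeSet) ∧
      NFgood F u v q.1 q.2.1 q.2.2 := by
    intro q
    simp only [hP, Finset.mem_filter, Finset.mem_univ, true_and]
  -- lower bound
  have hlow : 2 * n * NF (insert s(u, v) F) ≤ P.card := by
    unfold NF
    apply Finset.mul_card_image_le_card_of_maps_to (f := fun q => q.1)
    · intro q hq
      rw [hPmem] at hq
      exact (nf_mem _ _).2 hq.1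
    · intro G hG
      have hG' := (nf_mem _ _).1 hG
      refine (nf_good_ge F hn u v hG'.1).trans ?_
      apply Finset.card_le_card_of_injOn (fun p => (G, p))
      · intro p hp
        simp only [Finset.coe_filter, Finset.mem_univ, true_and, Set.mem_ofPred_eq] at hp
        simp only [Finset.coe_filter, Set.mem_ofPred_eq]
        exact ⟨(hPmem _).2 ⟨hG', hp⟩, trivial⟩
      · intro p _ p' _ h
        exact (Prod.mk.inj h).2
  -- upper bound
  have hup : P.card ≤ 16 * NF F := by
    unfold NF
    apply Finset.card_le_mul_card_image_of_maps_to (f := fun q => sw q.1 u v q.2.1 q.2.2)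
    · rintro ⟨G, a, b⟩ hq
      rw [hPmem] at hq
      obtain ⟨⟨hG, hF⟩, hab, habF, hau, hav, hbu, hbv, nua, nvb⟩ := hq
      simp only at hG hF hab habF hau hav hbu hbv nua nvb
      have hadj : G.Adj u v := by
        have := hF s(u, v) (Finset.mem_insert_self _ _)
        rwa [SimpleGraph.mem_edgeSet] at this
      refine (nf_mem _ _).2 ⟨sw_reg4 G hG u v a b hadj hab hau.symm hbv.symm hbu.symm hav.symm nua
        nvb, ?_⟩
      intro e heF
      have heG := hF e (Finset.mem_insert_of_mem heF)
      induction e using Sym2.ind with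
      | _ x y =>
        rw [SimpleGraph.mem_edgeSet] at heG ⊢
        rw [sw_adj]
        left
        refine ⟨heG, ?_, ?_⟩
        · intro h; rw [h] at heF; exact he heF
        · intro h; rw [h] at heF; exact habF heF
    · intro G' hG'
      have hreg := ((nf_mem _ _).1 hG').1
      have h16 : ((univ.filter fun b => G'.Adj u b) ×ˢ (univ.filter fun b => G'.Adj v b)).card =
          16 := by
        rw [Finset.card_product, nf_nb_card hreg, nf_nb_card hreg]
      rw [← h16]
      have hinfo : ∀ q : SimpleGraph (Fin n) × (Fin n × Fin n), q ∈ P →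
          sw q.1 u v q.2.1 q.2.2 = G' →
          (G'.Adj u q.2.1 ∧ G'.Adj v q.2.2) ∧ sw G' u q.2.1 v q.2.2 = q.1 := by
        rintro ⟨G, a, b⟩ hq hsw
        rw [hPmem] at hq
        obtain ⟨⟨hG, hF⟩, hab, habF, hau, hav, hbu, hbv, nua, nvb⟩ := hq
        simp only at hG hF hab habF hau hav hbu hbv nua nvb hsw ⊢
        have hadj : G.Adj u v := by
          have := hF s(u, v) (Finset.mem_insert_self _ _)
          rwa [SimpleGraph.mem_edgeSet] at this
        rw [← hsw]
        refine ⟨⟨?_, ?_⟩, sw_sw G u v a b hadj hab hau.symm hbv.symm hbu.symm hav.symm nua nvb⟩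
        · rw [sw_adj]
          right
          exact ⟨hau.symm, Or.inl rfl⟩
        · rw [sw_adj]
          right
          exact ⟨hbv.symm, Or.inr rfl⟩
      apply Finset.card_le_card_of_injOn (fun q => q.2)
      · intro q hq
        simp only [Finset.coe_filter, Set.mem_ofPred_eq] at hq
        obtain ⟨h1, -⟩ := hinfo q hq.1 hq.2
        simp only [Finset.coe_product, Set.mem_prod, Finset.coe_filter, Finset.mem_univ, true_and,
          Set.mem_ofPred_eq]
        exact h1
      · intro q hq q' hq' h
        simp only [Finset.coe_filter, Set.mem_ofPred_eq] at hq hq'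
        obtain ⟨-, h1⟩ := hinfo q hq.1 hq.2
        obtain ⟨-, h2⟩ := hinfo q' hq'.1 hq'.2
        have h' : q.2 = q'.2 := h
        rw [h'] at h1
        exact Prod.ext (h1.symm.trans h2) h'
  have h := hlow.trans hup
  have e1 : 2 * n * NF (insert s(u, v) F) = 2 * (n * NF (insert s(u, v) F)) := by ring
  have e2 : 16 * NF F = 2 * (8 * NF F) := by ring
  rw [e1, e2] at h
  exact Nat.le_of_mul_le_mul_left h (by norm_num)

/-- PP-14b: induction on the size of F. -/
theorem NF_pow {n : ℕ} (F : Finset (Sym2 (Fin n))) (hn : 31 ≤ n) (hF : F.card ≤ 6)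
    (hd : ∀ e ∈ F, ¬ e.IsDiag) : n ^ F.card * NF F ≤ 8 ^ F.card * (Gn n).card := by
  classical
  induction F using Finset.induction_on with
  | empty =>
    simp only [Finset.card_empty, pow_zero, one_mul]
    unfold NF
    exact Finset.card_filter_le _ _
  | insert e F heF ih =>
    rw [Finset.card_insert_of_notMem heF] at hF ⊢
    have ih' := ih (by omega) (fun e' he' => hd e' (Finset.mem_insert_of_mem he'))
    have hde := hd e (Finset.mem_insert_self _ _)
    induction e using Sym2.ind with
    | _ u v =>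
      have huv : u ≠ v := by
        intro h
        exact hde (by rw [h]; exact (Sym2.mk_isDiag_iff).2 rfl)
      have h1 := NF_insert F (by omega) u v huv heF
      calc n ^ (F.card + 1) * NF (insert s(u, v) F)
          = n ^ F.card * (n * NF (insert s(u, v) F)) := by ring
        _ ≤ n ^ F.card * (8 * NF F) := Nat.mul_le_mul_left _ h1
        _ = 8 * (n ^ F.card * NF F) := by ring
        _ ≤ 8 * (8 ^ F.card * (Gn n).card) := Nat.mul_le_mul_left _ ih'
        _ = 8 ^ (F.card + 1) * (Gn n).card := by ring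

end MP06b
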