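import Pool.Agent.Lib.MP_06b34c_co.PPLevelC

namespace MP06b
open Finset

open scoped Nat

/-- lower bounds for the level sets -/
theorem card_Xn_ge (k : ℕ) : ∃ C : ℝ, 0 ≤ C ∧ ∀ n : ℕ, 31 ≤ n →
    (9 / 2 : ℝ) ^ k / k ! * ((Xn n 0).card : ℝ) - C / n * ((Gn n).card : ℝ) ≤
      ((Xn n k).card : ℝ) := by
  induction k with
  | zero =>
    refine ⟨0, le_rfl, fun n _ => ?_⟩
    simp
  | succ k ih =>
    obtain ⟨C, hC, ih⟩ := ih
    refine ⟨(9 / 2 * C + 2500000) / (k + 1), by positivity, fun n hn => ?_⟩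
    have h := ih n hn
    have hl := level_ineq n k hn
    have hl' : (108 : ℝ) * n * ((Xn n k).card : ℝ) ≤
        24 * n * (k + 1) * ((Xn n (k + 1)).card : ℝ) + 60000000 * ((Gn n).card : ℝ) := by
      exact_mod_cast hl
    have hn0 : (0 : ℝ) < n := by
      have : 0 < n := by omega
      exact_mod_cast this
    have hk0 : (0 : ℝ) < (k : ℝ) + 1 := by positivity
    set A : ℝ := ((Xn n 0).card : ℝ)
    set N : ℝ := ((Gn n).card : ℝ)
    set X : ℝ := ((Xn n k).card : ℝ)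
    set Y : ℝ := ((Xn n (k + 1)).card : ℝ)
    -- (k+1) Y ≥ 9/2 X - 2500000 N / n
    have h1 : 9 / 2 * X - 2500000 / n * N ≤ (k + 1) * Y := by
      have h2 : 24 * n * (9 / 2 * X - 2500000 / n * N) ≤ 24 * n * ((k + 1) * Y) := by
        have e : 24 * (n : ℝ) * (9 / 2 * X - 2500000 / n * N) = 108 * n * X - 60000000 * N := by
          field_simp
          ring
        rw [e]
        linarith
      exact le_of_mul_le_mul_left h2 (by positivity)
    have h3 : 9 / 2 * ((9 / 2 : ℝ) ^ k / k ! * A - C / n * N) - 2500000 / n * N ≤ (k + 1) * Y := by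
      linarith
    have e : (9 / 2 : ℝ) ^ (k + 1) / ((k + 1)! : ℕ) * A -
        (9 / 2 * C + 2500000) / (k + 1) / n * N =
        (9 / 2 * ((9 / 2 : ℝ) ^ k / k ! * A - C / n * N) - 2500000 / n * N) / (k + 1) := by
      rw [Nat.factorial_succ]
      push_cast
      have hf : ((k ! : ℕ) : ℝ) ≠ 0 := by exact_mod_cast (Nat.factorial_ne_zero k)
      field_simp
      ring
    rw [e, div_le_iff₀ hk0]
    linarith

theorem sum_card_Xn_le (n m : ℕ) : ∑ k ∈ range m, (Xn n k).card ≤ (Gn n).card := by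
  classical
  rw [← Finset.card_biUnion]
  · apply Finset.card_le_card
    intro G hG
    obtain ⟨k, -, hk⟩ := Finset.mem_biUnion.1 hG
    simp only [Xn, Finset.mem_filter, Finset.mem_univ, true_and] at hk
    simp only [Gn, Finset.mem_filter, Finset.mem_univ, true_and]
    exact hk.1
  · intro i _ j _ hij
    rw [Function.onFun, Finset.disjoint_left]
    intro G h1 h2
    simp only [Xn, Finset.mem_filter, Finset.mem_univ, true_and] at h1 h2
    exact hij (h1.2.symm.trans h2.2)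

/-- PP-20. Proof: P_k = |Xn n k| / |Gn n| (Gn n nonempty, otherwise trivial). `level_ineq`: (k+1) P_{k+1} ≥ (9/2) P_k - C/n. By induction
P_k ≥ (9/2)^k/k! P_0 - C_k/n. Sum over k ≤ m (the Xn n k are disjoint subsets of Gn n): 1 ≥ P_0 ∑_{k ≤ m} (9/2)^k/k! - C'_m/n. Choose m with
1/∑_{k ≤ m} (9/2)^k/k! ≤ exp(-9/2) + ε/2, then n large. -/
theorem few_triangle_free (ε : ℝ) (hε : 0 < ε) : ∃ n₀ : ℕ, ∀ n ≥ n₀,
    ((Xn n 0).card : ℝ) ≤ (Real.exp (-(9 / 2)) + ε) * (Gn n).card := by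
  choose C hC hlow using card_Xn_ge
  -- partial sums of the exponential series
  have hsum : HasSum (fun k : ℕ => (9 / 2 : ℝ) ^ k / k !) (Real.exp (9 / 2)) := by
    rw [Real.exp_eq_exp_ℝ]
    exact NormedSpace.expSeries_div_hasSum_exp (9 / 2 : ℝ)
  have hten := hsum.tendsto_sum_nat
  have hinv : Filter.Tendsto (fun m : ℕ => (∑ k ∈ range m, (9 / 2 : ℝ) ^ k / k !)⁻¹)
      Filter.atTop (nhds (Real.exp (9 / 2))⁻¹) := hten.inv₀ (Real.exp_pos _).ne'
  rw [← Real.exp_neg] at hinv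
  obtain ⟨m, hm1, hm2⟩ := ((hinv.eventually (gt_mem_nhds
    (show Real.exp (-(9 / 2)) < Real.exp (-(9 / 2)) + ε / 2 by linarith))).and
    (Filter.eventually_ge_atTop 1)).exists
  set S : ℝ := ∑ k ∈ range m, (9 / 2 : ℝ) ^ k / k ! with hS
  have hS1 : 1 ≤ S := by
    have h0 : (9 / 2 : ℝ) ^ 0 / (0 ! : ℕ) ≤ S := by
      rw [hS]
      exact Finset.single_le_sum (f := fun k : ℕ => (9 / 2 : ℝ) ^ k / k !)
        (fun k _ => by positivity) (Finset.mem_range.2 (by omega))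
    simpa using h0
  have hSpos : 0 < S := by linarith
  set C' : ℝ := ∑ k ∈ range m, C k with hC'
  have hC'0 : 0 ≤ C' := Finset.sum_nonneg fun k _ => hC k
  refine ⟨max 31 (⌈2 * C' / ε⌉₊ + 1), fun n hn => ?_⟩
  have hn31 : 31 ≤ n := le_trans (le_max_left _ _) hn
  have hn2 : ⌈2 * C' / ε⌉₊ + 1 ≤ n := le_trans (le_max_right _ _) hn
  have hn0 : (0 : ℝ) < n := by
    have : 0 < n := by omega
    exact_mod_cast this
  have hnC : 2 * C' / ε ≤ n := by
    have h1 := Nat.le_ceil (2 * C' / ε)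
    have h2 : ((⌈2 * C' / ε⌉₊ : ℕ) : ℝ) ≤ n := by exact_mod_cast (by omega : ⌈2 * C' / ε⌉₊ ≤ n)
    linarith
  set A : ℝ := ((Xn n 0).card : ℝ) with hA
  set N : ℝ := ((Gn n).card : ℝ) with hN
  have hA0 : 0 ≤ A := Nat.cast_nonneg _
  have hN0 : 0 ≤ N := Nat.cast_nonneg _
  have h1 : S * A - C' / n * N ≤ N := by
    have e : S * A - C' / n * N = ∑ k ∈ range m, ((9 / 2 : ℝ) ^ k / k ! * A - C k / n * N) := by
      rw [Finset.sum_sub_distrib, ← Finset.sum_mul, ← Finset.sum_mul, ← Finset.sum_div]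
    rw [e]
    calc ∑ k ∈ range m, ((9 / 2 : ℝ) ^ k / k ! * A - C k / n * N)
        ≤ ∑ k ∈ range m, ((Xn n k).card : ℝ) := Finset.sum_le_sum fun k _ => hlow k n hn31
      _ ≤ N := by
          have := sum_card_Xn_le n m
          rw [hN]
          exact_mod_cast this
  have hcn : C' / n ≤ ε / 2 := by
    rw [div_le_iff₀ hn0]
    rw [div_le_iff₀ hε] at hnC
    linarith
  have h2 : S * A ≤ (1 + C' / n) * N := by linarith
  have h3 : A ≤ S⁻¹ * ((1 + C' / n) * N) := by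
    have h4 := mul_le_mul_of_nonneg_left h2 (inv_nonneg.2 hSpos.le)
    rwa [← mul_assoc, inv_mul_cancel₀ hSpos.ne', one_mul] at h4
  have hSinv1 : S⁻¹ ≤ 1 := inv_le_one_of_one_le₀ hS1
  have hSinv0 : 0 ≤ S⁻¹ := inv_nonneg.2 hSpos.le
  have hcn0 : 0 ≤ C' / n := by positivity
  have h5 : S⁻¹ * (1 + C' / n) ≤ Real.exp (-(9 / 2)) + ε := by
    have h6 : S⁻¹ * (C' / n) ≤ ε / 2 := by
      calc S⁻¹ * (C' / n) ≤ 1 * (C' / n) := mul_le_mul_of_nonneg_right hSinv1 hcn0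
        _ ≤ ε / 2 := by rw [one_mul]; exact hcn
    have : S⁻¹ * (1 + C' / n) = S⁻¹ + S⁻¹ * (C' / n) := by ring
    rw [this]
    linarith
  calc A ≤ S⁻¹ * ((1 + C' / n) * N) := h3
    _ = (S⁻¹ * (1 + C' / n)) * N := by ring
    _ ≤ (Real.exp (-(9 / 2)) + ε) * N := mul_le_mul_of_nonneg_right h5 hN0

end MP06b
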