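import Pool.Agent.Lib.MP_06b34c_co.PPDefs

namespace MP06b
open Finset

variable {V : Type*} [Fintype V] [DecidableEq V]

/-- PP-13a: adjacency after switching -/
theorem sw_adj (G : SimpleGraph V) (x u y v a b : V) :
    (sw G x u y v).Adj a b ↔ (G.Adj a b ∧ s(a, b) ≠ s(x, u) ∧ s(a, b) ≠ s(y, v)) ∨
      (a ≠ b ∧ (s(a, b) = s(x, y) ∨ s(a, b) = s(u, v))) := by
  have h1 : ∀ c d : V, (SimpleGraph.edge c d).Adj a b ↔ s(a, b) = s(c, d) ∧ a ≠ b := by
    intro c d
    rw [SimpleGraph.edge, SimpleGraph.fromEdgeSet_adj, Set.mem_singleton_iff]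
  have h2 : G.Adj a b → a ≠ b := fun h => h.ne
  simp only [sw, SimpleGraph.sup_adj, SimpleGraph.sdiff_adj, h1]
  constructor
  · rintro (⟨h3, h4⟩ | h3)
    · left
      refine ⟨h3, fun h5 => h4 (Or.inl ⟨h5, h2 h3⟩), fun h5 => h4 (Or.inr ⟨h5, h2 h3⟩)⟩
    · right
      rcases h3 with h3 | h3
      · exact ⟨h3.2, Or.inl h3.1⟩
      · exact ⟨h3.2, Or.inr h3.1⟩
  · rintro (⟨h3, h4, h5⟩ | ⟨h3, h4 | h4⟩)
    · left
      refine ⟨h3, ?_⟩
      rintro (h6 | h6)
      · exact h4 h6.1
      · exact h5 h6.1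
    · exact Or.inr (Or.inl ⟨h4, h3⟩)
    · exact Or.inr (Or.inr ⟨h4, h3⟩)

private theorem PPSwitch_symm1 (G : SimpleGraph V) (x u y v : V) :
    sw G x u y v = sw G u x v y := by
  ext a b
  rw [sw_adj, sw_adj, Sym2.eq_swap (a := u) (b := x), Sym2.eq_swap (a := v) (b := y)]
  tauto

private theorem PPSwitch_symm2 (G : SimpleGraph V) (x u y v : V) :
    sw G x u y v = sw G y v x u := by
  ext a b
  rw [sw_adj, sw_adj, Sym2.eq_swap (a := y) (b := x), Sym2.eq_swap (a := v) (b := u)]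
  tauto

private theorem PPSwitch_card (G : SimpleGraph V) (x u y v : V) (hxu : G.Adj x u)
    (hxy : x ≠ y) (hxv : x ≠ v) (nxy : ¬ G.Adj x y) :
    ((sw G x u y v).neighborSet x).ncard = (G.neighborSet x).ncard := by
  have h1 : (sw G x u y v).neighborSet x = insert y (G.neighborSet x \ {u}) := by
    ext b
    have hxu' : x ≠ u := hxu.ne
    simp only [SimpleGraph.mem_neighborSet, sw_adj, Set.mem_insert_iff, Set.mem_sdiff,
      Set.mem_singleton_iff, Sym2.eq_iff, ne_eq, true_and]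
    constructor
    · rintro (⟨h2, h3, h4⟩ | ⟨h2, h3⟩)
      · right
        refine ⟨h2, ?_⟩
        intro hb
        exact h3 (Or.inl hb)
      · left
        rcases h3 with (h3 | h3) | (h3 | h3)
        · exact h3
        · exact absurd h3.1 hxy
        · exact absurd h3.1 hxu'
        · exact absurd h3.1 hxv
    · rintro (rfl | ⟨h2, h3⟩)
      · right
        exact ⟨hxy, Or.inl (Or.inl rfl)⟩
      · left
        refine ⟨h2, ?_, ?_⟩
        · rintro (h4 | h4)
          · exact h3 h4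
          · exact hxu' h4.1
        · rintro (h4 | h4)
          · exact hxy h4.1
          · exact hxv h4.1
  rw [h1]
  exact Set.ncard_exchange nxy hxu

/-- PP-13b: degrees are preserved (x loses u and gains y, and so on) -/
theorem sw_reg4 (G : SimpleGraph V) (hG : Reg4 G) (x u y v : V) (hxu : G.Adj x u) (hyv : G.Adj y v)
    (hxy : x ≠ y) (huv : u ≠ v) (hxv : x ≠ v) (huy : u ≠ y) (nxy : ¬ G.Adj x y)
    (nuv : ¬ G.Adj u v) : Reg4 (sw G x u y v) := by
  intro w
  by_cases h1 : w = x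
  · rw [h1, PPSwitch_card G x u y v hxu hxy hxv nxy]
    exact hG x
  by_cases h2 : w = u
  · rw [h2, PPSwitch_symm1, PPSwitch_card G u x v y hxu.symm huv huy nuv]
    exact hG u
  by_cases h3 : w = y
  · rw [h3, PPSwitch_symm2, PPSwitch_card G y v x u hyv hxy.symm huy.symm
      (fun h => nxy h.symm)]
    exact hG y
  by_cases h4 : w = v
  · rw [h4, PPSwitch_symm2, PPSwitch_symm1, PPSwitch_card G v y u x hyv.symm huv.symm hxv.symm
      (fun h => nuv h.symm)]
    exact hG v
  have h5 : (sw G x u y v).neighborSet w = G.neighborSet w := by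
    ext b
    simp only [SimpleGraph.mem_neighborSet, sw_adj, Sym2.eq_iff, ne_eq]
    tauto
  rw [h5]
  exact hG w

/-- PP-13c: switching back -/
theorem sw_sw (G : SimpleGraph V) (x u y v : V) (hxu : G.Adj x u) (hyv : G.Adj y v)
    (hxy : x ≠ y) (huv : u ≠ v) (hxv : x ≠ v) (huy : u ≠ y) (nxy : ¬ G.Adj x y)
    (nuv : ¬ G.Adj u v) : sw (sw G x u y v) x y u v = G := by
  ext a b
  rw [sw_adj, sw_adj]
  have e1 : s(a, b) = s(x, u) → G.Adj a b := by
    intro h
    rw [← SimpleGraph.mem_edgeSet, h]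
    exact hxu
  have e2 : s(a, b) = s(y, v) → G.Adj a b := by
    intro h
    rw [← SimpleGraph.mem_edgeSet, h]
    exact hyv
  have e3 : s(a, b) = s(x, y) → ¬ G.Adj a b := by
    intro h
    rw [← SimpleGraph.mem_edgeSet, h]
    exact nxy
  have e4 : s(a, b) = s(u, v) → ¬ G.Adj a b := by
    intro h
    rw [← SimpleGraph.mem_edgeSet, h]
    exact nuv
  have e5 : G.Adj a b → a ≠ b := fun h => h.ne
  tauto

end MP06b
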