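import Pool.Agent.Lib.MP_06b34c_co.Dodgson
import Pool.Agent.Lib.MP_06b34c_co.AlAdd

namespace MP06b
open Finset

variable {E M : Type*} [Fintype E] [DecidableEq E] [Fintype M] [DecidableEq M]

private theorem pz_idem (t : ZMod 2) : t * t = t := by
  revert t
  decide

private theorem pz_prod (U W : Finset E) (a : E → ZMod 2) :
    (∏ e ∈ U, a e) * (∏ e ∈ W, a e) = ∏ e ∈ U ∪ W, a e := by
  rw [← Finset.prod_union_inter]
  have h1 : (∏ e ∈ (U ∪ W) \ (U ∩ W), a e) * ∏ e ∈ U ∩ W, a e = ∏ e ∈ U ∪ W, a e :=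
    Finset.prod_sdiff (Finset.inter_subset_union)
  rw [← h1, mul_assoc, pz_idem]

private theorem pz_sum (U : Finset E) :
    ∑ a : E → ZMod 2, ∏ e ∈ U, a e = if U = univ then 1 else 0 := by
  have h1 : ∀ a : E → ZMod 2, ∏ e ∈ U, a e = ∏ e, (if e ∈ U then a e else 1) := by
    intro a
    rw [Finset.prod_ite_mem, Finset.univ_inter]
  simp_rw [h1]
  have h2 := (Finset.prod_univ_sum (fun _ : E => (univ : Finset (ZMod 2)))
    (fun e t => if e ∈ U then t else (1 : ZMod 2))).symm
  rw [Fintype.piFinset_univ] at h2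
  rw [h2]
  have h3 : ∀ e : E, ∑ t : ZMod 2, (if e ∈ U then t else (1 : ZMod 2)) = if e ∈ U then 1 else 0 := by
    intro e
    split_ifs
    · decide
    · decide
  simp_rw [h3]
  split_ifs with hU
  · exact Finset.prod_eq_one fun e _ => by rw [if_pos (by rw [hU]; exact mem_univ e)]
  · obtain ⟨e, he⟩ : ∃ e, e ∉ U := by
      by_contra hcon
      push Not at hcon
      exact hU (Finset.eq_univ_iff_forall.2 hcon)
    exact Finset.prod_eq_zero (mem_univ e) (if_neg he)

/-- H6-7a: the sum over all points of a product of two homogeneous polynomials of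
complementary degrees. Proof: expand; ∑_a ∏_{e ∈ U} a e ∏_{e ∈ U'} a e = [U ∪ U' = univ]
(it is a product over e of ∑_{t : ZMod 2} (t or 1)); Rᶜ ∪ Fᶜ = univ means R ∩ F = ∅ and with the
cardinalities this means F = Rᶜ. -/
theorem sum_mul (p q : Finset E → ZMod 2) (k l : ℕ) (hkl : k + l = Fintype.card E)
    (hp : ∀ S, p S ≠ 0 → S.card = k) (hq : ∀ S, q S ≠ 0 → S.card = l) :
    ∑ a : E → ZMod 2, (∑ R : Finset E, p R * ∏ e ∈ Rᶜ, a e) * (∑ F : Finset E, q F * ∏ e ∈ Fᶜ, a e) =
      ∑ R : Finset E, p R * q Rᶜ := by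
  have h1 : ∀ a : E → ZMod 2,
      (∑ R : Finset E, p R * ∏ e ∈ Rᶜ, a e) * (∑ F : Finset E, q F * ∏ e ∈ Fᶜ, a e) =
      ∑ R : Finset E, ∑ F : Finset E, (p R * q F) * ∏ e ∈ Rᶜ ∪ Fᶜ, a e := by
    intro a
    rw [Finset.sum_mul_sum]
    refine Finset.sum_congr rfl fun R _ => Finset.sum_congr rfl fun F _ => ?_
    rw [← pz_prod]
    ring
  simp_rw [h1]
  rw [Finset.sum_comm]
  refine Finset.sum_congr rfl fun R _ => ?_
  rw [Finset.sum_comm]
  simp_rw [← Finset.mul_sum, pz_sum]
  rw [Finset.sum_eq_single Rᶜ]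
  · rw [if_pos (by rw [compl_compl, union_comm, Finset.union_compl]), mul_one]
  · intro F _ hF
    by_cases h0 : p R * q F = 0
    · rw [h0, zero_mul]
    · have hR0 : p R ≠ 0 := left_ne_zero_of_mul h0
      have hF0 : q F ≠ 0 := right_ne_zero_of_mul h0
      rw [if_neg, mul_zero]
      intro hU
      apply hF
      have hsub : F ⊆ Rᶜ := by
        intro e he
        have : e ∈ Rᶜ ∪ Fᶜ := by rw [hU]; exact mem_univ e
        rcases mem_union.1 this with h | h
        · exact h
        · exact absurd he (mem_compl.1 h)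
      refine Finset.eq_of_subset_of_card_le hsub ?_
      rw [Finset.card_compl, hp R hR0, hq F hF0]
      omega
  · intro h
    exact absurd (mem_univ _) h

/-- H6-7b. Proof: same with one factor; if p is supported on nonempty sets the sum is 0. -/
theorem sum_one (p : Finset E → ZMod 2) (hp : ∀ S, p S ≠ 0 → S.Nonempty) :
    ∑ a : E → ZMod 2, ∑ R : Finset E, p R * ∏ e ∈ Rᶜ, a e = 0 := by
  rw [Finset.sum_comm]
  refine Finset.sum_eq_zero fun R _ => ?_
  rw [← Finset.mul_sum, pz_sum]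
  by_cases h : p R = 0
  · rw [h, zero_mul]
  · rw [if_neg, mul_zero]
    intro hU
    obtain ⟨e, he⟩ := hp R h
    have : e ∈ Rᶜ := by rw [hU]; exact mem_univ e
    exact (mem_compl.1 this) he

/-- H6-7c. Proof: put y = X 0 + X 2, z = X 1 + X 2. By `al_add`, al B y = al B (X 0) + al B (X 2), etc., and
Q B a y y = Q B a (X 0) (X 0) + Q B a (X 2) (X 2) (as al * al = al and by linearity), so the condition
on a says f = 0, Q y y = 0, Q z z = 0 with f = Psi B a. In ZMod 2 the number of such a is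
∑_a (1 + f)(1 + Qyy)(1 + Qzz) = ∑_a (1 + f)(1 + Qyy + Qzz + Qyz), by `dodgson` (if f = 1 both sides are 0).
Expand: ∑ 1 = 0 (E nonempty), ∑ f = 0 and ∑ Q = 0 by `sum_one` (the supports have cardinality
card M ≥ 1, resp. card M - 1 ≥ 1), and ∑ f * Q.. by `sum_mul`, which leaves
∑_S pm B S * (al y + al z + al y * al z)(Sᶜ) = number of S with pm B S = 1 and (al y, al z)(Sᶜ) ≠ (0,0). -/
theorem P0_eq (B : E → M → ZMod 2) (X : Fin 3 → M → ZMod 2)
    (hE : Fintype.card E + 1 = 2 * Fintype.card M) (hM : 2 ≤ Fintype.card M) :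
    (univ.filter fun a : E → ZMod 2 => Psi B a = 0 ∧
        Q B a (X 0) (X 0) = Q B a (X 1) (X 1) ∧ Q B a (X 1) (X 1) = Q B a (X 2) (X 2)).card ≡
    (univ.filter fun S : Finset E => pm B S = 1 ∧
        ¬ (al B (X 0) Sᶜ = al B (X 1) Sᶜ ∧ al B (X 1) Sᶜ = al B (X 2) Sᶜ)).card [MOD 2] := by
  rw [← ZMod.natCast_eq_natCast_iff]
  rw [Finset.natCast_card_filter, Finset.natCast_card_filter]
  set y : M → ZMod 2 := fun x => X 0 x + X 2 x with hy
  set z : M → ZMod 2 := fun x => X 1 x + X 2 x with hz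
  have hyF : ∀ F, al B y F = al B (X 0) F + al B (X 2) F := fun F => al_add B (X 0) (X 2) F
  have hzF : ∀ F, al B z F = al B (X 1) F + al B (X 2) F := fun F => al_add B (X 1) (X 2) F
  have hQ : ∀ (a : E → ZMod 2) (u w : M → ZMod 2),
      Q B a (fun x => u x + w x) (fun x => u x + w x) = Q B a u u + Q B a w w := by
    intro a u w
    unfold Q
    rw [← Finset.sum_add_distrib]
    refine Finset.sum_congr rfl fun F _ => ?_
    rw [al_add, pz_idem, pz_idem, pz_idem]
    ring
  have key1 : ∀ f q0 q1 q2 : ZMod 2, (if f = 0 ∧ q0 = q1 ∧ q1 = q2 then (1 : ZMod 2) else 0) =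
      (1 + f) * ((1 + (q0 + q2)) * (1 + (q1 + q2))) := by decide
  have key2 : ∀ p a0 a1 a2 : ZMod 2, (if p = 1 ∧ ¬ (a0 = a1 ∧ a1 = a2) then (1 : ZMod 2) else 0) =
      p * ((a0 + a2) * (a0 + a2)) + p * ((a1 + a2) * (a1 + a2)) + p * ((a0 + a2) * (a1 + a2)) := by
    decide
  have h01 : ∀ t : ZMod 2, t = 0 ∨ 1 + t = 0 := by decide
  -- the left hand side
  have hL : ∀ a : E → ZMod 2, (if Psi B a = 0 ∧ Q B a (X 0) (X 0) = Q B a (X 1) (X 1) ∧
        Q B a (X 1) (X 1) = Q B a (X 2) (X 2) then (1 : ZMod 2) else 0) =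
      1 + Psi B a + Q B a y y + Q B a z z + Q B a y z + Psi B a * Q B a y y +
        Psi B a * Q B a z z + Psi B a * Q B a y z := by
    intro a
    rw [key1, ← hQ a (X 0) (X 2), ← hQ a (X 1) (X 2), ← hy, ← hz]
    rcases h01 (Psi B a) with h | h
    · rw [dodgson B a h y z, h]
      ring
    · have h2 : 1 + Psi B a + Q B a y y + Q B a z z + Q B a y z + Psi B a * Q B a y y +
        Psi B a * Q B a z z + Psi B a * Q B a y z =
        (1 + Psi B a) * (1 + Q B a y y + Q B a z z + Q B a y z) := by ring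
      rw [h2, h, zero_mul, zero_mul]
  simp_rw [hL, key2]
  have hcardE : 1 ≤ Fintype.card E := by omega
  have s0 : ∑ _a : E → ZMod 2, (1 : ZMod 2) = 0 := by
    rw [Finset.sum_const, Finset.card_univ, Fintype.card_fun, ZMod.card, nsmul_eq_mul, mul_one]
    push_cast
    have : (2 : ZMod 2) = 0 := by decide
    rw [this, zero_pow (by omega)]
  have hpmne : ∀ S, pm B S ≠ 0 → S.Nonempty := by
    intro S hS
    have := pm_card B S hS
    rw [← Finset.card_pos]
    omega
  have halne : ∀ (u w : M → ZMod 2) (F : Finset E), al B u F * al B w F ≠ 0 → F.Nonempty := by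
    intro u w F hF
    have := al_card B u F (left_ne_zero_of_mul hF)
    rw [← Finset.card_pos]
    omega
  have s1 : ∑ a : E → ZMod 2, Psi B a = 0 := sum_one (pm B) hpmne
  have s2 : ∀ u w : M → ZMod 2, ∑ a : E → ZMod 2, Q B a u w = 0 := fun u w =>
    sum_one (fun F => al B u F * al B w F) (halne u w)
  have s3 : ∀ u w : M → ZMod 2, ∑ a : E → ZMod 2, Psi B a * Q B a u w =
      ∑ R : Finset E, pm B R * (al B u Rᶜ * al B w Rᶜ) := fun u w =>
    sum_mul (pm B) (fun F => al B u F * al B w F) (Fintype.card M) (Fintype.card M - 1)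
      (by omega) (pm_card B) (fun F hF => by
        have := al_card B u F (left_ne_zero_of_mul hF)
        omega)
  simp only [Finset.sum_add_distrib]
  rw [s0, s1, s2, s2, s2, s3, s3, s3]
  simp only [zero_add, hyF, hzF]

end MP06b
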