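import Pool.Agent.Lib.MP_06b34c_co.PsiSpl
import Pool.Agent.Lib.MP_06b34c_co.PZero
import Pool.Agent.Lib.MP_06b34c_co.MEq

namespace MP06b
open Finset

section transport
variable {E M : Type*} [Fintype E] [DecidableEq E] [Fintype M] [DecidableEq M]
  {E' M' : Type*} [Fintype E'] [DecidableEq E'] [Fintype M'] [DecidableEq M']

private theorem compl_map_equiv (u : E' ≃ E) (S : Finset E') :
    (S.map u.toEmbedding)ᶜ = (Sᶜ).map u.toEmbedding := by
  ext e
  simp only [mem_compl, mem_map, Equiv.coe_toEmbedding, not_exists, not_and]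
  constructor
  · intro h
    exact ⟨u.symm e, fun hs => h _ hs (by simp), by simp⟩
  · rintro ⟨e', he', rfl⟩ e'' he'' h
    rw [u.injective h] at he''
    exact he' he''

private theorem psi_congr (u : E' ≃ E) (v : M' ≃ M) (B : E → M → ZMod 2) (a : E → ZMod 2) :
    Psi (fun e x => B (u e) (v x)) (fun e => a (u e)) = Psi B a := by
  unfold Psi
  refine Fintype.sum_equiv (Equiv.finsetCongr u) _ _ ?_
  intro S
  rw [pm_congr, Equiv.finsetCongr_apply, compl_map_equiv, prod_map]
  rfl

private theorem zeros_congr (u : E' ≃ E) (v : M' ≃ M) (B : E → M → ZMod 2) :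
    (univ.filter fun a : E' → ZMod 2 => Psi (fun e x => B (u e) (v x)) a = 0).card =
      (univ.filter fun a : E → ZMod 2 => Psi B a = 0).card := by
  refine card_bij' (fun a _ => fun e => a (u.symm e)) (fun a _ => fun e => a (u e)) ?_ ?_ ?_ ?_
  · intro a ha
    simp only [mem_filter, mem_univ, true_and] at ha ⊢
    rw [← psi_congr u v]
    simpa using ha
  · intro a ha
    simp only [mem_filter, mem_univ, true_and] at ha ⊢
    rw [psi_congr u v]
    exact ha
  · intro a _; funext e; simp
  · intro a _; funext e; simp

private theorem trees_congr (u : E' ≃ E) (v : M' ≃ M) (B : E → M → ZMod 2) :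
    (univ.filter fun S : Finset E' => pm (fun e x => B (u e) (v x)) S = 1 ∧
      pm (fun e x => B (u e) (v x)) Sᶜ = 1).card =
      (univ.filter fun S : Finset E => pm B S = 1 ∧ pm B Sᶜ = 1).card := by
  refine card_bij' (fun S _ => S.map u.toEmbedding) (fun S _ => S.map u.symm.toEmbedding) ?_ ?_ ?_ ?_
  · intro S hS
    simp only [mem_filter, mem_univ, true_and] at hS ⊢
    rw [compl_map_equiv, ← pm_congr u v, ← pm_congr u v]
    exact hS
  · intro S hS
    simp only [mem_filter, mem_univ, true_and] at hS ⊢
    have h : ∀ T : Finset E, (T.map u.symm.toEmbedding).map u.toEmbedding = T := by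
      intro T; ext e; simp
    rw [pm_congr, pm_congr, compl_map_equiv u.symm, h, h]
    exact hS
  · intro S _; ext e; simp
  · intro S _; ext e; simp

end transport

variable {E M : Type*} [Fintype E] [DecidableEq E] [Fintype M] [DecidableEq M]

/-- H6-9. Proof: choose equivalences u : E' ⊕ Fin 3 ≃ E (E' the edges with B e w = 0, Fin 3 the others) and
v : Option M' ≃ M with none ↦ w (M' = the others), put B' and X the restrictions; then
B (u e) (v x) = spl B' X e x. Transport both sides with `pm_congr` and use `zeros_spl`, `P0_eq`,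
`M_eq`. -/
theorem partI (B : E → M → ZMod 2) (hcard : Fintype.card E = 2 * Fintype.card M)
    (hM : 3 ≤ Fintype.card M) (w : M) (hw : (univ.filter fun e => B e w = 1).card = 3) :
    (univ.filter fun a : E → ZMod 2 => Psi B a = 0).card ≡
      (univ.filter fun S : Finset E => pm B S = 1 ∧ pm B Sᶜ = 1).card [MOD 8] := by
  have h3 : Fintype.card {e // B e w = 1} = 3 := by
    rw [Fintype.card_subtype]; exact hw
  let φ : Fin 3 ≃ {e // B e w = 1} := (Fintype.equivFinOfCardEq h3).symm
  let u : {e // ¬ B e w = 1} ⊕ Fin 3 ≃ E :=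
    (Equiv.sumCongr (Equiv.refl _) φ).trans ((Equiv.sumComm _ _).trans (Equiv.sumCompl _))
  let v : Option {x // x ≠ w} ≃ M := Equiv.optionSubtypeNe w
  let B' : {e // ¬ B e w = 1} → {x // x ≠ w} → ZMod 2 := fun e x => B e x
  let X : Fin 3 → {x // x ≠ w} → ZMod 2 := fun i x => B (φ i) x
  have h01 : ∀ t : ZMod 2, t = 0 ∨ t = 1 := by decide
  have hspl : (fun e x => B (u e) (v x)) = spl B' X := by
    funext e x
    rcases e with e | i
    · cases x with
      | none =>
        have : B (e : E) w = 0 := (h01 _).resolve_right e.2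
        simpa [u, v, spl] using this
      | some x => simp [u, v, spl, B']
    · cases x with
      | none =>
        have : B (φ i : E) w = 1 := (φ i).2
        simpa [u, v, spl] using this
      | some x => simp [u, v, spl, X]
  have hcE : Fintype.card {e // ¬ B e w = 1} + 3 = Fintype.card E := by
    rw [← Fintype.card_congr u, Fintype.card_sum, Fintype.card_fin]
  have hcM : Fintype.card {x // x ≠ w} + 1 = Fintype.card M := by
    rw [← Fintype.card_congr v, Fintype.card_option]
  rw [← zeros_congr u v B, ← trees_congr u v B, hspl]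
  refine (zeros_spl B' X (by omega)).trans ?_
  rw [M_eq]
  have := P0_eq B' X (by omega) (by omega)
  exact Nat.ModEq.mul_left' 4 this

end MP06b
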