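import Pool.Agent.Lib.MP_06b34c_co.Defs

namespace MP06b
open Finset

variable {E M : Type*} [Fintype E] [DecidableEq E] [Fintype M] [DecidableEq M]

/-- H6-11a: an involution flipping a Boolean label. -/
theorem card_two_mul {α : Type*} [DecidableEq α] (s : Finset α) (f : α → α) (b : α → Bool)
    (hf : ∀ x ∈ s, f x ∈ s) (hff : ∀ x ∈ s, f (f x) = x) (hb : ∀ x ∈ s, b (f x) = !b x) :
    s.card = 2 * (s.filter fun x => b x = true).card := by
  have h1 : (s.filter fun x => b x = true).card = (s.filter fun x => ¬ b x = true).card := by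
    refine Finset.card_bij' (fun x _ => f x) (fun x _ => f x) ?_ ?_ ?_ ?_
    · intro x hx
      rw [Finset.mem_filter] at hx ⊢
      refine ⟨hf x hx.1, ?_⟩
      rw [hb x hx.1, hx.2]
      decide
    · intro x hx
      rw [Finset.mem_filter] at hx ⊢
      refine ⟨hf x hx.1, ?_⟩
      rw [hb x hx.1, Bool.eq_false_of_not_eq_true hx.2]
      rfl
    · intro x hx
      exact hff x (Finset.mem_filter.mp hx).1
    · intro x hx
      exact hff x (Finset.mem_filter.mp hx).1
  have h2 := Finset.card_filter_add_card_filter_not (s := s) (fun x => b x = true)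
  omega

private def total8P (B : E → M → ZMod 2) : Finset (M ⊕ M → E) :=
  univ.filter fun c => Function.Bijective c ∧
    ∀ x, B (c (Sum.inl x)) x = 1 ∧ B (c (Sum.inr x)) x = 1

private theorem total8_card (B : E → M → ZMod 2) :
    ∑ S : Finset E, (asg B S).card * (asg B Sᶜ).card = (total8P B).card := by
  rw [Finset.card_eq_sum_card_fiberwise (s := total8P B) (t := univ)
    (f := fun c => univ.image (fun x => c (Sum.inl x))) (fun _ _ => Finset.mem_coe.mpr (mem_univ _))]
  refine Finset.sum_congr rfl fun S _ => ?_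
  rw [← Finset.card_product]
  refine Finset.card_bij' (fun p _ => Sum.elim p.1 p.2)
    (fun c _ => (fun x => c (Sum.inl x), fun x => c (Sum.inr x))) ?_ ?_ ?_ ?_
  · rintro ⟨φ, ψ⟩ h
    rw [Finset.mem_product] at h
    unfold asg at h
    rw [Finset.mem_filter, Finset.mem_filter] at h
    obtain ⟨⟨_, h1, h2, h3⟩, ⟨_, h4, h5, h6⟩⟩ := h
    simp only at h1 h2 h3 h4 h5 h6
    rw [Finset.mem_filter]
    refine ⟨?_, ?_⟩
    · unfold total8P
      rw [Finset.mem_filter]
      refine ⟨mem_univ _, ⟨?_, ?_⟩, fun x => ⟨h3 x, h6 x⟩⟩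
      · rintro (x | x) (y | y) hxy
        · exact congrArg Sum.inl (h1 hxy)
        · exfalso
          simp only [Sum.elim_inl, Sum.elim_inr] at hxy
          have h7 : φ x ∈ S := by
            rw [← h2]
            exact Finset.mem_image_of_mem _ (mem_univ x)
          have h8 : ψ y ∈ Sᶜ := by
            rw [← h5]
            exact Finset.mem_image_of_mem _ (mem_univ y)
          rw [hxy] at h7
          exact Finset.mem_compl.mp h8 h7
        · exfalso
          simp only [Sum.elim_inl, Sum.elim_inr] at hxy
          have h7 : φ y ∈ S := by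
            rw [← h2]
            exact Finset.mem_image_of_mem _ (mem_univ y)
          have h8 : ψ x ∈ Sᶜ := by
            rw [← h5]
            exact Finset.mem_image_of_mem _ (mem_univ x)
          rw [← hxy] at h7
          exact Finset.mem_compl.mp h8 h7
        · exact congrArg Sum.inr (h4 hxy)
      · intro e
        by_cases he : e ∈ S
        · rw [← h2, Finset.mem_image] at he
          obtain ⟨x, _, hx⟩ := he
          exact ⟨Sum.inl x, hx⟩
        · have he' : e ∈ Sᶜ := Finset.mem_compl.mpr he
          rw [← h5, Finset.mem_image] at he'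
          obtain ⟨x, _, hx⟩ := he'
          exact ⟨Sum.inr x, hx⟩
    · exact h2
  · intro c h
    rw [Finset.mem_filter] at h
    unfold total8P at h
    rw [Finset.mem_filter] at h
    obtain ⟨⟨_, hbij, hB⟩, hS⟩ := h
    rw [Finset.mem_product]
    unfold asg
    rw [Finset.mem_filter, Finset.mem_filter]
    refine ⟨⟨mem_univ _, fun x y hxy => Sum.inl_injective (hbij.1 hxy), hS, fun x => (hB x).1⟩,
      ⟨mem_univ _, fun x y hxy => Sum.inr_injective (hbij.1 hxy), ?_, fun x => (hB x).2⟩⟩
    ext e
    rw [Finset.mem_image, Finset.mem_compl, ← hS, Finset.mem_image]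
    constructor
    · rintro ⟨x, _, hx⟩ ⟨y, _, hy⟩
      simp only at hx
      have := hbij.1 (hx.trans hy.symm)
      exact Sum.inr_ne_inl this
    · intro hne
      obtain ⟨z, hz⟩ := hbij.2 e
      rcases z with z | z
      · exact absurd ⟨z, mem_univ z, hz⟩ hne
      · exact ⟨z, mem_univ z, hz⟩
  · rintro ⟨φ, ψ⟩ h
    rfl
  · intro c h
    funext z
    rcases z with z | z <;> rfl

private def total8f (x : M) (c : M ⊕ M → E) : M ⊕ M → E :=
  fun z => c (Equiv.swap (Sum.inl x) (Sum.inr x) z)

private theorem total8f_inl (x : M) (c : M ⊕ M → E) : total8f x c (Sum.inl x) = c (Sum.inr x) := by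
  unfold total8f
  rw [Equiv.swap_apply_left]

private theorem total8f_inr (x : M) (c : M ⊕ M → E) : total8f x c (Sum.inr x) = c (Sum.inl x) := by
  unfold total8f
  rw [Equiv.swap_apply_right]

private theorem total8f_inl_ne {x y : M} (h : y ≠ x) (c : M ⊕ M → E) :
    total8f x c (Sum.inl y) = c (Sum.inl y) := by
  unfold total8f
  rw [Equiv.swap_apply_of_ne_of_ne (fun h' => h (Sum.inl_injective h')) Sum.inl_ne_inr]

private theorem total8f_inr_ne {x y : M} (h : y ≠ x) (c : M ⊕ M → E) :
    total8f x c (Sum.inr y) = c (Sum.inr y) := by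
  unfold total8f
  rw [Equiv.swap_apply_of_ne_of_ne Sum.inr_ne_inl (fun h' => h (Sum.inr_injective h'))]

private theorem total8f_mem (B : E → M → ZMod 2) (x : M) (c : M ⊕ M → E) (h : c ∈ total8P B) :
    total8f x c ∈ total8P B := by
  unfold total8P at h ⊢
  rw [Finset.mem_filter] at h ⊢
  obtain ⟨_, hbij, hB⟩ := h
  refine ⟨mem_univ _, hbij.comp (Equiv.swap (Sum.inl x) (Sum.inr x)).bijective, fun y => ?_⟩
  by_cases hy : y = x
  · subst hy
    rw [total8f_inl, total8f_inr]
    exact ⟨(hB y).2, (hB y).1⟩
  · rw [total8f_inl_ne hy, total8f_inr_ne hy]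
    exact hB y

private theorem total8f_invol (x : M) (c : M ⊕ M → E) : total8f x (total8f x c) = c := by
  funext z
  unfold total8f
  rw [Equiv.swap_apply_self]

private noncomputable def total8b (x : M) (c : M ⊕ M → E) : Bool :=
  decide (Fintype.equivFin E (c (Sum.inl x)) < Fintype.equivFin E (c (Sum.inr x)))

private theorem total8b_ne {x y : M} (h : y ≠ x) (c : M ⊕ M → E) :
    total8b y (total8f x c) = total8b y c := by
  unfold total8b
  rw [total8f_inl_ne h, total8f_inr_ne h]

private theorem total8b_flip (B : E → M → ZMod 2) (x : M) (c : M ⊕ M → E) (h : c ∈ total8P B) :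
    total8b x (total8f x c) = !total8b x c := by
  unfold total8b
  rw [total8f_inl, total8f_inr]
  unfold total8P at h
  rw [Finset.mem_filter] at h
  have hne : Fintype.equivFin E (c (Sum.inl x)) ≠ Fintype.equivFin E (c (Sum.inr x)) := by
    intro h'
    exact Sum.inl_ne_inr (h.2.1.1 ((Fintype.equivFin E).injective h'))
  rcases lt_or_gt_of_ne hne with h1 | h1
  · rw [decide_eq_true h1, decide_eq_false (not_lt.mpr h1.le)]
    rfl
  · rw [decide_eq_true h1, decide_eq_false (not_lt.mpr h1.le)]
    rfl

/-- H6-11b. Proof: the sum counts pairs (φ, ψ) of maps M → E, injective, with disjoint images whose union is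
univ, and B (φ x) x = 1 = B (ψ x) x. For x : M exchange φ x and ψ x (involution f_x). Fix an injection
ι : E → ℕ (or a linear order via `Fintype.equivFin`) and b_x (φ, ψ) = decide (ι (φ x) < ι (ψ x)). For three different x₁, x₂, x₃ the f's commute,
f_{x_i} flips b_{x_i} and preserves b_{x_j}, so `card_two_mul` three times (the
subsets {b_{x₁}}, {b_{x₁}, b_{x₂}} are preserved by f_{x₂}, f_{x₃}) gives divisibility by 8. -/
theorem total8 (B : E → M → ZMod 2) (hM : 3 ≤ Fintype.card M) :
    8 ∣ ∑ S : Finset E, (asg B S).card * (asg B Sᶜ).card := by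
  rw [total8_card]
  obtain ⟨x1, x2, x3, h12, h13, h23⟩ := Fintype.two_lt_card_iff.mp (show 2 < Fintype.card M by omega)
  have h1 := card_two_mul (total8P B) (total8f x1) (total8b x1)
    (fun c hc => total8f_mem B x1 c hc) (fun c _ => total8f_invol x1 c)
    (fun c hc => total8b_flip B x1 c hc)
  have h2 := card_two_mul ((total8P B).filter fun c => total8b x1 c = true) (total8f x2)
    (total8b x2)
    (fun c hc => by
      rw [Finset.mem_filter] at hc ⊢
      exact ⟨total8f_mem B x2 c hc.1, by rw [total8b_ne h12]; exact hc.2⟩)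
    (fun c _ => total8f_invol x2 c)
    (fun c hc => total8b_flip B x2 c (Finset.mem_filter.mp hc).1)
  have h3 := card_two_mul (((total8P B).filter fun c => total8b x1 c = true).filter
      fun c => total8b x2 c = true) (total8f x3) (total8b x3)
    (fun c hc => by
      rw [Finset.mem_filter, Finset.mem_filter] at hc ⊢
      exact ⟨⟨total8f_mem B x3 c hc.1.1, by rw [total8b_ne h13]; exact hc.1.2⟩,
        by rw [total8b_ne h23]; exact hc.2⟩)
    (fun c _ => total8f_invol x3 c)
    (fun c hc => total8b_flip B x3 c (Finset.mem_filter.mp (Finset.mem_filter.mp hc).1).1)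
  rw [h1, h2, h3]
  exact ⟨_, by ring⟩

end MP06b
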