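import Pool.Agent.Lib.MP_06b34c_co.AsgUniq
import Pool.Agent.Lib.MP_06b34c_co.Total8
import Pool.Agent.Lib.MP_06b34c_co.DifNotHam

namespace MP06b
open Finset

/-- the arithmetic modulo 8 -/
private theorem partII_core {α : Type*} [Fintype α] (c : α → α) (hc : ∀ s, c (c s) = s)
    (o P D : α → ℤ) (p ham : α → Prop) [DecidablePred p] [DecidablePred ham]
    (hp : ∀ s, p s → o s = 1) (hnp : ∀ s, ¬ p s → 2 ∣ o s)
    (h8 : 8 ∣ ∑ s, o s * o (c s)) (hPD : ∀ s, o s * (o s - 1) = P s + D s)
    (h4 : 4 ∣ ∑ s, o (c s) * P s) (hham : ∀ s, ham s → D s = 2) (hnham : ∀ s, ¬ ham s → 4 ∣ D s)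
    (hZ : 8 ∣ ∑ s, if ¬ p s ∧ ¬ p (c s) then o s * o (c s) else 0) :
    8 ∣ ((univ.filter fun s => p s ∧ p (c s)).card : ℤ) -
      4 * ((univ.filter fun s => ham s ∧ p (c s)).card : ℤ) := by
  classical
  set V : ℤ := ∑ s, if p (c s) ∧ ¬ p s then o s else 0 with hV
  set Z : ℤ := ∑ s, if ¬ p s ∧ ¬ p (c s) then o s * o (c s) else 0 with hZdef
  have hV' : V = ∑ s, if p s ∧ ¬ p (c s) then o (c s) else 0 := by
    rw [hV]
    apply sum_bij' (fun s _ => c s) (fun s _ => c s)
    · intro s _
      exact mem_univ _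
    · intro s _
      exact mem_univ _
    · intro s _
      exact hc s
    · intro s _
      exact hc s
    · intro s _
      rw [hc]
  have hN : ((univ.filter fun s => p s ∧ p (c s)).card : ℤ) =
      ∑ s, if p s ∧ p (c s) then (1 : ℤ) else 0 := by
    rw [card_filter]
    push_cast
    rfl
  have hh : ((univ.filter fun s => ham s ∧ p (c s)).card : ℤ) =
      ∑ s, if ham s ∧ p (c s) then (1 : ℤ) else 0 := by
    rw [card_filter]
    push_cast
    rfl
  set N : ℤ := ((univ.filter fun s => p s ∧ p (c s)).card : ℤ) with hNdef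
  set h : ℤ := ((univ.filter fun s => ham s ∧ p (c s)).card : ℤ) with hhdef
  -- the total
  have htot : ∑ s, o s * o (c s) = N + V + V + Z := by
    conv_rhs => rw [hN]
    nth_rewrite 1 [hV']
    rw [hV, hZdef, ← sum_add_distrib, ← sum_add_distrib, ← sum_add_distrib]
    refine sum_congr rfl fun s _ => ?_
    by_cases h1 : p s <;> by_cases h2 : p (c s)
    · simp [h1, h2, hp s h1, hp _ h2]
    · simp [h1, h2, hp s h1]
    · simp [h1, h2, hp _ h2]
    · simp [h1, h2]
  have hV4 : 4 ∣ (∑ s, o (c s) * (o s * (o s - 1))) - V := by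
    rw [hV, ← sum_sub_distrib]
    refine dvd_sum fun s _ => ?_
    by_cases h1 : p s
    · simp [h1, hp s h1]
    · obtain ⟨k, hk⟩ := hnp s h1
      by_cases h2 : p (c s)
      · rw [if_pos ⟨h2, h1⟩, hp _ h2, hk]
        exact ⟨k * k - k, by ring⟩
      · rw [if_neg (fun h => h2 h.1)]
        obtain ⟨l, hl⟩ := hnp _ h2
        rw [hk, hl]
        exact ⟨l * k * (2 * k - 1), by ring⟩
  have hD4 : 4 ∣ (∑ s, o (c s) * D s) - 2 * h := by
    conv_rhs => rw [hh]
    rw [mul_sum, ← sum_sub_distrib]
    refine dvd_sum fun s _ => ?_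
    by_cases h1 : ham s
    · rw [hham s h1]
      by_cases h2 : p (c s)
      · rw [if_pos ⟨h1, h2⟩, hp _ h2]
        simp
      · rw [if_neg (fun h => h2 h.2)]
        obtain ⟨l, hl⟩ := hnp _ h2
        rw [hl]
        exact ⟨l, by ring⟩
    · rw [if_neg (fun h => h1 h.1)]
      obtain ⟨l, hl⟩ := hnham s h1
      rw [hl]
      exact ⟨o (c s) * l, by ring⟩
  have hsum : ∑ s, o (c s) * (o s * (o s - 1)) = ∑ s, o (c s) * P s + ∑ s, o (c s) * D s := by
    rw [← sum_add_distrib]
    refine sum_congr rfl fun s _ => ?_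
    rw [hPD]
    ring
  rw [htot] at h8
  omega

variable {W E : Type*} [Fintype W] [DecidableEq W] [Fintype E] [DecidableEq E]

open scoped Classical in
/-- H6-15. Proof: o(S) = (asg _ S).card. By `asg_card_one` each o(S) is 1 (iff pm S = 1) or even.
(1) `total8`: 0 ≡ ∑_S o(S) o(Sᶜ) ≡ N + 2 V mod 8, N = #{S: o(S) = 1 = o(Sᶜ)}, V = ∑_{o(S) = 1, o(Sᶜ) even} o(Sᶜ); the terms with
both even: they are divisible by 4 and S, Sᶜ give the same value, so the sum is divisible by 8
(pick e₀ : E, sum over S ∋ e₀ and double; E is nonempty, else trivial).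
(2) ∑_S o(S) o(Sᶜ) (o(Sᶜ) - 1) ≡ V mod 4 (if o(S) = 1 and q = o(Sᶜ) even then q(q-1) ≡ -q ≡ q mod 4; if o(S) even, the
product is divisible by 4; q = 1 gives 0).
(3) o(o-1) = number of pairs of different assignments = (prt).card + (dif).card (M nonempty), so by `part4`, `dif_ham`, `dif_not_ham`:
V ≡ ∑_C o(Cᶜ) (dif C).card ≡ 2 ∑_{C Ham} o(Cᶜ) ≡ 2 #{C Ham, pm Cᶜ = 1} mod 4.
So N ≡ -2V ≡ 4 # mod 8. -/
theorem partII (ends : E → Sym2 W) (hd : ∀ e, ¬ (ends e).IsDiag) (r : W)
    (hW : 4 ≤ Fintype.card W) :
    (univ.filter fun S : Finset E => pm (inc ends r) S = 1 ∧ pm (inc ends r) Sᶜ = 1).card ≡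
      4 * (univ.filter fun C : Finset E => IsHam ends r C ∧ pm (inc ends r) Cᶜ = 1).card
      [MOD 8] := by
  set B := inc ends r with hB
  have hM : 3 ≤ Fintype.card {x : W // x ≠ r} := by
    have h1 : Fintype.card {x : W // x ≠ r} = Fintype.card W - 1 := by
      rw [Fintype.card_subtype_compl, Fintype.card_subtype_eq]
    omega
  obtain ⟨x0⟩ : Nonempty {x : W // x ≠ r} := Fintype.card_pos_iff.1 (by omega)
  have hx0 : ∃ x : W, x ≠ r := ⟨x0.1, x0.2⟩
  have heven : ∀ S, pm B S ≠ 1 → 2 ∣ ((asg B S).card : ℤ) := by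
    intro S hS
    have h1 : pm B S = 0 := by
      have : ∀ a : ZMod 2, a ≠ 1 → a = 0 := by decide
      exact this _ hS
    unfold pm at h1
    have h2 : 2 ∣ (asg B S).card := (ZMod.natCast_eq_zero_iff _ 2).1 h1
    exact_mod_cast h2
  have hcore := partII_core (fun S : Finset E => Sᶜ) (fun S => compl_compl S)
    (fun S => ((asg B S).card : ℤ)) (fun S => ((prt B S).card : ℤ)) (fun S => ((dif B S).card : ℤ))
    (fun S => pm B S = 1) (fun S => IsHam ends r S)
    (fun S hS => by
      have := asg_card_one ends hd r S hS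
      exact_mod_cast this)
    heven
    (by
      have := total8 B hM
      exact_mod_cast this)
    (by
      intro S
      have h1 : ((asg B S) ×ˢ (asg B S)).filter (fun q => q.1 ≠ q.2) = (asg B S).offDiag := by
        ext q
        rw [mem_filter, mem_product, mem_offDiag]
        tauto
      have h2 : (asg B S).offDiag = prt B S ∪ dif B S := by
        rw [← h1]
        ext q
        unfold prt dif
        rw [mem_union, mem_filter, mem_filter, mem_filter]
        constructor
        · rintro ⟨h3, h4⟩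
          by_cases h5 : ∃ x, q.1 x = q.2 x
          · exact Or.inl ⟨h3, h4, h5⟩
          · push Not at h5
            exact Or.inr ⟨h3, h5⟩
        · rintro (⟨h3, h4, -⟩ | ⟨h3, h4⟩)
          · exact ⟨h3, h4⟩
          · refine ⟨h3, ?_⟩
            intro h
            exact h4 x0 (by rw [h])
      have h3 : Disjoint (prt B S) (dif B S) := by
        rw [disjoint_left]
        intro q hq hq'
        unfold prt at hq
        unfold dif at hq'
        obtain ⟨x, hx⟩ := (mem_filter.1 hq).2.2
        exact (mem_filter.1 hq').2 x hx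
      have h4 := offDiag_card (asg B S)
      rw [h2, card_union_of_disjoint h3] at h4
      have h5 : (asg B S).card ≤ (asg B S).card * (asg B S).card := Nat.le_mul_self _
      have h6 : (((prt B S).card + (dif B S).card : ℕ) : ℤ) =
          (((asg B S).card * (asg B S).card - (asg B S).card : ℕ) : ℤ) := by
        exact_mod_cast h4
      rw [Nat.cast_sub h5] at h6
      push_cast at h6
      linarith)
    (by
      have := part4 B
      exact_mod_cast this)
    (fun S hS => by
      have := dif_ham ends hd r S hx0 hS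
      exact_mod_cast this)
    (fun S hS => by
      have := dif_not_ham ends hd r S hS
      exact_mod_cast this)
    (by
      rcases isEmpty_or_nonempty E with hE | ⟨⟨e0⟩⟩
      · have h0 : ∀ S : Finset E, (asg B S).card = 0 := by
          intro S
          rw [card_eq_zero, eq_empty_iff_forall_notMem]
          intro φ _
          exact hE.false (φ x0)
        simp [h0]
      · set f : Finset E → ℤ := fun S => if ¬ pm B S = 1 ∧ ¬ pm B Sᶜ = 1 then
          ((asg B S).card : ℤ) * ((asg B Sᶜ).card : ℤ) else 0 with hf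
        have hsym : ∀ S, f Sᶜ = f S := by
          intro S
          rw [hf]
          dsimp only
          rw [compl_compl]
          by_cases h1 : pm B S = 1
          · rw [if_neg (fun h => h.2 h1), if_neg (fun h => h.1 h1)]
          · by_cases h2 : pm B Sᶜ = 1
            · rw [if_neg (fun h => h.1 h2), if_neg (fun h => h.2 h2)]
            · rw [if_pos ⟨h2, h1⟩, if_pos ⟨h1, h2⟩]
              ring
        have hf4 : ∀ S, 4 ∣ f S := by
          intro S
          rw [hf]
          dsimp only
          split_ifs with h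
          · obtain ⟨k, hk⟩ := heven S h.1
            obtain ⟨l, hl⟩ := heven _ h.2
            rw [hk, hl]
            exact ⟨k * l, by ring⟩
          · exact dvd_zero _
        have hsplit : ∑ S, f S = ∑ S ∈ univ.filter (fun S : Finset E => e0 ∈ S), f S +
            ∑ S ∈ univ.filter (fun S : Finset E => ¬ e0 ∈ S), f S :=
          (sum_filter_add_sum_filter_not _ _ _).symm
        have hsame : ∑ S ∈ univ.filter (fun S : Finset E => ¬ e0 ∈ S), f S =
            ∑ S ∈ univ.filter (fun S : Finset E => e0 ∈ S), f S := by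
          refine sum_bij' (fun S _ => Sᶜ) (fun S _ => Sᶜ) ?_ ?_ ?_ ?_ ?_
          · intro S hS
            rw [mem_filter] at hS ⊢
            exact ⟨mem_univ _, mem_compl.2 hS.2⟩
          · intro S hS
            rw [mem_filter] at hS ⊢
            exact ⟨mem_univ _, fun h => (mem_compl.1 h) hS.2⟩
          · intro S _
            exact compl_compl S
          · intro S _
            exact compl_compl S
          · intro S _
            exact (hsym S).symm
        have hfsum : (∑ S : Finset E, if ¬ pm B S = 1 ∧ ¬ pm B Sᶜ = 1 then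
          ((asg B S).card : ℤ) * ((asg B Sᶜ).card : ℤ) else 0) = ∑ S, f S := rfl
        rw [hfsum, hsplit, hsame]
        obtain ⟨k, hk⟩ : (4 : ℤ) ∣ ∑ S ∈ univ.filter (fun S : Finset E => e0 ∈ S), f S :=
          dvd_sum fun S _ => hf4 S
        rw [hk]
        exact ⟨k, by ring⟩)
  have h1 := (Nat.modEq_iff_dvd (n := 8)
    (a := 4 * (univ.filter fun C : Finset E => IsHam ends r C ∧ pm B Cᶜ = 1).card)
    (b := (univ.filter fun S : Finset E => pm B S = 1 ∧ pm B Sᶜ = 1).card)).2 (by
      push_cast
      exact hcore)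
  exact h1.symm

end MP06b
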