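import Pool.Agent.Lib.MP_06b34c_co.Defs

namespace MP06b
open Finset

variable {E M : Type*} [Fintype E] [DecidableEq E] [Fintype M] [DecidableEq M]

/-- `pm` as a sum over injective maps with image `S` of products -/
theorem pm_sum (B : E → M → ZMod 2) (S : Finset E) :
    pm B S = ∑ φ ∈ univ.filter (fun φ : M → E => Function.Injective φ ∧ univ.image φ = S),
      ∏ x, B (φ x) x := by
  have h01 : ∀ t : ZMod 2, t = 0 ∨ t = 1 := by decide
  have hprod : ∀ φ : M → E, ∏ x, B (φ x) x = if ∀ x, B (φ x) x = 1 then 1 else 0 := by
    intro φ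
    split_ifs with h
    · exact Finset.prod_eq_one fun x _ => h x
    · push Not at h
      obtain ⟨x, hx⟩ := h
      exact Finset.prod_eq_zero (mem_univ x) ((h01 _).resolve_right hx)
  simp_rw [hprod]
  rw [← Finset.sum_filter, Finset.filter_filter]
  unfold pm asg
  rw [Finset.sum_const, nsmul_eq_mul, mul_one]
  simp only [and_assoc]

/-- H6-1a Laplace expansion along `none`.
Proof: an assignment φ : Option M → E with image S is the same as e = φ none ∈ S together with
φ ∘ some : M → E injective with image S.erase e. -/
theorem laplace (B : E → Option M → ZMod 2) (S : Finset E) :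
    pm B S = ∑ e ∈ S, B e none * pm (fun e x => B e (some x)) (S.erase e) := by
  simp_rw [pm_sum, Finset.mul_sum]
  rw [Finset.sum_sigma']
  refine Finset.sum_bij' (fun φ _ => ⟨φ none, fun x => φ (some x)⟩)
    (fun p _ => fun o => Option.elim o p.1 p.2) ?_ ?_ ?_ ?_ ?_
  · intro φ hφ
    simp only [mem_filter, mem_univ, true_and, mem_sigma] at hφ ⊢
    obtain ⟨hi, hS⟩ := hφ
    refine ⟨?_, ?_, ?_⟩
    · rw [← hS]; exact mem_image_of_mem _ (mem_univ _)
    · intro x y hxy
      exact Option.some_injective _ (hi hxy)
    · ext e
      simp only [mem_image, mem_univ, true_and, mem_erase, ← hS]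
      constructor
      · rintro ⟨x, rfl⟩
        refine ⟨fun h => ?_, ⟨some x, rfl⟩⟩
        have := hi h
        simp at this
      · rintro ⟨hne, o, rfl⟩
        cases o with
        | none => exact absurd rfl hne
        | some x => exact ⟨x, rfl⟩
  · rintro ⟨e, φ⟩ hp
    simp only [mem_filter, mem_univ, true_and, mem_sigma] at hp ⊢
    obtain ⟨he, hi, hS⟩ := hp
    have hmem : ∀ x, φ x ∈ S.erase e := fun x => by rw [← hS]; exact mem_image_of_mem _ (mem_univ _)
    constructor
    · intro o o' h
      cases o with
      | none =>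
        cases o' with
        | none => rfl
        | some y =>
          simp only [Option.elim] at h
          have := hmem y
          rw [← h] at this
          simp at this
      | some x =>
        cases o' with
        | none =>
          simp only [Option.elim] at h
          have := hmem x
          rw [h] at this
          simp at this
        | some y =>
          simp only [Option.elim] at h
          rw [hi h]
    · ext e'
      simp only [mem_image, mem_univ, true_and]
      constructor
      · rintro ⟨o, rfl⟩
        cases o with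
        | none => exact he
        | some x => exact mem_of_mem_erase (hmem x)
      · intro he'
        by_cases h : e' = e
        · exact ⟨none, by simp [h]⟩
        · have : e' ∈ S.erase e := mem_erase.2 ⟨h, he'⟩
          rw [← hS] at this
          obtain ⟨x, -, hx⟩ := mem_image.1 this
          exact ⟨some x, hx⟩
  · intro φ _
    funext o
    cases o <;> rfl
  · rintro ⟨e, φ⟩ _
    rfl
  · intro φ _
    rw [Fintype.prod_option]

/-- H6-1b reindexing of edges. -/
theorem pm_map {E' : Type*} [Fintype E'] [DecidableEq E'] (ι : E' ↪ E) (B : E → M → ZMod 2)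
    (S : Finset E') : pm B (S.map ι) = pm (fun e x => B (ι e) x) S := by
  unfold pm
  congr 1
  symm
  refine Finset.card_bij (fun φ _ => fun x => ι (φ x)) ?_ ?_ ?_
  · intro φ hφ
    simp only [asg, mem_filter, mem_univ, true_and] at hφ ⊢
    obtain ⟨hi, hS, hB⟩ := hφ
    refine ⟨fun x y h => hi (ι.injective h), ?_, hB⟩
    rw [← hS]
    ext e
    simp
  · intro φ _ ψ _ h
    funext x
    exact ι.injective (congrFun h x)
  · intro ψ hψ
    simp only [asg, mem_filter, mem_univ, true_and] at hψ
    obtain ⟨hi, hS, hB⟩ := hψ
    have hmem : ∀ x, ∃ e, e ∈ S ∧ ι e = ψ x := fun x => by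
      have : ψ x ∈ S.map ι := by rw [← hS]; exact mem_image_of_mem _ (mem_univ _)
      simpa using this
    choose φ hφS hφ using hmem
    refine ⟨φ, ?_, ?_⟩
    · simp only [asg, mem_filter, mem_univ, true_and]
      refine ⟨fun x y h => hi (by rw [← hφ x, ← hφ y, h]), ?_, fun x => by rw [hφ]; exact hB x⟩
      ext e
      simp only [mem_image, mem_univ, true_and]
      constructor
      · rintro ⟨x, rfl⟩
        exact hφS x
      · intro he
        have : ι e ∈ univ.image ψ := by rw [hS]; exact mem_map_of_mem _ he
        obtain ⟨x, -, hx⟩ := mem_image.1 this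
        exact ⟨x, ι.injective (by rw [hφ, hx])⟩
    · funext x
      exact hφ x

/-- H6-1c full reindexing (edges and vertices). -/
theorem pm_congr {E' M' : Type*} [Fintype E'] [DecidableEq E'] [Fintype M'] [DecidableEq M']
    (u : E' ≃ E) (v : M' ≃ M) (B : E → M → ZMod 2) (S : Finset E') :
    pm (fun e x => B (u e) (v x)) S = pm B (S.map u.toEmbedding) := by
  unfold pm
  congr 1
  refine Finset.card_bij' (fun φ _ => fun x => u (φ (v.symm x)))
    (fun φ _ => fun x => u.symm (φ (v x))) ?_ ?_ ?_ ?_
  · intro φ hφ
    simp only [asg, mem_filter, mem_univ, true_and] at hφ ⊢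
    obtain ⟨hi, hS, hB⟩ := hφ
    refine ⟨fun x y h => ?_, ?_, fun x => ?_⟩
    · exact v.symm.injective (hi (u.injective h))
    · rw [← hS]
      ext e
      simp only [mem_image, mem_univ, true_and, mem_map, Equiv.coe_toEmbedding]
      constructor
      · rintro ⟨x, rfl⟩
        exact ⟨_, ⟨v.symm x, rfl⟩, rfl⟩
      · rintro ⟨_, ⟨x, rfl⟩, rfl⟩
        exact ⟨v x, by simp⟩
    · have := hB (v.symm x)
      simpa using this
  · intro φ hφ
    simp only [asg, mem_filter, mem_univ, true_and] at hφ ⊢
    obtain ⟨hi, hS, hB⟩ := hφ
    refine ⟨fun x y h => ?_, ?_, fun x => ?_⟩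
    · exact v.injective (hi (u.symm.injective h))
    · ext e
      have : e ∈ S ↔ u e ∈ univ.image φ := by rw [hS]; simp
      rw [this]
      simp only [mem_image, mem_univ, true_and]
      constructor
      · rintro ⟨x, rfl⟩
        exact ⟨v x, by simp⟩
      · rintro ⟨x, hx⟩
        exact ⟨v.symm x, by simp [hx]⟩
    · simpa using hB (v x)
  · intro φ _
    funext x
    simp
  · intro φ _
    funext x
    simp

/-- H6-1d -/
theorem pm_card (B : E → M → ZMod 2) (S : Finset E) (h : pm B S ≠ 0) :
    S.card = Fintype.card M := by
  have : (asg B S).Nonempty := by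
    rw [nonempty_iff_ne_empty]
    intro he
    apply h
    simp [pm, he]
  obtain ⟨φ, hφ⟩ := this
  simp only [asg, mem_filter, mem_univ, true_and] at hφ
  obtain ⟨hi, hS, -⟩ := hφ
  rw [← hS, card_image_of_injective _ hi, card_univ]

end MP06b
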