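import Pool.Agent.Lib.MP_06b34c_co.Perm

namespace MP06b
open Finset

variable {W E : Type*} [Fintype W] [DecidableEq W] [Fintype E] [DecidableEq E]

private theorem pmIff_det {M : Type*} [Fintype M] [DecidableEq M] (B : E → M → ZMod 2)
    (S : Finset E) (u : M ≃ {e // e ∈ S}) :
    pm B S = Matrix.det (Matrix.of fun y x => B (u y) x) := by
  rw [pm_sum, Matrix.det_apply]
  symm
  refine Finset.sum_bij (fun σ _ => fun x => (u (σ x) : E)) ?_ ?_ ?_ ?_
  · intro σ _
    simp only [mem_filter, mem_univ, true_and]
    refine ⟨fun x y h => σ.injective (u.injective (Subtype.ext h)), ?_⟩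
    ext e
    simp only [mem_image, mem_univ, true_and]
    constructor
    · rintro ⟨x, rfl⟩
      exact (u (σ x)).2
    · intro he
      exact ⟨σ.symm (u.symm ⟨e, he⟩), by simp⟩
  · intro σ _ τ _ h
    ext x
    have h1 := congrFun h x
    exact u.injective (Subtype.ext h1)
  · intro φ hφ
    simp only [mem_filter, mem_univ, true_and] at hφ
    obtain ⟨hi, hS⟩ := hφ
    have hmem : ∀ x, φ x ∈ S := fun x => by rw [← hS]; exact mem_image_of_mem _ (mem_univ _)
    have hinj : Function.Injective fun x => u.symm ⟨φ x, hmem x⟩ := by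
      intro x y h
      have h1 := u.symm.injective h
      exact hi (congrArg Subtype.val h1)
    refine ⟨Equiv.ofBijective _ (Finite.injective_iff_bijective.1 hinj), mem_univ _, ?_⟩
    funext x
    simp
  · intro σ _
    have h1 : ∀ z : ZMod 2, (Equiv.Perm.sign σ) • z = z := by
      intro z
      rcases Int.units_eq_one_or (Equiv.Perm.sign σ) with h | h
      · rw [h, one_smul]
      · rw [h]
        have h2 : ((-1 : ℤˣ) • z) = -z := by
          rw [Units.smul_def]
          simp
        rw [h2]
        exact ZMod.neg_eq_self_mod_two z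
    rw [h1]
    rfl

private theorem pmIff_row (ends : E → Sym2 W) (r : W) (V : W → ZMod 2) (hV : V r = 0) (e : E)
    (a b : W) (hab : a ≠ b) (he : ends e = s(a, b)) :
    ∑ x : {x : W // x ≠ r}, inc ends r e x * V x = V a + V b := by
  have h1 : ∑ x : {x : W // x ≠ r}, inc ends r e x * V x =
      ∑ x ∈ univ.filter (fun x : W => x ≠ r), (if x ∈ ends e then 1 else 0) * V x := by
    rw [Finset.sum_subtype (p := fun x : W => x ≠ r) (univ.filter fun x : W => x ≠ r)
      (fun x => by simp)]
    rfl
  rw [h1, Finset.sum_filter_of_ne (p := fun x : W => x ≠ r)]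
  · have h2 : ∀ x : W, (if x ∈ ends e then (1 : ZMod 2) else 0) * V x =
        (if x = a then V x else 0) + (if x = b then V x else 0) := by
      intro x
      by_cases h3 : x = a
      · simp [he, h3, hab]
      · simp [he, h3]
    simp_rw [h2]
    rw [Finset.sum_add_distrib, Finset.sum_ite_eq', Finset.sum_ite_eq']
    simp
  · intro x _ hx hxr
    apply hx
    rw [hxr, hV, mul_zero]

private theorem pmIff_01 : ∀ t : ZMod 2, t = 0 ∨ t = 1 := by decide

/-- H6-16 (matrix tree theorem mod 2). -/
theorem pm_iff (ends : E → Sym2 W) (hd : ∀ e, ¬ (ends e).IsDiag) (r : W) (T : Finset E) :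
    pm (inc ends r) T = 1 ↔ T.card + 1 = Fintype.card W ∧
      ∀ Y : Set W, r ∉ Y → (∃ x, x ∈ Y) → ∃ e ∈ T, ∃ x ∈ Y, ∃ y ∉ Y, ends e = s(x, y) := by
  classical
  have hcM : Fintype.card {x : W // x ≠ r} + 1 = Fintype.card W := by
    have h1 := Fintype.card_subtype_compl (fun x : W => x = r)
    rw [Fintype.card_subtype_eq] at h1
    have h2 : 0 < Fintype.card W := Fintype.card_pos_iff.2 ⟨r⟩
    have h3 : Fintype.card {x : W // x ≠ r} = Fintype.card W - 1 := h1
    omega
  have key : ∀ u : {x : W // x ≠ r} ≃ {e // e ∈ T},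
      (∀ v : {x : W // x ≠ r} → ZMod 2,
        (Matrix.of fun y x => inc ends r (u y) x).mulVec v = 0 → v = 0) ↔
        pm (inc ends r) T = 1 := by
    intro u
    rw [pmIff_det (inc ends r) T u]
    constructor
    · intro h
      rcases pmIff_01 (Matrix.det (Matrix.of fun y x => inc ends r (u y) x)) with h1 | h1
      · obtain ⟨v, hv, hv'⟩ := Matrix.exists_mulVec_eq_zero_iff.2 h1
        exact absurd (h v hv') hv
      · exact h1
    · intro h v hv
      by_contra hne
      have h1 := Matrix.exists_mulVec_eq_zero_iff.1 ⟨v, hne, hv⟩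
      rw [h1] at h
      exact zero_ne_one h
  have hrow : ∀ (u : {x : W // x ≠ r} ≃ {e // e ∈ T}) (V : W → ZMod 2), V r = 0 →
      ∀ y a b, ends (u y) = s(a, b) →
        (Matrix.of fun y x => inc ends r (u y) x).mulVec (fun x : {x : W // x ≠ r} => V x) y =
          V a + V b := by
    intro u V hV y a b hab
    have hne : a ≠ b := by
      intro h
      apply hd (u y)
      rw [hab, h]
      exact Sym2.mk_isDiag_iff.2 rfl
    exact pmIff_row ends r V hV (u y) a b hne hab
  constructor
  · intro h
    have hc : T.card = Fintype.card {x : W // x ≠ r} :=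
      pm_card _ _ (by rw [h]; exact one_ne_zero)
    refine ⟨by omega, fun Y hY hx => ?_⟩
    obtain ⟨x0, hx0⟩ := hx
    by_contra hcon
    push Not at hcon
    have u : {x : W // x ≠ r} ≃ {e // e ∈ T} := Fintype.equivOfCardEq (by
      rw [Fintype.card_coe]
      exact hc.symm)
    have h1 := (key u).2 h
    set V : W → ZMod 2 := fun x => if x ∈ Y then 1 else 0 with hV
    have hVr : V r = 0 := by simp [hV, hY]
    have h2 := h1 (fun x => V x) (by
      funext y
      obtain ⟨a, b, hab⟩ : ∃ a b, ends (u y) = s(a, b) := by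
        induction' h3 : ends (u y) using Sym2.ind with a b
        exact ⟨a, b, rfl⟩
      rw [hrow u V hVr y a b hab]
      have h3 : a ∈ Y ↔ b ∈ Y := by
        constructor
        · intro ha
          by_contra hb
          exact hcon (u y) (u y).2 a ha b hb hab
        · intro hb
          by_contra ha
          exact hcon (u y) (u y).2 b hb a ha (by rw [hab, Sym2.eq_swap])
      show V a + V b = 0
      by_cases ha : a ∈ Y
      · have hb := h3.1 ha
        simp only [hV, if_pos ha, if_pos hb]
        decide
      · have hb : b ∉ Y := fun hb => ha (h3.2 hb)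
        simp only [hV, if_neg ha, if_neg hb]
        decide)
    have hx0r : x0 ≠ r := fun h => hY (h ▸ hx0)
    have h3 := congrFun h2 ⟨x0, hx0r⟩
    simp [hV, hx0] at h3
  · rintro ⟨hc, hcut⟩
    have u : {x : W // x ≠ r} ≃ {e // e ∈ T} := Fintype.equivOfCardEq (by
      rw [Fintype.card_coe]
      omega)
    rw [← key u]
    intro v hv
    by_contra hne
    set V : W → ZMod 2 := fun x => if h : x ≠ r then v ⟨x, h⟩ else 0 with hV
    have hVr : V r = 0 := by simp [hV]
    have hVv : (fun x : {x : W // x ≠ r} => V x) = v := by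
      funext x
      simp [hV, x.2]
    obtain ⟨x0, hx0⟩ := Function.ne_iff.1 hne
    obtain ⟨e, he, x, hx, y, hy, hxy⟩ := hcut {x | V x = 1} (by
        simp [hVr]) ⟨x0, by
        have h1 : V x0 = v x0 := congrFun hVv x0
        show V x0 = 1
        rw [h1]
        exact (pmIff_01 _).resolve_left hx0⟩
    have h1 := hrow u V hVr (u.symm ⟨e, he⟩) x y (by simpa using hxy)
    rw [hVv, hv] at h1
    have hx1 : V x = 1 := hx
    rw [hx1] at h1
    apply hy
    show V y = 1
    rcases pmIff_01 (V y) with h2 | h2
    · rw [h2] at h1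
      exact absurd h1 (by simp)
    · exact h2

end MP06b
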