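import Pool.Agent.Lib.MP_06b34c_co.Spl

namespace MP06b
open Finset

variable {E M : Type*} [Fintype E] [DecidableEq E] [Fintype M] [DecidableEq M]

private theorem ps_idem (t : ZMod 2) : t * t = t := by
  revert t
  decide

private theorem ps_compl (S : Finset E) (J : Finset (Fin 3)) :
    (S.disjSum J)ᶜ = Sᶜ.disjSum Jᶜ := by
  ext x
  rcases x with e | j
  · simp
  · simp

private theorem ps_sum (B : E → M → ZMod 2) (X : Fin 3 → M → ZMod 2) (a : E → ZMod 2)
    (b : Fin 3 → ZMod 2) : Psi (spl B X) (Sum.elim a b) =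
      ∑ J : Finset (Fin 3), (∑ S : Finset E, pm (spl B X) (S.disjSum J) * ∏ e ∈ Sᶜ, a e) *
        ∏ j ∈ Jᶜ, b j := by
  unfold Psi
  rw [← Finset.sumEquiv.symm.toEquiv.sum_comp, Fintype.sum_prod_type, Finset.sum_comm]
  refine Finset.sum_congr rfl fun J _ => ?_
  rw [Finset.sum_mul]
  refine Finset.sum_congr rfl fun S _ => ?_
  show pm (spl B X) (S.disjSum J) * ∏ e ∈ (S.disjSum J)ᶜ, Sum.elim a b e = _
  rw [ps_compl, Finset.prod_disjSum]
  simp only [Sum.elim_inl, Sum.elim_inr]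
  ring

/-- H6-6a. Proof: write the sum over subsets of E ⊕ Fin 3 as a sum over pairs (S, J) via
S.disjSum J; (S.disjSum J)ᶜ = Sᶜ.disjSum Jᶜ; insert `pm_spl_empty/one/two` for the eight J;
R is the J = univ part. (Q B a y y = ∑ al B y F * ∏, since al * al = al in ZMod 2.) -/
theorem psi_spl (B : E → M → ZMod 2) (X : Fin 3 → M → ZMod 2) (a : E → ZMod 2) :
    ∃ R : ZMod 2, ∀ b : Fin 3 → ZMod 2, Psi (spl B X) (Sum.elim a b) =
      Psi B a * (b 0 * b 1 + b 0 * b 2 + b 1 * b 2)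
      + (Q B a (X 1) (X 1) + Q B a (X 2) (X 2)) * b 0
      + (Q B a (X 0) (X 0) + Q B a (X 2) (X 2)) * b 1
      + (Q B a (X 0) (X 0) + Q B a (X 1) (X 1)) * b 2 + R := by
  refine ⟨∑ S : Finset E, pm (spl B X) (S.disjSum univ) * ∏ e ∈ Sᶜ, a e, fun b => ?_⟩
  rw [ps_sum]
  have h0 : ∑ S : Finset E, pm (spl B X) (S.disjSum ∅) * ∏ e ∈ Sᶜ, a e = 0 :=
    Finset.sum_eq_zero fun S _ => by rw [pm_spl_empty, zero_mul]
  have h1 : ∀ i, ∑ S : Finset E, pm (spl B X) (S.disjSum {i}) * ∏ e ∈ Sᶜ, a e = Psi B a := fun i =>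
    Finset.sum_congr rfl fun S _ => by rw [pm_spl_one]
  have h2 : ∀ j k, j ≠ k → ∑ S : Finset E, pm (spl B X) (S.disjSum {j, k}) * ∏ e ∈ Sᶜ, a e =
      Q B a (X j) (X j) + Q B a (X k) (X k) := by
    intro j k hjk
    unfold Q
    rw [← Finset.sum_add_distrib]
    refine Finset.sum_congr rfl fun S _ => ?_
    rw [pm_spl_two _ _ _ _ _ hjk, ps_idem, ps_idem]
    ring
  have hU : (univ : Finset (Finset (Fin 3))) =
      {∅, {0}, {1}, {2}, {1, 2}, {0, 2}, {0, 1}, univ} := by decide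
  rw [hU, Finset.sum_insert (by decide), Finset.sum_insert (by decide),
    Finset.sum_insert (by decide), Finset.sum_insert (by decide), Finset.sum_insert (by decide),
    Finset.sum_insert (by decide), Finset.sum_insert (by decide), Finset.sum_singleton,
    h0, h1, h1, h1, h2 1 2 (by decide), h2 0 2 (by decide), h2 0 1 (by decide)]
  have c0 : ({0} : Finset (Fin 3))ᶜ = {1, 2} := by decide
  have c1 : ({1} : Finset (Fin 3))ᶜ = {0, 2} := by decide
  have c2 : ({2} : Finset (Fin 3))ᶜ = {0, 1} := by decide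
  have c12 : ({1, 2} : Finset (Fin 3))ᶜ = {0} := by decide
  have c02 : ({0, 2} : Finset (Fin 3))ᶜ = {1} := by decide
  have c01 : ({0, 1} : Finset (Fin 3))ᶜ = {2} := by decide
  rw [c0, c1, c2, c12, c02, c01, Finset.compl_univ, Finset.prod_empty,
    Finset.prod_pair (by decide), Finset.prod_pair (by decide), Finset.prod_pair (by decide),
    Finset.prod_singleton, Finset.prod_singleton, Finset.prod_singleton]
  ring

private theorem ps_count (f q0 q1 q2 R : ZMod 2) :
    (univ.filter fun b : Fin 3 → ZMod 2 => f * (b 0 * b 1 + b 0 * b 2 + b 1 * b 2)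
      + (q1 + q2) * b 0 + (q0 + q2) * b 1 + (q0 + q1) * b 2 + R = 0).card % 8 =
      if f = 0 ∧ q0 = q1 ∧ q1 = q2 then 0 else 4 := by
  revert f q0 q1 q2 R
  decide +kernel

/-- H6-6b. Proof: split a function on E ⊕ Fin 3 as (a, b) (`Equiv.sumArrowEquivProdArrow`). For fixed a the
number of b with value 0 of the polynomial in `psi_spl` is (finite check over f, q0, q1, q2, R in ZMod 2)
4 if f = 1 or not (q0 = q1 = q2), else 8 or 0. So the total is ≡ 4 (2^|E| - P0) ≡ 4 P0 mod 8. -/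
theorem zeros_spl (B : E → M → ZMod 2) (X : Fin 3 → M → ZMod 2) (hE : 0 < Fintype.card E) :
    (univ.filter fun a : E ⊕ Fin 3 → ZMod 2 => Psi (spl B X) a = 0).card ≡
      4 * (univ.filter fun a : E → ZMod 2 => Psi B a = 0 ∧
        Q B a (X 0) (X 0) = Q B a (X 1) (X 1) ∧ Q B a (X 1) (X 1) = Q B a (X 2) (X 2)).card
      [MOD 8] := by
  set W : (E → ZMod 2) → Prop := fun a => Psi B a = 0 ∧
        Q B a (X 0) (X 0) = Q B a (X 1) (X 1) ∧ Q B a (X 1) (X 1) = Q B a (X 2) (X 2) with hW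
  have h1 : (univ.filter fun a : E ⊕ Fin 3 → ZMod 2 => Psi (spl B X) a = 0).card =
      ∑ a : E → ZMod 2, (univ.filter fun b : Fin 3 → ZMod 2 =>
        Psi (spl B X) (Sum.elim a b) = 0).card := by
    rw [Finset.card_filter, ← (Equiv.sumArrowEquivProdArrow E (Fin 3) (ZMod 2)).symm.sum_comp,
      Fintype.sum_prod_type]
    refine Finset.sum_congr rfl fun a _ => ?_
    rw [Finset.card_filter]
    rfl
  have h2 : ∀ a : E → ZMod 2, (univ.filter fun b : Fin 3 → ZMod 2 =>
        Psi (spl B X) (Sum.elim a b) = 0).card ≡ (if W a then 0 else 4) [MOD 8] := by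
    intro a
    obtain ⟨R, hR⟩ := psi_spl B X a
    simp_rw [hR]
    have h3 := ps_count (Psi B a) (Q B a (X 0) (X 0)) (Q B a (X 1) (X 1)) (Q B a (X 2) (X 2)) R
    unfold Nat.ModEq
    rw [h3]
    split_ifs <;> rfl
  have h4 : ∑ a : E → ZMod 2, (univ.filter fun b : Fin 3 → ZMod 2 =>
        Psi (spl B X) (Sum.elim a b) = 0).card ≡ ∑ a : E → ZMod 2, (if W a then 0 else 4) [MOD 8] :=
    Nat.ModEq.sum fun a _ => h2 a
  have h5 : ∑ a : E → ZMod 2, (if W a then 0 else 4) = 4 * (univ.filter fun a => ¬ W a).card := by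
    rw [Finset.card_filter, Finset.mul_sum]
    refine Finset.sum_congr rfl fun a _ => ?_
    by_cases h : W a
    · rw [if_pos h, if_neg (not_not.2 h), mul_zero]
    · rw [if_neg h, if_pos h, mul_one]
  have h6 : (univ.filter fun a => W a).card + (univ.filter fun a => ¬ W a).card =
      2 * 2 ^ (Fintype.card E - 1) := by
    rw [Finset.card_filter_add_card_filter_not, Finset.card_univ, Fintype.card_fun, ZMod.card,
      ← pow_succ']
    congr 1
    omega
  rw [h1]
  refine h4.trans ?_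
  rw [h5]
  change _ ≡ 4 * (univ.filter fun a => W a).card [MOD 8]
  unfold Nat.ModEq
  omega

end MP06b
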