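import Pool.Agent.Lib.MP_06b34c_co.Perm

namespace MP06b
open Finset

variable {E M : Type*} [Fintype E] [DecidableEq E] [Fintype M] [DecidableEq M]

/-- H6-5a: by `laplace` all terms have factor spl B X (inl e) none = 0. -/
theorem pm_spl_empty (B : E → M → ZMod 2) (X : Fin 3 → M → ZMod 2) (S : Finset E) :
    pm (spl B X) (S.disjSum ∅) = 0 := by
  rw [laplace]
  refine Finset.sum_eq_zero fun e he => ?_
  rw [mem_disjSum] at he
  rcases he with ⟨a, -, rfl⟩ | ⟨b, hb, rfl⟩
  · simp [spl]
  · simp at hb

/-- H6-5b: `laplace`, then `pm_map` with ι = inl. -/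
theorem pm_spl_one (B : E → M → ZMod 2) (X : Fin 3 → M → ZMod 2) (S : Finset E) (i : Fin 3) :
    pm (spl B X) (S.disjSum {i}) = pm B S := by
  rw [laplace, Finset.sum_eq_single (Sum.inr i)]
  · have h1 : (S.disjSum {i}).erase (Sum.inr i) = S.map ⟨Sum.inl, Sum.inl_injective⟩ := by
      ext e
      cases e with
      | inl a => simp
      | inr b => simp
    rw [h1, pm_map]
    simp only [spl, one_mul, Function.Embedding.coeFn_mk]
  · intro e he hne
    rw [mem_disjSum] at he
    rcases he with ⟨a, -, rfl⟩ | ⟨b, hb, rfl⟩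
    · simp [spl]
    · rw [mem_singleton] at hb
      exact absurd (by rw [hb]) hne
  · intro h
    exact absurd (by simp) h

theorem spl_aux (B : E → M → ZMod 2) (X : Fin 3 → M → ZMod 2) (F : Finset E) (k : Fin 3) :
    pm (fun e x => spl B X e (some x)) (F.disjSum {k}) = al B (X k) F := by
  set ι : Option E ↪ E ⊕ Fin 3 := ⟨fun o => Option.elim o (Sum.inr k) Sum.inl, by
    intro o o' h
    cases o <;> cases o' <;> simp_all⟩ with hι
  have h1 : F.disjSum {k} = (insertNone F).map ι := by
    ext e
    simp only [mem_map, mem_disjSum]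
    constructor
    · rintro (⟨a, ha, rfl⟩ | ⟨b, hb, rfl⟩)
      · exact ⟨some a, by simpa using ha, rfl⟩
      · rw [mem_singleton] at hb
        exact ⟨none, by simp, by rw [hb]; rfl⟩
    · rintro ⟨o, ho, rfl⟩
      cases o with
      | none => exact Or.inr ⟨k, by simp, rfl⟩
      | some a => exact Or.inl ⟨a, by simpa using ho, rfl⟩
  rw [h1, pm_map]
  unfold al
  congr 1
  funext o x
  cases o <;> rfl

/-- H6-5c: `laplace`, then `pm_map` with ι : Option E ↪ E ⊕ Fin 3, none ↦ inr j, some e ↦ inl e. -/
theorem pm_spl_two (B : E → M → ZMod 2) (X : Fin 3 → M → ZMod 2) (F : Finset E) (j k : Fin 3)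
    (h : j ≠ k) : pm (spl B X) (F.disjSum {j, k}) = al B (X j) F + al B (X k) F := by
  rw [laplace]
  have h1 : (F.disjSum {j, k}).erase (Sum.inr j) = F.disjSum {k} := by
    ext e
    cases e with
    | inl a => simp
    | inr b =>
      simp only [mem_erase, ne_eq, Sum.inr.injEq, inr_mem_disjSum, mem_insert, mem_singleton]
      constructor
      · rintro ⟨h1, h2⟩
        exact h2.resolve_left h1
      · intro h1
        exact ⟨fun h2 => h (h2.symm.trans h1), Or.inr h1⟩
  have h2 : (F.disjSum {j, k}).erase (Sum.inr k) = F.disjSum {j} := by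
    ext e
    cases e with
    | inl a => simp
    | inr b =>
      simp only [mem_erase, ne_eq, Sum.inr.injEq, inr_mem_disjSum, mem_insert, mem_singleton]
      constructor
      · rintro ⟨h1, h2⟩
        exact h2.resolve_right h1
      · intro h1
        exact ⟨fun h2 => h (h1.symm.trans h2), Or.inl h1⟩
  have h3 : ∑ e ∈ F.disjSum {j, k}, spl B X e none *
      pm (fun e x => spl B X e (some x)) ((F.disjSum {j, k}).erase e) =
      ∑ e ∈ ({Sum.inr j, Sum.inr k} : Finset (E ⊕ Fin 3)), spl B X e none *
        pm (fun e x => spl B X e (some x)) ((F.disjSum {j, k}).erase e) := by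
    symm
    refine Finset.sum_subset ?_ ?_
    · intro e he
      simp only [mem_insert, mem_singleton] at he
      rcases he with rfl | rfl <;> simp
    · intro e he hne
      rw [mem_disjSum] at he
      rcases he with ⟨a, -, rfl⟩ | ⟨b, hb, rfl⟩
      · simp [spl]
      · exfalso
        apply hne
        simp only [mem_insert, mem_singleton] at hb ⊢
        rcases hb with rfl | rfl
        · exact Or.inl rfl
        · exact Or.inr rfl
  have hjk : (Sum.inr j : E ⊕ Fin 3) ≠ Sum.inr k := fun h' => h (Sum.inr_injective h')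
  rw [h3, Finset.sum_pair hjk, h1, h2, spl_aux, spl_aux]
  simp only [spl, one_mul]
  rw [add_comm]

end MP06b
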