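import Pool.Agent.Lib.MP_06b34c_co.Main

namespace MP06b
open Finset

variable {V : Type*} [Fintype V] [DecidableEq V]

omit [Fintype V] [DecidableEq V] in
theorem closed_reach (G : SimpleGraph V) (S : Set V) (hS : ∀ x ∈ S, ∀ y, G.Adj x y → y ∈ S)
    {x y : V} (h : G.Reachable x y) (hx : x ∈ S) : y ∈ S := by
  obtain ⟨p⟩ := h
  induction p with
  | nil => exact hx
  | cons hadj _ ih => exact ih (hS _ hx _ hadj)

omit [DecidableEq V] in
theorem acyclic_card [Nonempty V] (G : SimpleGraph V) (h : G.IsAcyclic) :
    Nat.card G.edgeSet + 1 ≤ Fintype.card V := by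
  classical
  obtain ⟨T, hGT, _, hT⟩ := (SimpleGraph.connected_top (V := V)).exists_isTree_le_of_le_of_isAcyclic
    (le_top : G ≤ ⊤) h
  have h1 := hT.card_edgeFinset
  rw [← h1, Nat.card_eq_fintype_card, ← SimpleGraph.edgeFinset_card]
  apply Nat.add_le_add_right
  exact Finset.card_le_card (SimpleGraph.edgeFinset_mono hGT)

theorem del_card (D : SimpleGraph V) (v : V) :
    Nat.card (del D v).edgeSet = Nat.card D.edgeSet - (D.neighborSet v).ncard := by
  classical
  have h1 := D.card_edgeFinset_induce_compl_singleton v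
  rw [D.card_edgeFinset_deleteIncidenceSet v] at h1
  have h2 : Nat.card (D.induce ({v}ᶜ : Set V)).edgeSet =
      (D.induce ({v}ᶜ : Set V)).edgeFinset.card := by
    rw [Nat.card_eq_fintype_card, ← SimpleGraph.edgeFinset_card]
  have h3 : Nat.card D.edgeSet = D.edgeFinset.card := by
    rw [Nat.card_eq_fintype_card, ← SimpleGraph.edgeFinset_card]
  have h4 : (D.neighborSet v).ncard = D.degree v := by
    rw [← SimpleGraph.card_neighborSet_eq_degree, Set.ncard_eq_toFinset_card',
      Set.toFinset_card]
  rw [h3, h4, ← h1, ← h2]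
  rfl

/-- the key point -/
theorem conn_symm (D : SimpleGraph V) (v r : V) (hvr : v ≠ r)
    (h2 : ∀ x, x ≠ v → x ≠ r → (D.neighborSet x).ncard = 2)
    (hT : (del D v).IsTree) : (del D r).Connected := by
  classical
  rw [SimpleGraph.connected_iff_exists_forall_reachable]
  refine ⟨⟨v, hvr⟩, ?_⟩
  by_contra hcon
  push Not at hcon
  obtain ⟨⟨y0, hy0r⟩, hy0⟩ := hcon
  set Y : Set V := {x | ∃ h : x ≠ r, ¬ (del D r).Reachable ⟨v, hvr⟩ ⟨x, h⟩} with hY
  have hy0Y : y0 ∈ Y := ⟨hy0r, hy0⟩
  have hvY : v ∉ Y := by
    rintro ⟨h, h'⟩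
    exact h' (SimpleGraph.Reachable.refl _)
  have hrY : r ∉ Y := by
    rintro ⟨h, _⟩
    exact h rfl
  have hclosed : ∀ x ∈ Y, ∀ y, D.Adj x y → y = r ∨ y ∈ Y := by
    rintro x ⟨hxr, hx⟩ y hxy
    by_cases hyr : y = r
    · exact Or.inl hyr
    · right
      refine ⟨hyr, ?_⟩
      intro h
      apply hx
      refine h.trans ?_
      apply SimpleGraph.Adj.reachable
      exact hxy.symm
  have hYv : ∀ x, x ∈ Y ∨ x = r → x ≠ v := by
    rintro x (hx | hx) h
    · exact hvY (h ▸ hx)
    · exact hvr (h.symm.trans hx)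
  -- the induced graph
  set S : Set V := {x | x ∈ Y ∨ x = r} with hS
  set H : SimpleGraph S := D.induce S with hH
  have hHac : H.IsAcyclic := by
    let f : H →g del D v :=
      { toFun := fun x => ⟨x.1, hYv x.1 x.2⟩
        map_rel' := by
          intro a b hab
          exact hab }
    apply SimpleGraph.IsAcyclic.comap f _ hT.isAcyclic
    intro a b hab
    have : (a : V) = b := congrArg (fun z : {x : V // x ≠ v} => (z : V)) hab
    exact Subtype.ext this
  let r' : S := ⟨r, Or.inr rfl⟩
  have : Nonempty S := ⟨r'⟩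
  have hcard := acyclic_card H hHac
  have hsum := H.sum_degrees_eq_twice_card_edges
  have hedge : Nat.card H.edgeSet = H.edgeFinset.card := by
    rw [Nat.card_eq_fintype_card, ← SimpleGraph.edgeFinset_card]
  have hdeg : ∀ x : S, x ≠ r' → 2 ≤ H.degree x := by
    rintro ⟨x, hx⟩ hxr
    have hxY : x ∈ Y := by
      rcases hx with h | h
      · exact h
      · exact absurd (Subtype.ext h) hxr
    have h3 := h2 x (hYv x hx) (fun h => hrY (h ▸ hxY))
    rw [← h3, ← SimpleGraph.card_neighborSet_eq_degree, ← Nat.card_eq_fintype_card,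
      Nat.card_coe_set_eq]
    have h4 : D.neighborSet x ⊆ (fun z : S => (z : V)) '' (H.neighborSet ⟨x, hx⟩) := by
      intro y hy
      have hyS : y ∈ S := by
        rcases hclosed x hxY y hy with h | h
        · exact Or.inr h
        · exact Or.inl h
      exact ⟨⟨y, hyS⟩, hy, rfl⟩
    calc (D.neighborSet x).ncard ≤ ((fun z : S => (z : V)) '' (H.neighborSet ⟨x, hx⟩)).ncard :=
          Set.ncard_le_ncard h4 (Set.toFinite _)
      _ ≤ (H.neighborSet ⟨x, hx⟩).ncard := Set.ncard_image_le (Set.toFinite _)
  have hr0 : H.degree r' = 0 := by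
    have h3 : ∑ x : S, H.degree x = H.degree r' + ∑ x ∈ univ.erase r', H.degree x := by
      rw [← Finset.add_sum_erase _ _ (Finset.mem_univ r')]
    have h4 : (univ.erase r').card * 2 ≤ ∑ x ∈ univ.erase r', H.degree x := by
      rw [← smul_eq_mul]
      apply Finset.card_nsmul_le_sum
      intro x hx
      exact hdeg x (Finset.ne_of_mem_erase hx)
    rw [Finset.card_erase_of_mem (Finset.mem_univ r'), Finset.card_univ] at h4
    have h5 : 0 < Fintype.card S := Fintype.card_pos
    omega
  have hnoadj : ∀ x ∈ Y, ¬ D.Adj x r := by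
    intro x hx hadj
    have h3 : H.Adj r' ⟨x, Or.inl hx⟩ := hadj.symm
    have h4 : 0 < H.degree r' := by
      rw [SimpleGraph.degree_pos_iff_exists_adj]
      exact ⟨_, h3⟩
    omega
  -- contradiction with connectedness of D - v
  have hreach := hT.connected.preconnected ⟨y0, hYv y0 (Or.inl hy0Y)⟩ ⟨r, hvr.symm⟩
  have := closed_reach (del D v) {z | (z : V) ∈ Y} (by
    rintro ⟨x, hxv⟩ hx ⟨y, hyv⟩ hxy
    have hxy' : D.Adj x y := hxy
    rcases hclosed x hx y hxy' with h | h
    · exact absurd (h ▸ hxy') (hnoadj x hx)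
    · exact h) hreach hy0Y
  exact hrY this

/-- H6-19. Proof: put D = G \ C; in D the vertices v, r have degree 4, all others degree 2. Only the last condition has to be shown:
D - r is a tree if D - v is. D - v is a tree with n - 1 vertices; direct it towards the root r: every vertex x ≠ v, r has a parent
p x ≠ v (D-neighbour), every edge of D - v is {x, p x} for exactly one x ≠ v, r. Let q x be the other D-neighbour of x (x ≠ v, r).
q x ≠ r: if q x = r then the edge {x, r} must be {x, p x}, so p x = r = q x. Every edge of D - r not containing v, {x, y} with x, y ≠ v, r, is {x, p x} or {y, p y} and not both,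
hence exactly one of {x, q x}, {y, q y}. If Y is a nonempty set of vertices ≠ v, r closed under adjacency in D - r, then
Y is mapped into itself by q, and the number of edges of D inside Y is |Y| (the edges {x, q x}, x ∈ Y, which are pairwise distinct), so the number of edges from Y to
r is 2|Y| - 2|Y| = 0, so in D - v no edge leaves Y: contradiction to connectedness of D - v. Hence D - r is connected, and it has n - 1 vertices and n - 2 edges,
so it is a tree. (Other proofs welcome.) -/
theorem good_symm (G : SimpleGraph V) (hG : ∀ x, (G.neighborSet x).ncard = 4) (v r : V)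
    (hvr : v ≠ r) (C : SimpleGraph V) (hC : IsGoodCycle G v r C) : IsGoodCycle G r v C := by
  classical
  obtain ⟨hCG, hCv, hCr, hC2, hCc, hCT⟩ := hC
  refine ⟨hCG, hCr, hCv, fun x h1 h2 => hC2 x h2 h1, ?_, ?_⟩
  · have : {x : V | x ≠ r ∧ x ≠ v} = {x | x ≠ v ∧ x ≠ r} := by
      ext x
      exact and_comm
    rw [this]
    exact hCc
  · have hD4 : ∀ u, (∀ x, ¬ C.Adj u x) → ((G \ C).neighborSet u).ncard = 4 := by
      intro u hu
      rw [← hG u]
      congr 1
      ext x
      simp only [SimpleGraph.mem_neighborSet, SimpleGraph.sdiff_adj]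
      exact and_iff_left (hu x)
    have hD2 : ∀ x, x ≠ v → x ≠ r → ((G \ C).neighborSet x).ncard = 2 := by
      intro x hxv hxr
      have h1 : (G \ C).neighborSet x = G.neighborSet x \ C.neighborSet x := by
        ext y
        simp only [SimpleGraph.mem_neighborSet, SimpleGraph.sdiff_adj, Set.mem_sdiff]
      have h2 : C.neighborSet x ⊆ G.neighborSet x := by
        intro y hy
        exact hCG hy
      rw [h1, Set.ncard_sdiff h2 (Set.toFinite _), hG x, hC2 x hxv hxr]
    have hconn := conn_symm (G \ C) v r hvr hD2 hCT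
    rw [SimpleGraph.isTree_iff_connected_and_card] at hCT ⊢
    refine ⟨hconn, ?_⟩
    have h1 := hCT.2
    rw [del_card, hD4 v hCv] at h1
    rw [del_card, hD4 r hCr, h1]
    rw [Nat.card_eq_fintype_card, Nat.card_eq_fintype_card]
    simp only [ne_eq, Fintype.card_subtype_compl, Fintype.card_unique]

/-- H6-19b: immediate from good_symm and main_c2 -/
theorem c2_indep (G : SimpleGraph V) (hG : ∀ x, (G.neighborSet x).ncard = 4) (v r : V) :
    c2 2 (del G v) = c2 2 (del G r) := by
  by_cases hvr : v = r
  · rw [hvr]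
  · rw [(main_c2 G hG v r hvr).2, (main_c2 G hG r v (Ne.symm hvr)).2]
    unfold goodCycles
    have h2 : Nat.card {C : SimpleGraph V // IsGoodCycle G v r C} =
        Nat.card {C : SimpleGraph V // IsGoodCycle G r v C} := by
      apply Nat.card_congr
      apply Equiv.subtypeEquivRight
      intro C
      exact ⟨good_symm G hG v r hvr C, good_symm G hG r v (Ne.symm hvr) C⟩
    rw [h2]

end MP06b
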