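import Pool.Agent.Lib.MP_06b34c_co.PartI
import Pool.Agent.Lib.MP_06b34c_co.PartII
import Pool.Agent.Lib.MP_06b34c_co.PmIff
import Pool.Agent.Lib.MP_06b34c_co.GDefs

namespace MP06b
open Finset

variable {V : Type*} [Fintype V] [DecidableEq V]

omit [Fintype V] [DecidableEq V] in
private theorem connected_iff_cut (G : SimpleGraph V) (r : V) :
    G.Connected ↔ ∀ Y : Set V, r ∉ Y → (∃ x, x ∈ Y) → ∃ x ∈ Y, ∃ y ∉ Y, G.Adj x y := by
  constructor
  · rintro h Y hr ⟨x, hx⟩
    obtain ⟨p⟩ := h.preconnected x r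
    obtain ⟨d, -, h1, h2⟩ := p.exists_boundary_dart Y hx hr
    exact ⟨d.fst, h1, d.snd, h2, d.adj⟩
  · intro h
    have key : ∀ x, G.Reachable r x := by
      by_contra hcon
      push Not at hcon
      obtain ⟨x₀, hx₀⟩ := hcon
      obtain ⟨x, hx, y, hy, hxy⟩ := h {x | ¬ G.Reachable r x} (by simp) ⟨x₀, hx₀⟩
      simp only [Set.mem_ofPred_eq, not_not] at hx hy
      exact hx (hy.trans hxy.symm.reachable)
    have : Nonempty V := ⟨r⟩
    exact ⟨fun x y => (key x).symm.trans (key y)⟩

open scoped Classical in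
/-- H6-17a. Proof: `pm_iff` and `SimpleGraph.isTree_iff_connected_and_card`; connectedness of fromEdgeSet T' is equivalent
to the cut condition (take Y = the set of vertices not reachable from r). -/
theorem isTree_iff_pm (H : SimpleGraph V) (r : V) (T : Finset H.edgeSet) :
    (SimpleGraph.fromEdgeSet ((fun e : H.edgeSet => (e : Sym2 V)) '' (T : Set H.edgeSet))).IsTree ↔
      pm (inc (fun e : H.edgeSet => (e : Sym2 V)) r) T = 1 := by
  have hd : ∀ e : H.edgeSet, ¬ (e : Sym2 V).IsDiag := fun e => H.not_isDiag_of_mem_edgeSet e.2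
  rw [pm_iff _ hd, SimpleGraph.isTree_iff_connected_and_card, and_comm]
  have hedge : (SimpleGraph.fromEdgeSet
      ((fun e : H.edgeSet => (e : Sym2 V)) '' (T : Set H.edgeSet))).edgeSet =
      (fun e : H.edgeSet => (e : Sym2 V)) '' (T : Set H.edgeSet) := by
    rw [SimpleGraph.edgeSet_fromEdgeSet]
    ext e
    simp only [Set.mem_sdiff, and_iff_left_iff_imp]
    rintro ⟨e', -, rfl⟩
    exact hd e'
  have hc1 : Nat.card (SimpleGraph.fromEdgeSet
      ((fun e : H.edgeSet => (e : Sym2 V)) '' (T : Set H.edgeSet))).edgeSet = T.card := by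
    rw [hedge]
    rw [Nat.card_image_of_injective Subtype.val_injective]
    simp
  rw [hc1, Nat.card_eq_fintype_card, connected_iff_cut _ r]
  refine and_congr Iff.rfl ?_
  refine forall_congr' fun Y => imp_congr Iff.rfl (imp_congr Iff.rfl ?_)
  constructor
  · rintro ⟨x, hx, y, hy, hxy⟩
    rw [SimpleGraph.fromEdgeSet_adj] at hxy
    obtain ⟨⟨e, he, hexy⟩, hne⟩ := hxy
    exact ⟨e, he, x, hx, y, hy, hexy⟩
  · rintro ⟨e, he, x, hx, y, hy, hexy⟩
    refine ⟨x, hx, y, hy, ?_⟩
    rw [SimpleGraph.fromEdgeSet_adj]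
    refine ⟨⟨e, he, hexy⟩, ?_⟩
    rintro rfl
    exact hy hx

open scoped Classical in
/-- H6-17b: immediate from `isTree_iff_pm`. -/
theorem zeros_eq (H : SimpleGraph V) (r : V) :
    zeros 2 H = (univ.filter fun a : H.edgeSet → ZMod 2 =>
      Psi (inc (fun e : H.edgeSet => (e : Sym2 V)) r) a = 0).card := by
  have h01 : ∀ t : ZMod 2, t = 0 ∨ t = 1 := by decide
  have key : ∀ a : H.edgeSet → ZMod 2, kirchhoff H a =
      Psi (inc (fun e : H.edgeSet => (e : Sym2 V)) r) a := by
    intro a
    unfold kirchhoff Psi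
    refine sum_congr rfl fun T _ => ?_
    split_ifs with h
    · rw [(isTree_iff_pm H r T).1 h, one_mul]
      refine Finset.prod_congr ?_ fun _ _ => rfl
      ext e
      simp only [Finset.mem_compl]
    · rw [isTree_iff_pm H r T] at h
      rw [(h01 _).resolve_right h, zero_mul]
  unfold zeros
  rw [Nat.card_eq_fintype_card, Fintype.card_subtype]
  simp_rw [key]

open scoped Classical in
/-- H6-17c. Proof: by `zeros_eq` and `partI` with a root r' ≠ w, and `isTree_iff_pm` (so
that the right-hand side of partI does not depend on the root), then `partII` with root r. -/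
theorem zeros_modEq (H : SimpleGraph V) (r w : V) (hcard : H.edgeFinset.card + 2 = 2 * Fintype.card V)
    (hV : 4 ≤ Fintype.card V) (hw : (H.neighborSet w).ncard = 3) :
    zeros 2 H ≡ 4 * (univ.filter fun C : Finset H.edgeSet =>
      IsHam (fun e : H.edgeSet => (e : Sym2 V)) r C ∧
      pm (inc (fun e : H.edgeSet => (e : Sym2 V)) r) Cᶜ = 1).card [MOD 8] := by
  have hd : ∀ e : H.edgeSet, ¬ (e : Sym2 V).IsDiag := fun e => H.not_isDiag_of_mem_edgeSet e.2
  have : Nontrivial V := Fintype.one_lt_card_iff_nontrivial.1 (by omega)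
  obtain ⟨r', hr'⟩ := exists_ne w
  have hcV : Fintype.card {x : V // x ≠ r'} + 1 = Fintype.card V := by
    have := Fintype.card_subtype_compl (fun x : V => x = r')
    simp only [Fintype.card_subtype_eq] at this
    have h2 : Fintype.card {x : V // x ≠ r'} = Fintype.card V - 1 := this
    omega
  have hcE : Fintype.card H.edgeSet = H.edgeFinset.card := by
    rw [SimpleGraph.edgeFinset, Set.toFinset_card]
  have h1 := partI (inc (fun e : H.edgeSet => (e : Sym2 V)) r') (by omega) (by omega) ⟨w, hr'.symm⟩ ?_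
  · rw [zeros_eq H r']
    refine h1.trans ?_
    refine Nat.ModEq.trans ?_ (partII (fun e : H.edgeSet => (e : Sym2 V)) hd r hV)
    simp_rw [← isTree_iff_pm H]
    exact Nat.ModEq.refl _
  · rw [← hw, Set.ncard_eq_toFinset_card']
    refine card_bij' (fun e he => Sym2.Mem.other' (a := w) (z := (e : Sym2 V)) (by
      simpa [inc] using he)) (fun y hy => ⟨s(w, y), by simpa using hy⟩) ?_ ?_ ?_ ?_
    · intro e he
      have hwe : w ∈ (e : Sym2 V) := by simpa [inc] using he
      simp only [Set.mem_toFinset, SimpleGraph.mem_neighborSet]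
      have := Sym2.other_spec' hwe
      rw [← SimpleGraph.mem_edgeSet, this]
      exact e.2
    · intro y hy
      simp [inc]
    · intro e he
      have hwe : w ∈ (e : Sym2 V) := by simpa [inc] using he
      exact Subtype.ext (Sym2.other_spec' hwe)
    · intro y hy
      have : w ∈ s(w, y) := by simp
      have h := Sym2.other_spec' this
      exact Sym2.congr_right.1 h

end MP06b
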